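import Pool.Agent.Helper64.Cal.Vl

/-!
# Hilbert space lemmas: weak operator limits, compact operators (first part)
-/

set_option autoImplicit false

open scoped ENNReal
open Filter Topology

namespace Pool.Agent.Helper64.Cal

lemma hc1_tr_apply (r : ℕ) (v : V) : tr r v = ∑ i ∈ Finset.range (r + 1), v i • bv i := by
  unfold tr
  rw [sum_apply]
  exact Finset.sum_congr rfl fun i _ => mu_apply i i v

lemma hc1_tr_tendsto (v : V) : Tendsto (fun r => tr r v) atTop (𝓝 v) := by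
  have h1 : HasSum (fun i : ℕ => lp.single 2 i (v i : ℂ)) v := lp.hasSum_single (by norm_num) v
  have h2 := (h1.tendsto_sum_nat).comp (tendsto_add_atTop_nat 1)
  refine h2.congr fun r => ?_
  rw [hc1_tr_apply, Function.comp_apply]
  refine Finset.sum_congr rfl fun i _ => ?_
  unfold bv
  rw [← lp.single_smul, smul_eq_mul, mul_one]

lemma hc1_inner_bv (j : ℕ) (v : V) : inner ℂ (bv j) v = v j := by
  unfold bv
  rw [lp.inner_single_left]
  simp

lemma hc1_inner_bv' (j : ℕ) (v : V) : inner ℂ v (bv j) = starRingEnd ℂ (v j) := by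
  rw [← inner_conj_symm, hc1_inner_bv]

lemma hc1_tr_symm (N : ℕ) (w v : V) : inner ℂ w (tr N v) = inner ℂ (tr N w) v := by
  rw [hc1_tr_apply, hc1_tr_apply, inner_sum, sum_inner]
  refine Finset.sum_congr rfl fun i _ => ?_
  rw [inner_smul_right, inner_smul_left, hc1_inner_bv, hc1_inner_bv', mul_comm]

lemma hc1_tr_le (N : ℕ) (v : V) : ‖tr N v‖ ≤ ‖v‖ := by
  have h := (tr N).le_of_opNorm_le (norm_tr_le N) v
  rwa [one_mul] at h

/-- weak operator ultrafilter limits of bounded sequences -/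
theorem exists_wot (G : ℕ → V →L[ℂ] V) (M : ℝ) (hG : ∀ k, ‖G k‖ ≤ M) :
    ∃ A : V →L[ℂ] V, ‖A‖ ≤ M ∧ ∀ u v : V,
      Tendsto (fun k => inner ℂ v (G k u)) (hyperfilter ℕ) (𝓝 (inner ℂ v (A u))) := by
  have hM : 0 ≤ M := (norm_nonneg _).trans (hG 0)
  have hb : ∀ (u v : V) (k : ℕ), ‖(inner ℂ (G k u) v : ℂ)‖ ≤ M * ‖u‖ * ‖v‖ := by
    intro u v k
    refine (norm_inner_le_norm _ _).trans ?_
    exact mul_le_mul_of_nonneg_right ((G k).le_of_opNorm_le (hG k) u) (norm_nonneg _)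
  have hlim : ∀ u v : V, ∃ c : ℂ,
      Tendsto (fun k => (inner ℂ (G k u) v : ℂ)) (hyperfilter ℕ) (𝓝 c) := by
    intro u v
    have hc : IsCompact (Metric.closedBall (0 : ℂ) (M * ‖u‖ * ‖v‖)) :=
      isCompact_closedBall _ _
    have h1 : ((hyperfilter ℕ).map (fun k => (inner ℂ (G k u) v : ℂ)) : Filter ℂ) ≤
        𝓟 (Metric.closedBall (0 : ℂ) (M * ‖u‖ * ‖v‖)) := by
      rw [le_principal_iff, Ultrafilter.coe_map, mem_map]
      refine Filter.univ_mem' fun k => ?_
      rw [Set.mem_preimage, mem_closedBall_zero_iff]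
      exact hb u v k
    obtain ⟨c, -, hc'⟩ := hc.ultrafilter_le_nhds _ h1
    exact ⟨c, hc'⟩
  choose L hL using hlim
  have hLb : ∀ u v : V, ‖L u v‖ ≤ M * ‖u‖ * ‖v‖ := fun u v =>
    le_of_tendsto (hL u v).norm (Eventually.of_forall fun k => hb u v k)
  have H1 : ∀ u u' v : V, L (u + u') v = L u v + L u' v := by
    intro u u' v
    refine tendsto_nhds_unique (hL (u + u') v) ?_
    refine ((hL u v).add (hL u' v)).congr fun k => ?_
    rw [map_add, inner_add_left]
  have H2 : ∀ (c : ℂ) (u v : V), L (c • u) v = (starRingEnd ℂ) c • L u v := by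
    intro c u v
    refine tendsto_nhds_unique (hL (c • u) v) ?_
    refine ((hL u v).const_smul ((starRingEnd ℂ) c)).congr fun k => ?_
    rw [map_smul, inner_smul_left, smul_eq_mul]
  have H3 : ∀ u v v' : V, L u (v + v') = L u v + L u v' := by
    intro u v v'
    refine tendsto_nhds_unique (hL u (v + v')) ?_
    refine ((hL u v).add (hL u v')).congr fun k => ?_
    rw [inner_add_right]
  have H4 : ∀ (c : ℂ) (u v : V), L u (c • v) = c • L u v := by
    intro c u v
    refine tendsto_nhds_unique (hL u (c • v)) ?_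
    refine ((hL u v).const_smul c).congr fun k => ?_
    rw [inner_smul_right, smul_eq_mul]
  let f : V →ₛₗ[starRingEnd ℂ] V →ₗ[ℂ] ℂ :=
    LinearMap.mk₂'ₛₗ (starRingEnd ℂ) (RingHom.id ℂ) L H1 H2 H3 H4
  let B : V →L⋆[ℂ] V →L[ℂ] ℂ := f.mkContinuous₂ M hLb
  have hB : ∀ u v : V, B u v = L u v := fun u v => rfl
  let A : V →L[ℂ] V := InnerProductSpace.continuousLinearMapOfBilin B
  have hA : ∀ u v : V, inner ℂ (A u) v = L u v := fun u v => by
    rw [InnerProductSpace.continuousLinearMapOfBilin_apply, hB]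
  refine ⟨A, ?_, ?_⟩
  · refine ContinuousLinearMap.opNorm_le_bound _ hM fun u => ?_
    have h1 : ‖A u‖ ^ 2 ≤ M * ‖u‖ * ‖A u‖ := by
      have h2 : ‖(inner ℂ (A u) (A u) : ℂ)‖ = ‖A u‖ ^ 2 := by
        rw [inner_self_eq_norm_sq_to_K]
        simp
      rw [← h2, hA]
      exact hLb u (A u)
    rcases (norm_nonneg (A u)).eq_or_lt with h | h
    · rw [← h]
      positivity
    · rw [pow_two] at h1
      exact le_of_mul_le_mul_right h1 h
  · intro u v
    have h1 := hL u v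
    rw [← hA u v] at h1
    have h2 := (Complex.continuous_conj.tendsto _).comp h1
    rw [inner_conj_symm] at h2
    refine h2.congr fun k => ?_
    rw [Function.comp_apply, inner_conj_symm]

lemma hc1_left (K : V →L[ℂ] V) (hK : IsCompactOperator K) {ε : ℝ} (hε : 0 < ε) :
    ∃ N0, ∀ N, N0 ≤ N → ‖K - tr N ∘L K‖ ≤ ε := by
  have hcomp : IsCompact (closure (K '' Metric.closedBall 0 1)) :=
    hK.isCompact_closure_image_closedBall 1
  obtain ⟨t, -, htf, htc⟩ := hcomp.finite_cover_balls (show (0 : ℝ) < ε / 4 by linarith)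
  have h1 : ∀ y : V, ∀ᶠ N in atTop, ‖y - tr N y‖ ≤ ε / 4 := by
    intro y
    have h := (hc1_tr_tendsto y)
    rw [Metric.tendsto_nhds] at h
    filter_upwards [h (ε / 4) (by linarith)] with N hN
    rw [dist_eq_norm, norm_sub_rev] at hN
    exact hN.le
  have h2 : ∀ᶠ N in atTop, ∀ y ∈ t, ‖y - tr N y‖ ≤ ε / 4 :=
    (htf.eventually_all).2 fun y _ => h1 y
  obtain ⟨N0, hN0⟩ := eventually_atTop.1 h2
  refine ⟨N0, fun N hN => ?_⟩
  refine ContinuousLinearMap.opNorm_le_of_unit_norm hε.le fun v hv => ?_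
  have h3 : K v ∈ closure (K '' Metric.closedBall 0 1) := by
    apply subset_closure
    exact ⟨v, by rw [mem_closedBall_zero_iff, hv], rfl⟩
  obtain ⟨y, hy, hyv⟩ := Set.mem_iUnion₂.1 (htc h3)
  rw [mem_ball_iff_norm] at hyv
  have h4 := hN0 N hN y hy
  have h5 : (K - tr N ∘L K) v = (K v - y) + (y - tr N y) - tr N (K v - y) := by
    rw [map_sub]
    simp only [sub_apply, ContinuousLinearMap.comp_apply]
    abel
  rw [h5]
  have h6 := hc1_tr_le N (K v - y)
  have h7 := norm_sub_le ((K v - y) + (y - tr N y)) (tr N (K v - y))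
  have h8 := norm_add_le (K v - y) (y - tr N y)
  linarith

lemma hc1_right_mu (K : V →L[ℂ] V) (i : ℕ) {ε : ℝ} (hε : 0 < ε) :
    ∃ N0, ∀ N, N0 ≤ N → ‖mu i i ∘L K ∘L (1 - tr N)‖ ≤ ε := by
  obtain ⟨w, hw⟩ : ∃ w : V, ∀ v, inner ℂ w v = (K v) i := by
    refine ⟨ContinuousLinearMap.adjoint K (bv i), fun v => ?_⟩
    rw [ContinuousLinearMap.adjoint_inner_left, hc1_inner_bv]
  have h := (hc1_tr_tendsto w)
  rw [Metric.tendsto_nhds] at h
  obtain ⟨N0, hN0⟩ := eventually_atTop.1 (h ε hε)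
  refine ⟨N0, fun N hN => ?_⟩
  refine ContinuousLinearMap.opNorm_le_bound _ hε.le fun v => ?_
  have h1 : (mu i i ∘L K ∘L (1 - tr N)) v = (inner ℂ (w - tr N w) v : ℂ) • bv i := by
    rw [ContinuousLinearMap.comp_apply, mu_apply, ContinuousLinearMap.comp_apply, ← hw]
    congr 1
    rw [sub_apply, one_apply_eq_self, inner_sub_left,
      inner_sub_right, hc1_tr_symm]
  rw [h1, norm_smul, norm_bv, mul_one]
  refine (norm_inner_le_norm _ _).trans ?_
  have h2 := hN0 N hN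
  rw [dist_eq_norm, norm_sub_rev] at h2
  exact mul_le_mul_of_nonneg_right h2.le (norm_nonneg _)

lemma hc1_right_tr (K : V →L[ℂ] V) (M : ℕ) {ε : ℝ} (hε : 0 < ε) :
    ∃ N0, ∀ N, N0 ≤ N → ‖tr M ∘L K ∘L (1 - tr N)‖ ≤ ε := by
  have h1 : ∀ i, ∀ᶠ N in atTop, ‖mu i i ∘L K ∘L (1 - tr N)‖ ≤ ε / (M + 1) := by
    intro i
    obtain ⟨N0, h⟩ := hc1_right_mu K i (show (0 : ℝ) < ε / (M + 1) by positivity)
    exact eventually_atTop.2 ⟨N0, h⟩
  have h2 : ∀ᶠ N in atTop, ∀ i ∈ Finset.range (M + 1),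
      ‖mu i i ∘L K ∘L (1 - tr N)‖ ≤ ε / (M + 1) :=
    (Filter.eventually_all_finset _).2 fun i _ => h1 i
  obtain ⟨N0, hN0⟩ := eventually_atTop.1 h2
  refine ⟨N0, fun N hN => ?_⟩
  have h3 : tr M ∘L K ∘L (1 - tr N) =
      ∑ i ∈ Finset.range (M + 1), mu i i ∘L K ∘L (1 - tr N) := by
    unfold tr
    ext v
    simp only [ContinuousLinearMap.comp_apply, sum_apply]
  rw [h3]
  refine (norm_sum_le _ _).trans ?_
  refine (Finset.sum_le_sum (hN0 N hN)).trans ?_
  rw [Finset.sum_const, Finset.card_range, nsmul_eq_mul]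
  push_cast
  rw [mul_div_cancel₀]
  positivity

lemma hc1_norm_compl (N : ℕ) : ‖(1 : V →L[ℂ] V) - tr N‖ ≤ 2 := by
  refine ContinuousLinearMap.opNorm_le_bound _ (by norm_num) fun v => ?_
  rw [sub_apply, one_apply_eq_self]
  have h1 := norm_sub_le v (tr N v)
  have h2 := hc1_tr_le N v
  linarith

lemma hc1_right (K : V →L[ℂ] V) (hK : IsCompactOperator K) {ε : ℝ} (hε : 0 < ε) :
    ∃ N0, ∀ N, N0 ≤ N → ‖K - K ∘L tr N‖ ≤ ε := by
  obtain ⟨M, hM⟩ := hc1_left K hK (show (0 : ℝ) < ε / 4 by linarith)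
  obtain ⟨N0, hN0⟩ := hc1_right_tr K M (show (0 : ℝ) < ε / 2 by linarith)
  refine ⟨N0, fun N hN => ?_⟩
  have h1 : K - K ∘L tr N = (K - tr M ∘L K) ∘L (1 - tr N) + tr M ∘L K ∘L (1 - tr N) := by
    refine ContinuousLinearMap.ext fun v => ?_
    simp only [ContinuousLinearMap.comp_apply, sub_apply,
      add_apply, one_apply_eq_self, map_sub]
    abel
  rw [h1]
  have h2 := norm_add_le ((K - tr M ∘L K) ∘L (1 - tr N)) (tr M ∘L K ∘L (1 - tr N))
  have h3 := ContinuousLinearMap.opNorm_comp_le (K - tr M ∘L K) (1 - tr N)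
  have h4 := hM M le_rfl
  have h5 := hc1_norm_compl N
  have h6 : ‖K - tr M ∘L K‖ * ‖1 - tr N‖ ≤ ε / 4 * 2 :=
    mul_le_mul h4 h5 (norm_nonneg _) (by linarith)
  have h7 := hN0 N hN
  linarith

theorem compact_trunc (K : V →L[ℂ] V) (hK : IsCompactOperator K) {ε : ℝ} (hε : 0 < ε) :
    ∃ N0, ∀ N, N0 ≤ N → ‖K - tr N ∘L K ∘L tr N‖ ≤ ε := by
  obtain ⟨N1, h1⟩ := hc1_left K hK (show (0 : ℝ) < ε / 2 by linarith)
  obtain ⟨N2, h2⟩ := hc1_right K hK (show (0 : ℝ) < ε / 2 by linarith)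
  refine ⟨max N1 N2, fun N hN => ?_⟩
  have h3 : K - tr N ∘L K ∘L tr N = (K - tr N ∘L K) + tr N ∘L (K - K ∘L tr N) := by
    ext v
    simp only [ContinuousLinearMap.comp_apply, sub_apply,
      add_apply, map_sub, sub_add_sub_cancel]
  rw [h3]
  have h4 := norm_add_le (K - tr N ∘L K) (tr N ∘L (K - K ∘L tr N))
  have h5 := ContinuousLinearMap.opNorm_comp_le (tr N) (K - K ∘L tr N)
  have h6 : ‖tr N‖ * ‖K - K ∘L tr N‖ ≤ 1 * (ε / 2) :=
    mul_le_mul (norm_tr_le N) (h2 N ((le_max_right _ _).trans hN)) (norm_nonneg _) zero_le_one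
  have h7 := h1 N ((le_max_left _ _).trans hN)
  linarith

theorem compact_of_tail (K : V →L[ℂ] V)
    (h : ∀ ε : ℝ, 0 < ε → ∃ N : ℕ, ∀ v : V, (∀ i, i ≤ N → v i = 0) → ‖K v‖ ≤ ε * ‖v‖) :
    IsCompactOperator K := by
  have hfin : ∀ N : ℕ, IsCompactOperator (K ∘L tr N) := by
    intro N
    have h1 : K ∘L tr N = ∑ i ∈ Finset.range (N + 1), (K ∘L mu i i) := by
      unfold tr
      ext v
      simp only [ContinuousLinearMap.comp_apply, sum_apply, map_sum]
    rw [h1]
    have h2 : ∀ i, (K ∘L mu i i) ∈ compactOperator (RingHom.id ℂ) V V := by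
      intro i
      have h3 : IsCompactOperator (co i) := isCompactOperator_of_locallyCompactSpace_dom (co i)
      have h4 : IsCompactOperator ((ContinuousLinearMap.toSpanSingleton ℂ (K (bv i))) ∘ (co i)) :=
        h3.clm_comp _
      have h5 : ((K ∘L mu i i : V →L[ℂ] V) : V → V) =
          (ContinuousLinearMap.toSpanSingleton ℂ (K (bv i))) ∘ (co i) := by
        funext v
        rw [ContinuousLinearMap.comp_apply, mu_apply, map_smul, Function.comp_apply,
          ContinuousLinearMap.toSpanSingleton_apply, co_apply]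
      change IsCompactOperator ((K ∘L mu i i : V →L[ℂ] V) : V → V)
      rw [h5]
      exact h4
    exact Submodule.sum_mem (compactOperator (RingHom.id ℂ) V V) fun i _ => h2 i
  refine isCompactOperator_of_tendsto (l := atTop) (F := fun N => K ∘L tr N) ?_
    (Eventually.of_forall hfin)
  rw [Metric.tendsto_nhds]
  intro ε hε
  obtain ⟨N0, hN0⟩ := h (ε / 4) (by linarith)
  refine eventually_atTop.2 ⟨N0, fun N hN => ?_⟩
  rw [dist_eq_norm, norm_sub_rev]
  refine lt_of_le_of_lt (ContinuousLinearMap.opNorm_le_bound _ (show 0 ≤ ε / 2 by linarith)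
    fun v => ?_) (show ε / 2 < ε by linarith)
  have h1 : (K - K ∘L tr N) v = K (v - tr N v) := by
    simp only [ContinuousLinearMap.comp_apply, sub_apply, map_sub]
  rw [h1]
  have h2 : ∀ i, i ≤ N0 → (v - tr N v) i = 0 := by
    intro i hi
    have h3 : (v - tr N v) i = v i - (tr N v) i := rfl
    rw [h3, tr_coord, if_pos (hi.trans hN), sub_self]
  have h4 := hN0 (v - tr N v) h2
  have h5 := norm_sub_le v (tr N v)
  have h6 := hc1_tr_le N v
  have h7 : ε / 4 * ‖v - tr N v‖ ≤ ε / 4 * (2 * ‖v‖) :=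
    mul_le_mul_of_nonneg_left (by linarith) (by linarith)
  linarith



lemma hc2_norm_sq (v : V) : ‖v‖ ^ 2 = ∑' i, ‖v i‖ ^ 2 := by
  have h := lp.norm_rpow_eq_tsum (p := 2) (by norm_num) v
  simpa using h

lemma hc2_summable (v : V) : Summable (fun i => ‖v i‖ ^ 2) := by
  have h := (lp.memℓp v).summable (p := 2) (by norm_num)
  simpa using h

lemma hc2_mem (f : ℕ → ℂ) (h : Summable (fun i => ‖f i‖ ^ 2)) : Memℓp f 2 := by
  apply memℓp_gen
  simpa using h

theorem scalar_compact {c : ℂ} (h : IsCompactOperator (c • (1 : V →L[ℂ] V))) : c = 0 := by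
  by_contra hc
  have h1 : IsCompactOperator (1 : V →L[ℂ] V) := by
    have h2 := h.smul (c⁻¹)
    have h3 : c⁻¹ • (⇑(c • (1 : V →L[ℂ] V)) : V → V) = ⇑(1 : V →L[ℂ] V) := by
      funext v
      simp [smul_smul, inv_mul_cancel₀ hc]
    rwa [h3] at h2
  have h4 : IsCompactOperator (id : V → V) := by
    have h5 : (⇑(1 : V →L[ℂ] V) : V → V) = id := by
      funext v; rfl
    rwa [h5] at h1
  have hfin : FiniteDimensional ℂ V := (isCompactOperator_id_iff_finiteDimensional (𝕜 := ℂ)).1 h4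
  have hli : LinearIndependent ℂ (bv : ℕ → V) := by
    rw [linearIndependent_iff']
    intro s g hg i hi
    have h6 := congrArg (fun v : V => co i v) hg
    simp only [map_sum, map_smul, map_zero, co_apply, bv_apply, smul_eq_mul] at h6
    rw [Finset.sum_eq_single i] at h6
    · simpa using h6
    · intro b _ hb
      rw [if_neg (fun h => hb h.symm), mul_zero]
    · intro h7; exact absurd hi h7
  exact Module.Finite.not_linearIndependent_of_infinite (R := ℂ) (bv : ℕ → V) hli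

theorem tr_tendsto (v : V) : Tendsto (fun r => tr r v) atTop (𝓝 v) := by
  have h := (lp.hasSum_single (p := 2) (by norm_num) v).tendsto_sum_nat
  have h1 := h.comp (tendsto_add_atTop_nat 1)
  refine h1.congr (fun r => ?_)
  simp only [Function.comp_apply, tr, sum_apply]
  refine Finset.sum_congr rfl (fun i _ => ?_)
  rw [mu_apply, bv, ← lp.single_smul, smul_eq_mul, mul_one]

/-- the forward shift of a sequence -/
def hc2_shf (f : ℕ → ℂ) : ℕ → ℂ
  | 0 => 0
  | i + 1 => f i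

lemma hc2_shf_mem (v : V) : Memℓp (hc2_shf v) 2 := by
  apply hc2_mem
  rw [← summable_nat_add_iff 1]
  exact hc2_summable v

/-- the forward shift as a linear map -/
noncomputable def hc2_shl : V →ₗ[ℂ] V where
  toFun v := ⟨hc2_shf v, hc2_shf_mem v⟩
  map_add' u v := by
    apply Subtype.ext
    funext i
    cases i with
    | zero => change (0 : ℂ) = 0 + 0; rw [add_zero]
    | succ i => rfl
  map_smul' c v := by
    apply Subtype.ext
    funext i
    cases i with
    | zero => change (0 : ℂ) = c • (0 : ℂ); rw [smul_zero]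
    | succ i => rfl

lemma hc2_shl_zero (v : V) : (hc2_shl v) 0 = 0 := rfl

lemma hc2_shl_succ (v : V) (i : ℕ) : (hc2_shl v) (i + 1) = v i := rfl

lemma hc2_norm_of_shift (u v : V) (h0 : u 0 = 0) (h1 : ∀ i, u (i + 1) = v i) : ‖u‖ = ‖v‖ := by
  have h2 : ‖u‖ ^ 2 = ‖v‖ ^ 2 := by
    rw [hc2_norm_sq, hc2_norm_sq, (hc2_summable u).tsum_eq_zero_add, h0]
    simp [h1]
  exact (sq_eq_sq₀ (norm_nonneg _) (norm_nonneg _)).1 h2

theorem exists_sh : ∃ A : V →L[ℂ] V, ∀ v : V, (A v) 0 = 0 ∧ ∀ i, (A v) (i + 1) = v i := by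
  refine ⟨LinearMap.mkContinuous hc2_shl 1 (fun v => ?_), fun v => ⟨rfl, fun i => rfl⟩⟩
  rw [one_mul]
  exact (hc2_norm_of_shift (hc2_shl v) v rfl (fun i => rfl)).le

/-- forward shift -/
noncomputable def Sh : V →L[ℂ] V := exists_sh.choose

lemma hc2_shd_mem (v : V) : Memℓp (fun i => v (i + 1)) 2 := by
  apply hc2_mem
  exact (summable_nat_add_iff 1).2 (hc2_summable v)

/-- the backward shift as a linear map -/
noncomputable def hc2_shdl : V →ₗ[ℂ] V where
  toFun v := ⟨fun i => v (i + 1), hc2_shd_mem v⟩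
  map_add' u v := by
    apply Subtype.ext
    funext i
    rfl
  map_smul' c v := by
    apply Subtype.ext
    funext i
    rfl

lemma hc2_shd_norm (u v : V) (h1 : ∀ i, u i = v (i + 1)) : ‖u‖ ≤ ‖v‖ := by
  have h2 : ‖u‖ ^ 2 ≤ ‖v‖ ^ 2 := by
    rw [hc2_norm_sq, hc2_norm_sq, (hc2_summable v).tsum_eq_zero_add]
    simp only [h1]
    have := sq_nonneg ‖v 0‖
    linarith
  exact (sq_le_sq₀ (norm_nonneg _) (norm_nonneg _)).1 h2

theorem exists_shd : ∃ A : V →L[ℂ] V, ∀ v : V, ∀ i, (A v) i = v (i + 1) := by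
  refine ⟨LinearMap.mkContinuous hc2_shdl 1 (fun v => ?_), fun v i => rfl⟩
  rw [one_mul]
  exact hc2_shd_norm (hc2_shdl v) v (fun i => rfl)

/-- backward shift -/
noncomputable def Shd : V →L[ℂ] V := exists_shd.choose

lemma Sh_coord_zero (v : V) : (Sh v) 0 = 0 := (exists_sh.choose_spec v).1

lemma Sh_coord_succ (v : V) (i : ℕ) : (Sh v) (i + 1) = v i := (exists_sh.choose_spec v).2 i

lemma Shd_coord (v : V) (i : ℕ) : (Shd v) i = v (i + 1) := exists_shd.choose_spec v i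

lemma norm_Sh (v : V) : ‖Sh v‖ = ‖v‖ :=
  hc2_norm_of_shift (Sh v) v (Sh_coord_zero v) (Sh_coord_succ v)

lemma norm_Shd_le (v : V) : ‖Shd v‖ ≤ ‖v‖ :=
  hc2_shd_norm (Shd v) v (Shd_coord v)

lemma Shd_Sh (v : V) : Shd (Sh v) = v := by
  apply V_ext
  intro i
  rw [Shd_coord, Sh_coord_succ]

lemma Sh_Shd_of_isM {N : ℕ} {K : V →L[ℂ] V} (hK : IsM N K) (v : V) : Sh (Shd (K v)) = K v := by
  apply V_ext
  intro i
  cases i with
  | zero => rw [Sh_coord_zero, hK.coord v 0 (Or.inl rfl)]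
  | succ i => rw [Sh_coord_succ, Shd_coord]

/-- conjugation by the shift of a truncated operator lives on `span (e_1, ..., e_{N+1})` -/
lemma isM_conj (K : V →L[ℂ] V) (N : ℕ) : IsM (N + 1) (Sh ∘L (tr N ∘L K ∘L tr N) ∘L Shd) := by
  have h1 : Q (N + 1) ∘L Sh ∘L tr N = Sh ∘L tr N := by
    ext1 v
    apply V_ext
    intro i
    simp only [ContinuousLinearMap.comp_apply]
    rw [Q_coord]
    cases i with
    | zero => rw [if_neg (by omega), Sh_coord_zero]
    | succ i =>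
      rw [Sh_coord_succ, tr_coord]
      by_cases hi : i ≤ N
      · rw [if_pos (by omega), if_pos hi]
      · rw [if_neg (by omega), if_neg hi]
  have h2 : tr N ∘L Shd ∘L Q (N + 1) = tr N ∘L Shd := by
    ext1 v
    apply V_ext
    intro i
    simp only [ContinuousLinearMap.comp_apply]
    rw [tr_coord, tr_coord]
    by_cases hi : i ≤ N
    · rw [if_pos hi, if_pos hi, Shd_coord, Shd_coord, Q_coord, if_pos (by omega)]
    · rw [if_neg hi, if_neg hi]
  unfold IsM
  calc Sh ∘L (tr N ∘L K ∘L tr N) ∘L Shd = (Sh ∘L tr N) ∘L K ∘L (tr N ∘L Shd) := by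
        simp only [ContinuousLinearMap.comp_assoc]
    _ = (Q (N + 1) ∘L Sh ∘L tr N) ∘L K ∘L (tr N ∘L Shd ∘L Q (N + 1)) := by rw [h1, h2]
    _ = Q (N + 1) ∘L (Sh ∘L (tr N ∘L K ∘L tr N) ∘L Shd) ∘L Q (N + 1) := by
        simp only [ContinuousLinearMap.comp_assoc]

lemma conj_back (K : V →L[ℂ] V) : Shd ∘L (Sh ∘L K ∘L Shd) ∘L Sh = K := by
  ext1 v
  simp only [ContinuousLinearMap.comp_apply]
  rw [Shd_Sh, Shd_Sh]

end Pool.Agent.Helper64.Cal
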