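import Pool.Agent.Helper64.Cal.Kp
import Pool.Agent.Helper64.Cal.Hc

/-!
# The symbol map `A : L(X) → L(ℓ₂)`
-/

set_option autoImplicit false

open scoped ENNReal
open Filter Topology

namespace Pool.Agent.Helper64.Cal

namespace Sys

variable (S : Sys)

/-- test nodes: roots of weight `k` -/
noncomputable def tn (k : ℕ) : ℕ := (S.rich_root k k).choose

lemma tn_ge (k : ℕ) : k ≤ S.tn k := (S.rich_root k k).choose_spec.1

lemma tn_age (k : ℕ) : S.age (S.tn k) = 0 := (S.rich_root k k).choose_spec.2.1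

lemma tn_w (k : ℕ) : S.w (S.tn k) = k := (S.rich_root k k).choose_spec.2.2

/-- test vectors in `X00` -/
noncomputable def tx (k : ℕ) (v : V) : X00 :=
  ⟨Finsupp.single (S.tn k) (tr (S.tn k) v), single_mem (fun i hi => by
    rw [tr_coord, if_neg (by omega)])⟩

lemma exists_tv (k : ℕ) : ∃ A : V →L[ℂ] S.X, (∀ v, A v = S.j (S.tx k v)) ∧ ‖A‖ ≤ 2 := by
  have hadd : ∀ u v : V, S.tx k (u + v) = S.tx k u + S.tx k v := by
    intro u v
    apply Subtype.ext
    show (Finsupp.single (S.tn k) (tr (S.tn k) (u + v)) : E) =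
      Finsupp.single (S.tn k) (tr (S.tn k) u) + Finsupp.single (S.tn k) (tr (S.tn k) v)
    rw [map_add, Finsupp.single_add]
  have hsmul : ∀ (c : ℂ) (v : V), S.tx k (c • v) = c • S.tx k v := by
    intro c v
    apply Subtype.ext
    show (Finsupp.single (S.tn k) (tr (S.tn k) (c • v)) : E) =
      c • Finsupp.single (S.tn k) (tr (S.tn k) v)
    rw [map_smul, Finsupp.smul_single]
  have hb : ∀ v : V, ‖S.j (S.tx k v)‖ ≤ 2 * ‖v‖ := by
    intro v
    apply S.norm_j_le (by positivity)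
    intro η
    have h1 : ‖S.e η (Finsupp.single (S.tn k) (tr (S.tn k) v))‖ ≤ 2 * ‖tr (S.tn k) v‖ :=
      S.single_bound _ _ _
    have h2 : ‖tr (S.tn k) v‖ ≤ ‖v‖ := by
      calc ‖tr (S.tn k) v‖ ≤ ‖tr (S.tn k)‖ * ‖v‖ := ContinuousLinearMap.le_opNorm _ _
        _ ≤ 1 * ‖v‖ := by gcongr; exact norm_tr_le _
        _ = ‖v‖ := one_mul _
    exact h1.trans (by linarith)
  refine ⟨LinearMap.mkContinuous
    { toFun := fun v => S.j (S.tx k v)
      map_add' := fun u v => by rw [hadd, map_add]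
      map_smul' := fun c v => by rw [hsmul, map_smul]; rfl } 2 hb, fun v => rfl, ?_⟩
  exact LinearMap.mkContinuous_norm_le _ (by norm_num) _

/-- test vectors as a continuous linear map -/
noncomputable def tv (k : ℕ) : V →L[ℂ] S.X := (S.exists_tv k).choose

lemma tv_eq (k : ℕ) (v : V) : S.tv k v = S.j (S.tx k v) := (S.exists_tv k).choose_spec.1 v

lemma norm_tv_le (k : ℕ) : ‖S.tv k‖ ≤ 2 := (S.exists_tv k).choose_spec.2

/-- the symbol map -/
theorem exists_symbol : ∃ A : (S.X →L[ℂ] S.X) →L[ℂ] (V →L[ℂ] V),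
    ∀ (T : S.X →L[ℂ] S.X) (u v : V),
      Tendsto (fun k => inner ℂ v (Shd (S.dv (S.tn k) (T (S.tv k (Sh u)))))) (hyperfilter ℕ)
        (𝓝 (inner ℂ v (A T u))) := by
  have key : ∀ T : S.X →L[ℂ] S.X, ∃ B : V →L[ℂ] V, ‖B‖ ≤ 8 * ‖T‖ ∧ ∀ u v : V,
      Tendsto (fun k => inner ℂ v (Shd (S.dv (S.tn k) (T (S.tv k (Sh u)))))) (hyperfilter ℕ)
        (𝓝 (inner ℂ v (B u))) := by
    intro T
    obtain ⟨B, hB, hBt⟩ := exists_wot
      (fun k => Shd ∘L (S.dv (S.tn k)) ∘L T ∘L (S.tv k) ∘L Sh) (8 * ‖T‖) (by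
        intro k
        apply ContinuousLinearMap.opNorm_le_bound _ (by positivity)
        intro u
        show ‖Shd (S.dv (S.tn k) (T (S.tv k (Sh u))))‖ ≤ 8 * ‖T‖ * ‖u‖
        calc ‖Shd (S.dv (S.tn k) (T (S.tv k (Sh u))))‖
            ≤ ‖S.dv (S.tn k) (T (S.tv k (Sh u)))‖ := norm_Shd_le _
          _ ≤ ‖S.dv (S.tn k)‖ * ‖T (S.tv k (Sh u))‖ := ContinuousLinearMap.le_opNorm _ _
          _ ≤ 4 * (‖T‖ * (2 * ‖u‖)) := by
              gcongr
              · exact S.norm_dv_le _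
              · calc ‖T (S.tv k (Sh u))‖ ≤ ‖T‖ * ‖S.tv k (Sh u)‖ :=
                      ContinuousLinearMap.le_opNorm _ _
                  _ ≤ ‖T‖ * (2 * ‖u‖) := by
                      gcongr
                      calc ‖S.tv k (Sh u)‖ ≤ ‖S.tv k‖ * ‖Sh u‖ :=
                            ContinuousLinearMap.le_opNorm _ _
                        _ ≤ 2 * ‖u‖ := by
                            rw [norm_Sh]
                            gcongr
                            exact S.norm_tv_le _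
          _ = 8 * ‖T‖ * ‖u‖ := by ring)
    exact ⟨B, hB, hBt⟩
  choose B hB hBt using key
  have hadd : ∀ T T' : S.X →L[ℂ] S.X, B (T + T') = B T + B T' := by
    intro T T'
    apply ContinuousLinearMap.ext
    intro u
    apply ext_inner_left ℂ
    intro v
    refine tendsto_nhds_unique (hBt (T + T') u v) ?_
    have h := (hBt T u v).add (hBt T' u v)
    rw [ContinuousLinearMap.add_apply, inner_add_right]
    refine h.congr (fun k => ?_)
    rw [ContinuousLinearMap.add_apply, map_add, map_add, inner_add_right]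
  have hsmul : ∀ (c : ℂ) (T : S.X →L[ℂ] S.X), B (c • T) = c • B T := by
    intro c T
    apply ContinuousLinearMap.ext
    intro u
    apply ext_inner_left ℂ
    intro v
    refine tendsto_nhds_unique (hBt (c • T) u v) ?_
    have h := (hBt T u v).const_mul c
    rw [ContinuousLinearMap.smul_apply, inner_smul_right]
    refine h.congr (fun k => ?_)
    rw [ContinuousLinearMap.smul_apply, map_smul, map_smul, inner_smul_right]
  refine ⟨LinearMap.mkContinuous
    { toFun := B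
      map_add' := hadd
      map_smul' := hsmul } 8 hB, fun T u v => hBt T u v⟩

/-- the symbol -/
noncomputable def A : (S.X →L[ℂ] S.X) →L[ℂ] (V →L[ℂ] V) := S.exists_symbol.choose

lemma A_tendsto (T : S.X →L[ℂ] S.X) (u v : V) :
    Tendsto (fun k => inner ℂ v (Shd (S.dv (S.tn k) (T (S.tv k (Sh u)))))) (hyperfilter ℕ)
      (𝓝 (inner ℂ v (S.A T u))) := S.exists_symbol.choose_spec T u v

lemma dv_tv (k : ℕ) (v : V) : S.dv (S.tn k) (S.tv k v) = tr (S.tn k) v := by
  rw [S.tv_eq, S.dv_j]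
  show (Finsupp.single (S.tn k) (tr (S.tn k) v) : E) (S.tn k) = _
  rw [Finsupp.single_eq_same]

lemma tr_tn_tendsto (v : V) : Tendsto (fun k => tr (S.tn k) v) (hyperfilter ℕ) (𝓝 v) := by
  have h1 : Tendsto S.tn atTop atTop := tendsto_atTop_mono S.tn_ge tendsto_id
  exact ((tr_tendsto v).comp h1).mono_left Nat.hyperfilter_le_atTop

lemma A_one : S.A 1 = 1 := by
  apply ContinuousLinearMap.ext
  intro u
  apply ext_inner_left ℂ
  intro v
  refine tendsto_nhds_unique (S.A_tendsto 1 u v) ?_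
  have h1 : Tendsto (fun k => inner ℂ v (Shd (tr (S.tn k) (Sh u)))) (hyperfilter ℕ)
      (𝓝 (inner ℂ v (Shd (Sh u)))) :=
    Tendsto.inner tendsto_const_nhds ((Shd.continuous.tendsto _).comp (S.tr_tn_tendsto (Sh u)))
  rw [Shd_Sh] at h1
  refine h1.congr (fun k => ?_)
  rw [ContinuousLinearMap.one_apply, S.dv_tv]

lemma A_kop {N : ℕ} {K : V →L[ℂ] V} (hK : IsM N K) : S.A (S.kop N K) = Shd ∘L K ∘L Sh := by
  apply ContinuousLinearMap.ext
  intro u
  apply ext_inner_left ℂ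
  intro v
  refine tendsto_nhds_unique (S.A_tendsto (S.kop N K) u v) ?_
  have h1 : Tendsto (fun k => inner ℂ v (Shd (K (tr (S.tn k) (Sh u))))) (hyperfilter ℕ)
      (𝓝 (inner ℂ v (Shd (K (Sh u))))) :=
    Tendsto.inner tendsto_const_nhds
      ((Shd.continuous.tendsto _).comp ((K.continuous.tendsto _).comp (S.tr_tn_tendsto (Sh u))))
  refine h1.congr' ?_
  have h2 : ∀ᶠ k in hyperfilter ℕ, N ≤ k := Nat.hyperfilter_le_atTop (eventually_ge_atTop N)
  filter_upwards [h2] with k hk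
  rw [S.dv_kop hK (hk.trans (S.tn_ge k)), S.dv_tv]

lemma tx_coord (k : ℕ) (v : V) (i : ℕ) (hi : S.tn k < i) : (tr (S.tn k) v) i = 0 := by
  rw [tr_coord, if_neg (by omega)]

lemma norm_tr_tn_le (k : ℕ) {v : V} (hv : ‖v‖ ≤ 1) : ‖tr (S.tn k) v‖ ≤ 1 := by
  calc ‖tr (S.tn k) v‖ ≤ ‖tr (S.tn k)‖ * ‖v‖ := ContinuousLinearMap.le_opNorm _ _
    _ ≤ 1 * 1 := by gcongr; exact norm_tr_le _
    _ = 1 := one_mul _

lemma A_compact {R : S.X →L[ℂ] S.X} (hR : IsCompactOperator R) : S.A R = 0 := by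
  have h1 : ∀ u : V, ‖u‖ ≤ 1 → S.A R u = 0 := by
    intro u hu
    apply ext_inner_left ℂ
    intro v
    refine tendsto_nhds_unique (S.A_tendsto R u v) ?_
    rw [inner_zero_right]
    rw [Metric.tendsto_nhds]
    intro ε hε
    obtain ⟨J, hJ⟩ := wn S R hR (C := 6) (by norm_num) (ε := ε / (8 * (‖v‖ + 1)))
      (by positivity)
    have h2 : ∀ᶠ k in hyperfilter ℕ, J ≤ k := Nat.hyperfilter_le_atTop (eventually_ge_atTop J)
    filter_upwards [h2] with k hk
    have h3 : RT S 6 J (S.tx k (Sh u)) :=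
      test_RT S (S.tn_age k) (by rw [S.tn_w]; exact hk) (S.tx_coord k _)
        (S.norm_tr_tn_le k (by rw [norm_Sh]; exact hu))
    have h4 := hJ _ h3
    rw [dist_zero_right, S.tv_eq]
    have hv1 : 0 ≤ ‖v‖ := norm_nonneg _
    calc ‖inner ℂ v (Shd (S.dv (S.tn k) (R (S.j (S.tx k (Sh u))))))‖
        ≤ ‖v‖ * ‖Shd (S.dv (S.tn k) (R (S.j (S.tx k (Sh u)))))‖ := norm_inner_le_norm _ _
      _ ≤ ‖v‖ * ‖S.dv (S.tn k) (R (S.j (S.tx k (Sh u))))‖ := by
          gcongr
          exact norm_Shd_le _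
      _ ≤ ‖v‖ * (‖S.dv (S.tn k)‖ * ‖R (S.j (S.tx k (Sh u)))‖) := by
          gcongr
          exact ContinuousLinearMap.le_opNorm _ _
      _ ≤ ‖v‖ * (4 * (ε / (8 * (‖v‖ + 1)))) := by
          gcongr
          exact S.norm_dv_le _
      _ = (‖v‖ / (‖v‖ + 1)) * (ε / 2) := by
          field_simp
          ring
      _ ≤ 1 * (ε / 2) := by
          gcongr
          rw [div_le_one (by positivity)]
          linarith
      _ < ε := by linarith
  apply ContinuousLinearMap.ext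
  intro u
  rw [ContinuousLinearMap.zero_apply]
  by_cases hu : u = 0
  · rw [hu, map_zero]
  have hu0 : ‖u‖ ≠ 0 := norm_ne_zero_iff.2 hu
  have h2 : u = (‖u‖ : ℂ) • ((‖u‖ : ℂ)⁻¹ • u) := by
    rw [smul_smul, mul_inv_cancel₀ (by exact_mod_cast hu0), one_smul]
  rw [h2, map_smul, h1 _ ?_, smul_zero]
  rw [norm_smul, norm_inv, Complex.norm_real, norm_norm, inv_mul_cancel₀ hu0]

/-- flexible limit of `T` minus symbol is compact -/
theorem A_sub_compact (T : S.X →L[ℂ] S.X) (c : ℂ)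
    (hc : ∀ C : ℝ, 0 ≤ C → ∀ ε : ℝ, 0 < ε → ∃ J, ∀ x : X00, RF S C J x →
      ‖T (S.j x) - c • S.j x‖ ≤ ε) : IsCompactOperator (S.A T - c • (1 : V →L[ℂ] V)) := by
  apply compact_of_tail
  intro ε hε
  obtain ⟨J, hJ⟩ := hc 6 (by norm_num) (ε / 4) (by positivity)
  refine ⟨J, ?_⟩
  have h1 : ∀ u : V, ‖u‖ ≤ 1 → (∀ i, i ≤ J → u i = 0) →
      ‖(S.A T - c • (1 : V →L[ℂ] V)) u‖ ≤ ε := by
    intro u hu hu0
    have hSh : ∀ i, 1 ≤ i → i ≤ J → (Sh u) i = 0 := by
      intro i hi hiJ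
      obtain ⟨i, rfl⟩ : ∃ i', i = i' + 1 := ⟨i - 1, by omega⟩
      rw [Sh_coord_succ]
      exact hu0 i (by omega)
    have h2 : ∀ v : V, ‖inner ℂ v ((S.A T - c • (1 : V →L[ℂ] V)) u)‖ ≤ ‖v‖ * ε := by
      intro v
      have hlim : Tendsto (fun k => inner ℂ v (Shd (S.dv (S.tn k) (T (S.tv k (Sh u))))) -
          c * inner ℂ v (Shd (S.dv (S.tn k) (S.tv k (Sh u))))) (hyperfilter ℕ)
          (𝓝 (inner ℂ v ((S.A T - c • (1 : V →L[ℂ] V)) u))) := by
        have h3 : inner ℂ v ((S.A T - c • (1 : V →L[ℂ] V)) u) =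
            inner ℂ v (S.A T u) - c * inner ℂ v u := by
          rw [ContinuousLinearMap.sub_apply, ContinuousLinearMap.smul_apply,
            ContinuousLinearMap.one_apply, inner_sub_right, inner_smul_right]
        rw [h3]
        refine (S.A_tendsto T u v).sub (Tendsto.const_mul c ?_)
        have h4 := S.A_tendsto 1 u v
        rw [S.A_one] at h4
        exact h4
      refine le_of_tendsto hlim.norm ?_
      have h5 : ∀ᶠ k in hyperfilter ℕ, J ≤ k := Nat.hyperfilter_le_atTop (eventually_ge_atTop J)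
      filter_upwards [h5] with k hk
      have h6 : RF S 6 J (S.tx k (Sh u)) :=
        test_RF S (S.tn_age k) (by rw [S.tn_w]; exact hk) (S.tx_coord k _)
          (S.norm_tr_tn_le k (by rw [norm_Sh]; exact hu)) (by
            intro i hi hiJ
            rw [tr_coord, if_pos (hiJ.trans (hk.trans (S.tn_ge k)))]
            exact hSh i hi hiJ)
      have h7 := hJ _ h6
      rw [S.tv_eq]
      have h8 : inner ℂ v (Shd (S.dv (S.tn k) (T (S.j (S.tx k (Sh u)))))) -
          c * inner ℂ v (Shd (S.dv (S.tn k) (S.j (S.tx k (Sh u))))) =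
          inner ℂ v (Shd (S.dv (S.tn k)
            (T (S.j (S.tx k (Sh u))) - c • S.j (S.tx k (Sh u))))) := by
        rw [map_sub, map_sub, map_smul, map_smul, inner_sub_right, inner_smul_right]
      rw [h8]
      calc ‖inner ℂ v (Shd (S.dv (S.tn k)
            (T (S.j (S.tx k (Sh u))) - c • S.j (S.tx k (Sh u)))))‖
          ≤ ‖v‖ * ‖Shd (S.dv (S.tn k)
            (T (S.j (S.tx k (Sh u))) - c • S.j (S.tx k (Sh u))))‖ := norm_inner_le_norm _ _
        _ ≤ ‖v‖ * ‖S.dv (S.tn k) (T (S.j (S.tx k (Sh u))) - c • S.j (S.tx k (Sh u)))‖ := by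
            gcongr
            exact norm_Shd_le _
        _ ≤ ‖v‖ * (‖S.dv (S.tn k)‖ * ‖T (S.j (S.tx k (Sh u))) - c • S.j (S.tx k (Sh u))‖) := by
            gcongr
            exact ContinuousLinearMap.le_opNorm _ _
        _ ≤ ‖v‖ * (4 * (ε / 4)) := by
            gcongr
            exact S.norm_dv_le _
        _ = ‖v‖ * ε := by ring
    have h9 := h2 ((S.A T - c • (1 : V →L[ℂ] V)) u)
    rw [inner_self_eq_norm_sq_to_K] at h9
    rw [norm_pow, RCLike.norm_ofReal, abs_norm] at h9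
    by_contra hcon
    push Not at hcon
    have h10 : 0 < ‖(S.A T - c • (1 : V →L[ℂ] V)) u‖ := hε.trans hcon
    nlinarith
  intro u hu
  by_cases hu1 : u = 0
  · rw [hu1, map_zero, norm_zero, mul_zero]
  have hu0 : ‖u‖ ≠ 0 := norm_ne_zero_iff.2 hu1
  have h2 : u = (‖u‖ : ℂ) • ((‖u‖ : ℂ)⁻¹ • u) := by
    rw [smul_smul, mul_inv_cancel₀ (by exact_mod_cast hu0), one_smul]
  have h3 : ‖(S.A T - c • (1 : V →L[ℂ] V)) ((‖u‖ : ℂ)⁻¹ • u)‖ ≤ ε := by
    apply h1
    · rw [norm_smul, norm_inv, Complex.norm_real, norm_norm, inv_mul_cancel₀ hu0]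
    · intro i hi
      rw [lp.coeFn_smul, Pi.smul_apply, hu i hi, smul_zero]
  calc ‖(S.A T - c • (1 : V →L[ℂ] V)) u‖
      = ‖(S.A T - c • (1 : V →L[ℂ] V)) ((‖u‖ : ℂ) • ((‖u‖ : ℂ)⁻¹ • u))‖ := by rw [← h2]
    _ = ‖u‖ * ‖(S.A T - c • (1 : V →L[ℂ] V)) ((‖u‖ : ℂ)⁻¹ • u)‖ := by
        rw [map_smul, norm_smul, Complex.norm_real, norm_norm]
    _ ≤ ‖u‖ * ε := by gcongr
    _ = ε * ‖u‖ := by ring


/-- operators approximable by `kop` plus compact operators -/
def Appr (Θ : S.X →L[ℂ] S.X) : Prop :=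
  ∀ ε : ℝ, 0 < ε → ∃ (N : ℕ) (K' : V →L[ℂ] V) (R' : S.X →L[ℂ] S.X),
    IsM N K' ∧ IsCompactOperator R' ∧ ‖Θ - (S.kop N K' + R')‖ ≤ ε



/-- approximable operators are small on flexible RIS vectors -/
theorem Appr.flex {Θ : S.X →L[ℂ] S.X} (h : S.Appr Θ) {C : ℝ} (hC : 0 ≤ C) {ε : ℝ}
    (hε : 0 < ε) : ∃ J, ∀ x : X00, RF S C J x → ‖Θ (S.j x)‖ ≤ ε := by
  have hC1 : 0 < C + 1 := by linarith
  obtain ⟨N, K', R', hK', hR', hΘ⟩ := h (ε / (2 * (C + 1))) (by positivity)
  obtain ⟨J, hJ⟩ := wn S R' hR' hC (half_pos hε)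
  refine ⟨max N J, fun x hx => ?_⟩
  have hRT : RT S C J x := hx.1.mono le_rfl (le_max_right _ _)
  have h1 : ‖R' (S.j x)‖ ≤ ε / 2 := hJ x hRT
  have h2 : S.kop N K' (S.j x) = 0 := by
    rw [S.kop_j hK' x]
    have hz : kop0 N K' hK' x = 0 := by
      apply Subtype.ext
      show act K' (hi N (x : E)) = 0
      have e1 : hi N (x : E) = x := hi_eq_self (fun k hk => hx.1.ge k
        (lt_of_lt_of_le hk (le_max_left _ _)))
      have e2 : K' = K' ∘L Q (max N J) := ((hK'.mono (le_max_left N J)).comp_Q).symm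
      rw [e1, e2, ← act_act, hx.2, map_zero]
    rw [hz, map_zero]
  have h3 : ‖S.j x‖ ≤ C := S.norm_j_le hC (fun k => hx.1.nb k)
  have h4 : Θ (S.j x) = (Θ - (S.kop N K' + R')) (S.j x) + (S.kop N K' (S.j x) + R' (S.j x)) := by
    simp
  rw [h4, h2, zero_add]
  have h5 : ‖(Θ - (S.kop N K' + R')) (S.j x)‖ ≤ ε / (2 * (C + 1)) * C :=
    (ContinuousLinearMap.le_opNorm _ _).trans
      (mul_le_mul hΘ h3 (norm_nonneg _) (by positivity))
  have h6 : ε / (2 * (C + 1)) * C ≤ ε / 2 := by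
    rw [div_mul_eq_mul_div, div_le_div_iff₀ (by positivity) (by norm_num)]
    nlinarith
  calc ‖(Θ - (S.kop N K' + R')) (S.j x) + R' (S.j x)‖
      ≤ ‖(Θ - (S.kop N K' + R')) (S.j x)‖ + ‖R' (S.j x)‖ := norm_add_le _ _
    _ ≤ ε / 2 + ε / 2 := add_le_add (h5.trans h6) h1
    _ = ε := by ring

/-- the product of two operators of the form `kop` -/
lemma At2_kop_kop {N N' : ℕ} {K K' : V →L[ℂ] V} (hK : IsM N K) (hK' : IsM N' K') :
    IsCompactOperator (S.kop N K ∘L S.kop N' K' - S.kop (max N N') (K ∘L K')) := by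
  set M := max N N' with hM
  have h1 : IsCompactOperator (S.kop N K - S.kop M K) := S.kop_level hK (le_max_left _ _)
  have h2 : IsCompactOperator (S.kop N' K' - S.kop M K') := S.kop_level hK' (le_max_right _ _)
  have h3 : S.kop M K ∘L S.kop M K' = S.kop M (K ∘L K') :=
    S.kop_comp (hK.mono (le_max_left _ _)) (hK'.mono (le_max_right _ _))
  have h4 : S.kop N K ∘L S.kop N' K' - S.kop M (K ∘L K') =
      (S.kop N K - S.kop M K) ∘L S.kop N' K' + S.kop M K ∘L (S.kop N' K' - S.kop M K') := by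
    rw [← h3]
    ext1 u
    simp
  rw [h4]
  have h5 : IsCompactOperator ((S.kop N K - S.kop M K) ∘L S.kop N' K') :=
    h1.comp_clm (S.kop N' K')
  have h6 : IsCompactOperator (S.kop M K ∘L (S.kop N' K' - S.kop M K')) :=
    h2.clm_comp (S.kop M K)
  exact h5.add h6

/-- the remainder term -/
lemma At2_rem {N N' : ℕ} {K K' : V →L[ℂ] V} {R R' : S.X →L[ℂ] S.X}
    (hK : IsM N K) (hK' : IsM N' K') (hR : IsCompactOperator R) (hR' : IsCompactOperator R') :
    ∃ D : S.X →L[ℂ] S.X, IsCompactOperator D ∧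
      (S.kop N K + R) * (S.kop N' K' + R') = S.kop (max N N') (K ∘L K') + D := by
  have a1 := S.At2_kop_kop hK hK'
  have a2 : IsCompactOperator (S.kop N K ∘L R') := hR'.clm_comp (S.kop N K)
  have a3 : IsCompactOperator (R ∘L (S.kop N' K' + R')) := hR.comp_clm (S.kop N' K' + R')
  generalize S.kop (max N N') (K ∘L K') = U at *
  generalize S.kop N K = B at *
  generalize S.kop N' K' = B' at *
  refine ⟨(B ∘L B' - U) + (B ∘L R' + R ∘L (B' + R')), a1.add (a2.add a3), ?_⟩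
  refine ContinuousLinearMap.ext (fun u => ?_)
  show B (B' u + R' u) + R (B' u + R' u) = U u + ((B (B' u) - U u) + (B (R' u) + R (B' u + R' u)))
  rw [map_add B]
  abel

/-- multiplicativity on the approximants -/
lemma At2_mul_approx {N N' : ℕ} {K K' : V →L[ℂ] V} {R R' : S.X →L[ℂ] S.X}
    (hK : IsM N K) (hK' : IsM N' K') (hR : IsCompactOperator R) (hR' : IsCompactOperator R') :
    S.A ((S.kop N K + R) * (S.kop N' K' + R')) = S.A (S.kop N K + R) * S.A (S.kop N' K' + R') := by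
  obtain ⟨D, hD, hE⟩ := S.At2_rem hK hK' hR hR'
  have hM : IsM (max N N') (K ∘L K') :=
    (hK.mono (le_max_left _ _)).comp (hK'.mono (le_max_right _ _))
  have e1 : S.A ((S.kop N K + R) * (S.kop N' K' + R')) = Shd ∘L (K ∘L K') ∘L Sh := by
    rw [hE, map_add, S.A_compact hD, add_zero, S.A_kop hM]
  have e2 : S.A (S.kop N K + R) = Shd ∘L K ∘L Sh := by
    rw [map_add, S.A_compact hR, add_zero, S.A_kop hK]
  have e3 : S.A (S.kop N' K' + R') = Shd ∘L K' ∘L Sh := by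
    rw [map_add, S.A_compact hR', add_zero, S.A_kop hK']
  rw [e1, e2, e3]
  refine ContinuousLinearMap.ext (fun u => ?_)
  show Shd (K (K' (Sh u))) = Shd (K (Sh (Shd (K' (Sh u)))))
  rw [Sh_Shd_of_isM hK']

lemma At2_abs {R R' : Type*} [NormedRing R] [NormedRing R'] (A : R → R') (hA : Continuous A)
    (a b : R) (h : ∀ ε : ℝ, 0 < ε → ∃ a' b' : R, ‖a - a'‖ ≤ ε ∧ ‖b - b'‖ ≤ ε ∧
      A (a' * b') = A a' * A b') : A (a * b) = A a * A b := by
  have h' : ∀ i : ℕ, ∃ a' b' : R, ‖a - a'‖ ≤ 1 / ((i : ℝ) + 1) ∧ ‖b - b'‖ ≤ 1 / ((i : ℝ) + 1) ∧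
      A (a' * b') = A a' * A b' := fun i => h _ (by positivity)
  choose u v hu hv huv using h'
  have hu' : Tendsto u atTop (𝓝 a) := by
    rw [tendsto_iff_norm_sub_tendsto_zero]
    refine squeeze_zero (fun i => norm_nonneg _) (fun i => ?_)
      tendsto_one_div_add_atTop_nhds_zero_nat
    rw [norm_sub_rev]
    exact hu i
  have hv' : Tendsto v atTop (𝓝 b) := by
    rw [tendsto_iff_norm_sub_tendsto_zero]
    refine squeeze_zero (fun i => norm_nonneg _) (fun i => ?_)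
      tendsto_one_div_add_atTop_nhds_zero_nat
    rw [norm_sub_rev]
    exact hv i
  have h1 : Tendsto (fun i => A (u i * v i)) atTop (𝓝 (A (a * b))) :=
    (hA.tendsto _).comp (hu'.mul hv')
  have h2 : Tendsto (fun i => A (u i) * A (v i)) atTop (𝓝 (A a * A b)) :=
    ((hA.tendsto _).comp hu').mul ((hA.tendsto _).comp hv')
  have h3 : (fun i => A (u i * v i)) = fun i => A (u i) * A (v i) := by
    funext i
    exact huv i
  rw [h3] at h1
  exact tendsto_nhds_unique h1 h2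

/-- limits of fast sequences -/
lemma At2_lim {W : Type*} [NormedAddCommGroup W] [CompleteSpace W] (P : ℕ → W)
    (c : ℝ) (h : ∀ i, ‖P (i + 1) - P i‖ ≤ c * (1 / 2) ^ i) :
    ∃ a : W, Tendsto P atTop (𝓝 a) := by
  have hc : CauchySeq P := by
    refine cauchySeq_of_le_geometric (1 / 2 : ℝ) c (by norm_num) (fun i => ?_)
    rw [dist_comm, dist_eq_norm]
    exact h i
  exact cauchySeq_tendsto_of_complete hc

/-- the symbol is multiplicative on approximable operators -/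
theorem Appr.mul {Θ Θ' : S.X →L[ℂ] S.X} (h : S.Appr Θ) (h' : S.Appr Θ') :
    S.A (Θ * Θ') = S.A Θ * S.A Θ' := by
  refine At2_abs (fun T => S.A T) S.A.continuous Θ Θ' (fun ε hε => ?_)
  obtain ⟨N, K, R, hK, hR, hT⟩ := h ε hε
  obtain ⟨N', K', R', hK', hR', hT'⟩ := h' ε hε
  exact ⟨_, _, hT, hT', S.At2_mul_approx hK hK' hR hR'⟩

/-- the sequence of truncated levels -/
lemma At2_levels (K : V →L[ℂ] V) (hK : IsCompactOperator K) :
    ∃ M : ℕ → ℕ, Monotone M ∧ ∀ i, ‖K - tr (M i) ∘L K ∘L tr (M i)‖ ≤ (1 / 2 : ℝ) ^ i := by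
  have h : ∀ i : ℕ, ∃ N0, ∀ N, N0 ≤ N → ‖K - tr N ∘L K ∘L tr N‖ ≤ (1 / 2 : ℝ) ^ i :=
    fun i => compact_trunc K hK (by positivity)
  choose N0 hN0 using h
  refine ⟨fun i => ∑ k ∈ Finset.range (i + 1), N0 k, ?_, fun i => ?_⟩
  · refine monotone_nat_of_le_succ (fun i => ?_)
    rw [Finset.sum_range_succ _ (i + 1)]
    exact Nat.le_add_right _ _
  · exact hN0 i _ (Finset.single_le_sum (fun _ _ => Nat.zero_le _) (Finset.self_mem_range_succ i))

/-- conjugation by the shifts -/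
noncomputable def cj (K : V →L[ℂ] V) : V →L[ℂ] V := Sh ∘L K ∘L Shd

lemma cj_sub (K L : V →L[ℂ] V) : cj K - cj L = cj (K - L) := by
  refine ContinuousLinearMap.ext (fun u => ?_)
  show Sh (K (Shd u)) - Sh (L (Shd u)) = Sh (K (Shd u) - L (Shd u))
  rw [map_sub]

lemma norm_cj_le (K : V →L[ℂ] V) : ‖cj K‖ ≤ ‖K‖ := by
  refine ContinuousLinearMap.opNorm_le_bound _ (norm_nonneg _) (fun u => ?_)
  show ‖Sh (K (Shd u))‖ ≤ ‖K‖ * ‖u‖
  rw [norm_Sh]
  exact (K.le_opNorm _).trans (mul_le_mul_of_nonneg_left (norm_Shd_le u) (norm_nonneg _))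

/-- lifting of compact operators -/
theorem exists_lift (K : V →L[ℂ] V) (hK : IsCompactOperator K) :
    ∃ Θ : S.X →L[ℂ] S.X, S.A Θ = K ∧ S.Appr Θ := by
  obtain ⟨M, hM, hKM⟩ := At2_levels K hK
  set L : ℕ → V →L[ℂ] V := fun i => cj (tr (M i) ∘L K ∘L tr (M i)) with hL
  have hLM : ∀ i, IsM (M i + 1) (L i) := fun i => isM_conj K (M i)
  have hLd : ∀ i, ‖L (i + 1) - L i‖ ≤ 2 * (1 / 2 : ℝ) ^ i := by
    intro i
    rw [hL]
    show ‖cj (tr (M (i + 1)) ∘L K ∘L tr (M (i + 1))) - cj (tr (M i) ∘L K ∘L tr (M i))‖ ≤ _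
    rw [cj_sub]
    refine (norm_cj_le _).trans ?_
    have e : tr (M (i + 1)) ∘L K ∘L tr (M (i + 1)) - tr (M i) ∘L K ∘L tr (M i) =
        (K - tr (M i) ∘L K ∘L tr (M i)) - (K - tr (M (i + 1)) ∘L K ∘L tr (M (i + 1))) := by abel
    rw [e]
    refine (norm_sub_le _ _).trans ?_
    have h1 := hKM i
    have h2 := hKM (i + 1)
    have h3 : (1 / 2 : ℝ) ^ (i + 1) ≤ (1 / 2) ^ i := by
      rw [pow_succ]
      have : (0 : ℝ) ≤ (1 / 2) ^ i := by positivity
      linarith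
    linarith
  let P : ℕ → (S.X →L[ℂ] S.X) := fun i => S.kop (M 0 + 1) (L 0) +
    ∑ k ∈ Finset.range i, S.kop (M (k + 1) + 1) (L (k + 1) - L k)
  have hP : ∀ i, P (i + 1) - P i = S.kop (M (i + 1) + 1) (L (i + 1) - L i) := by
    intro i
    show (S.kop (M 0 + 1) (L 0) +
      ∑ k ∈ Finset.range (i + 1), S.kop (M (k + 1) + 1) (L (k + 1) - L k)) -
      (S.kop (M 0 + 1) (L 0) + ∑ k ∈ Finset.range i, S.kop (M (k + 1) + 1) (L (k + 1) - L k)) = _
    rw [Finset.sum_range_succ]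
    abel
  have hPn : ∀ i, ‖P (i + 1) - P i‖ ≤ 12 * (1 / 2 : ℝ) ^ i := by
    intro i
    rw [hP]
    refine (S.norm_kop_le _ _).trans ?_
    have := hLd i
    linarith
  have hcomp : ∀ i, IsCompactOperator (P i - S.kop (M i + 1) (L i)) := by
    intro i
    induction i with
    | zero =>
      have : P 0 - S.kop (M 0 + 1) (L 0) = 0 := by
        show S.kop (M 0 + 1) (L 0) + _ - S.kop (M 0 + 1) (L 0) = 0
        simp
      rw [this]
      exact isCompactOperator_zero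
    | succ i ih =>
      have hi : IsM (M (i + 1) + 1) (L i) := (hLM i).mono (by
        have := hM (Nat.le_succ i)
        simp only [Nat.succ_eq_add_one] at this
        omega)
      have h1 : S.kop (M (i + 1) + 1) (L (i + 1)) =
          S.kop (M (i + 1) + 1) (L (i + 1) - L i) + S.kop (M (i + 1) + 1) (L i) := by
        rw [← S.kop_add _ hi, sub_add_cancel]
        have := (hLM (i + 1)).add (hi.smul (-1))
        rwa [neg_one_smul, ← sub_eq_add_neg] at this
      have h2 : P (i + 1) - S.kop (M (i + 1) + 1) (L (i + 1)) =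
          (P i - S.kop (M i + 1) (L i)) +
            (S.kop (M i + 1) (L i) - S.kop (M (i + 1) + 1) (L i)) := by
        rw [h1, ← hP i]
        abel
      rw [h2]
      have h3 : IsCompactOperator (S.kop (M i + 1) (L i) - S.kop (M (i + 1) + 1) (L i)) :=
        S.kop_level (hLM i) (by
          have := hM (Nat.le_succ i)
          simp only [Nat.succ_eq_add_one] at this
          omega)
      exact ih.add h3
  obtain ⟨Θ, hΘ⟩ := At2_lim P 12 hPn
  have hAP : ∀ i, S.A (P i) = tr (M i) ∘L K ∘L tr (M i) := by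
    intro i
    have e : P i = (P i - S.kop (M i + 1) (L i)) + S.kop (M i + 1) (L i) := by abel
    rw [e, map_add, S.A_compact (hcomp i), zero_add, S.A_kop (hLM i)]
    exact conj_back _
  refine ⟨Θ, ?_, fun ε hε => ?_⟩
  · have h1 : Tendsto (fun i => S.A (P i)) atTop (𝓝 (S.A Θ)) := (S.A.continuous.tendsto _).comp hΘ
    have h2 : Tendsto (fun i => S.A (P i)) atTop (𝓝 K) := by
      refine tendsto_iff_norm_sub_tendsto_zero.2 ?_
      refine squeeze_zero (fun i => norm_nonneg _) (fun i => ?_)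
        (tendsto_pow_atTop_nhds_zero_of_lt_one (r := (1 / 2 : ℝ)) (by norm_num) (by norm_num))
      rw [hAP, norm_sub_rev]
      exact hKM i
    exact tendsto_nhds_unique h1 h2
  · have h1 : Tendsto (fun i => ‖P i - Θ‖) atTop (𝓝 0) := tendsto_iff_norm_sub_tendsto_zero.1 hΘ
    obtain ⟨i, hi⟩ := (h1.eventually (gt_mem_nhds hε)).exists
    refine ⟨M i + 1, L i, P i - S.kop (M i + 1) (L i), hLM i, hcomp i, ?_⟩
    have e : S.kop (M i + 1) (L i) + (P i - S.kop (M i + 1) (L i)) = P i := by abel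
    rw [e]
    exact le_trans (le_of_eq (norm_sub_rev Θ (P i))) hi.le


lemma at3_inner_bv (i : ℕ) (w : V) : inner ℂ (bv i) w = w i := by
  unfold bv
  rw [lp.inner_single_left]
  simp

lemma at3_Sh_bv {i : ℕ} (hi : 1 ≤ i) : Sh (bv (i - 1)) = bv i := by
  apply V_ext
  intro j
  rcases Nat.eq_zero_or_pos j with rfl | hj
  · rw [Sh_coord_zero, bv_apply, if_neg (by omega)]
  · obtain ⟨k, rfl⟩ := Nat.exists_eq_succ_of_ne_zero hj.ne'
    rw [Nat.succ_eq_add_one, Sh_coord_succ, bv_apply, bv_apply]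
    by_cases h : k = i - 1
    · rw [if_pos h, if_pos (by omega)]
    · rw [if_neg h, if_neg (by omega)]

lemma at3_tr_bv {i r : ℕ} (h : i ≤ r) : tr r (bv i) = bv i := by
  apply V_ext
  intro j
  rw [tr_coord]
  by_cases hj : j ≤ r
  · rw [if_pos hj]
  · rw [if_neg hj, bv_apply, if_neg (by omega)]

/-- vanishing symbol and vanishing flexible limit imply compactness -/
theorem compact_of_zero (R : S.X →L[ℂ] S.X) (hA : S.A R = 0)
    (h0 : ∀ C : ℝ, 0 ≤ C → ∀ ε : ℝ, 0 < ε → ∃ J, ∀ x : X00, RF S C J x → ‖R (S.j x)‖ ≤ ε) :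
    IsCompactOperator R := by
  apply red
  apply kp3 S R h0
  intro i l hi hl C hC ε hε
  obtain ⟨c, hc⟩ := kp2 S R hi hl
  have hc0 : c = 0 := by
    have key : ∀ δ : ℝ, 0 < δ → ‖c‖ ≤ 4 * δ := by
      intro δ hδ
      obtain ⟨J, hJ⟩ := hc 6 (by norm_num) δ hδ
      have hlim := S.A_tendsto R (bv (i - 1)) (bv (l - 1))
      rw [hA] at hlim
      simp only [zero_apply, inner_zero_right, at3_inner_bv, Shd_coord] at hlim
      have hlim2 := (hlim.sub_const c).norm
      rw [zero_sub, norm_neg] at hlim2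
      refine le_of_tendsto hlim2 ?_
      have hev : ∀ᶠ k in atTop, ‖(S.dv (S.tn k) (R (S.tv k (Sh (bv (i - 1)))))) (l - 1 + 1) - c‖ ≤ 4 * δ := by
        filter_upwards [eventually_ge_atTop (max J (max i l))] with k hk
        have hkJ : J ≤ k := le_trans (le_max_left _ _) hk
        have hki : i ≤ k := le_trans (le_trans (le_max_left _ _) (le_max_right _ _)) hk
        have hkM : max i l ≤ k := le_trans (le_max_right _ _) hk
        have htn := S.tn_ge k
        have htx : (S.tx k (Sh (bv (i - 1))) : E) = Finsupp.single (S.tn k) (bv i) := by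
          unfold tx
          simp only
          rw [at3_Sh_bv hi, at3_tr_bv (le_trans hki htn)]
        have hRI : RI S i 6 J (S.tx k (Sh (bv (i - 1))) : E) := by
          rw [htx]
          exact test_RI S (S.tn_age k) (by rw [S.tn_w k]; exact hkJ) (le_trans hki htn)
        have h1 := hJ (S.tx k (Sh (bv (i - 1)))) hRI
        rw [← S.tv_eq] at h1
        have h2 : ‖S.dv (S.tn k) (S.kop (max i l) (mu i l) (R (S.tv k (Sh (bv (i - 1))))) -
            c • S.tv k (Sh (bv (i - 1))))‖ ≤ 4 * δ := by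
          refine le_trans ((S.dv (S.tn k)).le_opNorm _) ?_
          exact mul_le_mul (S.norm_dv_le _) h1 (norm_nonneg _) (by norm_num)
        rw [map_sub, map_smul, S.dv_kop (isM_mu hi (le_max_left _ _) hl (le_max_right _ _))
          (le_trans hkM htn), mu_apply, S.tv_eq k (Sh (bv (i - 1))), S.dv_j, htx,
          Finsupp.single_eq_same, ← sub_smul, norm_smul, norm_bv, mul_one, ← S.tv_eq] at h2
        have hl1 : l - 1 + 1 = l := by omega
        rw [hl1]
        exact h2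
      exact hev.filter_mono (by rw [← Nat.cofinite_eq_atTop]; exact hyperfilter_le_cofinite)
    by_contra hne
    have hpos : 0 < ‖c‖ := norm_pos_iff.mpr hne
    have := key (‖c‖ / 8) (by positivity)
    linarith
  obtain ⟨J, hJ⟩ := hc C hC ε hε
  refine ⟨J, fun x hx => ?_⟩
  have := hJ x hx
  rwa [hc0, zero_smul, sub_zero] at this

lemma at3_alg {Rg : Type*} [Ring Rg] [Algebra ℂ Rg] (c c' : ℂ) (t t' a a' r r' : Rg)
    (h : t = c • (1 : Rg) + a + r) (h' : t' = c' • (1 : Rg) + a' + r') :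
    t * t' = (c * c') • (1 : Rg) + (c • a' + c' • a + a * a') +
      ((c • (1 : Rg) + a) * r' + r * t') := by
  have e1 : t * t' = (c • (1 : Rg) + a) * t' + r * t' := by rw [← add_mul, ← h]
  have e2 : (c • (1 : Rg) + a) * t' = (c • (1 : Rg) + a) * (c' • (1 : Rg) + a') +
      (c • (1 : Rg) + a) * r' := by rw [← mul_add, ← h']
  rw [e1, e2]
  simp only [add_mul, mul_add, smul_mul_assoc, one_mul, mul_smul_comm, mul_one, smul_add,
    smul_smul, mul_comm c' c]
  abel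

lemma at3_alg2 {Rg : Type*} [Ring Rg] [Algebra ℂ Rg] (c c' : ℂ) (a a' : Rg) :
    (c * c') • (1 : Rg) + (c • a' + c' • a + a * a') = (c • 1 + a) * (c' • 1 + a') := by
  simp only [add_mul, mul_add, smul_mul_assoc, one_mul, mul_smul_comm, mul_one, smul_add,
    smul_smul, mul_comm c' c]
  abel

lemma at3_apply {W : Type*} [NormedAddCommGroup W] [NormedSpace ℂ W] (T Θ : W →L[ℂ] W) (c : ℂ)
    (u : W) : (T - (c • (1 : W →L[ℂ] W) + Θ)) u = (T u - c • u) - Θ u := by
  show T u - (c • u + Θ u) = _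
  rw [sub_add_eq_sub_sub]

lemma at3_compact {W : Type*} [NormedAddCommGroup W] [NormedSpace ℂ W]
    (T' Θ R R' : W →L[ℂ] W) (c : ℂ) (h : IsCompactOperator R) (h' : IsCompactOperator R') :
    IsCompactOperator ((c • (1 : W →L[ℂ] W) + Θ) * R' + R * T') := by
  have hc1 : IsCompactOperator ((c • (1 : W →L[ℂ] W) + Θ) * R') :=
    h'.clm_comp (c • (1 : W →L[ℂ] W) + Θ)
  have hc2 : IsCompactOperator (R * T') := h.comp_clm T'
  exact hc1.add hc2

lemma at3_zero {W : Type*} [NormedAddCommGroup W] [NormedSpace ℂ W] (T Θ R : W →L[ℂ] W)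
    (h : T = (0 : ℂ) • (1 : W →L[ℂ] W) + Θ + R) : T = Θ + R := by
  rw [h, zero_smul, zero_add]

/-- additivity of the symbol on decompositions -/
lemma at3_sum (c : ℂ) (Θ R : S.X →L[ℂ] S.X) (hR : IsCompactOperator R) :
    S.A (c • (1 : S.X →L[ℂ] S.X) + Θ + R) = c • (1 : V →L[ℂ] V) + S.A Θ := by
  have h1 := S.A.map_add (c • (1 : S.X →L[ℂ] S.X) + Θ) R
  have h2 := S.A.map_add (c • (1 : S.X →L[ℂ] S.X)) Θ
  have h3 := S.A.map_smul c (1 : S.X →L[ℂ] S.X)
  rw [h1, h2, h3, S.A_compact hR, S.A_one, add_zero]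

lemma at3_RF_mono {C : ℝ} {J J' : ℕ} {x : E} (h : RF S C J' x) (hJ : J ≤ J') : RF S C J x := by
  refine ⟨h.1.mono le_rfl hJ, ?_⟩
  have h1 := congrArg (act (Q J)) h.2
  rw [act_act, Q_comp_Q, min_eq_left hJ, map_zero] at h1
  exact h1

/-- the decomposition of operators -/
theorem decomp (T : S.X →L[ℂ] S.X) : ∃ (c : ℂ) (Θ R : S.X →L[ℂ] S.X),
    T = c • (1 : S.X →L[ℂ] S.X) + Θ + R ∧ IsCompactOperator R ∧ IsCompactOperator (S.A Θ) ∧
      S.Appr Θ := by
  obtain ⟨c, hc⟩ := kp1 S T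
  have hK := S.A_sub_compact T c hc
  obtain ⟨Θ, hΘ, hApp⟩ := S.exists_lift _ hK
  have e : T = c • (1 : S.X →L[ℂ] S.X) + Θ + (T - (c • (1 : S.X →L[ℂ] S.X) + Θ)) :=
    (add_sub_cancel _ _).symm
  refine ⟨c, Θ, T - (c • (1 : S.X →L[ℂ] S.X) + Θ), e, ?_, by rw [hΘ]; exact hK, hApp⟩
  apply S.compact_of_zero
  · have h1 := S.A.map_sub T (c • (1 : S.X →L[ℂ] S.X) + Θ)
    have h2 := S.A.map_add (c • (1 : S.X →L[ℂ] S.X)) Θ
    have h3 := S.A.map_smul c (1 : S.X →L[ℂ] S.X)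
    rw [h1, h2, h3, S.A_one, hΘ]
    exact sub_eq_zero.mpr (add_sub_cancel _ _).symm
  · intro C hC ε hε
    obtain ⟨J1, hJ1⟩ := hc C hC (ε / 2) (by positivity)
    obtain ⟨J2, hJ2⟩ := hApp.flex S hC (ε := ε / 2) (by positivity)
    refine ⟨max J1 J2, fun x hx => ?_⟩
    have h1 := hJ1 x (S.at3_RF_mono hx (le_max_left _ _))
    have h2 := hJ2 x (S.at3_RF_mono hx (le_max_right _ _))
    rw [at3_apply]
    refine le_trans (norm_sub_le _ _) ?_
    linarith

/-- multiplicativity -/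
theorem A_mul (T T' : S.X →L[ℂ] S.X) : S.A (T * T') = S.A T * S.A T' := by
  obtain ⟨c, Θ, R, hT, hR, -, hΘ⟩ := S.decomp T
  obtain ⟨c', Θ', R', hT', hR', -, hΘ'⟩ := S.decomp T'
  have hAT : S.A T = c • 1 + S.A Θ := by
    rw [hT]
    exact S.at3_sum c Θ R hR
  have hAT' : S.A T' = c' • 1 + S.A Θ' := by
    rw [hT']
    exact S.at3_sum c' Θ' R' hR'
  have hc3 := at3_compact T' Θ R R' c hR hR'
  have e := at3_alg c c' T T' Θ Θ' R R' hT hT'
  rw [e, S.at3_sum _ _ _ hc3, hAT, hAT']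
  have h1 := S.A.map_add (c • Θ' + c' • Θ) (Θ * Θ')
  have h2 := S.A.map_add (c • Θ') (c' • Θ)
  have h3 := S.A.map_smul c Θ'
  have h4 := S.A.map_smul c' Θ
  rw [h1, h2, h3, h4, hΘ.mul S hΘ']
  exact at3_alg2 c c' (S.A Θ) (S.A Θ')

/-- kernel -/
theorem A_eq_zero_iff (T : S.X →L[ℂ] S.X) : S.A T = 0 ↔ IsCompactOperator T := by
  refine ⟨fun h => ?_, fun h => S.A_compact h⟩
  obtain ⟨c, Θ, R, hT, hR, hK, hΘ⟩ := S.decomp T
  have hAT : S.A T = c • 1 + S.A Θ := by
    rw [hT]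
    exact S.at3_sum c Θ R hR
  rw [h] at hAT
  have hc : c = 0 := by
    apply scalar_compact
    have h1 : c • (1 : V →L[ℂ] V) = - S.A Θ := by
      rw [eq_neg_iff_add_eq_zero]
      exact hAT.symm
    rw [h1]
    exact hK.neg
  rw [hc, zero_smul, zero_add] at hAT
  have hΘc : IsCompactOperator Θ := by
    apply S.compact_of_zero Θ hAT.symm
    intro C hC ε hε
    exact hΘ.flex S hC hε
  subst hc
  have hT2 : T = Θ + R := at3_zero T Θ R hT
  rw [hT2]
  exact hΘc.add hR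

/-- range -/
theorem A_range (B : V →L[ℂ] V) : (∃ T, S.A T = B) ↔
    ∃ c : ℂ, ∃ K : V →L[ℂ] V, IsCompactOperator K ∧ B = c • (1 : V →L[ℂ] V) + K := by
  constructor
  · rintro ⟨T, rfl⟩
    obtain ⟨c, Θ, R, hT, hR, hK, -⟩ := S.decomp T
    refine ⟨c, S.A Θ, hK, ?_⟩
    conv_lhs => rw [hT]
    exact S.at3_sum c Θ R hR
  · rintro ⟨c, K, hK, rfl⟩
    obtain ⟨Θ, hΘ, -⟩ := S.exists_lift K hK
    refine ⟨c • 1 + Θ, ?_⟩
    have h2 := S.A.map_add (c • (1 : S.X →L[ℂ] S.X)) Θ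
    have h3 := S.A.map_smul c (1 : S.X →L[ℂ] S.X)
    rw [h2, h3, S.A_one, hΘ]


end Sys

end Pool.Agent.Helper64.Cal
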