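import Pool.Agent.Helper64.Cal.Rt

/-!
# Averages of rapidly increasing sequences
-/

set_option autoImplicit false

open scoped ENNReal

namespace Pool.Agent.Helper64.Cal

/-- a finite rapidly increasing sequence of length `N` -/
structure RIS (S : Sys) (C : ℝ) (N : ℕ) (x : ℕ → E) (J : ℕ → ℕ) : Prop where
  rt : ∀ k, k < N → RT S C (J k) (x k)
  sup : ∀ k, k < N → ∀ i, J (k + 1) ≤ i → x k i = 0
  mono : ∀ k, k < N → J k ≤ J (k + 1)

variable {S : Sys} {C : ℝ} {N : ℕ} {x : ℕ → E} {J : ℕ → ℕ}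

lemma avg_J_mono (h : RIS S C N x J) {k l : ℕ} (hkl : k ≤ l) (hl : l ≤ N) : J k ≤ J l := by
  induction l, hkl using Nat.le_induction with
  | base => exact le_rfl
  | succ l hkl ih => exact (ih (by omega)).trans (h.mono l (by omega))

lemma avg_m_pos (j : ℕ) : (0 : ℝ) < m j := by
  have := m_ge j
  have h2 : 0 < m j := by omega
  exact_mod_cast h2

/-- simple bound: at most one vector is not controlled by its weight -/
lemma simple_bound (h : RIS S C N x J) (hC : 0 ≤ C) (γ s a b : ℕ) (hab : a ≤ b) (hb : b ≤ N) :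
    ‖S.e γ (hi s (∑ k ∈ Finset.Ico a b, x k))‖ ≤
      3 * C + C / m (S.w γ) * ((b : ℝ) - a) := by
  have hm := avg_m_pos (S.w γ)
  induction b, hab using Nat.le_induction with
  | base => simp [hC]
  | succ b hab ih =>
    have ih := ih (by omega)
    have hbN : b < N := by omega
    have hq : 0 ≤ C / m (S.w γ) := div_nonneg hC hm.le
    have hba : (0 : ℝ) ≤ (b : ℝ) - a := by
      have : (a : ℝ) ≤ b := by exact_mod_cast hab
      linarith
    rw [Finset.sum_Ico_succ_top hab, map_add, map_add]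
    have h3 : ‖S.e γ (hi s (x b))‖ ≤ 3 * C := S.hi_bound s (fun η _ => (h.rt b hbN).nb η)
    by_cases hc : S.w γ < J b ∧ s ≤ J b
    · have hx : hi s (x b) = x b := hi_eq_self (fun k hk => (h.rt b hbN).ge k (by omega))
      have h4 : ‖S.e γ (hi s (x b))‖ ≤ C / m (S.w γ) := by
        rw [hx]; exact (h.rt b hbN).wt γ hc.1
      refine (norm_add_le _ _).trans ?_
      push_cast
      nlinarith
    · have h0 : S.e γ (hi s (∑ k ∈ Finset.Ico a b, x k)) = 0 := by
        apply S.e_zero
        intro i hi1 _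
        rw [hi_apply]
        split_ifs with hsi
        · rw [Finsupp.finsetSum_apply]
          apply Finset.sum_eq_zero
          intro k hk
          rw [Finset.mem_Ico] at hk
          apply h.sup k (by omega)
          have h5 : J (k + 1) ≤ J b := avg_J_mono h (by omega) (by omega)
          have h6 := S.w_le γ
          by_cases hw : S.w γ < J b
          · have : ¬ s ≤ J b := fun hs => hc ⟨hw, hs⟩
            omega
          · omega
        · rfl
      rw [h0, zero_add]
      push_cast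
      nlinarith

/-- the coordinates of a sum of a RIS -/
lemma coord_sum (h : RIS S C N x J) (hC : 0 ≤ C) (a b k : ℕ) (hab : a ≤ b) (hb : b ≤ N) :
    ‖(∑ i ∈ Finset.Ico a b, x i) k‖ ≤ 4 * C := by
  rw [Finsupp.finsetSum_apply]
  by_cases hex : ∃ i ∈ Finset.Ico a b, x i k ≠ 0
  · obtain ⟨i0, hi0, hne⟩ := hex
    rw [Finset.mem_Ico] at hi0
    have h1 : J i0 ≤ k := by
      by_contra hlt
      exact hne ((h.rt i0 (by omega)).ge k (by omega))
    have h2 : k < J (i0 + 1) := by
      by_contra hlt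
      exact hne (h.sup i0 (by omega) k (by omega))
    rw [Finset.sum_eq_single i0]
    · exact S.coord_bound (fun η _ => (h.rt i0 (by omega)).nb η)
    · intro i hi hii
      rw [Finset.mem_Ico] at hi
      rcases Nat.lt_or_gt_of_ne hii with hlt | hgt
      · apply h.sup i (by omega)
        have := avg_J_mono h (k := i + 1) (l := i0) (by omega) (by omega)
        omega
      · apply (h.rt i (by omega)).ge
        have := avg_J_mono h (k := i0 + 1) (l := i) (by omega) (by omega)
        omega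
    · intro hn
      exact absurd (Finset.mem_Ico.2 hi0) hn
  · push Not at hex
    rw [Finset.sum_eq_zero hex, norm_zero]
    linarith

lemma avg_exists_cut (h : RIS S C N x J) (ξ a b : ℕ) (hab : a ≤ b) (hb : b ≤ N) :
    ∃ b', a ≤ b' ∧ b' ≤ b ∧ (∀ k, a ≤ k → k < b' → J k ≤ ξ) ∧
      (∀ k, b' ≤ k → k < b → ξ < J k) := by
  induction b, hab using Nat.le_induction with
  | base => exact ⟨a, le_rfl, le_rfl, fun k h1 h2 => by omega, fun k h1 h2 => by omega⟩
  | succ b hab ih =>
    obtain ⟨b', h1, h2, h3, h4⟩ := ih (by omega)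
    by_cases hc : ξ < J b
    · refine ⟨b', h1, by omega, h3, fun k hk1 hk2 => ?_⟩
      rcases Nat.lt_or_ge k b with hkb | hkb
      · exact h4 k hk1 hkb
      · have : k = b := by omega
        rw [this]; exact hc
    · refine ⟨b + 1, by omega, le_rfl, fun k hk1 hk2 => ?_, fun k hk1 hk2 => by omega⟩
      have := avg_J_mono h (k := k) (l := b) (by omega) (by omega)
      omega

/-- one step of the recursion for nodes of low weight -/
lemma rec_step (h : RIS S C N x J) (hC : 0 ≤ C) {A Bc : ℝ} (hA : 0 ≤ A) (hB : 0 ≤ Bc)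
    (hD : ∀ γ s a b, a ≤ b → b ≤ N →
      ‖S.e γ (hi s (∑ k ∈ Finset.Ico a b, x k))‖ ≤ A + Bc * ((b : ℝ) - a))
    (γ s a b : ℕ) (hab : a ≤ b) (hb : b ≤ N) :
    ‖S.e γ (hi s (∑ k ∈ Finset.Ico a b, x k))‖ ≤
      (S.age γ + 1) * (4 * C) + (m (S.w γ) : ℝ)⁻¹ * (S.age γ * (A + Bc) + Bc * ((b : ℝ) - a)) := by
  induction γ using Nat.strong_induction_on generalizing s a b with
  | _ γ ih =>
    have hm := avg_m_pos (S.w γ)
    have hmi : 0 < (m (S.w γ) : ℝ)⁻¹ := inv_pos.2 hm
    have hba : (0 : ℝ) ≤ (b : ℝ) - a := by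
      have : (a : ℝ) ≤ b := by exact_mod_cast hab
      linarith
    have hco : ‖(hi s (∑ k ∈ Finset.Ico a b, x k)) γ‖ ≤ 4 * C := by
      rw [hi_apply]
      split_ifs
      · exact coord_sum h hC a b γ hab hb
      · rw [norm_zero]; linarith
    by_cases hage : S.age γ = 0
    · rw [S.e_root_apply hage, hage]
      refine hco.trans ?_
      have : 0 ≤ (m (S.w γ) : ℝ)⁻¹ * (Bc * ((b : ℝ) - a)) := by positivity
      push_cast
      nlinarith
    · obtain ⟨b', h1, h2, h3, h4⟩ := avg_exists_cut h (S.par γ) a b hab hb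
      have hpar := S.par_lt γ hage
      have hap := S.age_par γ hage
      have hwp := S.w_par γ hage
      have ihp := ih (S.par γ) hpar s a b' h1 (by omega)
      rw [hwp] at ihp
      have he1 : S.e (S.par γ) (hi s (∑ k ∈ Finset.Ico a b, x k)) =
          S.e (S.par γ) (hi s (∑ k ∈ Finset.Ico a b', x k)) := by
        apply S.e_local
        intro i _ hi2
        rw [hi_apply, hi_apply]
        split_ifs with hsi
        · rw [← Finset.sum_Ico_consecutive _ h1 h2, Finsupp.add_apply]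
          have : (∑ k ∈ Finset.Ico b' b, x k) i = 0 := by
            rw [Finsupp.finsetSum_apply]
            apply Finset.sum_eq_zero
            intro k hk
            rw [Finset.mem_Ico] at hk
            apply (h.rt k (by omega)).ge
            have := h4 k hk.1 hk.2
            omega
          rw [this, add_zero]
        · rfl
      have hBb : ‖S.B γ (hi s (∑ k ∈ Finset.Ico a b, x k))‖ ≤ A + Bc * ((b : ℝ) - b' + 1) := by
        apply S.B_bound hage
        intro η _
        have hrw : hi (S.par γ + 1) (hi s (∑ k ∈ Finset.Ico a b, x k)) =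
            hi (max (S.par γ + 1) s) (∑ k ∈ Finset.Ico (max a (b' - 1)) b, x k) := by
          ext1 i
          rw [hi_apply, hi_apply, hi_apply]
          by_cases hi1 : S.par γ + 1 ≤ i
          · by_cases hi2 : s ≤ i
            · rw [if_pos hi1, if_pos hi2, if_pos (by omega)]
              have hle1 : a ≤ max a (b' - 1) := le_max_left _ _
              have hle2 : max a (b' - 1) ≤ b := by omega
              rw [← Finset.sum_Ico_consecutive _ hle1 hle2, Finsupp.add_apply]
              have : (∑ k ∈ Finset.Ico a (max a (b' - 1)), x k) i = 0 := by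
                rw [Finsupp.finsetSum_apply]
                apply Finset.sum_eq_zero
                intro k hk
                rw [Finset.mem_Ico] at hk
                apply h.sup k (by omega)
                have h5 := avg_J_mono h (k := k + 1) (l := b' - 1) (by omega) (by omega)
                have h6 := h3 (b' - 1) (by omega) (by omega)
                omega
              rw [this, zero_add]
            · rw [if_pos hi1, if_neg hi2, if_neg (by omega)]
          · rw [if_neg hi1, if_neg (by omega)]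
        rw [hrw]
        refine (hD η _ (max a (b' - 1)) b (by omega) hb).trans ?_
        have h7 : (b' : ℝ) - 1 ≤ ((max a (b' - 1) : ℕ) : ℝ) := by
          have : b' ≤ max a (b' - 1) + 1 := by omega
          have : (b' : ℝ) ≤ ((max a (b' - 1) : ℕ) : ℝ) + 1 := by exact_mod_cast this
          linarith
        nlinarith
      rw [S.e_step_apply hage, he1]
      have hnB : ‖((m (S.w γ) : ℂ)⁻¹) • S.B γ (hi s (∑ k ∈ Finset.Ico a b, x k))‖ ≤
          (m (S.w γ) : ℝ)⁻¹ * (A + Bc * ((b : ℝ) - b' + 1)) := by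
        rw [norm_smul]
        have : ‖((m (S.w γ) : ℂ)⁻¹)‖ = (m (S.w γ) : ℝ)⁻¹ := by
          rw [norm_inv, Complex.norm_natCast]
        rw [this]
        exact mul_le_mul_of_nonneg_left hBb hmi.le
      refine (norm_add_le _ _).trans ?_
      refine (add_le_add_left (norm_add_le _ _) _).trans ?_
      have hage' : (S.age γ : ℝ) = S.age (S.par γ) + 1 := by
        rw [hap]; push_cast; ring
      rw [hage']
      refine (add_le_add (add_le_add hco ihp) hnB).trans (le_of_eq ?_)
      ring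

/-- the averaging estimate -/
lemma avg_core (h : RIS S C N x J) (hC : 0 ≤ C) {C1 θ : ℝ} (hC1 : 4 * C ≤ C1) (hθ : 0 ≤ θ)
    (hθ1 : θ ≤ 1) (j : ℕ)
    (hhigh : ∀ γ s a b, j ≤ S.w γ → a ≤ b → b ≤ N →
      ‖S.e γ (hi s (∑ k ∈ Finset.Ico a b, x k))‖ ≤ C1 + C * θ * ((b : ℝ) - a)) (D : ℕ) :
    (∀ γ s a b, a ≤ b → b ≤ N → ‖S.e γ (hi s (∑ k ∈ Finset.Ico a b, x k))‖ ≤
      C1 * aseq (np j) (D + 1) + 3 * C * max (((64 : ℝ) ^ D)⁻¹) θ * ((b : ℝ) - a)) ∧
    (∀ γ s a b, S.w γ < j → a ≤ b → b ≤ N → ‖S.e γ (hi s (∑ k ∈ Finset.Ico a b, x k))‖ ≤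
      C1 * aseq (np j) (D + 2) +
        3 * C * max (((64 : ℝ) ^ D)⁻¹) θ / m (S.w γ) * ((b : ℝ) - a)) := by
  have hC10 : 0 ≤ C1 := by linarith
  have step : ∀ D : ℕ, (∀ γ s a b, a ≤ b → b ≤ N → ‖S.e γ (hi s (∑ k ∈ Finset.Ico a b, x k))‖ ≤
      C1 * aseq (np j) (D + 1) + 3 * C * max (((64 : ℝ) ^ D)⁻¹) θ * ((b : ℝ) - a)) →
      (∀ γ s a b, S.w γ < j → a ≤ b → b ≤ N → ‖S.e γ (hi s (∑ k ∈ Finset.Ico a b, x k))‖ ≤
      C1 * aseq (np j) (D + 2) +
        3 * C * max (((64 : ℝ) ^ D)⁻¹) θ / m (S.w γ) * ((b : ℝ) - a)) := by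
    intro D hD γ s a b hw hab hb
    have hmx0 : 0 ≤ max (((64 : ℝ) ^ D)⁻¹) θ := le_max_of_le_right hθ
    have hmx1 : max (((64 : ℝ) ^ D)⁻¹) θ ≤ 1 :=
      max_le (inv_le_one_of_one_le₀ (one_le_pow₀ (by norm_num))) hθ1
    set M := max (((64 : ℝ) ^ D)⁻¹) θ with hM
    have hBc : 3 * C * M ≤ C1 := by nlinarith
    have hBc0 : 0 ≤ 3 * C * M := by positivity
    have hA0 : (0 : ℝ) ≤ C1 * aseq (np j) (D + 1) := by positivity
    have := rec_step h hC hA0 hBc0 hD γ s a b hab hb
    refine this.trans ?_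
    have hba : (0 : ℝ) ≤ (b : ℝ) - a := by
      have : (a : ℝ) ≤ b := by exact_mod_cast hab
      linarith
    have hm := avg_m_pos (S.w γ)
    have hmi : (m (S.w γ) : ℝ)⁻¹ ≤ 1 := by
      apply inv_le_one_of_one_le₀
      have := m_ge (S.w γ)
      have h2 : 1 ≤ m (S.w γ) := by omega
      exact_mod_cast h2
    have hmi0 : 0 < (m (S.w γ) : ℝ)⁻¹ := inv_pos.2 hm
    have hage : (S.age γ : ℝ) ≤ np j := by
      have := (S.age_le γ).trans (n_le_np hw)
      exact_mod_cast this
    have hage0 : (0 : ℝ) ≤ S.age γ := Nat.cast_nonneg _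
    have haseq : (aseq (np j) (D + 2) : ℝ) = np j * aseq (np j) (D + 1) + 3 * np j + 2 := by
      have : aseq (np j) (D + 2) = np j * aseq (np j) (D + 1) + 3 * np j + 2 := rfl
      rw [this]; push_cast; ring
    rw [haseq]
    have e1 : (S.age γ + 1) * (4 * C) ≤ (np j + 1) * C1 := by
      nlinarith
    have e2 : (m (S.w γ) : ℝ)⁻¹ * (S.age γ * (C1 * aseq (np j) (D + 1) + 3 * C * M)) ≤
        np j * (C1 * aseq (np j) (D + 1) + C1) := by
      have : (0 : ℝ) ≤ S.age γ * (C1 * aseq (np j) (D + 1) + 3 * C * M) := by positivity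
      calc _ ≤ 1 * (S.age γ * (C1 * aseq (np j) (D + 1) + 3 * C * M)) :=
            mul_le_mul_of_nonneg_right hmi this
        _ = S.age γ * (C1 * aseq (np j) (D + 1) + 3 * C * M) := one_mul _
        _ ≤ _ := by
          apply mul_le_mul hage _ (by positivity) (by positivity)
          linarith
    have e3 : (m (S.w γ) : ℝ)⁻¹ * (3 * C * M * ((b : ℝ) - a)) =
        3 * C * M / m (S.w γ) * ((b : ℝ) - a) := by
      field_simp
    rw [mul_add, e3]
    have hnp : (0 : ℝ) ≤ np j := Nat.cast_nonneg _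
    nlinarith
  induction D with
  | zero =>
    have h0 : ∀ γ s a b, a ≤ b → b ≤ N → ‖S.e γ (hi s (∑ k ∈ Finset.Ico a b, x k))‖ ≤
      C1 * aseq (np j) (0 + 1) + 3 * C * max (((64 : ℝ) ^ 0)⁻¹) θ * ((b : ℝ) - a) := by
      intro γ s a b hab hb
      refine (simple_bound h hC γ s a b hab hb).trans ?_
      have hba : (0 : ℝ) ≤ (b : ℝ) - a := by
        have : (a : ℝ) ≤ b := by exact_mod_cast hab
        linarith
      have haseq : (aseq (np j) (0 + 1) : ℝ) = 3 * np j + 2 := by
        have : aseq (np j) (0 + 1) = 3 * np j + 2 := by simp [aseq]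
        rw [this]; push_cast; ring
      rw [haseq]
      have hnp : (0 : ℝ) ≤ np j := Nat.cast_nonneg _
      have hmx : (1 : ℝ) ≤ max (((64 : ℝ) ^ 0)⁻¹) θ := le_max_of_le_left (by norm_num)
      have hm : (1 : ℝ) ≤ m (S.w γ) := by
        have := m_ge (S.w γ)
        have h2 : 1 ≤ m (S.w γ) := by omega
        exact_mod_cast h2
      have hd : C / m (S.w γ) ≤ C := div_le_self hC hm
      have e1 : C / m (S.w γ) * ((b : ℝ) - a) ≤ C * ((b : ℝ) - a) :=
        mul_le_mul_of_nonneg_right hd hba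
      have e2 : C * ((b : ℝ) - a) ≤ 3 * C * max (((64 : ℝ) ^ 0)⁻¹) θ * ((b : ℝ) - a) := by
        apply mul_le_mul_of_nonneg_right _ hba
        nlinarith
      have e3 : 3 * C ≤ C1 * (3 * np j + 2) := by nlinarith
      linarith
    exact ⟨h0, step 0 h0⟩
  | succ D ih =>
    have h0 : ∀ γ s a b, a ≤ b → b ≤ N → ‖S.e γ (hi s (∑ k ∈ Finset.Ico a b, x k))‖ ≤
      C1 * aseq (np j) (D + 1 + 1) + 3 * C * max (((64 : ℝ) ^ (D + 1))⁻¹) θ * ((b : ℝ) - a) := by
      intro γ s a b hab hb
      have hba : (0 : ℝ) ≤ (b : ℝ) - a := by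
        have : (a : ℝ) ≤ b := by exact_mod_cast hab
        linarith
      have hmx0 : 0 ≤ max (((64 : ℝ) ^ D)⁻¹) θ := le_max_of_le_right hθ
      by_cases hw : S.w γ < j
      · refine (ih.2 γ s a b hw hab hb).trans ?_
        apply add_le_add le_rfl
        apply mul_le_mul_of_nonneg_right _ hba
        rw [mul_div_assoc]
        apply mul_le_mul_of_nonneg_left _ (by positivity)
        have hm : (64 : ℝ) ≤ m (S.w γ) := by exact_mod_cast m_ge (S.w γ)
        calc max (((64 : ℝ) ^ D)⁻¹) θ / m (S.w γ) ≤ max (((64 : ℝ) ^ D)⁻¹) θ / 64 :=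
              div_le_div_of_nonneg_left hmx0 (by norm_num) hm
          _ ≤ max (((64 : ℝ) ^ (D + 1))⁻¹) θ := by
              rw [div_le_iff₀ (by norm_num)]
              apply max_le
              · calc ((64 : ℝ) ^ D)⁻¹ = ((64 : ℝ) ^ (D + 1))⁻¹ * 64 := by
                      rw [pow_succ, mul_inv]; field_simp
                  _ ≤ _ := mul_le_mul_of_nonneg_right (le_max_left _ _) (by norm_num)
              · calc θ ≤ θ * 64 := by linarith
                  _ ≤ _ := mul_le_mul_of_nonneg_right (le_max_right _ _) (by norm_num)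
      · refine (hhigh γ s a b (by omega) hab hb).trans ?_
        have ha : (1 : ℝ) ≤ aseq (np j) (D + 1 + 1) := by exact_mod_cast aseq_pos (np j) (D + 1)
        have e1 : C1 ≤ C1 * aseq (np j) (D + 1 + 1) := by nlinarith
        have e2 : C * θ ≤ 3 * C * max (((64 : ℝ) ^ (D + 1))⁻¹) θ := by
          have h1 : θ ≤ max (((64 : ℝ) ^ (D + 1))⁻¹) θ := le_max_right _ _
          have h2 : C * θ ≤ C * max (((64 : ℝ) ^ (D + 1))⁻¹) θ :=
            mul_le_mul_of_nonneg_left h1 hC
          have h3 : 0 ≤ C * max (((64 : ℝ) ^ (D + 1))⁻¹) θ := by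
            have := hθ.trans h1
            positivity
          nlinarith
        have e3 := mul_le_mul_of_nonneg_right e2 hba
        linarith
    exact ⟨h0, step (D + 1) h0⟩

lemma avg_hi_zero (y : E) : hi 0 y = y := hi_eq_self (fun k hk => by omega)

/-- regular averages -/
theorem avg_gen {j : ℕ} (h : RIS S C (n j) x J) (hC : 0 ≤ C) (z : E)
    (hz : z = ((m j : ℂ) / (n j : ℂ)) • ∑ k ∈ Finset.range (n j), x k) :
    z ∈ X00 ∧ (∀ γ, ‖S.e γ z‖ ≤ 8 * C) ∧ (∀ γ, S.w γ < j → ‖S.e γ z‖ ≤ 8 * C / m (S.w γ)) ∧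
      (∀ γ, j < S.w γ → ‖S.e γ z‖ ≤ 8 * C / m j) ∧ (∀ k, ‖z k‖ ≤ 8 * C / m j) := by
  have hmj := avg_m_pos j
  have hmj64 : (64 : ℝ) ≤ m j := by exact_mod_cast m_ge j
  have hn0 : 0 < n j := n_pos j
  have hn : (0 : ℝ) < n j := by exact_mod_cast hn0
  have hm2 : (m j : ℝ) ^ 2 ≤ n j := by exact_mod_cast m_sq_le_n j
  have hc : ‖((m j : ℂ) / (n j : ℂ))‖ = (m j : ℝ) / n j := by
    rw [norm_div, Complex.norm_natCast, Complex.norm_natCast]
  have hmn : (m j : ℝ) / n j ≤ 1 / m j := by
    rw [div_le_div_iff₀ hn hmj]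
    nlinarith
  have hmn0 : 0 ≤ (m j : ℝ) / n j := by positivity
  have hez : ∀ γ, ‖S.e γ z‖ = (m j : ℝ) / n j *
      ‖S.e γ (hi 0 (∑ k ∈ Finset.Ico 0 (n j), x k))‖ := by
    intro γ
    rw [hz, map_smul, norm_smul, hc, avg_hi_zero, ← Finset.range_eq_Ico]
  have hsimple : ∀ γ, ‖S.e γ z‖ ≤ 3 * C / m j + C * (m j / m (S.w γ)) := by
    intro γ
    have hmw := avg_m_pos (S.w γ)
    have h1 := simple_bound h hC γ 0 0 (n j) (Nat.zero_le _) le_rfl
    rw [hez]
    calc _ ≤ (m j : ℝ) / n j * (3 * C + C / m (S.w γ) * ((n j : ℝ) - (0 : ℕ))) :=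
          mul_le_mul_of_nonneg_left h1 hmn0
      _ = 3 * C * ((m j : ℝ) / n j) + C * (m j / m (S.w γ)) := by
          push_cast
          field_simp
          ring
      _ ≤ 3 * C * (1 / m j) + C * (m j / m (S.w γ)) := by
          have := mul_le_mul_of_nonneg_left hmn (by positivity : (0 : ℝ) ≤ 3 * C)
          linarith
      _ = _ := by ring
  have hlow : ∀ γ, S.w γ < j → ‖S.e γ z‖ ≤ 8 * C / m (S.w γ) := by
    intro γ hw
    have hmw := avg_m_pos (S.w γ)
    have hθ1 : (1 : ℝ) / m j ≤ 1 := by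
      rw [div_le_one hmj]; linarith
    have hcore := (avg_core h hC (C1 := 4 * C) (θ := 1 / m j) le_rfl (by positivity) hθ1 j
      (by
        intro γ' s a b hw' hab hb
        refine (simple_bound h hC γ' s a b hab hb).trans ?_
        have hba : (0 : ℝ) ≤ (b : ℝ) - a := by
          have : (a : ℝ) ≤ b := by exact_mod_cast hab
          linarith
        have hmm : (m j : ℝ) ≤ m (S.w γ') := by exact_mod_cast m_strictMono.monotone hw'
        have e1 : C / m (S.w γ') ≤ C * (1 / m j) := by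
          rw [mul_one_div]
          exact div_le_div_of_nonneg_left hC hmj hmm
        have e2 := mul_le_mul_of_nonneg_right e1 hba
        linarith) (m j ^ 2)).2 γ 0 0 (n j) hw (Nat.zero_le _) le_rfl
    have hmax : max (((64 : ℝ) ^ (m j ^ 2))⁻¹) (1 / (m j : ℝ)) = 1 / m j := by
      apply max_eq_right
      refine (depth j).trans ?_
      rw [inv_eq_one_div]
      apply one_div_le_one_div_of_le hmj
      nlinarith
    rw [hmax] at hcore
    rw [hez]
    have hnge : (m j : ℝ) ^ 4 * (aseq (np j) (m j ^ 2 + 2) + 4) ≤ n j := by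
      exact_mod_cast n_ge j
    have hA0 : (0 : ℝ) ≤ aseq (np j) (m j ^ 2 + 2) := Nat.cast_nonneg _
    have hmm : (m (S.w γ) : ℝ) ≤ m j := by exact_mod_cast (m_strictMono hw).le
    have hk1 : (m j : ℝ) / n j * aseq (np j) (m j ^ 2 + 2) ≤ 1 / m (S.w γ) := by
      rw [div_mul_eq_mul_div, div_le_div_iff₀ hn hmw]
      set A : ℝ := (aseq (np j) (m j ^ 2 + 2) : ℝ)
      have h1 : (m j : ℝ) * A * m (S.w γ) ≤ m j * A * m j :=
        mul_le_mul_of_nonneg_left hmm (by positivity)
      have h2 : (m j : ℝ) * A * m j ≤ (m j : ℝ) ^ 4 * (A + 4) := by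
        have h3 : (m j : ℝ) ^ 2 ≤ (m j : ℝ) ^ 4 :=
          pow_le_pow_right₀ (by linarith) (by norm_num)
        have h4 : (m j : ℝ) * A * m j = (m j : ℝ) ^ 2 * A := by ring
        rw [h4]
        have h5 : (m j : ℝ) ^ 2 * A ≤ (m j : ℝ) ^ 4 * A := mul_le_mul_of_nonneg_right h3 hA0
        have h6 : (0 : ℝ) ≤ (m j : ℝ) ^ 4 := by positivity
        nlinarith
      linarith
    calc _ ≤ (m j : ℝ) / n j * (4 * C * aseq (np j) (m j ^ 2 + 2) +
          3 * C * (1 / m j) / m (S.w γ) * ((n j : ℝ) - (0 : ℕ))) :=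
          mul_le_mul_of_nonneg_left hcore hmn0
      _ = 4 * C * ((m j : ℝ) / n j * aseq (np j) (m j ^ 2 + 2)) + 3 * C * (1 / m (S.w γ)) := by
          push_cast
          field_simp
          ring
      _ ≤ 4 * C * (1 / m (S.w γ)) + 3 * C * (1 / m (S.w γ)) := by
          have := mul_le_mul_of_nonneg_left hk1 (by positivity : (0 : ℝ) ≤ 4 * C)
          linarith
      _ ≤ _ := by
          have : 0 ≤ C * (1 / m (S.w γ)) := by positivity
          have h8 : 8 * C / m (S.w γ) = 8 * (C * (1 / m (S.w γ))) := by ring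
          rw [h8]
          linarith
  have hhigh : ∀ γ, j < S.w γ → ‖S.e γ z‖ ≤ 8 * C / m j := by
    intro γ hw
    have hmw := avg_m_pos (S.w γ)
    refine (hsimple γ).trans ?_
    have h1 : (m j : ℝ) ^ 2 ≤ m (S.w γ) := by exact_mod_cast m_sq_le_m hw
    have h2 : (m j : ℝ) / m (S.w γ) ≤ 1 / m j := by
      rw [div_le_div_iff₀ hmw hmj]
      nlinarith
    have h3 := mul_le_mul_of_nonneg_left h2 hC
    have h4 : 0 ≤ C * (1 / m j) := by positivity
    have h8 : 8 * C / m j = 8 * (C * (1 / m j)) := by ring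
    have h9 : 3 * C / m j = 3 * (C * (1 / m j)) := by ring
    rw [h8, h9]
    linarith
  refine ⟨?_, ?_, hlow, hhigh, ?_⟩
  · rw [hz]
    apply Submodule.smul_mem
    apply Submodule.sum_mem
    intro k hk
    exact (h.rt k (Finset.mem_range.1 hk)).mem
  · intro γ
    have hmw1 : (1 : ℝ) ≤ m (S.w γ) := by
      have := m_ge (S.w γ)
      have h2 : 1 ≤ m (S.w γ) := by omega
      exact_mod_cast h2
    rcases lt_trichotomy (S.w γ) j with hlt | heq | hgt
    · exact (hlow γ hlt).trans (div_le_self (by positivity) hmw1)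
    · refine (hsimple γ).trans ?_
      rw [heq, div_self hmj.ne']
      have : 3 * C / m j ≤ 3 * C := div_le_self (by positivity) (by linarith)
      linarith
    · exact (hhigh γ hgt).trans (div_le_self (by positivity) (by linarith))
  · intro k
    rw [hz, Finsupp.smul_apply, norm_smul, hc, Finset.range_eq_Ico]
    have h1 := coord_sum h hC 0 (n j) k (Nat.zero_le _) le_rfl
    calc _ ≤ (1 / m j : ℝ) * (4 * C) :=
          mul_le_mul hmn h1 (norm_nonneg _) (by positivity)
      _ ≤ _ := by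
          have h4 : 0 ≤ C * (1 / m j) := by positivity
          have h8 : 8 * C / m j = 8 * (C * (1 / m j)) := by ring
          rw [h8]
          linarith

/-- special averages: `C1` bounds the nodes of weight exactly `j` -/
theorem avg_spec {j : ℕ} (h : RIS S C (n j) x J) (hC : 0 ≤ C) {C1 : ℝ} (hC1 : 4 * C ≤ C1)
    (hs : ∀ γ s a b, S.w γ = j → a ≤ b → b ≤ n j →
      ‖S.e γ (hi s (∑ k ∈ Finset.Ico a b, x k))‖ ≤ C1) (γ : ℕ) :
    ‖S.e γ (∑ k ∈ Finset.range (n j), x k)‖ ≤ (C1 + 3 * C) * n j / (m j : ℝ) ^ 2 := by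
  have hmj := avg_m_pos j
  have hmj64 : (64 : ℝ) ≤ m j := by exact_mod_cast m_ge j
  have hn0 : 0 < n j := n_pos j
  have hn : (0 : ℝ) < n j := by exact_mod_cast hn0
  have hC10 : 0 ≤ C1 := by linarith
  have hθ1 : (1 : ℝ) / (m j : ℝ) ^ 2 ≤ 1 := by
    rw [div_le_one (by positivity)]
    nlinarith
  have hcore := (avg_core h hC (C1 := C1) (θ := 1 / (m j : ℝ) ^ 2) hC1 (by positivity) hθ1 j
    (by
      intro γ' s a b hw' hab hb
      have hba : (0 : ℝ) ≤ (b : ℝ) - a := by
        have : (a : ℝ) ≤ b := by exact_mod_cast hab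
        linarith
      rcases hw'.eq_or_lt with heq | hlt
      · refine (hs γ' s a b heq.symm hab hb).trans ?_
        have : 0 ≤ C * (1 / (m j : ℝ) ^ 2) * ((b : ℝ) - a) := by positivity
        linarith
      · refine (simple_bound h hC γ' s a b hab hb).trans ?_
        have hmm : (m j : ℝ) ^ 2 ≤ m (S.w γ') := by exact_mod_cast m_sq_le_m hlt
        have e1 : C / m (S.w γ') ≤ C * (1 / (m j : ℝ) ^ 2) := by
          rw [mul_one_div]
          exact div_le_div_of_nonneg_left hC (by positivity) hmm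
        have e2 := mul_le_mul_of_nonneg_right e1 hba
        linarith) (m j ^ 2)).1 γ 0 0 (n j) (Nat.zero_le _) le_rfl
  have hmax : max (((64 : ℝ) ^ (m j ^ 2))⁻¹) (1 / (m j : ℝ) ^ 2) = 1 / (m j : ℝ) ^ 2 := by
    apply max_eq_right
    refine (depth j).trans ?_
    rw [inv_eq_one_div]
  rw [hmax, avg_hi_zero, ← Finset.range_eq_Ico] at hcore
  refine hcore.trans ?_
  have hnge : (m j : ℝ) ^ 4 * (aseq (np j) (m j ^ 2 + 2) + 4) ≤ n j := by
    exact_mod_cast n_ge j
  have hA1 : (aseq (np j) (m j ^ 2 + 1) : ℝ) ≤ aseq (np j) (m j ^ 2 + 2) := by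
    exact_mod_cast aseq_mono (np j) (by omega)
  have hA0 : (0 : ℝ) ≤ aseq (np j) (m j ^ 2 + 2) := Nat.cast_nonneg _
  have hk : (aseq (np j) (m j ^ 2 + 1) : ℝ) ≤ n j / (m j : ℝ) ^ 2 := by
    rw [le_div_iff₀ (by positivity)]
    set A : ℝ := (aseq (np j) (m j ^ 2 + 2) : ℝ)
    have h3 : (m j : ℝ) ^ 2 ≤ (m j : ℝ) ^ 4 :=
      pow_le_pow_right₀ (by linarith) (by norm_num)
    have h6 : (0 : ℝ) ≤ (m j : ℝ) ^ 4 := by positivity
    have h7 : (0 : ℝ) ≤ (m j : ℝ) ^ 2 := by positivity
    have h5 : (m j : ℝ) ^ 2 * A ≤ (m j : ℝ) ^ 4 * A := mul_le_mul_of_nonneg_right h3 hA0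
    have h8 := mul_le_mul_of_nonneg_right hA1 h7
    nlinarith
  have e1 := mul_le_mul_of_nonneg_left hk hC10
  calc _ ≤ C1 * (n j / (m j : ℝ) ^ 2) + 3 * C * (1 / (m j : ℝ) ^ 2) * ((n j : ℝ) - (0 : ℕ)) := by
        linarith
    _ = _ := by
        push_cast
        field_simp
        ring

end Pool.Agent.Helper64.Cal
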