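import Pool.Agent.Helper64.Cal.Defs

/-!
# Parameters
-/

set_option autoImplicit false

namespace Pool.Agent.Helper64.Cal

/-- bound for the previous lengths -/
def np (j : ℕ) : ℕ := if j = 0 then 0 else n (j - 1)

lemma m_zero : m 0 = 64 := rfl

lemma m_succ (j : ℕ) : m (j + 1) = n j ^ 2 := rfl

lemma n_eq (j : ℕ) : n j = nf (np j) (m j) := by
  cases j with
  | zero => simp only [n, st, m, np, if_true]
  | succ j => simp [np, n, m, st]

lemma par_add_four_le_nf (N M : ℕ) : N + 4 ≤ nf N M := by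
  unfold nf
  omega

lemma par_four_le_n (j : ℕ) : 4 ≤ n j := by
  rw [n_eq]
  have := par_add_four_le_nf (np j) (m j)
  omega

lemma n_pos (j : ℕ) : 1 ≤ n j := by
  have := par_four_le_n j
  omega

lemma par_pow_four_le_nf (N M : ℕ) : M ^ 4 * (aseq N (M ^ 2 + 2) + 4) ≤ nf N M := by
  unfold nf
  omega

lemma n_ge (j : ℕ) : m j ^ 4 * (aseq (np j) (m j ^ 2 + 2) + 4) ≤ n j := by
  rw [n_eq j]
  exact par_pow_four_le_nf _ _

lemma par_m_pow_le_n (j : ℕ) : m j ^ 4 ≤ n j := by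
  have h1 := n_ge j
  have h2 : m j ^ 4 * 1 ≤ m j ^ 4 * (aseq (np j) (m j ^ 2 + 2) + 4) :=
    Nat.mul_le_mul_left _ (by omega)
  omega

lemma m_ge (j : ℕ) : 64 ≤ m j := by
  induction j with
  | zero => exact le_of_eq rfl
  | succ j ih =>
    rw [m_succ]
    have h1 := par_m_pow_le_n j
    have h2 : m j ≤ m j ^ 4 := Nat.le_self_pow (by norm_num) _
    have h3 : n j ≤ n j ^ 2 := Nat.le_self_pow (by norm_num) _
    omega

lemma m_sq_le_n (j : ℕ) : m j ^ 2 ≤ n j := by
  have h1 := par_m_pow_le_n j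
  have h2 : m j ^ 2 ≤ m j ^ 4 := Nat.pow_le_pow_right (by have := m_ge j; omega) (by norm_num)
  omega

lemma par_m_lt_n (j : ℕ) : m j < n j := by
  have h1 := m_sq_le_n j
  have h2 := m_ge j
  nlinarith

lemma n_strictMono : StrictMono n := by
  apply strictMono_nat_of_lt_succ
  intro j
  have h1 := par_m_lt_n (j + 1)
  rw [m_succ] at h1
  have h2 := n_pos j
  have h3 : n j ≤ n j ^ 2 := Nat.le_self_pow (by norm_num) _
  omega

lemma m_strictMono : StrictMono m := by
  apply strictMono_nat_of_lt_succ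
  intro j
  rw [m_succ]
  have h1 := par_m_lt_n j
  have h3 : n j ≤ n j ^ 2 := Nat.le_self_pow (by norm_num) _
  omega

lemma le_m (j : ℕ) : j ≤ m j := m_strictMono.id_le j

lemma n_le_np {h j : ℕ} (hj : h < j) : n h ≤ np j := by
  unfold np
  rw [if_neg (by omega)]
  exact n_strictMono.monotone (by omega)

lemma n_sq_le_m {i j : ℕ} (h : i < j) : n i ^ 2 ≤ m j := by
  rw [← m_succ]
  exact m_strictMono.monotone h

lemma m_sq_le_m {i j : ℕ} (h : i < j) : m i ^ 2 ≤ m j := by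
  have h1 := n_sq_le_m h
  have h2 : m i ^ 2 ≤ n i ^ 2 := Nat.pow_le_pow_left (par_m_lt_n i).le _
  omega

lemma aseq_mono (N : ℕ) : Monotone (aseq N) := by
  apply monotone_nat_of_le_succ
  intro D
  rcases Nat.eq_zero_or_pos N with hN | hN
  · subst hN
    cases D with
    | zero => simp [aseq]
    | succ D => simp [aseq]
  · show aseq N D ≤ N * aseq N D + 3 * N + 2
    nlinarith [Nat.zero_le (aseq N D)]

lemma aseq_pos (N D : ℕ) : 1 ≤ aseq N (D + 1) := by
  show 1 ≤ N * aseq N D + 3 * N + 2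
  omega

/-- the depth `D = m j ^ 2` is enough -/
lemma depth (j : ℕ) : ((64 : ℝ) ^ (m j ^ 2))⁻¹ ≤ ((m j : ℝ) ^ 2)⁻¹ := by
  have h1 := m_ge j
  have h2 : m j ^ 2 < 64 ^ (m j ^ 2) := Nat.lt_pow_self (by norm_num)
  apply inv_anti₀
  · have : (0 : ℝ) < m j := by exact_mod_cast (by omega : 0 < m j)
    positivity
  · exact_mod_cast h2.le

end Pool.Agent.Helper64.Cal
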