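import Pool.Agent.Helper64.Cal.El
import Pool.Agent.Helper64.Cal.Par

/-!
# Basic Bourgain-Delbaen estimates for a system of nodes
-/

set_option autoImplicit false

open scoped ENNReal

namespace Pool.Agent.Helper64.Cal

namespace Sys

variable (S : Sys)

lemma rt_le (k : ℕ) : S.rt k ≤ k := by
  induction k using Nat.strong_induction_on with
  | _ k ih =>
    by_cases h : S.age k = 0
    · rw [S.rt_root k h]
    · have h1 := S.par_lt k h
      have h2 := ih _ h1
      rw [← S.rt_par k h]
      omega

lemma w_le_self (k : ℕ) : S.w k ≤ k := (S.w_le k).trans (S.rt_le k)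

lemma rt_le_par {k : ℕ} (h : S.age k ≠ 0) : S.rt k ≤ S.par k := by
  rw [← S.rt_par k h]
  exact S.rt_le _

lemma e_root_apply {k : ℕ} (h : S.age k = 0) (y : E) : S.e k y = y k := by
  rw [S.e_root k h]
  rfl

lemma e_step_apply {k : ℕ} (h : S.age k ≠ 0) (y : E) :
    S.e k y = y k + S.e (S.par k) y + ((m (S.w k) : ℂ)⁻¹) • S.B k y := by
  have h1 := congrArg (fun L : E →ₗ[ℂ] V => L y) (S.e_step k h)
  simp only [LinearMap.add_apply, LinearMap.smul_apply, Finsupp.lapply_apply] at h1
  exact h1

lemma Bd1_local : ∀ k : ℕ, ∀ y y' : E, (∀ i, S.rt k ≤ i → i ≤ k → y i = y' i) →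
    S.e k y = S.e k y' := by
  intro k
  induction k using Nat.strong_induction_on with
  | _ k ih =>
    intro y y' h
    have hrk := S.rt_le k
    by_cases hk : S.age k = 0
    · rw [S.e_root_apply hk, S.e_root_apply hk]
      exact h k hrk le_rfl
    · have hp := S.par_lt k hk
      have hrp := S.rt_le_par hk
      rw [S.e_step_apply hk, S.e_step_apply hk, h k hrk le_rfl]
      have h1 : S.e (S.par k) y = S.e (S.par k) y' := by
        apply ih _ hp
        intro i hi1 hi2
        rw [S.rt_par k hk] at hi1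
        exact h i hi1 (by omega)
      have h2 : S.B k y = S.B k y' := by
        by_cases hw : Even (S.w k)
        · obtain ⟨q, τ, F, hq1, hq2, hτ, hA, hB⟩ := S.gen k hk hw
          rw [hB]
          apply tB_local
          intro i hi1 hi2
          exact h i (by omega) (by omega)
        · obtain ⟨η, hη1, hη2, hη3, hB⟩ := S.spec k hk hw
          rw [hB]
          apply ih _ hη2
          intro i hi1 hi2
          exact h i (by omega) (by omega)
      rw [h1, h2]

lemma B_local {k : ℕ} (hk : S.age k ≠ 0) {y y' : E}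
    (h : ∀ i, S.par k < i → i < k → y i = y' i) : S.B k y = S.B k y' := by
  by_cases hw : Even (S.w k)
  · obtain ⟨q, τ, F, hq1, hq2, hτ, hA, hB⟩ := S.gen k hk hw
    rw [hB]
    apply tB_local
    intro i hi1 hi2
    exact h i (by omega) (by omega)
  · obtain ⟨η, hη1, hη2, hη3, hB⟩ := S.spec k hk hw
    rw [hB]
    apply S.Bd1_local
    intro i hi1 hi2
    exact h i (by omega) (by omega)

lemma e_local {k : ℕ} {y y' : E} (h : ∀ i, S.rt k ≤ i → i ≤ k → y i = y' i) :
    S.e k y = S.e k y' := S.Bd1_local k y y' h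

lemma e_zero {k : ℕ} {y : E} (h : ∀ i, S.rt k ≤ i → i ≤ k → y i = 0) : S.e k y = 0 := by
  have h1 : S.e k y = S.e k 0 := S.e_local (fun i hi1 hi2 => by
    rw [h i hi1 hi2]; rfl)
  rw [h1, map_zero]

lemma B_zero {k : ℕ} (hk : S.age k ≠ 0) {y : E}
    (h : ∀ i, S.par k < i → i < k → y i = 0) : S.B k y = 0 := by
  have h1 : S.B k y = S.B k 0 := S.B_local hk (fun i hi1 hi2 => by
    rw [h i hi1 hi2]; rfl)
  rw [h1, map_zero]

lemma e_comm {N : ℕ} {K : V →L[ℂ] V} (hK : IsM N K) {k : ℕ} (h : N ≤ S.rt k) (y : E) :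
    S.e k (act K y) = K (S.e k y) := by
  induction k using Nat.strong_induction_on generalizing y with
  | _ k ih =>
    by_cases hk : S.age k = 0
    · rw [S.e_root_apply hk, S.e_root_apply hk, act_apply]
    · have hp := S.par_lt k hk
      have hrp := S.rt_le_par hk
      rw [S.e_step_apply hk, S.e_step_apply hk, act_apply, map_add, map_add, map_smul]
      have h1 : S.e (S.par k) (act K y) = K (S.e (S.par k) y) := by
        apply ih _ hp
        rw [S.rt_par k hk]
        exact h
      have h2 : S.B k (act K y) = K (S.B k y) := by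
        by_cases hw : Even (S.w k)
        · obtain ⟨q, τ, F, hq1, hq2, hτ, hA, hB⟩ := S.gen k hk hw
          rw [hB]
          exact tB_comm hK (h.trans hrp) _ y
        · obtain ⟨η, hη1, hη2, hη3, hB⟩ := S.spec k hk hw
          rw [hB]
          apply ih _ hη2
          omega
      rw [h1, h2]

lemma B_comm {N : ℕ} {K : V →L[ℂ] V} (hK : IsM N K) {k : ℕ} (hk : S.age k ≠ 0)
    (h : N ≤ S.par k) (y : E) : S.B k (act K y) = K (S.B k y) := by
  by_cases hw : Even (S.w k)
  · obtain ⟨q, τ, F, hq1, hq2, hτ, hA, hB⟩ := S.gen k hk hw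
    rw [hB]
    exact tB_comm hK h _ y
  · obtain ⟨η, hη1, hη2, hη3, hB⟩ := S.spec k hk hw
    rw [hB]
    apply S.e_comm hK
    omega

/-- an admissible functional is bounded on all vectors supported after `p` -/
lemma adm_bound {p q : ℕ} {F : ℕ → (V →L[ℂ] ℂ)} (hA : Adm S.e p q F) {y : E}
    (hy : ∀ k, k ≤ p → y k = 0) {c : ℝ} (hc : ∀ η, η < q → ‖S.e η y‖ ≤ c) :
    ‖fF p q F y‖ ≤ c := by
  have h1 : fF p q F y = fF p q F (lo q y) := by
    apply fF_local
    intro k _ hk
    rw [lo_apply, if_pos hk]
  rw [h1]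
  apply hA
  · intro k hk
    rw [lo_apply, hy k hk]
    split_ifs <;> rfl
  · intro k hk
    rw [lo_apply, if_neg (by omega)]
  · intro η hη
    have h2 : S.e η (lo q y) = S.e η y := by
      apply S.e_local
      intro i _ hi
      rw [lo_apply, if_pos (by omega)]
    rw [h2]
    exact hc η hη

lemma Bd1_adm_pos {p q : ℕ} {F : ℕ → (V →L[ℂ] ℂ)} (hA : Adm S.e p q F) : 0 < q := by
  by_contra h
  have h0 : q = 0 := by omega
  subst h0
  have := hA 0 (fun _ _ => rfl) (fun _ _ => rfl) (-1) (fun η hη => absurd hη (Nat.not_lt_zero _))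
  have h2 := norm_nonneg (fF p 0 F 0)
  linarith

/-- bound of `tB` given the bounds of `act` -/
lemma Bd1_tB {p q τ : ℕ} {F : ℕ → (V →L[ℂ] ℂ)} (hτ : τ ≤ p) (hA : Adm S.e p q F)
    (ih : ∀ η, η < q → ∀ (N : ℕ) (K : V →L[ℂ] V), IsM N K → ‖K‖ ≤ 1 → ∀ y : E,
      (∀ i, i < N → y i = 0) → ∀ c : ℝ, (∀ η', η' ≤ η → ‖S.e η' y‖ ≤ c) →
      ‖S.e η (act K y)‖ ≤ 2 * c) {z : E} (hz : ∀ i, i ≤ p → z i = 0) {c : ℝ}
    (hc : ∀ η, η < q → ‖S.e η z‖ ≤ c) : ‖tB p τ (fF p q F) z‖ ≤ c := by
  have hq := S.Bd1_adm_pos hA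
  have hc0 : 0 ≤ c := (norm_nonneg _).trans (hc 0 hq)
  apply tB_norm_le hτ
  · apply S.adm_bound hA
    · intro k hk
      rw [Finsupp.sub_apply, act_apply, hz k hk, map_zero, sub_zero]
    · intro η hη
      rw [map_sub]
      have h1 := ih η hη p (Q p) (isM_Q p) (norm_Q_le p) z (fun i hi => hz i hi.le) c
        (fun η' hη' => hc η' (by omega))
      have h2 := hc η hη
      calc ‖S.e η z - S.e η (act (Q p) z)‖ ≤ ‖S.e η z‖ + ‖S.e η (act (Q p) z)‖ := norm_sub_le _ _
        _ ≤ c + 2 * c := add_le_add h2 h1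
        _ = 3 * c := by ring
  · intro K hK hn
    have h3 : ‖fF p q F (act K z)‖ ≤ 2 * c := by
      apply S.adm_bound hA
      · intro k hk
        rw [act_apply, hz k hk, map_zero]
      · intro η hη
        exact ih η hη p K hK hn z (fun i hi => hz i hi.le) c (fun η' hη' => hc η' (by omega))
    linarith

lemma Bd1_act (k : ℕ) : ∀ (N : ℕ) (K : V →L[ℂ] V), IsM N K → ‖K‖ ≤ 1 → ∀ y : E,
    (∀ i, i < N → y i = 0) → ∀ c : ℝ, (∀ η, η ≤ k → ‖S.e η y‖ ≤ c) →
    ‖S.e k (act K y) - K (S.e k y)‖ ≤ 3 * c / m (S.w k) ∧ ‖S.e k (act K y)‖ ≤ 2 * c := by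
  induction k using Nat.strong_induction_on with
  | _ k ih =>
    intro N K hK hn y hy c h
    have hc0 : 0 ≤ c := (norm_nonneg _).trans (h k le_rfl)
    have hm : (64 : ℝ) ≤ m (S.w k) := by exact_mod_cast m_ge (S.w k)
    have hm0 : (0 : ℝ) < m (S.w k) := by linarith
    have hdiv : 0 ≤ 3 * c / m (S.w k) := by positivity
    have key : ‖S.e k (act K y) - K (S.e k y)‖ ≤ 3 * c / m (S.w k) := by
      by_cases hk : S.age k = 0
      · rw [S.e_root_apply hk, S.e_root_apply hk, act_apply, sub_self, norm_zero]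
        exact hdiv
      · have hp := S.par_lt k hk
        by_cases hN : N ≤ S.par k
        · have h1 := (ih _ hp N K hK hn y hy c (fun η hη => h η (by omega))).1
          rw [S.w_par k hk] at h1
          have h2 : S.e k (act K y) - K (S.e k y) =
              S.e (S.par k) (act K y) - K (S.e (S.par k) y) := by
            rw [S.e_step_apply hk, S.e_step_apply hk, S.B_comm hK hk hN, act_apply, map_add,
              map_add, map_smul]
            abel
          rw [h2]
          exact h1
        · have hlt : S.par k < N := by omega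
          have hz1 : S.e (S.par k) y = 0 := by
            apply S.e_zero
            intro i _ hi
            exact hy i (by omega)
          have hz2 : S.e (S.par k) (act K y) = 0 := by
            apply S.e_zero
            intro i _ hi
            rw [act_apply, hy i (by omega), map_zero]
          have hB : ∀ z : E, (∀ i, i < N → z i = 0) → ∀ c' : ℝ,
              (∀ η, η < k → ‖S.e η z‖ ≤ c') → ‖S.B k z‖ ≤ c' := by
            intro z hz c' hc'
            by_cases hw : Even (S.w k)
            · obtain ⟨q, τ, F, hq1, hq2, hτ, hA, hB⟩ := S.gen k hk hw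
              rw [hB]
              apply S.Bd1_tB hτ hA
              · intro η hη N' K' hK' hn' y' hy' c'' hc''
                exact (ih η (by omega) N' K' hK' hn' y' hy' c'' hc'').2
              · intro i hi
                exact hz i (by omega)
              · intro η hη
                exact hc' η (by omega)
            · obtain ⟨η, hη1, hη2, hη3, hB⟩ := S.spec k hk hw
              rw [hB]
              exact hc' η hη2
          have h3 : ‖S.B k (act K y)‖ ≤ 2 * c := by
            apply hB
            · intro i hi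
              rw [act_apply, hy i hi, map_zero]
            · intro η hη
              exact (ih η hη N K hK hn y hy c (fun η' hη' => h η' (by omega))).2
          have h4 : ‖S.B k y‖ ≤ c := hB y hy c (fun η hη => h η hη.le)
          have h5 : ‖K (S.B k y)‖ ≤ c := by
            calc ‖K (S.B k y)‖ ≤ ‖K‖ * ‖S.B k y‖ := K.le_opNorm _
              _ ≤ 1 * ‖S.B k y‖ := by gcongr
              _ ≤ c := by rw [one_mul]; exact h4
          have h2 : S.e k (act K y) - K (S.e k y) =
              ((m (S.w k) : ℂ)⁻¹) • (S.B k (act K y) - K (S.B k y)) := by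
            rw [S.e_step_apply hk, S.e_step_apply hk, hz1, hz2, act_apply, map_add,
              map_add, map_smul, map_zero, smul_sub]
            abel
          rw [h2, norm_smul, norm_inv, Complex.norm_natCast, div_eq_inv_mul]
          gcongr
          calc ‖S.B k (act K y) - K (S.B k y)‖ ≤ ‖S.B k (act K y)‖ + ‖K (S.B k y)‖ :=
                norm_sub_le _ _
            _ ≤ 2 * c + c := add_le_add h3 h5
            _ = 3 * c := by ring
    refine ⟨key, ?_⟩
    have h6 : ‖K (S.e k y)‖ ≤ c := by
      calc ‖K (S.e k y)‖ ≤ ‖K‖ * ‖S.e k y‖ := K.le_opNorm _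
        _ ≤ 1 * ‖S.e k y‖ := by gcongr
        _ ≤ c := by rw [one_mul]; exact h k le_rfl
    have h7 : 3 * c / m (S.w k) ≤ c := by
      rw [div_le_iff₀ hm0]
      nlinarith
    calc ‖S.e k (act K y)‖ = ‖(S.e k (act K y) - K (S.e k y)) + K (S.e k y)‖ := by
          rw [sub_add_cancel]
      _ ≤ ‖S.e k (act K y) - K (S.e k y)‖ + ‖K (S.e k y)‖ := norm_add_le _ _
      _ ≤ c + c := add_le_add (key.trans h7) h6
      _ = 2 * c := by ring

lemma act_diff {N : ℕ} {K : V →L[ℂ] V} (hK : IsM N K) (hn : ‖K‖ ≤ 1) {y : E}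
    (hy : ∀ i, i < N → y i = 0) {c : ℝ} {k : ℕ} (h : ∀ η, η ≤ k → ‖S.e η y‖ ≤ c) :
    ‖S.e k (act K y) - K (S.e k y)‖ ≤ 3 * c / m (S.w k) :=
  (S.Bd1_act k N K hK hn y hy c h).1

lemma act_bound {N : ℕ} {K : V →L[ℂ] V} (hK : IsM N K) (hn : ‖K‖ ≤ 1) {y : E}
    (hy : ∀ i, i < N → y i = 0) {c : ℝ} {k : ℕ} (h : ∀ η, η ≤ k → ‖S.e η y‖ ≤ c) :
    ‖S.e k (act K y)‖ ≤ 2 * c :=
  (S.Bd1_act k N K hK hn y hy c h).2

/-- bound for `tB` of an admissible functional -/
lemma tB_bound {p q τ : ℕ} {F : ℕ → (V →L[ℂ] ℂ)} (hτ : τ ≤ p) (hA : Adm S.e p q F) {y : E}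
    {c : ℝ} (hc : ∀ η, η < q → ‖S.e η (hi (p + 1) y)‖ ≤ c) :
    ‖tB p τ (fF p q F) y‖ ≤ c := by
  have h1 : tB p τ (fF p q F) y = tB p τ (fF p q F) (hi (p + 1) y) := by
    apply tB_local
    intro k hk _
    rw [hi_apply, if_pos (by omega)]
  rw [h1]
  apply S.Bd1_tB hτ hA
  · intro η _ N K hK hn y' hy' c' hc'
    exact S.act_bound hK hn hy' hc'
  · intro i hi
    rw [hi_apply, if_neg (by omega)]
  · exact hc

lemma B_bound {k : ℕ} (hk : S.age k ≠ 0) {y : E} {c : ℝ}
    (h : ∀ η, η < k → ‖S.e η (hi (S.par k + 1) y)‖ ≤ c) : ‖S.B k y‖ ≤ c := by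
  by_cases hw : Even (S.w k)
  · obtain ⟨q, τ, F, hq1, hq2, hτ, hA, hB⟩ := S.gen k hk hw
    rw [hB]
    exact S.tB_bound hτ hA (fun η hη => h η (by omega))
  · obtain ⟨η, hη1, hη2, hη3, hB⟩ := S.spec k hk hw
    rw [hB]
    have h1 : S.e η y = S.e η (hi (S.par k + 1) y) := by
      apply S.e_local
      intro i hi _
      rw [hi_apply, if_pos (by omega)]
    rw [h1]
    exact h η hη2

lemma Bd2_m_pos (j : ℕ) : (64 : ℝ) ≤ m j := by exact_mod_cast m_ge j

lemma Bd2_step {k : ℕ} (hk : S.age k ≠ 0) {y : E} (hyk : y k = 0) {a b : ℝ}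
    (h1 : ‖S.e (S.par k) y‖ ≤ a) (h2 : ‖S.B k y‖ ≤ b) :
    ‖S.e k y‖ ≤ a + b / m (S.w k) := by
  rw [S.e_step_apply hk, hyk, zero_add]
  refine (norm_add_le _ _).trans (add_le_add h1 ?_)
  rw [norm_smul, norm_inv, Complex.norm_natCast, div_eq_inv_mul]
  gcongr

lemma lo_bound {k : ℕ} (q : ℕ) {y : E} {c : ℝ} (h : ∀ η, η ≤ k → ‖S.e η y‖ ≤ c) :
    ‖S.e k (lo q y)‖ ≤ 2 * c := by
  induction k using Nat.strong_induction_on generalizing q y c with
  | _ k ih =>
    have hc0 : 0 ≤ c := (norm_nonneg _).trans (h k le_rfl)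
    have hloc : ∀ i, i < q → S.e i (lo q y) = S.e i y := by
      intro i hi
      apply S.e_local
      intro i' _ hi'
      rw [lo_apply, if_pos (by omega)]
    by_cases hkq : k < q
    · rw [hloc k hkq]
      have := h k le_rfl
      linarith
    · have hyk : lo q y k = 0 := by rw [lo_apply, if_neg hkq]
      by_cases hk : S.age k = 0
      · rw [S.e_root_apply hk, hyk, norm_zero]
        linarith
      · have hp := S.par_lt k hk
        have hm := Bd2_m_pos (S.w k)
        by_cases hq : q ≤ S.par k
        · have hB : S.B k (lo q y) = 0 := by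
            apply S.B_zero hk
            intro i hi _
            rw [lo_apply, if_neg (by omega)]
          rw [S.e_step_apply hk, hyk, hB, smul_zero, zero_add, add_zero]
          exact ih _ hp q (fun η hη => h η (by omega))
        · have hq' : S.par k < q := by omega
          have h1 : ‖S.e (S.par k) (lo q y)‖ ≤ c := by
            rw [hloc _ hq']
            exact h _ hp.le
          have h2 : ‖S.B k (lo q y)‖ ≤ 4 * c := by
            apply S.B_bound hk
            intro η hη
            have h3 : hi (S.par k + 1) (lo q y) = lo q y - lo (S.par k + 1) y := by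
              ext1 i
              rw [hi_apply, Finsupp.sub_apply, lo_apply, lo_apply]
              by_cases h5 : S.par k + 1 ≤ i
              · rw [if_pos h5, if_neg (show ¬ i < S.par k + 1 by omega), sub_zero]
              · rw [if_neg h5, if_pos (show i < S.par k + 1 by omega), if_pos (show i < q by omega),
                  sub_self]
            rw [h3, map_sub]
            have h4 := ih η hη q (y := y) (c := c) (fun η' hη' => h η' (by omega))
            have h5 := ih η hη (S.par k + 1) (y := y) (c := c) (fun η' hη' => h η' (by omega))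
            calc _ ≤ ‖S.e η (lo q y)‖ + ‖S.e η (lo (S.par k + 1) y)‖ := norm_sub_le _ _
              _ ≤ 2 * c + 2 * c := add_le_add h4 h5
              _ = 4 * c := by ring
          refine (S.Bd2_step hk hyk h1 h2).trans ?_
          have h6 : 4 * c / m (S.w k) ≤ c := by
            rw [div_le_iff₀ (by linarith)]
            nlinarith
          linarith

lemma hi_bound {k : ℕ} (q : ℕ) {y : E} {c : ℝ} (h : ∀ η, η ≤ k → ‖S.e η y‖ ≤ c) :
    ‖S.e k (hi q y)‖ ≤ 3 * c := by
  have h1 : hi q y = y - lo q y := by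
    rw [eq_sub_iff_add_eq, add_comm]
    exact lo_add_hi q y
  rw [h1, map_sub]
  calc _ ≤ ‖S.e k y‖ + ‖S.e k (lo q y)‖ := norm_sub_le _ _
    _ ≤ c + 2 * c := add_le_add (h k le_rfl) (S.lo_bound q h)
    _ = 3 * c := by ring

lemma ext_bound {q : ℕ} {y : E} (hy : ∀ k, q ≤ k → y k = 0) {c : ℝ} (h0 : 0 ≤ c)
    (h : ∀ η, η < q → ‖S.e η y‖ ≤ c) (k : ℕ) : ‖S.e k y‖ ≤ 2 * c := by
  induction k using Nat.strong_induction_on generalizing y c with
  | _ k ih =>
    by_cases hkq : k < q
    · have := h k hkq
      linarith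
    · have hyk : y k = 0 := hy k (by omega)
      by_cases hk : S.age k = 0
      · rw [S.e_root_apply hk, hyk, norm_zero]
        linarith
      · have hp := S.par_lt k hk
        have hm := Bd2_m_pos (S.w k)
        by_cases hq : q ≤ S.par k
        · have hB : S.B k y = 0 := by
            apply S.B_zero hk
            intro i hi _
            exact hy i (by omega)
          rw [S.e_step_apply hk, hyk, hB, smul_zero, zero_add, add_zero]
          exact ih _ hp hy h0 h
        · have hq' : S.par k < q := by omega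
          have h1 : ‖S.e (S.par k) y‖ ≤ c := h _ hq'
          have h2 : ‖S.B k y‖ ≤ 6 * c := by
            apply S.B_bound hk
            intro η hη
            by_cases hηq : η < q
            · have h3 := S.hi_bound (k := η) (S.par k + 1) (y := y) (c := c)
                (fun η' hη' => h η' (by omega))
              linarith
            · have h3 := ih η hη (y := hi (S.par k + 1) y) (c := 3 * c)
                (fun i hi => by
                  rw [hi_apply, hy i hi]
                  split_ifs <;> rfl) (by linarith)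
                (fun η' hη' => S.hi_bound (k := η') (S.par k + 1) (y := y) (c := c)
                  (fun η'' hη'' => h η'' (by omega)))
              linarith
          refine (S.Bd2_step hk hyk h1 h2).trans ?_
          have h6 : 6 * c / m (S.w k) ≤ c := by
            rw [div_le_iff₀ (by linarith)]
            nlinarith
          linarith

lemma e_single_self (k : ℕ) (v : V) : S.e k (Finsupp.single k v) = v := by
  by_cases hk : S.age k = 0
  · rw [S.e_root_apply hk, Finsupp.single_eq_same]
  · have hp := S.par_lt k hk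
    have h1 : S.e (S.par k) (Finsupp.single k v) = 0 := by
      apply S.e_zero
      intro i _ hi
      rw [Finsupp.single_apply, if_neg (by omega)]
    have h2 : S.B k (Finsupp.single k v) = 0 := by
      apply S.B_zero hk
      intro i _ hi
      rw [Finsupp.single_apply, if_neg (by omega)]
    rw [S.e_step_apply hk, h1, h2, Finsupp.single_eq_same, smul_zero, add_zero, add_zero]

lemma coord_bound {k : ℕ} {y : E} {c : ℝ} (h : ∀ η, η ≤ k → ‖S.e η y‖ ≤ c) :
    ‖y k‖ ≤ 4 * c := by
  have hc0 : 0 ≤ c := (norm_nonneg _).trans (h k le_rfl)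
  have h1 : (Finsupp.single k (y k) : E) = lo (k + 1) y - lo k y := by
    ext1 i
    rw [Finsupp.sub_apply, lo_apply, lo_apply, Finsupp.single_apply]
    by_cases h5 : k = i
    · subst h5
      rw [if_pos rfl, if_pos (by omega), if_neg (by omega), sub_zero]
    · rw [if_neg h5]
      by_cases h6 : i < k
      · rw [if_pos (by omega), if_pos h6, sub_self]
      · rw [if_neg (by omega), if_neg h6, sub_zero]
  have h2 : S.e k (lo (k + 1) y) = S.e k y := by
    apply S.e_local
    intro i _ hi
    rw [lo_apply, if_pos (by omega)]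
  have h3 : y k = S.e k y - S.e k (lo k y) := by
    rw [← h2, ← map_sub, ← h1, S.e_single_self]
  rw [h3]
  calc _ ≤ ‖S.e k y‖ + ‖S.e k (lo k y)‖ := norm_sub_le _ _
    _ ≤ c + 2 * c := add_le_add (h k le_rfl) (S.lo_bound k h)
    _ ≤ 4 * c := by linarith

/-- the fibre condition for the values `e k x` -/
lemma e_mem {x : E} (hx : x ∈ X00) (k i : ℕ) (h : k < i) : (S.e k x) i = 0 := by
  induction k using Nat.strong_induction_on with
  | _ k ih =>
    by_cases hk : S.age k = 0
    · rw [S.e_root_apply hk]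
      exact hx k i h
    · have hp := S.par_lt k hk
      have h1 : (S.e (S.par k) x) i = 0 := ih _ hp (by omega)
      have h2 : (S.B k x) i = 0 := by
        by_cases hw : Even (S.w k)
        · obtain ⟨q, τ, F, hq1, hq2, hτ, hA, hB⟩ := S.gen k hk hw
          rw [hB]
          exact tB_coord_large _ _ _ _ _ (by omega)
        · obtain ⟨η, hη1, hη2, hη3, hB⟩ := S.spec k hk hw
          rw [hB]
          exact ih _ hη2 (by omega)
      have h3 : (x k) i = 0 := hx k i h
      rw [S.e_step_apply hk]
      have h4 : (x k + S.e (S.par k) x + ((m (S.w k) : ℂ)⁻¹) • S.B k x : V) i =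
        (x k) i + (S.e (S.par k) x) i + ((m (S.w k) : ℂ)⁻¹) * (S.B k x) i := rfl
      rw [h4, h1, h2, h3]
      ring

lemma bounded (y : E) : ∃ c : ℝ, ∀ k, ‖S.e k y‖ ≤ c := by
  obtain ⟨q, hq⟩ := exists_supp y
  refine ⟨2 * ∑ η ∈ Finset.range q, ‖S.e η y‖, fun k => ?_⟩
  apply S.ext_bound hq (Finset.sum_nonneg (fun _ _ => norm_nonneg _))
  intro η hη
  exact Finset.single_le_sum (f := fun η => ‖S.e η y‖) (fun _ _ => norm_nonneg _)
    (Finset.mem_range.mpr hη)

lemma single_bound (k : ℕ) (v : V) (η : ℕ) : ‖S.e η (Finsupp.single k v)‖ ≤ 2 * ‖v‖ := by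
  apply S.ext_bound (q := k + 1)
  · intro i hi
    rw [Finsupp.single_apply, if_neg (by omega)]
  · exact norm_nonneg _
  · intro η hη
    by_cases h : η = k
    · subst h
      rw [S.e_single_self]
    · have h1 : S.e η (Finsupp.single k v) = 0 := by
        apply S.e_zero
        intro i _ hi
        rw [Finsupp.single_apply, if_neg (by omega)]
      rw [h1, norm_zero]
      exact norm_nonneg _

/-- weight classes that vanish below `q` stay small above `q` -/
lemma outside {q h : ℕ} {u : E} (hu : ∀ k, q ≤ k → u k = 0) {c : ℝ}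
    (hc : ∀ k, ‖S.e k u‖ ≤ c) (h0 : ∀ γ, γ < q → S.w γ = h → S.e γ u = 0) {γ : ℕ}
    (hγ : S.w γ = h) : ‖S.e γ u‖ ≤ 3 * c / m h := by
  have hc0 : 0 ≤ c := (norm_nonneg _).trans (hc 0)
  have hm := Bd2_m_pos h
  have hdiv : 0 ≤ 3 * c / m h := div_nonneg (by linarith) (by linarith)
  induction γ using Nat.strong_induction_on with
  | _ γ ih =>
    by_cases hγq : γ < q
    · rw [h0 γ hγq hγ, norm_zero]
      exact hdiv
    · have huγ : u γ = 0 := hu γ (by omega)
      by_cases hk : S.age γ = 0
      · rw [S.e_root_apply hk, huγ, norm_zero]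
        exact hdiv
      · have hp := S.par_lt γ hk
        have hwp : S.w (S.par γ) = h := by rw [S.w_par γ hk, hγ]
        by_cases hq : q ≤ S.par γ
        · have hB : S.B γ u = 0 := by
            apply S.B_zero hk
            intro i hi _
            exact hu i (by omega)
          rw [S.e_step_apply hk, huγ, hB, smul_zero, zero_add, add_zero]
          exact ih _ hp hwp
        · have hq' : S.par γ < q := by omega
          have h1 : ‖S.e (S.par γ) u‖ ≤ 0 := by
            rw [h0 _ hq' hwp, norm_zero]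
          have h2 : ‖S.B γ u‖ ≤ 3 * c :=
            S.B_bound hk (fun η _ => S.hi_bound _ (fun η' _ => hc η'))
          have h3 := S.Bd2_step hk huγ h1 h2
          rw [zero_add, hγ] at h3
          exact h3

end Sys

end Pool.Agent.Helper64.Cal
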