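import Pool.Agent.Helper64.Cal.Sp
import Pool.Agent.Helper64.Cal.Avg

/-!
# Compact operators are small on RIS vectors
-/

set_option autoImplicit false

open scoped ENNReal
open Filter Topology

namespace Pool.Agent.Helper64.Cal

theorem wn (S : Sys) {W : Type*} [NormedAddCommGroup W] [NormedSpace ℂ W] (R : S.X →L[ℂ] W)
    (hR : IsCompactOperator R) {C : ℝ} (hC : 0 ≤ C) {ε : ℝ} (hε : 0 < ε) :
    ∃ J, ∀ x : X00, RT S C J x → ‖R (S.j x)‖ ≤ ε := by
  by_contra hcon
  push Not at hcon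
  choose x hx hxε using hcon
  have hnorm : ∀ J, ‖S.j (x J)‖ ≤ C := fun J => S.norm_j_le hC (hx J).nb
  obtain ⟨K, hK, hKsub⟩ := IsCompactOperator.image_closedBall_subset_compact (f := R.toLinearMap) hR C
  obtain ⟨w, hw, φ, hφ, hlim⟩ := hK.tendsto_subseq (x := fun J => R (S.j (x J)))
    (fun J => hKsub ⟨S.j (x J), by simpa using hnorm J, rfl⟩)
  have hwε : ε ≤ ‖w‖ :=
    ge_of_tendsto hlim.norm (Eventually.of_forall fun i => (hxε (φ i)).le)
  obtain ⟨i0, hi0⟩ := Metric.tendsto_atTop.1 hlim (ε / 2) (by positivity)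
  choose sp hsp using fun J => exists_supp ((x J : X00) : E)
  let t : ℕ → ℕ := fun k => Nat.rec i0 (fun _ a => max (a + 1) (sp (φ a))) k
  have ht0 : t 0 = i0 := rfl
  have hts : ∀ k, t (k + 1) = max (t k + 1) (sp (φ (t k))) := fun k => rfl
  have htge : ∀ k, i0 ≤ t k := by
    intro k
    induction k with
    | zero => exact ht0.ge
    | succ k ih => rw [hts]; exact le_trans ih (le_trans (Nat.le_succ _) (le_max_left _ _))
  have hRIS : ∀ N, RIS S C N (fun k => (x (φ (t k)) : E)) (fun k => φ (t k)) := by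
    intro N
    refine ⟨fun k _ => hx _, fun k _ i hi => ?_, fun k _ => ?_⟩
    · apply hsp
      have h1 : t (k + 1) ≤ φ (t (k + 1)) := hφ.id_le _
      have h2 : sp (φ (t k)) ≤ t (k + 1) := by rw [hts]; exact le_max_right _ _
      exact h2.trans (h1.trans hi)
    · apply hφ.monotone
      rw [hts]
      exact le_trans (Nat.le_succ _) (le_max_left _ _)
  have key : ∀ j, (m j : ℝ) * (ε / 2) ≤ ‖R‖ * (8 * C) := by
    intro j
    set z : X00 := ((m j : ℂ) / (n j : ℂ)) • ∑ k ∈ Finset.range (n j), x (φ (t k)) with hz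
    have hzE : (z : E) = ((m j : ℂ) / (n j : ℂ)) • ∑ k ∈ Finset.range (n j), (x (φ (t k)) : E) := by
      rw [hz]
      simp
    have hav := avg_gen (hRIS (n j)) hC (z : E) hzE
    have h1 : ‖S.j z‖ ≤ 8 * C := S.norm_j_le (by positivity) hav.2.1
    have h2 : ‖R (S.j z)‖ ≤ ‖R‖ * (8 * C) :=
      (R.le_opNorm _).trans (mul_le_mul_of_nonneg_left h1 R.opNorm_nonneg)
    refine le_trans ?_ h2
    have h3 : R (S.j z) = ((m j : ℂ) / (n j : ℂ)) • ∑ k ∈ Finset.range (n j), R (S.j (x (φ (t k)))) := by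
      rw [hz, map_smul, map_smul, map_sum, map_sum]
    have hn : (0 : ℝ) < n j := by exact_mod_cast n_pos j
    have h4 : ‖(∑ k ∈ Finset.range (n j), R (S.j (x (φ (t k))))) - (n j : ℂ) • w‖ ≤ n j * (ε / 2) := by
      have : (∑ k ∈ Finset.range (n j), R (S.j (x (φ (t k))))) - (n j : ℂ) • w
          = ∑ k ∈ Finset.range (n j), (R (S.j (x (φ (t k)))) - w) := by
        rw [Finset.sum_sub_distrib, Finset.sum_const, Finset.card_range, Nat.cast_smul_eq_nsmul]
      rw [this]
      refine (norm_sum_le _ _).trans ?_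
      refine (Finset.sum_le_card_nsmul _ _ (ε / 2) ?_).trans ?_
      · intro k _
        have := hi0 (t k) (htge k)
        rw [dist_eq_norm] at this
        exact this.le
      · rw [Finset.card_range, nsmul_eq_mul]
    have h5 : ‖(n j : ℂ) • w‖ = n j * ‖w‖ := by
      rw [norm_smul, Complex.norm_natCast]
    have h6 : (n j : ℝ) * (ε / 2) ≤ ‖∑ k ∈ Finset.range (n j), R (S.j (x (φ (t k))))‖ := by
      have h7 := norm_sub_norm_le ((n j : ℂ) • w) (∑ k ∈ Finset.range (n j), R (S.j (x (φ (t k)))))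
      rw [norm_sub_rev] at h7
      have h8 : (n j : ℝ) * ε ≤ n j * ‖w‖ := mul_le_mul_of_nonneg_left hwε hn.le
      linarith
    rw [h3, norm_smul, norm_div, Complex.norm_natCast, Complex.norm_natCast]
    calc (m j : ℝ) * (ε / 2) = (m j : ℝ) / n j * (n j * (ε / 2)) := by
          field_simp
      _ ≤ _ := mul_le_mul_of_nonneg_left h6 (by positivity)
  obtain ⟨j, hj⟩ := exists_nat_gt (‖R‖ * (8 * C) / (ε / 2))
  have h1 := key j
  have h2 : (j : ℝ) ≤ m j := by exact_mod_cast le_m j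
  rw [div_lt_iff₀ (by positivity)] at hj
  have h3 : (j : ℝ) * (ε / 2) ≤ m j * (ε / 2) := mul_le_mul_of_nonneg_right h2 (by positivity)
  linarith

end Pool.Agent.Helper64.Cal
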