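import Pool.Agent.Helper64.Cal.Gp
import Pool.Agent.Helper64.Cal.Wn

/-!
# The four cases of the general principle
-/

set_option autoImplicit false

open scoped ENNReal
open Filter Topology

namespace Pool.Agent.Helper64.Cal

/-- preparation: for far RIS vectors, `T (j x)` is close to a vector supported after `p` -/
lemma cas_prep (S : Sys) (T : S.X →L[ℂ] S.X) {C : ℝ} (hC : 0 ≤ C) (p J : ℕ) {ε : ℝ}
    (hε : 0 < ε) : ∃ J', J ≤ J' ∧ p < J' ∧ ∀ x : X00, RT S C J' x →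
      ∃ y : X00, (∀ k, k ≤ p → (y : E) k = 0) ∧ ‖T (S.j x) - S.j y‖ ≤ ε := by
  have hcomp : IsCompactOperator (S.lop (p + 1) ∘L T) :=
    (S.lop_compact (p + 1)).comp_clm T
  obtain ⟨J1, hJ1⟩ := wn S (S.lop (p + 1) ∘L T) hcomp hC (half_pos hε)
  refine ⟨max J (max J1 (p + 1)), le_max_left _ _, ?_, ?_⟩
  · exact lt_of_lt_of_le (Nat.lt_succ_self p) ((le_max_right _ _).trans (le_max_right _ _))
  · intro x hx
    have h1 : ‖S.lop (p + 1) (T (S.j x))‖ ≤ ε / 2 :=
      hJ1 x (hx.mono le_rfl ((le_max_left _ _).trans (le_max_right _ _)))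
    obtain ⟨y, hy1, hy2⟩ := S.approx_hi (T (S.j x)) p (half_pos hε) h1
    exact ⟨y, hy1, by linarith⟩

/-- every value of `e η` on vectors supported after `p` is given by an admissible functional -/
lemma cas_exists_f (S : Sys) (p η : ℕ) (a : E) (ha : ∀ k, k ≤ p → a k = 0) :
    ∃ (q : ℕ) (F : ℕ → (V →L[ℂ] ℂ)), p < q ∧ Adm S.e p q F ∧
      fF p q F a = ((‖S.e η a‖ : ℝ) : ℂ) := by
  obtain ⟨φ, hφ1, hφ2⟩ := exists_dual_vector'' ℂ (S.e η a)
  have hb : ∀ k : ℕ, ∀ v : V,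
      ‖(φ.toLinearMap ∘ₗ S.e η ∘ₗ Finsupp.lsingle k) v‖ ≤ 2 * ‖v‖ := by
    intro k v
    have h1 := S.single_bound k v η
    have h2 : ‖φ (S.e η (Finsupp.single k v))‖ ≤ ‖φ‖ * ‖S.e η (Finsupp.single k v)‖ :=
      φ.le_opNorm _
    have h3 : ‖φ‖ * ‖S.e η (Finsupp.single k v)‖ ≤ 1 * ‖S.e η (Finsupp.single k v)‖ :=
      mul_le_mul_of_nonneg_right hφ1 (norm_nonneg _)
    simp only [LinearMap.coe_comp, Function.comp_apply, Finsupp.lsingle_apply,
      ContinuousLinearMap.coe_coe]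
    linarith
  set F : ℕ → (V →L[ℂ] ℂ) := fun k =>
    LinearMap.mkContinuous (φ.toLinearMap ∘ₗ S.e η ∘ₗ Finsupp.lsingle k) 2 (hb k) with hF
  set q := max (η + 1) (p + 1) with hq
  have hF' : ∀ y : E, fF p q F y = φ (S.e η (lo q (hi (p + 1) y))) := by
    intro y
    have h1 : lo q (hi (p + 1) y) = ∑ k ∈ Finset.Ico (p + 1) q, Finsupp.single k (y k) := by
      ext1 k
      rw [lo_apply, hi_apply, Finsupp.finsetSum_apply]
      by_cases hk : k ∈ Finset.Ico (p + 1) q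
      · rw [Finset.mem_Ico] at hk
        rw [if_pos hk.2, if_pos hk.1, Finset.sum_eq_single k]
        · simp
        · intro b _ hb
          simp [hb]
        · intro hk'
          exact absurd (Finset.mem_Ico.2 hk) hk'
      · rw [Finset.sum_eq_zero]
        · rw [Finset.mem_Ico] at hk
          by_cases h2 : k < q
          · rw [if_pos h2, if_neg (fun h3 => hk ⟨h3, h2⟩)]
          · rw [if_neg h2]
        · intro b hb
          have : b ≠ k := fun h => hk (h ▸ hb)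
          simp [this]
    rw [h1, fF_apply, map_sum, map_sum]
    rfl
  have hlocal : ∀ y : E, (∀ k, k ≤ p → y k = 0) → fF p q F y = φ (S.e η y) := by
    intro y hy
    rw [hF' y]
    congr 1
    apply S.e_local
    intro k _ hk
    have h2 : k < q := lt_of_lt_of_le (Nat.lt_succ_of_le hk) (le_max_left _ _)
    rw [lo_apply, if_pos h2, hi_apply]
    by_cases h3 : p + 1 ≤ k
    · rw [if_pos h3]
    · rw [if_neg h3, hy k (by omega)]
  refine ⟨q, F, ?_, ?_, ?_⟩
  · exact lt_of_lt_of_le (Nat.lt_succ_self p) (le_max_right _ _)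
  · intro y hy1 _ c hc
    rw [hlocal y hy1]
    calc ‖φ (S.e η y)‖ ≤ ‖φ‖ * ‖S.e η y‖ := φ.le_opNorm _
      _ ≤ 1 * ‖S.e η y‖ := mul_le_mul_of_nonneg_right hφ1 (norm_nonneg _)
      _ = ‖S.e η y‖ := one_mul _
      _ ≤ c := hc η (lt_of_lt_of_le (Nat.lt_succ_self η) (le_max_left _ _))
  · rw [hlocal a ha, hφ2]
    rfl

/-- a vector of `X00` of large norm has a large value -/
lemma cas_exists_eta (S : Sys) (a : X00) {c : ℝ} (hc : 0 ≤ c) (h : c < ‖S.j a‖) :
    ∃ η, c < ‖S.e η a‖ := by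
  by_contra hcon
  push Not at hcon
  exact absurd (S.norm_j_le hc hcon) (not_le.2 h)

variable (S : Sys) (T : S.X →L[ℂ] S.X)

theorem case_alpha {i : ℕ} (hi : 1 ≤ i) {C : ℝ} (hC : 0 ≤ C) {ε : ℝ} (hε : 0 < ε) :
    ∃ J, ∀ x : X00, RF S C J x → ‖S.kop i (mu i i) (T (S.j x))‖ ≤ ε := by
  by_contra hcon
  push Not at hcon
  have hδ : 0 < ε / 12 := by positivity
  refine not_HH S T hC hδ (i0 := i) (p0 := i) ?_
  intro p hp J ε' hε'
  set ε1 : ℝ := min ε' (ε / 12) with hε1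
  have hε1pos : 0 < ε1 := lt_min hε' hδ
  obtain ⟨J', hJJ', hpJ', hprep⟩ := cas_prep S T hC p J hε1pos
  obtain ⟨x, hx, hlarge⟩ := hcon J'
  obtain ⟨y, hy0, hy1⟩ := hprep x hx.1
  have hM : IsM i (mu i i) := isM_mu hi le_rfl hi le_rfl
  have hhi : Cal.hi i (y : E) = y := hi_eq_self (fun k hk => hy0 k (by omega))
  have hk1 : S.kop i (mu i i) (S.j y) = S.j (Sys.kop0 i (mu i i) hM y) := S.kop_j hM y
  have ha_eq : ((Sys.kop0 i (mu i i) hM y : X00) : E) = Cal.act (mu i i) (y : E) := by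
    change Cal.act (mu i i) (Cal.hi i (y : E)) = _
    rw [hhi]
  have hnorm : ε / 4 < ‖S.j (Sys.kop0 i (mu i i) hM y)‖ := by
    have h1 : S.kop i (mu i i) (T (S.j x)) =
        S.kop i (mu i i) (T (S.j x) - S.j y) + S.j (Sys.kop0 i (mu i i) hM y) := by
      rw [map_sub, hk1]; abel
    have h2 : ‖S.kop i (mu i i) (T (S.j x) - S.j y)‖ ≤ 6 * ε1 := by
      calc ‖S.kop i (mu i i) (T (S.j x) - S.j y)‖
          ≤ ‖S.kop i (mu i i)‖ * ‖T (S.j x) - S.j y‖ := (S.kop i (mu i i)).le_opNorm _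
        _ ≤ (6 * 1) * ε1 := by
            apply mul_le_mul _ hy1 (norm_nonneg _) (by norm_num)
            exact (S.norm_kop_le i (mu i i)).trans
              (mul_le_mul_of_nonneg_left (norm_mu_le i i) (by norm_num))
        _ = 6 * ε1 := by ring
    have h3 := norm_add_le (S.kop i (mu i i) (T (S.j x) - S.j y))
      (S.j (Sys.kop0 i (mu i i) hM y))
    rw [← h1] at h3
    have h4 : ε1 ≤ ε / 12 := min_le_right _ _
    linarith
  obtain ⟨η, hη⟩ := cas_exists_eta S _ (by positivity) hnorm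
  rw [ha_eq] at hη
  have ha0 : ∀ k, k ≤ p → (Cal.act (mu i i) (y : E)) k = 0 := by
    intro k hk
    rw [act_apply, hy0 k hk, map_zero]
  obtain ⟨q, F, hpq, hA, hF⟩ := cas_exists_f S p η (Cal.act (mu i i) (y : E)) ha0
  refine ⟨x, y, i, q, F, hx.1.mono le_rfl hJJ', fun k hk => hx.1.ge k (by omega), hy0, hp,
    hpq, hA, hy1.trans (min_le_left _ _), ?_, ?_⟩
  · rw [tB_pos_apply p i hi]
    rw [Finset.sum_eq_zero]
    · rw [norm_zero]; exact hε'.le
    · intro l hl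
      rw [Finset.mem_Icc] at hl
      have h1 : mu i l = mu i l ∘L Q J' :=
        ((isM_mu (N := J') hi (by omega) hl.1 (by omega)).comp_Q).symm
      have h2 : Cal.act (mu i l) (x : E) = 0 := by
        rw [h1, ← act_act, hx.2, map_zero]
      rw [h2, map_zero, mul_zero, zero_smul]
  · rw [tB_coord_pos p i hi _ _ i hi hp, hF]
    have : ((1 / 3 : ℂ) * ((‖S.e η (Cal.act (mu i i) (y : E))‖ : ℝ) : ℂ)).re =
        (1 / 3 : ℝ) * ‖S.e η (Cal.act (mu i i) (y : E))‖ := by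
      rw [show (1 / 3 : ℂ) = (((1 / 3 : ℝ)) : ℂ) by norm_num, Complex.re_ofReal_mul,
        Complex.ofReal_re]
    rw [this]
    linarith

theorem case_delta {i : ℕ} (hi : 1 ≤ i) {C : ℝ} (hC : 0 ≤ C) {ε : ℝ} (hε : 0 < ε) :
    ∃ N J, ∀ x : X00, RI S i C J x → ‖T (S.j x) - S.kop N (Q N) (T (S.j x))‖ ≤ ε := by
  by_contra hcon
  push Not at hcon
  have hδ : 0 < ε / 12 := by positivity
  refine not_HH S T hC hδ (i0 := 0) (p0 := i) ?_
  intro p hp J ε' hε'
  set ε1 : ℝ := min ε' (ε / 28) with hε1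
  have hε1pos : 0 < ε1 := lt_min hε' (by positivity)
  obtain ⟨J', hJJ', hpJ', hprep⟩ := cas_prep S T hC p J hε1pos
  obtain ⟨x, hx, hlarge⟩ := hcon p J'
  obtain ⟨y, hy0, hy1⟩ := hprep x hx.1
  have hM : IsM p (Q p) := isM_Q p
  have hhi : Cal.hi p (y : E) = y := hi_eq_self (fun k hk => hy0 k (by omega))
  have hk1 : S.kop p (Q p) (S.j y) = S.j (Sys.kop0 p (Q p) hM y) := S.kop_j hM y
  have ha_eq : ((y - Sys.kop0 p (Q p) hM y : X00) : E) =
      (y : E) - Cal.act (Q p) (y : E) := by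
    change (y : E) - Cal.act (Q p) (Cal.hi p (y : E)) = _
    rw [hhi]
  have hnorm : ε / 4 < ‖S.j (y - Sys.kop0 p (Q p) hM y)‖ := by
    have h1 : T (S.j x) - S.kop p (Q p) (T (S.j x)) =
        ((T (S.j x) - S.j y) - S.kop p (Q p) (T (S.j x) - S.j y)) +
          S.j (y - Sys.kop0 p (Q p) hM y) := by
      rw [map_sub (S.kop p (Q p)), map_sub S.j, hk1]; abel
    have h2 : ‖S.kop p (Q p) (T (S.j x) - S.j y)‖ ≤ 6 * ε1 := by
      calc ‖S.kop p (Q p) (T (S.j x) - S.j y)‖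
          ≤ ‖S.kop p (Q p)‖ * ‖T (S.j x) - S.j y‖ := (S.kop p (Q p)).le_opNorm _
        _ ≤ (6 * 1) * ε1 := by
            apply mul_le_mul _ hy1 (norm_nonneg _) (by norm_num)
            exact (S.norm_kop_le p (Q p)).trans
              (mul_le_mul_of_nonneg_left (norm_Q_le p) (by norm_num))
        _ = 6 * ε1 := by ring
    have h3 := norm_add_le ((T (S.j x) - S.j y) - S.kop p (Q p) (T (S.j x) - S.j y))
      (S.j (y - Sys.kop0 p (Q p) hM y))
    rw [← h1] at h3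
    have h5 := norm_sub_le (T (S.j x) - S.j y) (S.kop p (Q p) (T (S.j x) - S.j y))
    have h4 : ε1 ≤ ε / 28 := min_le_right _ _
    linarith
  obtain ⟨η, hη⟩ := cas_exists_eta S _ (by positivity) hnorm
  rw [ha_eq] at hη
  have ha0 : ∀ k, k ≤ p → ((y : E) - Cal.act (Q p) (y : E)) k = 0 := by
    intro k hk
    rw [Finsupp.sub_apply, act_apply, hy0 k hk, map_zero, sub_zero]
  obtain ⟨q, F, hpq, hA, hF⟩ := cas_exists_f S p η ((y : E) - Cal.act (Q p) (y : E)) ha0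
  refine ⟨x, y, 0, q, F, hx.1.mono le_rfl hJJ', fun k hk => hx.1.ge k (by omega), hy0,
    Nat.zero_le _, hpq, hA, hy1.trans (min_le_left _ _), ?_, ?_⟩
  · rw [tB_zero_apply]
    have h1 : Q p ∘L mu i i = mu i i := (isM_mu (N := p) hi hp hi hp).Q_comp
    have h2 : (x : E) - Cal.act (Q p) (x : E) = 0 := by
      have h3 : Cal.act (Q p) (x : E) = x := by
        calc Cal.act (Q p) (x : E) = Cal.act (Q p) (Cal.act (mu i i) (x : E)) := by rw [hx.2]
          _ = Cal.act (mu i i) (x : E) := by rw [act_act, h1]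
          _ = x := hx.2
      rw [h3, sub_self]
    rw [h2, map_zero, mul_zero, zero_smul, norm_zero]
    exact hε'.le
  · rw [tB_coord_zero, hF]
    have : ((1 / 3 : ℂ) * ((‖S.e η ((y : E) - Cal.act (Q p) (y : E))‖ : ℝ) : ℂ)).re =
        (1 / 3 : ℝ) * ‖S.e η ((y : E) - Cal.act (Q p) (y : E))‖ := by
      rw [show (1 / 3 : ℂ) = (((1 / 3 : ℝ)) : ℂ) by norm_num, Complex.re_ofReal_mul,
        Complex.ofReal_re]
    rw [this]
    linarith



/-- separation from a line -/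
lemma cas2_sep {W : Type*} [NormedAddCommGroup W] [NormedSpace ℂ W] (x a : W) {d : ℝ}
    (hd : ∀ μ : ℂ, d ≤ ‖a - μ • x‖) :
    ∃ G : W →L[ℂ] ℂ, ‖G‖ ≤ 1 ∧ G x = 0 ∧ ∃ r : ℝ, d ≤ r ∧ G a = (r : ℂ) := by
  set p : Submodule ℂ W := Submodule.span ℂ {x} with hp
  obtain ⟨g, hg1, hg2⟩ := exists_dual_vector'' ℂ (Submodule.Quotient.mk a : W ⧸ p)
  have hbound : ∀ v : W, ‖(g.toLinearMap ∘ₗ p.mkQ) v‖ ≤ 1 * ‖v‖ := by
    intro v
    rw [one_mul]
    have h1 : ‖g (Submodule.Quotient.mk v : W ⧸ p)‖ ≤ ‖(Submodule.Quotient.mk v : W ⧸ p)‖ := by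
      calc ‖g (Submodule.Quotient.mk v : W ⧸ p)‖
          ≤ ‖g‖ * ‖(Submodule.Quotient.mk v : W ⧸ p)‖ := g.le_opNorm _
        _ ≤ 1 * ‖(Submodule.Quotient.mk v : W ⧸ p)‖ := by gcongr
        _ = _ := one_mul _
    have h2 : ‖(Submodule.Quotient.mk v : W ⧸ p)‖ ≤ ‖v‖ := Submodule.Quotient.norm_mk_le p v
    exact h1.trans h2
  refine ⟨LinearMap.mkContinuous (g.toLinearMap ∘ₗ p.mkQ) 1 hbound,
    LinearMap.mkContinuous_norm_le _ zero_le_one _, ?_, ‖(Submodule.Quotient.mk a : W ⧸ p)‖, ?_, ?_⟩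
  · have : (Submodule.Quotient.mk x : W ⧸ p) = 0 := by
      rw [Submodule.Quotient.mk_eq_zero]
      exact Submodule.mem_span_singleton_self x
    show g (p.mkQ x) = 0
    rw [Submodule.mkQ_apply, this, map_zero]
  · refine le_of_forall_pos_le_add fun ε hε => ?_
    obtain ⟨v, hv1, hv2⟩ := QuotientAddGroup.exists_norm_mk_lt
      (S := p.toAddSubgroup) (Submodule.Quotient.mk a : W ⧸ p) hε
    have hv3 : (Submodule.Quotient.mk v : W ⧸ p) = Submodule.Quotient.mk a := hv1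
    rw [Submodule.Quotient.eq, Submodule.mem_span_singleton] at hv3
    obtain ⟨μ, hμ⟩ := hv3
    have h3 := hd (-μ)
    have h4 : a - (-μ) • x = v := by
      rw [neg_smul, hμ]; abel
    rw [h4] at h3
    exact h3.trans hv2.le
  · exact hg2

/-- the scalar functional obtained from Hahn-Banach -/
lemma cas2_func (S : Sys) {p q : ℕ} (hpq : p < q) {x a : E} (hx0 : ∀ k, k ≤ p → x k = 0)
    (hx1 : ∀ k, q ≤ k → x k = 0) (ha0 : ∀ k, k ≤ p → a k = 0) (ha1 : ∀ k, q ≤ k → a k = 0)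
    {d : ℝ} (hd : ∀ μ : ℂ, d ≤ ‖S.iota a - μ • S.iota x‖) :
    ∃ F : ℕ → (V →L[ℂ] ℂ), Adm S.e p q F ∧ fF p q F x = 0 ∧
      ∃ r : ℝ, d / 2 ≤ r ∧ fF p q F a = (r : ℂ) := by
  obtain ⟨G, hG1, hG2, r, hr, hGr⟩ := cas2_sep (S.iota x) (S.iota a) hd
  have hGn : ∀ v, ‖G v‖ ≤ ‖v‖ := fun v => by
    calc ‖G v‖ ≤ ‖G‖ * ‖v‖ := G.le_opNorm v
      _ ≤ 1 * ‖v‖ := by gcongr
      _ = _ := one_mul _
  have hF : ∀ η : ℕ, ∀ v : V,
      ‖((1 / 2 : ℂ) • (G.toLinearMap ∘ₗ S.iota ∘ₗ Finsupp.lsingle η)) v‖ ≤ 1 * ‖v‖ := by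
    intro η v
    have h1 : ‖S.iota (Finsupp.single η v)‖ ≤ 2 * ‖v‖ :=
      S.iota_norm_le (by positivity) (fun k => S.single_bound η v k)
    have h2 := hGn (S.iota (Finsupp.single η v))
    simp only [LinearMap.smul_apply, LinearMap.comp_apply, Finsupp.lsingle_apply,
      ContinuousLinearMap.coe_coe, smul_eq_mul, norm_mul]
    norm_num
    linarith
  let F : ℕ → (V →L[ℂ] ℂ) := fun η => LinearMap.mkContinuous _ 1 (hF η)
  have hval : ∀ y : E, (∀ k, k ≤ p → y k = 0) → (∀ k, q ≤ k → y k = 0) →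
      fF p q F y = (1 / 2 : ℂ) * G (S.iota y) := by
    intro y hy0 hy1
    rw [fF_apply]
    have h1 : ∀ η, F η (y η) = (1 / 2 : ℂ) * G (S.iota (Finsupp.single η (y η))) := by
      intro η
      simp [F]
    simp only [h1]
    rw [← Finset.mul_sum, ← map_sum, ← map_sum]
    congr 3
    ext k : 1
    rw [Finsupp.finsetSum_apply]
    by_cases hk : k ∈ Finset.Ico (p + 1) q
    · rw [Finset.sum_eq_single k]
      · simp
      · intro b _ hb
        rw [Finsupp.single_apply, if_neg hb]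
      · intro h; exact absurd hk h
    · rw [Finset.sum_eq_zero]
      · rw [Finset.mem_Ico, not_and_or, not_le, not_lt] at hk
        rcases hk with h | h
        · exact (hy0 k (by omega)).symm
        · exact (hy1 k h).symm
      · intro b hb
        rw [Finsupp.single_apply, if_neg]
        rintro rfl
        exact hk hb
  refine ⟨F, ?_, ?_, r / 2, by linarith, ?_⟩
  · intro y hy0 hy1 c hc
    have hc0 : 0 ≤ c := (norm_nonneg _).trans (hc 0 (by omega))
    rw [hval y hy0 hy1]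
    have h1 : ‖S.iota y‖ ≤ 2 * c := S.iota_norm_le (by positivity) (S.ext_bound hy1 hc0 hc)
    have h2 := hGn (S.iota y)
    rw [norm_mul]
    norm_num
    linarith
  · rw [hval x hx0 hx1, hG2, mul_zero]
  · rw [hval a ha0 ha1, hGr]
    push_cast
    ring

/-- common preparation: an approximation `y` of `T x` supported after `p` -/
lemma cas2_prep (S : Sys) (T : S.X →L[ℂ] S.X) {C : ℝ} (hC : 0 ≤ C) (p : ℕ) {ε : ℝ} (hε : 0 < ε) :
    ∃ J, ∀ x : X00, RT S C J x → ∃ y : X00, (∀ k, k ≤ p → (y : E) k = 0) ∧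
      ‖T (S.j x) - S.j y‖ ≤ ε := by
  have hc : IsCompactOperator (S.lop (p + 1) ∘L T) := (S.lop_compact (p + 1)).comp_clm T
  obtain ⟨J, hJ⟩ := wn S (S.lop (p + 1) ∘L T) hc hC (half_pos hε)
  refine ⟨J, fun x hx => ?_⟩
  obtain ⟨y, hy0, hy1⟩ := S.approx_hi (T (S.j x)) p (half_pos hε) (hJ x hx)
  exact ⟨y, hy0, hy1.trans (by linarith)⟩

lemma cas2_kop_j (S : Sys) {N : ℕ} {K : V →L[ℂ] V} (hK : IsM N K) {y : X00}
    (hy : ∀ k, k < N → (y : E) k = 0) :
    ((S.kop N K (S.j y) : S.X) : lp (fun _ : ℕ => V) ∞) = S.iota (act K y) := by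
  rw [S.kop_j hK]
  show S.iota (act K (hi N (y : E))) = _
  rw [hi_eq_self hy]

lemma cas2_bound {x y : X00} (p : ℕ) : ∃ q, p < q ∧ (∀ k, q ≤ k → (x : E) k = 0) ∧
    (∀ k, q ≤ k → (y : E) k = 0) := by
  obtain ⟨q1, h1⟩ := exists_supp (x : E)
  obtain ⟨q2, h2⟩ := exists_supp (y : E)
  exact ⟨max (max q1 q2) (p + 1), by omega, fun k hk => h1 k (by omega), fun k hk => h2 k (by omega)⟩


/-- uniform form of `case_alpha` for finitely many indices -/
lemma cas2_alpha (p : ℕ) {C : ℝ} (hC : 0 ≤ C) {ε : ℝ} (hε : 0 < ε) :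
    ∃ J, ∀ x : X00, RF S C J x → ∀ i ∈ Finset.Icc 1 p, ‖S.kop i (mu i i) (T (S.j x))‖ ≤ ε := by
  have h : ∀ i : ℕ, ∃ J, ∀ x : X00, RF S C J x → i ∈ Finset.Icc 1 p →
      ‖S.kop i (mu i i) (T (S.j x))‖ ≤ ε := by
    intro i
    by_cases hi : 1 ≤ i
    · obtain ⟨J, hJ⟩ := case_alpha S T hi hC hε
      exact ⟨J, fun x hx _ => hJ x hx⟩
    · exact ⟨0, fun x _ h => absurd (Finset.mem_Icc.1 h).1 hi⟩
  choose J hJ using h
  refine ⟨(Finset.Icc 1 p).sup J, fun x hx i hi => hJ i x ?_ hi⟩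
  have hle : J i ≤ (Finset.Icc 1 p).sup J := Finset.le_sup hi
  refine ⟨hx.1.mono le_rfl hle, ?_⟩
  have h1 := hx.2
  have h2 : act (Q (J i)) (act (Q ((Finset.Icc 1 p).sup J)) (x : E)) = act (Q (J i)) x := by
    rw [act_act, Q_comp_Q, min_eq_left hle]
  rw [← h2, h1, map_zero]

theorem case_beta {C : ℝ} (hC : 0 ≤ C) {ε : ℝ} (hε : 0 < ε) :
    ∃ J, ∀ x : X00, RF S C J x → ∃ μ : ℂ, ‖T (S.j x) - μ • S.j x‖ ≤ ε := by
  by_contra hcon
  push Not at hcon
  refine not_HH S T (C := C) (δ := ε / 12) (i0 := 0) (p0 := 0) hC (by positivity) ?_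
  intro p _ J eps heps
  -- small parameters
  set ε1 : ℝ := min eps (ε / (8 * (7 * (p + 1)))) with hε1
  have hε1pos : 0 < ε1 := by positivity
  obtain ⟨J1, hJ1⟩ := cas2_prep S T hC p hε1pos
  obtain ⟨J2, hJ2⟩ := cas2_alpha S T p hC hε1pos
  obtain ⟨x, hxF, hx⟩ := hcon (max (max J1 J2) (max J (p + 1)))
  have hxq : ∀ q, q ≤ max (max J1 J2) (max J (p + 1)) → act (Q q) (x : E) = 0 := by
    intro q hq
    have h2 : act (Q q) (act (Q (max (max J1 J2) (max J (p + 1)))) (x : E)) = act (Q q) x := by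
      rw [act_act, Q_comp_Q, min_eq_left hq]
    rw [← h2, hxF.2, map_zero]
  obtain ⟨y, hy0, hy⟩ := hJ1 x (hxF.1.mono le_rfl (by omega))
  have hal := hJ2 x ⟨hxF.1.mono le_rfl (by omega), hxq _ (by omega)⟩
  obtain ⟨q, hpq, hxsup, hysup⟩ := cas2_bound (x := x) (y := y) p
  have hx0 : ∀ k, k ≤ p → (x : E) k = 0 := fun k hk => hxF.1.ge k (by omega)
  -- the rigid part of `y` is small
  have hQ : ‖S.iota (act (Q p) (y : E))‖ ≤ ε / 8 := by
    have h1 : act (Q p) (y : E) = ∑ i ∈ Finset.Icc 1 p, act (mu i i) (y : E) := by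
      rw [Q, act_sum]
    rw [h1, map_sum]
    have h2 : ∀ i ∈ Finset.Icc 1 p, ‖S.iota (act (mu i i) (y : E))‖ ≤ 7 * ε1 := by
      intro i hi
      have hi' := Finset.mem_Icc.1 hi
      have hM : IsM i (mu i i) := isM_mu hi'.1 le_rfl hi'.1 le_rfl
      rw [← cas2_kop_j S hM (y := y) (fun k hk => hy0 k (by omega))]
      have h3 : ‖S.kop i (mu i i) (S.j y)‖ ≤ 7 * ε1 := by
        have h4 : S.kop i (mu i i) (S.j y) =
            S.kop i (mu i i) (T (S.j x)) - S.kop i (mu i i) (T (S.j x) - S.j y) := by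
          rw [map_sub]; abel
        rw [h4]
        have h5 : ‖S.kop i (mu i i) (T (S.j x) - S.j y)‖ ≤ 6 * ε1 := by
          calc ‖S.kop i (mu i i) (T (S.j x) - S.j y)‖
              ≤ ‖S.kop i (mu i i)‖ * ‖T (S.j x) - S.j y‖ := ContinuousLinearMap.le_opNorm _ _
            _ ≤ (6 * ‖mu i i‖) * ε1 := by
                gcongr
                exact S.norm_kop_le i _
            _ ≤ (6 * 1) * ε1 := by
                gcongr
                exact norm_mu_le i i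
            _ = 6 * ε1 := by ring
        calc _ ≤ ‖S.kop i (mu i i) (T (S.j x))‖ + ‖S.kop i (mu i i) (T (S.j x) - S.j y)‖ :=
              norm_sub_le _ _
          _ ≤ ε1 + 6 * ε1 := add_le_add (hal i hi) h5
          _ = 7 * ε1 := by ring
      exact h3
    calc _ ≤ ∑ i ∈ Finset.Icc 1 p, ‖S.iota (act (mu i i) (y : E))‖ := norm_sum_le _ _
      _ ≤ ∑ _i ∈ Finset.Icc 1 p, 7 * ε1 := Finset.sum_le_sum h2
      _ = p * (7 * ε1) := by simp
      _ ≤ p * (7 * (ε / (8 * (7 * (p + 1))))) := by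
          gcongr
          exact min_le_right _ _
      _ ≤ ε / 8 := by
          have hp : (0 : ℝ) < p + 1 := by positivity
          rw [show (p : ℝ) * (7 * (ε / (8 * (7 * (p + 1))))) = ε / 8 * (p / (p + 1)) by
            field_simp]
          have : (p : ℝ) / (p + 1) ≤ 1 := by
            rw [div_le_one hp]; linarith
          calc ε / 8 * (p / (p + 1)) ≤ ε / 8 * 1 := by gcongr
            _ = ε / 8 := mul_one _
  have hε18 : ε1 ≤ ε / 8 := by
    refine (min_le_right _ _).trans ?_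
    gcongr
    have : (0 : ℝ) ≤ p := Nat.cast_nonneg p
    nlinarith
  set y' : E := (y : E) - act (Q p) (y : E) with hy'
  have hy'0 : ∀ k, k ≤ p → y' k = 0 := by
    intro k hk
    simp [hy', hy0 k hk]
  have hy'1 : ∀ k, q ≤ k → y' k = 0 := by
    intro k hk
    simp [hy', hysup k hk]
  have hd : ∀ μ : ℂ, ε / 2 ≤ ‖S.iota y' - μ • S.iota (x : E)‖ := by
    intro μ
    have h1 := hx μ
    have h2 : ((T (S.j x) - μ • S.j x : S.X) : lp (fun _ : ℕ => V) ∞) =
        (S.iota y' - μ • S.iota (x : E)) + S.iota (act (Q p) (y : E)) +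
          ((T (S.j x) - S.j y : S.X) : lp (fun _ : ℕ => V) ∞) := by
      have h3 : S.iota y' = S.iota (y : E) - S.iota (act (Q p) (y : E)) := by
        rw [hy', map_sub]
      rw [h3]
      simp only [Submodule.coe_sub, Submodule.coe_smul, Sys.iota_coe_j]
      abel
    have h4 : ‖T (S.j x) - μ • S.j x‖ ≤ ‖S.iota y' - μ • S.iota (x : E)‖ + ε / 8 + ε / 8 := by
      change ‖((T (S.j x) - μ • S.j x : S.X) : lp (fun _ : ℕ => V) ∞)‖ ≤ _
      rw [h2]
      refine (norm_add_le _ _).trans ?_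
      refine add_le_add ((norm_add_le _ _).trans (add_le_add le_rfl hQ)) ?_
      exact (hy.trans hε18)
    linarith
  obtain ⟨F, hF1, hF2, r, hr, hF3⟩ := cas2_func S hpq hx0 hxsup hy'0 hy'1 hd
  refine ⟨x, y, 0, q, F, hxF.1.mono le_rfl (by omega), hx0, hy0, Nat.zero_le _, hpq, hF1,
    hy.trans (min_le_left _ _), ?_, ?_⟩
  · rw [tB_zero_apply, hxq p (by omega), sub_zero, hF2]
    simp
    exact heps.le
  · rw [tB_coord_zero, ← hy', hF3]
    have : ((1 / 3 : ℂ) * (r : ℂ)).re = r / 3 := by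
      simp
      ring
    rw [this]
    linarith

theorem case_gamma {i l : ℕ} (hi : 1 ≤ i) (hl : 1 ≤ l) {C : ℝ} (hC : 0 ≤ C) {ε : ℝ}
    (hε : 0 < ε) : ∃ J, ∀ x : X00, RI S i C J x →
      ∃ μ : ℂ, ‖S.kop (max i l) (mu i l) (T (S.j x)) - μ • S.j x‖ ≤ ε := by
  by_contra hcon
  push Not at hcon
  refine not_HH S T (C := C) (δ := ε / 12) (i0 := l) (p0 := max i l) hC (by positivity) ?_
  intro p hp J eps heps
  have hM : IsM (max i l) (mu i l) := isM_mu hi (le_max_left _ _) hl (le_max_right _ _)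
  set ε1 : ℝ := min eps (ε / 12) with hε1
  have hε1pos : 0 < ε1 := by positivity
  obtain ⟨J1, hJ1⟩ := cas2_prep S T hC p hε1pos
  obtain ⟨x, hxI, hx⟩ := hcon (max J1 (max J (p + 1)))
  obtain ⟨y, hy0, hy⟩ := hJ1 x (hxI.1.mono le_rfl (by omega))
  obtain ⟨q, hpq, hxsup, hysup⟩ := cas2_bound (x := x) (y := y) p
  have hx0 : ∀ k, k ≤ p → (x : E) k = 0 := fun k hk => hxI.1.ge k (by omega)
  set a : E := act (mu i l) (y : E) with ha
  have ha0 : ∀ k, k ≤ p → a k = 0 := by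
    intro k hk
    simp [ha, hy0 k hk]
  have ha1 : ∀ k, q ≤ k → a k = 0 := by
    intro k hk
    simp [ha, hysup k hk]
  have hkop : ((S.kop (max i l) (mu i l) (S.j y) : S.X) : lp (fun _ : ℕ => V) ∞) = S.iota a :=
    cas2_kop_j S hM (fun k hk => hy0 k (by omega))
  have hd : ∀ μ : ℂ, ε / 2 ≤ ‖S.iota a - μ • S.iota (x : E)‖ := by
    intro μ
    have h1 := hx μ
    have h2 : ((S.kop (max i l) (mu i l) (T (S.j x)) - μ • S.j x : S.X) :
        lp (fun _ : ℕ => V) ∞) = (S.iota a - μ • S.iota (x : E)) +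
          ((S.kop (max i l) (mu i l) (T (S.j x) - S.j y) : S.X) :
            lp (fun _ : ℕ => V) ∞) := by
      rw [← hkop, map_sub]
      simp only [Submodule.coe_sub, Submodule.coe_smul, Sys.iota_coe_j]
      abel
    have h5 : ‖S.kop (max i l) (mu i l) (T (S.j x) - S.j y)‖ ≤ 6 * ε1 := by
      calc ‖S.kop (max i l) (mu i l) (T (S.j x) - S.j y)‖
          ≤ ‖S.kop (max i l) (mu i l)‖ * ‖T (S.j x) - S.j y‖ :=
            ContinuousLinearMap.le_opNorm _ _
        _ ≤ (6 * ‖mu i l‖) * ε1 := by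
            gcongr
            exact S.norm_kop_le _ _
        _ ≤ (6 * 1) * ε1 := by
            gcongr
            exact norm_mu_le i l
        _ = 6 * ε1 := by ring
    have h6 : ε1 ≤ ε / 12 := min_le_right _ _
    have h4 : ‖S.kop (max i l) (mu i l) (T (S.j x)) - μ • S.j x‖ ≤
        ‖S.iota a - μ • S.iota (x : E)‖ + 6 * ε1 := by
      change ‖((S.kop (max i l) (mu i l) (T (S.j x)) - μ • S.j x : S.X) :
        lp (fun _ : ℕ => V) ∞)‖ ≤ _
      rw [h2]
      exact (norm_add_le _ _).trans (add_le_add le_rfl h5)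
    linarith
  obtain ⟨F, hF1, hF2, r, hr, hF3⟩ := cas2_func S hpq hx0 hxsup ha0 ha1 hd
  have hip : i ≤ p := (le_max_left _ _).trans hp
  have hlp : l ≤ p := (le_max_right _ _).trans hp
  refine ⟨x, y, i, q, F, hxI.1.mono le_rfl (by omega), hx0, hy0, hip, hpq, hF1,
    hy.trans (min_le_left _ _), ?_, ?_⟩
  · have h0 : tB p i (fF p q F) (x : E) = 0 := by
      rw [tB_pos_apply p i hi]
      refine Finset.sum_eq_zero fun c _ => ?_
      have h1 : act (mu i c) (x : E) = if c = i then (x : E) else 0 := by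
        conv_lhs => rw [← hxI.2, act_act, mu_comp]
        split_ifs with h
        · rw [hxI.2]
        · rw [act_zero]
      rw [h1]
      split_ifs with h
      · rw [hF2, mul_zero, zero_smul]
      · rw [map_zero, mul_zero, zero_smul]
    rw [h0, norm_zero]
    exact heps.le
  · rw [tB_coord_pos p i hi _ _ l hl hlp, ← ha, hF3]
    have : ((1 / 3 : ℂ) * (r : ℂ)).re = r / 3 := by
      simp
      ring
    rw [this]
    linarith

end Pool.Agent.Helper64.Cal
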