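import Mathlib

/-!
# Definitions for the Calkin algebra construction

`V = ℓ₂`, basis vectors `bv 0, bv 1, ...`; `bv 0` is the auxiliary (flexible) direction.
`E` = finitely supported sequences in `V` (coordinates with respect to the Bourgain-Delbaen basis `d`).
A system `Sys` is a sequence of nodes `k ∈ ℕ` with functionals `e k : E → V`.
-/

set_option autoImplicit false

open scoped ENNReal

namespace Pool.Agent.Helper64.Cal

/-- the Hilbert space `ℓ₂` -/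
noncomputable abbrev V := lp (fun _ : ℕ => ℂ) 2

/-- finitely supported sequences of vectors of `V` -/
noncomputable abbrev E := ℕ →₀ V

/-- basis vectors of `V` -/
noncomputable def bv (i : ℕ) : V := lp.single 2 i (1 : ℂ)

/-- coordinate functionals on `V` -/
noncomputable def co (i : ℕ) : V →L[ℂ] ℂ :=
  LinearMap.mkContinuous
    { toFun := fun v => v i
      map_add' := fun _ _ => rfl
      map_smul' := fun _ _ => rfl } 1
    (fun v => by
      rw [one_mul]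
      exact lp.norm_apply_le_norm (p := 2) (by norm_num) v i)

/-- matrix unit `e_i ⊗ e_l^*` -/
noncomputable def mu (i l : ℕ) : V →L[ℂ] V := (co l).smulRight (bv i)

/-- projection onto `span (e_1, ..., e_N)` -/
noncomputable def Q (N : ℕ) : V →L[ℂ] V := ∑ i ∈ Finset.Icc 1 N, mu i i

/-- projection onto `span (e_0, ..., e_r)` -/
noncomputable def tr (r : ℕ) : V →L[ℂ] V := ∑ i ∈ Finset.range (r + 1), mu i i

/-- `K` is an operator living on `span (e_1, ..., e_N)` -/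
def IsM (N : ℕ) (K : V →L[ℂ] V) : Prop := K = Q N ∘L K ∘L Q N

/-- coordinatewise action on `E` -/
noncomputable def act (K : V →L[ℂ] V) : E →ₗ[ℂ] E := Finsupp.mapRange.linearMap K.toLinearMap

/-- restriction to coordinates `< q` -/
noncomputable def lo (q : ℕ) : E →ₗ[ℂ] E where
  toFun x := x.filter (fun k => k < q)
  map_add' _ _ := Finsupp.filter_add
  map_smul' _ _ := Finsupp.filter_smul

/-- restriction to coordinates `≥ q` -/
noncomputable def hi (q : ℕ) : E →ₗ[ℂ] E := LinearMap.id - lo q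

/-- the fibre condition: the coordinate at rank `k` lies in `span (e_0, ..., e_k)` -/
def X00 : Submodule ℂ E where
  carrier := {x | ∀ k i, k < i → (x k) i = 0}
  add_mem' := by
    intro x y hx hy k i h
    simp [hx k i h, hy k i h]
  zero_mem' := by
    intro k i _
    simp
  smul_mem' := by
    intro c x hx k i h
    simp [hx k i h]

/-! ### parameters -/

/-- auxiliary growth sequence -/
def aseq (N : ℕ) : ℕ → ℕ
  | 0 => 0
  | D + 1 => N * aseq N D + 3 * N + 2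

/-- next `n` from the previous `n` and the current `m` -/
def nf (N m : ℕ) : ℕ := m ^ 4 * (aseq N (m ^ 2 + 2) + 4) + N + 4

/-- the pair `(m j, n j)` -/
def st : ℕ → ℕ × ℕ
  | 0 => (64, nf 0 64)
  | j + 1 => ((st j).2 ^ 2, nf (st j).2 ((st j).2 ^ 2))

/-- weights -/
def m (j : ℕ) : ℕ := (st j).1

/-- lengths -/
def n (j : ℕ) : ℕ := (st j).2

/-! ### functionals -/

/-- scalar functional on coordinates in `[p+1, q)` -/
noncomputable def fF (p q : ℕ) (F : ℕ → (V →L[ℂ] ℂ)) : E →ₗ[ℂ] ℂ :=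
  ∑ η ∈ Finset.Ico (p + 1) q, (F η).toLinearMap ∘ₗ Finsupp.lapply η

/-- the vector functional built from a scalar functional `f`: flexible (`τ = 0`) or rigid (`τ ≥ 1`) -/
noncomputable def tB (p τ : ℕ) (f : E →ₗ[ℂ] ℂ) : E →ₗ[ℂ] V :=
  if τ = 0 then
    (1 / 3 : ℂ) • (LinearMap.toSpanSingleton ℂ V (bv 0) ∘ₗ f ∘ₗ (LinearMap.id - act (Q p)))
  else
    (1 / 3 : ℂ) • ∑ l ∈ Finset.Icc 1 p, LinearMap.toSpanSingleton ℂ V (bv l) ∘ₗ f ∘ₗ act (mu τ l)

/-- admissibility of a scalar functional with respect to the functionals `e` -/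
def Adm (e : ℕ → (E →ₗ[ℂ] V)) (p q : ℕ) (F : ℕ → (V →L[ℂ] ℂ)) : Prop :=
  ∀ y : E, (∀ k, k ≤ p → y k = 0) → (∀ k, q ≤ k → y k = 0) → ∀ c : ℝ,
    (∀ η, η < q → ‖e η y‖ ≤ c) → ‖fF p q F y‖ ≤ c

/-- a system of nodes -/
structure Sys where
  /-- weight index -/
  w : ℕ → ℕ
  /-- age -/
  age : ℕ → ℕ
  /-- root -/
  rt : ℕ → ℕ
  /-- parent -/
  par : ℕ → ℕ
  /-- the functional added at the node -/
  B : ℕ → (E →ₗ[ℂ] V)
  /-- the coordinate functionals -/
  e : ℕ → (E →ₗ[ℂ] V)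
  w_le : ∀ k, w k ≤ rt k
  rt_root : ∀ k, age k = 0 → rt k = k
  e_root : ∀ k, age k = 0 → e k = Finsupp.lapply k
  par_lt : ∀ k, age k ≠ 0 → par k < k
  w_par : ∀ k, age k ≠ 0 → w (par k) = w k
  rt_par : ∀ k, age k ≠ 0 → rt (par k) = rt k
  age_par : ∀ k, age k ≠ 0 → age k = age (par k) + 1
  age_le : ∀ k, age k ≤ n (w k)
  e_step : ∀ k, age k ≠ 0 →
    e k = Finsupp.lapply k + e (par k) + ((m (w k) : ℂ)⁻¹) • B k
  gen : ∀ k, age k ≠ 0 → Even (w k) → ∃ q τ F, par k < q ∧ q ≤ k ∧ τ ≤ par k ∧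
    Adm e (par k) q F ∧ B k = tB (par k) τ (fF (par k) q F)
  spec : ∀ k, age k ≠ 0 → ¬ Even (w k) → ∃ η, par k < rt η ∧ η < k ∧
    w η = 2 * par k + 2 ∧ B k = e η
  rich_root : ∀ j K, ∃ k, K ≤ k ∧ age k = 0 ∧ w k = j
  rich_gen : ∀ ξ q τ F, Even (w ξ) → age ξ < n (w ξ) → ξ < q → τ ≤ ξ → Adm e ξ q F →
    ∀ ε : ℝ, 0 < ε → ∀ K, ∃ k F', K ≤ k ∧ q ≤ k ∧ age k = age ξ + 1 ∧ par k = ξ ∧ w k = w ξ ∧
      B k = tB ξ τ (fF ξ q F') ∧ Adm e ξ q F' ∧ ∀ η, η < q → ‖F' η - F η‖ ≤ ε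
  rich_spec : ∀ ξ η, ¬ Even (w ξ) → age ξ < n (w ξ) → ξ < rt η → w η = 2 * ξ + 2 →
    ∀ K, ∃ k, K ≤ k ∧ η < k ∧ age k = age ξ + 1 ∧ par k = ξ ∧ w k = w ξ ∧ B k = e η

end Pool.Agent.Helper64.Cal
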