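import Pool.Agent.Helper64.Cal.Vl

/-!
# Lemmas on `E`: `act`, `lo`, `hi`, `X00`, `fF`, `tB`
-/

set_option autoImplicit false

open scoped ENNReal

namespace Pool.Agent.Helper64.Cal

@[simp] lemma act_apply (K : V →L[ℂ] V) (x : E) (k : ℕ) : act K x k = K (x k) := by
  simp [act]

@[simp] lemma lo_apply (q : ℕ) (x : E) (k : ℕ) : lo q x k = if k < q then x k else 0 := by
  change (x.filter (fun k => k < q)) k = _
  rw [Finsupp.filter_apply]

@[simp] lemma hi_apply (q : ℕ) (x : E) (k : ℕ) : hi q x k = if q ≤ k then x k else 0 := by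
  change (x - lo q x) k = _
  rw [Finsupp.sub_apply, lo_apply]
  by_cases h : k < q
  · rw [if_pos h, if_neg (by omega), sub_self]
  · rw [if_neg h, if_pos (by omega), sub_zero]

lemma lo_add_hi (q : ℕ) (x : E) : lo q x + hi q x = x := by
  change lo q x + (x - lo q x) = x
  abel

lemma act_act (K L : V →L[ℂ] V) (x : E) : act K (act L x) = act (K ∘L L) x := by
  refine Finsupp.ext fun k => ?_
  rw [act_apply, act_apply, act_apply]
  rfl

lemma act_one (x : E) : act 1 x = x := by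
  refine Finsupp.ext fun k => ?_
  rw [act_apply]
  rfl

lemma act_zero (x : E) : act 0 x = 0 := by
  refine Finsupp.ext fun k => ?_
  rw [act_apply]
  rfl

lemma act_add (K L : V →L[ℂ] V) (x : E) : act (K + L) x = act K x + act L x := by
  refine Finsupp.ext fun k => ?_
  rw [Finsupp.add_apply, act_apply, act_apply, act_apply]
  rfl

lemma act_smul (c : ℂ) (K : V →L[ℂ] V) (x : E) : act (c • K) x = c • act K x := by
  refine Finsupp.ext fun k => ?_
  rw [Finsupp.smul_apply, act_apply, act_apply]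
  rfl

lemma act_sum {ι : Type} (s : Finset ι) (K : ι → V →L[ℂ] V) (x : E) :
    act (∑ i ∈ s, K i) x = ∑ i ∈ s, act (K i) x := by
  classical
  induction s using Finset.induction_on with
  | empty => rw [Finset.sum_empty, Finset.sum_empty, act_zero]
  | insert a s ha ih => rw [Finset.sum_insert ha, Finset.sum_insert ha, act_add, ih]

lemma lo_act (q : ℕ) (K : V →L[ℂ] V) (x : E) : lo q (act K x) = act K (lo q x) := by
  refine Finsupp.ext fun k => ?_
  rw [lo_apply, act_apply, act_apply, lo_apply]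
  by_cases h : k < q
  · rw [if_pos h, if_pos h]
  · rw [if_neg h, if_neg h, map_zero]

lemma hi_act (q : ℕ) (K : V →L[ℂ] V) (x : E) : hi q (act K x) = act K (hi q x) := by
  refine Finsupp.ext fun k => ?_
  rw [hi_apply, act_apply, act_apply, hi_apply]
  by_cases h : q ≤ k
  · rw [if_pos h, if_pos h]
  · rw [if_neg h, if_neg h, map_zero]

lemma lo_eq_self {q : ℕ} {x : E} (h : ∀ k, q ≤ k → x k = 0) : lo q x = x := by
  refine Finsupp.ext fun k => ?_
  rw [lo_apply]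
  by_cases hk : k < q
  · rw [if_pos hk]
  · rw [if_neg hk, h k (by omega)]

lemma hi_eq_self {q : ℕ} {x : E} (h : ∀ k, k < q → x k = 0) : hi q x = x := by
  refine Finsupp.ext fun k => ?_
  rw [hi_apply]
  by_cases hk : q ≤ k
  · rw [if_pos hk]
  · rw [if_neg hk, h k (by omega)]

lemma lo_eq_zero {q : ℕ} {x : E} (h : ∀ k, k < q → x k = 0) : lo q x = 0 := by
  refine Finsupp.ext fun k => ?_
  rw [lo_apply]
  by_cases hk : k < q
  · rw [if_pos hk, h k hk]
    rfl
  · rw [if_neg hk]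
    rfl

lemma hi_eq_zero {q : ℕ} {x : E} (h : ∀ k, q ≤ k → x k = 0) : hi q x = 0 := by
  refine Finsupp.ext fun k => ?_
  rw [hi_apply]
  by_cases hk : q ≤ k
  · rw [if_pos hk, h k hk]
    rfl
  · rw [if_neg hk]
    rfl

lemma exists_supp (x : E) : ∃ q : ℕ, ∀ k, q ≤ k → x k = 0 := by
  refine ⟨x.support.sup id + 1, ?_⟩
  intro k hk
  by_contra h
  have h1 : k ∈ x.support := Finsupp.mem_support_iff.mpr h
  have h2 : id k ≤ x.support.sup id := Finset.le_sup h1
  simp only [id] at h2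
  omega

lemma lo_mem {q : ℕ} {x : E} (h : x ∈ X00) : lo q x ∈ X00 := by
  intro k i hki
  rw [lo_apply]
  by_cases hk : k < q
  · rw [if_pos hk]
    exact h k i hki
  · rw [if_neg hk]
    rfl

lemma hi_mem {q : ℕ} {x : E} (h : x ∈ X00) : hi q x ∈ X00 := by
  intro k i hki
  rw [hi_apply]
  by_cases hk : q ≤ k
  · rw [if_pos hk]
    exact h k i hki
  · rw [if_neg hk]
    rfl

lemma act_mem {N : ℕ} {K : V →L[ℂ] V} (hK : IsM N K) {x : E} (h : x ∈ X00)
    (hx : ∀ k, k < N → x k = 0) : act K x ∈ X00 := by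
  intro k i hki
  rw [act_apply]
  by_cases hk : k < N
  · rw [hx k hk, map_zero]
    rfl
  · exact hK.coord (x k) i (Or.inr (by omega))

lemma single_mem {k : ℕ} {v : V} (h : ∀ i, k < i → v i = 0) : (Finsupp.single k v : E) ∈ X00 := by
  intro j i hji
  by_cases hj : j = k
  · subst hj
    rw [Finsupp.single_eq_same]
    exact h i hji
  · rw [Finsupp.single_eq_of_ne hj]
    rfl

lemma fF_apply (p q : ℕ) (F : ℕ → (V →L[ℂ] ℂ)) (y : E) :
    fF p q F y = ∑ η ∈ Finset.Ico (p + 1) q, F η (y η) := by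
  unfold fF
  rw [LinearMap.sum_apply]
  rfl

lemma fF_local {p q : ℕ} {F : ℕ → (V →L[ℂ] ℂ)} {y y' : E}
    (h : ∀ k, p < k → k < q → y k = y' k) : fF p q F y = fF p q F y' := by
  rw [fF_apply, fF_apply]
  refine Finset.sum_congr rfl fun η hη => ?_
  rw [Finset.mem_Ico] at hη
  rw [h η (by omega) hη.2]

lemma tB_zero_apply (p : ℕ) (f : E →ₗ[ℂ] ℂ) (y : E) :
    tB p 0 f y = ((1 / 3 : ℂ) * f (y - act (Q p) y)) • bv 0 := by
  unfold tB
  rw [if_pos rfl, mul_smul]
  rfl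

lemma tB_pos_apply (p τ : ℕ) (hτ : 1 ≤ τ) (f : E →ₗ[ℂ] ℂ) (y : E) :
    tB p τ f y = ∑ l ∈ Finset.Icc 1 p, ((1 / 3 : ℂ) * f (act (mu τ l) y)) • bv l := by
  unfold tB
  rw [if_neg (by omega), LinearMap.smul_apply, LinearMap.sum_apply, Finset.smul_sum]
  refine Finset.sum_congr rfl fun l _ => ?_
  rw [mul_smul]
  rfl

lemma sum_bv_coord (p : ℕ) (c : ℕ → ℂ) (j : ℕ) :
    ((∑ l ∈ Finset.Icc 1 p, c l • bv l : V)) j = if 1 ≤ j ∧ j ≤ p then c j else 0 := by
  have h : ((∑ l ∈ Finset.Icc 1 p, c l • bv l : V)) j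
      = ∑ l ∈ Finset.Icc 1 p, (if j = l then c l else 0) := by
    rw [← co_apply, map_sum]
    refine Finset.sum_congr rfl fun l _ => ?_
    rw [map_smul, co_apply, bv_apply, smul_eq_mul]
    by_cases hj : j = l
    · rw [if_pos hj, if_pos hj, mul_one]
    · rw [if_neg hj, if_neg hj, mul_zero]
  rw [h, Finset.sum_ite_eq]
  simp only [Finset.mem_Icc]

lemma tB_coord_zero (p : ℕ) (f : E →ₗ[ℂ] ℂ) (y : E) :
    (tB p 0 f y) 0 = (1 / 3 : ℂ) * f (y - act (Q p) y) := by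
  rw [tB_zero_apply, ← co_apply, map_smul, co_apply, bv_apply, if_pos rfl, smul_eq_mul, mul_one]

lemma tB_coord_pos (p τ : ℕ) (hτ : 1 ≤ τ) (f : E →ₗ[ℂ] ℂ) (y : E) (l : ℕ) (h1 : 1 ≤ l)
    (h2 : l ≤ p) : (tB p τ f y) l = (1 / 3 : ℂ) * f (act (mu τ l) y) := by
  rw [tB_pos_apply p τ hτ, sum_bv_coord p (fun l => (1 / 3 : ℂ) * f (act (mu τ l) y)),
    if_pos ⟨h1, h2⟩]

lemma tB_coord_large (p τ : ℕ) (f : E →ₗ[ℂ] ℂ) (y : E) (l : ℕ) (h : p < l) :
    (tB p τ f y) l = 0 := by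
  by_cases hτ : τ = 0
  · subst hτ
    rw [tB_zero_apply, ← co_apply, map_smul, co_apply, bv_apply, if_neg (by omega), smul_zero]
  · rw [tB_pos_apply p τ (by omega), sum_bv_coord p (fun l => (1 / 3 : ℂ) * f (act (mu τ l) y)),
      if_neg (by omega)]

lemma isM_expand {N p : ℕ} {K : V →L[ℂ] V} (hK : IsM N K) (hN : N ≤ p) (v : V) :
    K v = ∑ l ∈ Finset.Icc 1 p, (K v) l • bv l := by
  refine V_ext fun j => ?_
  rw [sum_bv_coord p (fun l => (K v) l)]
  by_cases hj : 1 ≤ j ∧ j ≤ p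
  · rw [if_pos hj]
  · rw [if_neg hj]
    refine hK.coord v j ?_
    omega

lemma tB_comm {N p τ : ℕ} {K : V →L[ℂ] V} (hK : IsM N K) (hN : N ≤ p) (f : E →ₗ[ℂ] ℂ) (y : E) :
    tB p τ f (act K y) = K (tB p τ f y) := by
  by_cases hτ : τ = 0
  · subst hτ
    rw [tB_zero_apply, tB_zero_apply, act_act, (hK.mono hN).Q_comp, sub_self, map_zero, mul_zero,
      zero_smul, map_smul, hK.bv_zero 0 (Or.inl rfl), smul_zero]
  · have hτ1 : 1 ≤ τ := by omega
    rw [tB_pos_apply p τ hτ1, tB_pos_apply p τ hτ1, map_sum]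
    have hL : ∀ l ∈ Finset.Icc 1 p, ((1 / 3 : ℂ) * f (act (mu τ l) (act K y))) • bv l
        = ∑ c ∈ Finset.Icc 1 p,
            ((1 / 3 : ℂ) * f (act (mu τ c) y)) • ((K (bv c)) l • bv l) := by
      intro l _
      rw [act_act, hK.mu_comp hN, act_sum, map_sum, Finset.mul_sum, Finset.sum_smul]
      refine Finset.sum_congr rfl fun c _ => ?_
      rw [act_smul, map_smul, smul_smul, smul_eq_mul]
      congr 1
      ring
    rw [Finset.sum_congr rfl hL, Finset.sum_comm]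
    refine Finset.sum_congr rfl fun c _ => ?_
    rw [map_smul, ← Finset.smul_sum, ← isM_expand hK hN (bv c)]

lemma tB_local {p q τ : ℕ} {F : ℕ → (V →L[ℂ] ℂ)} {y y' : E}
    (h : ∀ k, p < k → k < q → y k = y' k) : tB p τ (fF p q F) y = tB p τ (fF p q F) y' := by
  by_cases hτ : τ = 0
  · subst hτ
    rw [tB_zero_apply, tB_zero_apply]
    have : fF p q F (y - act (Q p) y) = fF p q F (y' - act (Q p) y') := by
      refine fF_local fun k h1 h2 => ?_
      rw [Finsupp.sub_apply, Finsupp.sub_apply, act_apply, act_apply, h k h1 h2]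
    rw [this]
  · have hτ1 : 1 ≤ τ := by omega
    rw [tB_pos_apply p τ hτ1, tB_pos_apply p τ hτ1]
    refine Finset.sum_congr rfl fun l _ => ?_
    have : fF p q F (act (mu τ l) y) = fF p q F (act (mu τ l) y') := by
      refine fF_local fun k h1 h2 => ?_
      rw [act_apply, act_apply, h k h1 h2]
    rw [this]

/-- the abstract bound for `tB`: if `f` is bounded on `z = (1 - Q_p) y` and on all
`act K y`, `K` a contraction of rank one on `span (e_1, ..., e_p)` -/
lemma tB_norm_le {p τ : ℕ} (hτ : τ ≤ p) (f : E →ₗ[ℂ] ℂ) (y : E) (c : ℝ)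
    (h0 : ‖f (y - act (Q p) y)‖ ≤ 3 * c)
    (h1 : ∀ K : V →L[ℂ] V, IsM p K → ‖K‖ ≤ 1 → ‖f (act K y)‖ ≤ 3 * c) :
    ‖tB p τ f y‖ ≤ c := by
  have h3 : ‖(1 / 3 : ℂ)‖ = 1 / 3 := by
    rw [norm_div, norm_one]
    norm_num
  by_cases ht : τ = 0
  · subst ht
    rw [tB_zero_apply, norm_smul, norm_bv, mul_one, norm_mul, h3]
    linarith
  · have hτ1 : 1 ≤ τ := by omega
    obtain ⟨a, ha1, ha2, ha3⟩ :=
      row_dual p τ hτ1 hτ (fun l => (1 / 3 : ℂ) * f (act (mu τ l) y))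
    rw [tB_pos_apply p τ hτ1]
    have hs : ∑ l ∈ Finset.Icc 1 p, a l * ((1 / 3 : ℂ) * f (act (mu τ l) y))
        = (1 / 3 : ℂ) * f (act (∑ l ∈ Finset.Icc 1 p, a l • mu τ l) y) := by
      rw [act_sum, map_sum, Finset.mul_sum]
      refine Finset.sum_congr rfl fun l _ => ?_
      rw [act_smul, map_smul, smul_eq_mul]
      ring
    have hn : ‖∑ l ∈ Finset.Icc 1 p, ((1 / 3 : ℂ) * f (act (mu τ l) y)) • bv l‖
        = ‖(1 / 3 : ℂ) * f (act (∑ l ∈ Finset.Icc 1 p, a l • mu τ l) y)‖ := by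
      rw [← hs, ← ha3, Complex.norm_real, norm_norm]
    rw [hn, norm_mul, h3]
    have := h1 _ ha2 ha1
    linarith

end Pool.Agent.Helper64.Cal
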