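import Pool.Agent.Helper64.Cal.El
import Pool.Agent.Helper64.Cal.Par

/-!
# Existence of a system of nodes
-/

set_option autoImplicit false

open scoped ENNReal

namespace Pool.Agent.Helper64.Cal

/-! ### separability of the dual -/

lemma ex_sep_V : TopologicalSpace.SeparableSpace V := by
  rw [← TopologicalSpace.isSeparable_univ_iff]
  have h1 : TopologicalSpace.IsSeparable (Set.range bv) := (Set.countable_range bv).isSeparable
  have h2 : TopologicalSpace.IsSeparable ((Submodule.span ℂ (Set.range bv) : Submodule ℂ V) : Set V) :=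
    h1.span
  refine h2.closure.mono ?_
  intro f _
  have hs : HasSum (fun i => lp.single 2 i (f i)) f := lp.hasSum_single (by norm_num) f
  refine mem_closure_of_tendsto hs (Filter.Eventually.of_forall ?_)
  intro s
  refine Submodule.sum_mem _ ?_
  intro i _
  have : lp.single 2 i (f i) = (f i) • bv i := by
    rw [bv, ← lp.single_smul]
    simp
  rw [this]
  exact Submodule.smul_mem _ _ (Submodule.subset_span ⟨i, rfl⟩)

lemma ex_sep_D : TopologicalSpace.SeparableSpace (V →L[ℂ] ℂ) := by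
  have := ex_sep_V
  exact (InnerProductSpace.toDual ℂ V).surjective.denseRange.separableSpace
    (InnerProductSpace.toDual ℂ V).continuous

/-- extension by zero -/
noncomputable def exF (q : ℕ) (F : Fin q → (V →L[ℂ] ℂ)) : ℕ → (V →L[ℂ] ℂ) :=
  fun η => if h : η < q then F ⟨η, h⟩ else 0

lemma ex_fF_congr {p q : ℕ} {F F' : ℕ → (V →L[ℂ] ℂ)} (h : ∀ η, η < q → F η = F' η) :
    fF p q F = fF p q F' := by
  unfold fF
  refine Finset.sum_congr rfl ?_
  intro η hη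
  rw [h η (Finset.mem_Ico.mp hη).2]

lemma ex_Adm_congr {p q : ℕ} {e e' : ℕ → (E →ₗ[ℂ] V)} {F F' : ℕ → (V →L[ℂ] ℂ)}
    (he : ∀ η, η < q → e η = e' η) (h : ∀ η, η < q → F η = F' η)
    (hA : Adm e p q F) : Adm e' p q F' := by
  intro y h1 h2 c hc
  rw [← ex_fF_congr h]
  refine hA y h1 h2 c ?_
  intro η hη
  rw [he η hη]
  exact hc η hη

lemma ex_exF_restrict (q : ℕ) (F : ℕ → (V →L[ℂ] ℂ)) (η : ℕ) (h : η < q) :
    F η = exF q (fun i => F i) η := by
  simp [exF, h]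

/-- the set of admissible functionals -/
def exA (e : ℕ → (E →ₗ[ℂ] V)) (p q : ℕ) : Set (Fin q → (V →L[ℂ] ℂ)) :=
  {F | Adm e p q (exF q F)}

lemma exA_congr {p q : ℕ} {e e' : ℕ → (E →ₗ[ℂ] V)} (he : ∀ η, η < q → e η = e' η) :
    exA e p q = exA e' p q := by
  ext F
  constructor
  · intro h
    exact ex_Adm_congr he (fun _ _ => rfl) h
  · intro h
    exact ex_Adm_congr (fun η hη => (he η hη).symm) (fun _ _ => rfl) h

lemma ex_dense (q : ℕ) (S : Set (Fin q → (V →L[ℂ] ℂ))) :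
    ∃ d : ℕ → (Fin q → (V →L[ℂ] ℂ)), S.Nonempty → (∀ b, d b ∈ S) ∧
      ∀ F ∈ S, ∀ ε : ℝ, 0 < ε → ∃ b, ‖d b - F‖ ≤ ε := by
  by_cases hS : S.Nonempty
  · have := ex_sep_D
    have : SecondCountableTopology (V →L[ℂ] ℂ) := UniformSpace.secondCountable_of_separable _
    have : Nonempty S := hS.to_subtype
    refine ⟨fun b => (TopologicalSpace.denseSeq S b).1, fun _ => ⟨fun b => (TopologicalSpace.denseSeq S b).2, ?_⟩⟩
    intro F hF ε hε
    obtain ⟨b, hb⟩ := Metric.denseRange_iff.mp (TopologicalSpace.denseRange_denseSeq S) ⟨F, hF⟩ ε hε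
    refine ⟨b, ?_⟩
    have : dist (⟨F, hF⟩ : S) (TopologicalSpace.denseSeq S b) = ‖(TopologicalSpace.denseSeq S b).1 - F‖ := by
      rw [Subtype.dist_eq, dist_comm, dist_eq_norm]
    rw [← this]
    exact hb.le
  · exact ⟨fun _ => 0, fun h => absurd h hS⟩

/-- dense sequence -/
noncomputable def exd (q : ℕ) (S : Set (Fin q → (V →L[ℂ] ℂ))) : ℕ → (Fin q → (V →L[ℂ] ℂ)) :=
  (ex_dense q S).choose

lemma exd_spec (q : ℕ) (S : Set (Fin q → (V →L[ℂ] ℂ))) (h : S.Nonempty) :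
    (∀ b, exd q S b ∈ S) ∧ ∀ F ∈ S, ∀ ε : ℝ, 0 < ε → ∃ b, ‖exd q S b - F‖ ≤ ε :=
  (ex_dense q S).choose_spec h

/-! ### nodes -/

/-- a node -/
structure ExNode where
  /-- weight -/
  w : ℕ
  /-- age -/
  age : ℕ
  /-- root -/
  rt : ℕ
  /-- parent -/
  par : ℕ
  /-- functional -/
  B : E →ₗ[ℂ] V
  /-- coordinate functional -/
  e : E →ₗ[ℂ] V

/-- root node -/
noncomputable def exRoot (k j : ℕ) : ExNode :=
  ⟨if j ≤ k then j else 0, 0, k, 0, 0, Finsupp.lapply k⟩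

/-- child node -/
noncomputable def exChild (k ξ : ℕ) (P : ExNode) (B : E →ₗ[ℂ] V) : ExNode :=
  ⟨P.w, P.age + 1, P.rt, ξ, B, Finsupp.lapply k + P.e + ((m P.w : ℂ)⁻¹) • B⟩

/-- condition for a child of even weight -/
def exGen (k : ℕ) (g : ℕ → ExNode) (ξ q τ : ℕ) : Prop :=
  ξ < q ∧ q ≤ k ∧ τ ≤ ξ ∧ Even (g ξ).w ∧ (g ξ).age < n (g ξ).w ∧
    (exA (fun i => (g i).e) ξ q).Nonempty

/-- condition for a child of odd weight -/
def exSpec (k : ℕ) (g : ℕ → ExNode) (ξ η : ℕ) : Prop :=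
  ξ < k ∧ η < k ∧ ξ < (g η).rt ∧ ¬ Even (g ξ).w ∧ (g ξ).age < n (g ξ).w ∧
    (g η).w = 2 * ξ + 2

open Classical in
/-- construction of the node `k` from the previous ones and a description -/
noncomputable def exMk (d : ℕ × ℕ × ℕ × ℕ × ℕ) (k : ℕ) (g : ℕ → ExNode) : ExNode :=
  if d.1 = 1 ∧ exGen k g d.2.1 d.2.2.1 d.2.2.2.1 then
    exChild k d.2.1 (g d.2.1) (tB d.2.1 d.2.2.2.1 (fF d.2.1 d.2.2.1
      (exF d.2.2.1 (exd d.2.2.1 (exA (fun i => (g i).e) d.2.1 d.2.2.1) d.2.2.2.2))))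
  else if d.1 = 2 ∧ exSpec k g d.2.1 d.2.2.1 then
    exChild k d.2.1 (g d.2.1) (g d.2.2.1).e
  else exRoot k (if d.1 = 0 then d.2.1 else 0)

/-- truncated sequences -/
noncomputable def exL (D : ℕ → ℕ × ℕ × ℕ × ℕ × ℕ) : ℕ → (ℕ → ExNode)
  | 0 => fun _ => exRoot 0 0
  | k + 1 => Function.update (exL D k) k (exMk (D k) k (exL D k))

/-- the sequence of nodes -/
noncomputable def exG (D : ℕ → ℕ × ℕ × ℕ × ℕ × ℕ) (k : ℕ) : ExNode := exMk (D k) k (exL D k)

lemma exL_lt (D : ℕ → ℕ × ℕ × ℕ × ℕ × ℕ) (k i : ℕ) (h : i < k) : exL D k i = exG D i := by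
  induction k with
  | zero => omega
  | succ k ih =>
    by_cases hik : i = k
    · subst hik
      simp [exL, exG]
    · have : i < k := by omega
      rw [exL, Function.update_of_ne hik, ih this]

lemma exGen_iff (D : ℕ → ℕ × ℕ × ℕ × ℕ × ℕ) (k ξ q τ : ℕ) :
    exGen k (exL D k) ξ q τ ↔ exGen k (exG D) ξ q τ := by
  unfold exGen
  constructor
  · rintro ⟨h1, h2, h3, h4, h5, h6⟩
    have hξ : exL D k ξ = exG D ξ := exL_lt D k ξ (by omega)
    rw [hξ] at h4 h5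
    refine ⟨h1, h2, h3, h4, h5, ?_⟩
    rwa [exA_congr (e' := fun i => (exG D i).e)
      (fun η hη => by simp only [exL_lt D k η (by omega)])] at h6
  · rintro ⟨h1, h2, h3, h4, h5, h6⟩
    have hξ : exL D k ξ = exG D ξ := exL_lt D k ξ (by omega)
    rw [← hξ] at h4 h5
    refine ⟨h1, h2, h3, h4, h5, ?_⟩
    rwa [exA_congr (e' := fun i => (exL D k i).e)
      (fun η hη => by simp only [exL_lt D k η (by omega)])] at h6

lemma exSpec_iff (D : ℕ → ℕ × ℕ × ℕ × ℕ × ℕ) (k ξ η : ℕ) :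
    exSpec k (exL D k) ξ η ↔ exSpec k (exG D) ξ η := by
  unfold exSpec
  constructor
  · rintro ⟨h1, h2, h3⟩
    rw [exL_lt D k ξ h1, exL_lt D k η h2] at h3
    exact ⟨h1, h2, h3⟩
  · rintro ⟨h1, h2, h3⟩
    refine ⟨h1, h2, ?_⟩
    rw [exL_lt D k ξ h1, exL_lt D k η h2]
    exact h3

lemma exG_gen (D : ℕ → ℕ × ℕ × ℕ × ℕ × ℕ) (k ξ q τ b : ℕ) (hD : D k = (1, ξ, q, τ, b))
    (h : exGen k (exG D) ξ q τ) :
    exG D k = exChild k ξ (exG D ξ) (tB ξ τ (fF ξ q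
      (exF q (exd q (exA (fun i => (exG D i).e) ξ q) b)))) := by
  have h' := (exGen_iff D k ξ q τ).mpr h
  have hA : exA (fun i => (exL D k i).e) ξ q = exA (fun i => (exG D i).e) ξ q :=
    exA_congr (fun η hη => by simp only [exL_lt D k η (by have := h.2.1; omega)])
  rw [exG, exMk, hD]
  rw [if_pos ⟨rfl, h'⟩]
  dsimp only
  rw [hA, exL_lt D k ξ (by have := h.1; have := h.2.1; omega)]

lemma exG_spec (D : ℕ → ℕ × ℕ × ℕ × ℕ × ℕ) (k ξ η a b : ℕ) (hD : D k = (2, ξ, η, a, b))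
    (h : exSpec k (exG D) ξ η) :
    exG D k = exChild k ξ (exG D ξ) (exG D η).e := by
  have h' := (exSpec_iff D k ξ η).mpr h
  rw [exG, exMk, hD]
  rw [if_neg (by rintro ⟨h1, _⟩; exact absurd h1 (by norm_num)), if_pos ⟨rfl, h'⟩]
  dsimp only
  rw [exL_lt D k ξ h.1, exL_lt D k η h.2.1]

lemma exG_root (D : ℕ → ℕ × ℕ × ℕ × ℕ × ℕ) (k j a b c : ℕ) (hD : D k = (0, j, a, b, c)) :
    exG D k = exRoot k j := by
  rw [exG, exMk, hD]
  rw [if_neg (by rintro ⟨h1, _⟩; exact absurd h1 (by norm_num)),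
    if_neg (by rintro ⟨h1, _⟩; exact absurd h1 (by norm_num))]
  simp

lemma exG_cases (D : ℕ → ℕ × ℕ × ℕ × ℕ × ℕ) (k : ℕ) :
    (∃ j, exG D k = exRoot k j) ∨
    (∃ ξ q τ F, ξ < q ∧ q ≤ k ∧ τ ≤ ξ ∧ Even (exG D ξ).w ∧ (exG D ξ).age < n (exG D ξ).w ∧
      Adm (fun i => (exG D i).e) ξ q F ∧
      exG D k = exChild k ξ (exG D ξ) (tB ξ τ (fF ξ q F))) ∨
    (∃ ξ η, exSpec k (exG D) ξ η ∧ exG D k = exChild k ξ (exG D ξ) (exG D η).e) := by
  by_cases h1 : (D k).1 = 1 ∧ exGen k (exG D) (D k).2.1 (D k).2.2.1 (D k).2.2.2.1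
  · right
    left
    have hD : D k = (1, (D k).2.1, (D k).2.2.1, (D k).2.2.2.1, (D k).2.2.2.2) := by
      rw [← h1.1]
    have hG := exG_gen D k _ _ _ _ hD h1.2
    obtain ⟨g1, g2, g3, g4, g5, g6⟩ := h1.2
    exact ⟨_, _, _, _, g1, g2, g3, g4, g5, (exd_spec _ _ g6).1 _, hG⟩
  · by_cases h2 : (D k).1 = 2 ∧ exSpec k (exG D) (D k).2.1 (D k).2.2.1
    · right
      right
      have hD : D k = (2, (D k).2.1, (D k).2.2.1, (D k).2.2.2.1, (D k).2.2.2.2) := by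
        rw [← h2.1]
      exact ⟨_, _, h2.2, exG_spec D k _ _ _ _ hD h2.2⟩
    · left
      refine ⟨if (D k).1 = 0 then (D k).2.1 else 0, ?_⟩
      rw [exG, exMk, if_neg, if_neg]
      · rw [exSpec_iff]
        exact h2
      · rw [exGen_iff]
        exact h1

lemma exG_w_le (D : ℕ → ℕ × ℕ × ℕ × ℕ × ℕ) (k : ℕ) : (exG D k).w ≤ (exG D k).rt := by
  induction k using Nat.strong_induction_on with
  | _ k ih =>
    rcases exG_cases D k with ⟨j, h⟩ | ⟨ξ, q, τ, F, g1, g2, g3, g4, g5, g6, h⟩ | ⟨ξ, η, g, h⟩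
    · rw [h]
      simp only [exRoot]
      split_ifs with hj
      · exact hj
      · exact Nat.zero_le _
    · rw [h]
      simp only [exChild]
      exact ih ξ (by omega)
    · rw [h]
      simp only [exChild]
      exact ih ξ g.1

lemma ex_desc : ∃ D : ℕ → ℕ × ℕ × ℕ × ℕ × ℕ, ∀ d K, ∃ k, K ≤ k ∧ D k = d := by
  obtain ⟨f, hf⟩ := exists_surjective_nat (ℕ × ℕ × ℕ × ℕ × ℕ)
  refine ⟨fun k => f (Nat.unpair k).1, ?_⟩
  intro d K
  obtain ⟨c, hc⟩ := hf d
  refine ⟨Nat.pair c K, Nat.right_le_pair c K, ?_⟩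
  simp [hc]

theorem exists_sys : Nonempty Sys := by
  obtain ⟨D, hD⟩ := ex_desc
  refine ⟨{
    w := fun k => (exG D k).w
    age := fun k => (exG D k).age
    rt := fun k => (exG D k).rt
    par := fun k => (exG D k).par
    B := fun k => (exG D k).B
    e := fun k => (exG D k).e
    w_le := exG_w_le D
    rt_root := ?_
    e_root := ?_
    par_lt := ?_
    w_par := ?_
    rt_par := ?_
    age_par := ?_
    age_le := ?_
    e_step := ?_
    gen := ?_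
    spec := ?_
    rich_root := ?_
    rich_gen := ?_
    rich_spec := ?_ }⟩
  · intro k hk
    rcases exG_cases D k with ⟨j, h⟩ | ⟨ξ, q, τ, F, g1, g2, g3, g4, g5, g6, h⟩ | ⟨ξ, η, g, h⟩
    · rw [h]
      rfl
    · rw [h] at hk
      simp [exChild] at hk
    · rw [h] at hk
      simp [exChild] at hk
  · intro k hk
    rcases exG_cases D k with ⟨j, h⟩ | ⟨ξ, q, τ, F, g1, g2, g3, g4, g5, g6, h⟩ | ⟨ξ, η, g, h⟩
    · rw [h]
      rfl
    · rw [h] at hk
      simp [exChild] at hk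
    · rw [h] at hk
      simp [exChild] at hk
  · intro k hk
    rcases exG_cases D k with ⟨j, h⟩ | ⟨ξ, q, τ, F, g1, g2, g3, g4, g5, g6, h⟩ | ⟨ξ, η, g, h⟩
    · rw [h] at hk
      simp [exRoot] at hk
    · rw [h]
      simp only [exChild]
      omega
    · rw [h]
      exact g.1
  · intro k hk
    rcases exG_cases D k with ⟨j, h⟩ | ⟨ξ, q, τ, F, g1, g2, g3, g4, g5, g6, h⟩ | ⟨ξ, η, g, h⟩
    · rw [h] at hk
      simp [exRoot] at hk
    · rw [h]
      rfl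
    · rw [h]
      rfl
  · intro k hk
    rcases exG_cases D k with ⟨j, h⟩ | ⟨ξ, q, τ, F, g1, g2, g3, g4, g5, g6, h⟩ | ⟨ξ, η, g, h⟩
    · rw [h] at hk
      simp [exRoot] at hk
    · rw [h]
      rfl
    · rw [h]
      rfl
  · intro k hk
    rcases exG_cases D k with ⟨j, h⟩ | ⟨ξ, q, τ, F, g1, g2, g3, g4, g5, g6, h⟩ | ⟨ξ, η, g, h⟩
    · rw [h] at hk
      simp [exRoot] at hk
    · rw [h]
      rfl
    · rw [h]
      rfl
  · intro k
    rcases exG_cases D k with ⟨j, h⟩ | ⟨ξ, q, τ, F, g1, g2, g3, g4, g5, g6, h⟩ | ⟨ξ, η, g, h⟩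
    · rw [h]
      exact Nat.zero_le _
    · rw [h]
      exact g5
    · rw [h]
      exact g.2.2.2.2.1
  · intro k hk
    rcases exG_cases D k with ⟨j, h⟩ | ⟨ξ, q, τ, F, g1, g2, g3, g4, g5, g6, h⟩ | ⟨ξ, η, g, h⟩
    · rw [h] at hk
      simp [exRoot] at hk
    · rw [h]
      rfl
    · rw [h]
      rfl
  · intro k hk hev
    rcases exG_cases D k with ⟨j, h⟩ | ⟨ξ, q, τ, F, g1, g2, g3, g4, g5, g6, h⟩ | ⟨ξ, η, g, h⟩
    · rw [h] at hk
      simp [exRoot] at hk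
    · refine ⟨q, τ, F, ?_⟩
      rw [h]
      exact ⟨g1, g2, g3, g6, rfl⟩
    · rw [h] at hev
      exact absurd hev g.2.2.2.1
  · intro k hk hev
    rcases exG_cases D k with ⟨j, h⟩ | ⟨ξ, q, τ, F, g1, g2, g3, g4, g5, g6, h⟩ | ⟨ξ, η, g, h⟩
    · rw [h] at hk
      simp [exRoot] at hk
    · rw [h] at hev
      exact absurd g4 hev
    · refine ⟨η, ?_⟩
      rw [h]
      exact ⟨g.2.2.1, g.2.1, g.2.2.2.2.2, rfl⟩
  · intro j K
    obtain ⟨k, hk, hDk⟩ := hD (0, j, 0, 0, 0) (max K j)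
    have h := exG_root D k _ _ _ _ hDk
    refine ⟨k, le_trans (le_max_left _ _) hk, ?_, ?_⟩
    · rw [h]
      rfl
    · rw [h]
      have : j ≤ k := le_trans (le_max_right _ _) hk
      simp [exRoot, this]
  · intro ξ q τ F h1 h2 h3 h4 h5 ε hε K
    have hF : (fun i : Fin q => F i) ∈ exA (fun i => (exG D i).e) ξ q :=
      ex_Adm_congr (fun _ _ => rfl) (fun η hη => ex_exF_restrict q F η hη) h5
    have hne : (exA (fun i => (exG D i).e) ξ q).Nonempty := ⟨_, hF⟩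
    obtain ⟨hm, hd⟩ := exd_spec q _ hne
    obtain ⟨b, hb⟩ := hd _ hF ε hε
    obtain ⟨k, hk, hDk⟩ := hD (1, ξ, q, τ, b) (max K q)
    have hqk : q ≤ k := le_trans (le_max_right _ _) hk
    have h := exG_gen D k _ _ _ _ hDk ⟨h3, hqk, h4, h1, h2, hne⟩
    refine ⟨k, exF q (exd q (exA (fun i => (exG D i).e) ξ q) b), le_trans (le_max_left _ _) hk,
      hqk, ?_, ?_, ?_, ?_, hm b, ?_⟩
    · rw [h]
      rfl
    · rw [h]
      rfl
    · rw [h]
      rfl
    · rw [h]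
      rfl
    · intro η hη
      have h6 := norm_le_pi_norm (exd q (exA (fun i => (exG D i).e) ξ q) b - fun i : Fin q => F i) ⟨η, hη⟩
      have h7 : exF q (exd q (exA (fun i => (exG D i).e) ξ q) b) η - F η
          = (exd q (exA (fun i => (exG D i).e) ξ q) b - fun i : Fin q => F i) ⟨η, hη⟩ := by
        simp [exF, hη]
      rw [h7]
      exact le_trans h6 hb
  · intro ξ η h1 h2 h3 h4 K
    obtain ⟨k, hk, hDk⟩ := hD (2, ξ, η, 0, 0) (max K (max (ξ + 1) (η + 1)))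
    have h5 := le_max_left K (max (ξ + 1) (η + 1))
    have h6 := le_max_right K (max (ξ + 1) (η + 1))
    have h7 := le_max_left (ξ + 1) (η + 1)
    have h8 := le_max_right (ξ + 1) (η + 1)
    have h := exG_spec D k _ _ _ _ hDk ⟨by omega, by omega, h3, h1, h2, h4⟩
    refine ⟨k, by omega, by omega, ?_, ?_, ?_, ?_⟩
    · rw [h]
      rfl
    · rw [h]
      rfl
    · rw [h]
      rfl
    · rw [h]
      rfl

end Pool.Agent.Helper64.Cal
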