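import Pool.Agent.Helper64.Cal.At
import Pool.Agent.Helper64.Cal.Ex

/-!
# The main theorem
-/

set_option autoImplicit false

open scoped ENNReal

namespace Pool.Agent.Helper64.Cal

theorem main :
    ∃ (X : Type) (_ : NormedAddCommGroup X) (_ : NormedSpace ℂ X) (_ : CompleteSpace X),
      ∃ φ : (X →L[ℂ] X) →ₐ[ℂ] (lp (fun _ : ℕ => ℂ) 2 →L[ℂ] lp (fun _ : ℕ => ℂ) 2),
        Continuous φ ∧
        (∀ T : lp (fun _ : ℕ => ℂ) 2 →L[ℂ] lp (fun _ : ℕ => ℂ) 2,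
          (∃ S : X →L[ℂ] X, φ S = T) ↔
            ∃ c : ℂ, ∃ K : lp (fun _ : ℕ => ℂ) 2 →L[ℂ] lp (fun _ : ℕ => ℂ) 2,
              IsCompactOperator K ∧ T = c • (1 : lp (fun _ : ℕ => ℂ) 2 →L[ℂ] lp (fun _ : ℕ => ℂ) 2) + K) ∧
        (∀ S : X →L[ℂ] X, φ S = 0 ↔ IsCompactOperator S) := by
  obtain ⟨S⟩ := exists_sys
  refine ⟨S.X, inferInstance, inferInstance, inferInstance,
    AlgHom.ofLinearMap S.A.toLinearMap S.A_one (fun T T' => S.A_mul T T'), ?_, ?_, ?_⟩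
  · exact S.A.continuous
  · exact S.A_range
  · exact S.A_eq_zero_iff

end Pool.Agent.Helper64.Cal
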