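import Pool.Agent.Helper64.Cal.Sp
import Pool.Agent.Helper64.Cal.Avg

/-!
# The general principle: no bounded operator creates separated functionals on RIS vectors
-/

set_option autoImplicit false

open scoped ENNReal
open Filter Topology

namespace Pool.Agent.Helper64.Cal

/-- hypothesis that leads to a contradiction: arbitrarily far RIS vectors `x`, approximations `y`
of `T x`, and functionals of type `tB` small on `x` and large on `y` in coordinate `i0` -/
def HH (S : Sys) (T : S.X →L[ℂ] S.X) (C δ : ℝ) (i0 p0 : ℕ) : Prop :=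
  ∀ p, p0 ≤ p → ∀ J : ℕ, ∀ ε : ℝ, 0 < ε →
    ∃ (x y : X00) (τ q : ℕ) (F : ℕ → (V →L[ℂ] ℂ)), RT S C J x ∧ (∀ k, k ≤ p → (x : E) k = 0) ∧
      (∀ k, k ≤ p → (y : E) k = 0) ∧ τ ≤ p ∧ p < q ∧ Adm S.e p q F ∧
      ‖T (S.j x) - S.j y‖ ≤ ε ∧ ‖tB p τ (fF p q F) x‖ ≤ ε ∧
      δ ≤ ((tB p τ (fF p q F) y : V) i0).re

/-- exact pairs (with the approximation `y` of `T z`) -/
structure EPair (S : Sys) (T : S.X →L[ℂ] S.X) (C δ : ℝ) (i0 j p : ℕ) (ε : ℝ) (z y : X00)
    (η : ℕ) : Prop where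
  rt : p < S.rt η
  w : S.w η = j
  zs : ∀ k, k ≤ S.rt η ∨ η ≤ k → (z : E) k = 0
  ys : ∀ k, k ≤ S.rt η ∨ η ≤ k → (y : E) k = 0
  nb : ∀ k, ‖S.e k z‖ ≤ C
  lt : ∀ k, S.w k < j → ‖S.e k z‖ ≤ C / m (S.w k)
  gt : ∀ k, j < S.w k → ‖S.e k z‖ ≤ C / m j
  co : ∀ k, ‖(z : E) k‖ ≤ C / m j
  eη : ‖S.e η z‖ ≤ ε
  T : ‖T (S.j z) - S.j y‖ ≤ ε
  re : δ ≤ ((S.e η y : V) i0).re

/-- continuity of the scalar functional in `F` -/
lemma gp_fF_cont (p q : ℕ) {F F' : ℕ → (V →L[ℂ] ℂ)} {c : ℝ}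
    (h : ∀ η, η < q → ‖F' η - F η‖ ≤ c) (u : E) :
    ‖fF p q F' u - fF p q F u‖ ≤ c * ∑ η ∈ Finset.Ico (p + 1) q, ‖u η‖ := by
  rw [fF_apply, fF_apply, ← Finset.sum_sub_distrib, Finset.mul_sum]
  refine norm_sum_le_of_le _ (fun η hη => ?_)
  rw [Finset.mem_Ico] at hη
  have h1 : F' η (u η) - F η (u η) = (F' η - F η) (u η) := by simp
  rw [h1]
  exact le_trans (ContinuousLinearMap.le_opNorm _ _)
    (mul_le_mul_of_nonneg_right (h η hη.2) (norm_nonneg _))

/-- continuity of `tB` in `F` -/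
lemma tB_cont (p τ q : ℕ) (F : ℕ → (V →L[ℂ] ℂ)) (x : E) {ε : ℝ} (hε : 0 < ε) :
    ∃ ε' : ℝ, 0 < ε' ∧ ∀ F' : ℕ → (V →L[ℂ] ℂ), (∀ η, η < q → ‖F' η - F η‖ ≤ ε') →
      ‖tB p τ (fF p q F') x - tB p τ (fF p q F) x‖ ≤ ε := by
  rcases Nat.eq_zero_or_pos τ with hτ | hτ
  · subst hτ
    set A : ℝ := ∑ η ∈ Finset.Ico (p + 1) q, ‖(x - act (Q p) x) η‖ with hA
    have hA0 : 0 ≤ A := Finset.sum_nonneg (fun _ _ => norm_nonneg _)
    refine ⟨ε / (A + 1), by positivity, fun F' hF' => ?_⟩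
    rw [tB_zero_apply, tB_zero_apply, ← sub_smul, ← mul_sub, norm_smul, norm_bv, mul_one,
      norm_mul]
    have h1 := gp_fF_cont p q hF' (x - act (Q p) x)
    rw [← hA] at h1
    have h2 : ε / (A + 1) * A ≤ ε := by
      rw [div_mul_eq_mul_div, div_le_iff₀ (by positivity)]
      nlinarith
    have h3 : ‖(1 / 3 : ℂ)‖ ≤ 1 := by norm_num
    calc ‖(1 / 3 : ℂ)‖ * _ ≤ 1 * _ := mul_le_mul_of_nonneg_right h3 (norm_nonneg _)
      _ ≤ ε := by rw [one_mul]; exact h1.trans h2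
  · set A : ℝ := ∑ l ∈ Finset.Icc 1 p, ∑ η ∈ Finset.Ico (p + 1) q, ‖(act (mu τ l) x) η‖ with hA
    have hA0 : 0 ≤ A := Finset.sum_nonneg (fun _ _ => Finset.sum_nonneg (fun _ _ => norm_nonneg _))
    refine ⟨ε / (A + 1), by positivity, fun F' hF' => ?_⟩
    rw [tB_pos_apply p τ hτ, tB_pos_apply p τ hτ, ← Finset.sum_sub_distrib]
    have h2 : ε / (A + 1) * A ≤ ε := by
      rw [div_mul_eq_mul_div, div_le_iff₀ (by positivity)]
      nlinarith
    refine le_trans ?_ h2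
    rw [hA, Finset.mul_sum]
    refine norm_sum_le_of_le _ (fun l _ => ?_)
    rw [← sub_smul, ← mul_sub, norm_smul, norm_bv, mul_one, norm_mul]
    have h1 := gp_fF_cont p q hF' (act (mu τ l) x)
    have h3 : ‖(1 / 3 : ℂ)‖ ≤ 1 := by norm_num
    calc ‖(1 / 3 : ℂ)‖ * _ ≤ 1 * _ := mul_le_mul_of_nonneg_right h3 (norm_nonneg _)
      _ ≤ _ := by rw [one_mul]; exact h1

/-- one step of the construction of exact pairs -/
lemma gp_step (S : Sys) (T : S.X →L[ℂ] S.X) {C δ : ℝ} {i0 p0 : ℕ} (h : HH S T C δ i0 p0)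
    {j : ℕ} (hj : Even j) {ε : ℝ} (hε : 0 < ε) (ξ : ℕ) (hw : S.w ξ = j)
    (hage : S.age ξ < n j) (hp : p0 ≤ ξ) :
    ∃ (x y : X00) (ξ' : ℕ), RT S C ξ x ∧ (∀ k, k ≤ ξ ∨ ξ' ≤ k → (x : E) k = 0) ∧
      (∀ k, k ≤ ξ ∨ ξ' ≤ k → (y : E) k = 0) ∧ ξ < ξ' ∧ S.age ξ' = S.age ξ + 1 ∧ S.par ξ' = ξ ∧
      S.w ξ' = j ∧ ‖T (S.j x) - S.j y‖ ≤ ε ∧ ‖S.B ξ' x‖ ≤ 2 * ε ∧
      δ - ε ≤ ((S.B ξ' y : V) i0).re := by
  obtain ⟨x, y, τ, q, F, hRT, hxp, hyp, hτ, hpq, hAdm, hT, hx, hy⟩ := h ξ hp ξ ε hε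
  obtain ⟨ε1, hε1, h1⟩ := tB_cont ξ τ q F x hε
  obtain ⟨ε2, hε2, h2⟩ := tB_cont ξ τ q F y hε
  obtain ⟨qx, hqx⟩ := exists_supp (x : E)
  obtain ⟨qy, hqy⟩ := exists_supp (y : E)
  obtain ⟨ξ', F', hK, hqk, hage', hpar, hw', hB, -, hF'⟩ := S.rich_gen ξ q τ F (by rw [hw]; exact hj)
    (by rw [hw]; exact hage) hpq hτ hAdm (min ε1 ε2) (lt_min hε1 hε2) (max (ξ + 1) (max qx qy))
  have hK1 : ξ + 1 ≤ ξ' := le_trans (le_max_left _ _) hK
  have hK2 : qx ≤ ξ' := le_trans (le_trans (le_max_left _ _) (le_max_right _ _)) hK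
  have hK3 : qy ≤ ξ' := le_trans (le_trans (le_max_right _ _) (le_max_right _ _)) hK
  refine ⟨x, y, ξ', hRT, ?_, ?_, by omega, hage', hpar, by rw [hw', hw], hT, ?_, ?_⟩
  · rintro k (hk | hk)
    · exact hxp k hk
    · exact hqx k (by omega)
  · rintro k (hk | hk)
    · exact hyp k hk
    · exact hqy k (by omega)
  · rw [hB]
    have h3 := h1 F' (fun η hη => (hF' η hη).trans (min_le_left _ _))
    calc ‖tB ξ τ (fF ξ q F') x‖
        = ‖(tB ξ τ (fF ξ q F') x - tB ξ τ (fF ξ q F) x) + tB ξ τ (fF ξ q F) x‖ := by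
          rw [sub_add_cancel]
      _ ≤ ε + ε := (norm_add_le _ _).trans (add_le_add h3 hx)
      _ = 2 * ε := by ring
  · rw [hB]
    have h3 := h2 F' (fun η hη => (hF' η hη).trans (min_le_right _ _))
    have h4 : ‖(tB ξ τ (fF ξ q F') y - tB ξ τ (fF ξ q F) y : V) i0‖ ≤ ε :=
      (lp.norm_apply_le_norm (p := 2) (by norm_num) _ i0).trans h3
    have h5 : (tB ξ τ (fF ξ q F') y - tB ξ τ (fF ξ q F) y : V) i0 =
        (tB ξ τ (fF ξ q F') y : V) i0 - (tB ξ τ (fF ξ q F) y : V) i0 := rfl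
    rw [h5] at h4
    have h6 := (Complex.abs_re_le_norm _).trans h4
    rw [Complex.sub_re, abs_le] at h6
    linarith [h6.1]

/-- evaluation along a branch -/
lemma gp_branch (S : Sys) {j : ℕ} {ξ : ℕ → ℕ} {N : ℕ} (h0 : S.age (ξ 0) = 0)
    (hage : ∀ r, r < N → S.age (ξ (r + 1)) ≠ 0)
    (hpar : ∀ r, r < N → S.par (ξ (r + 1)) = ξ r) (hw : ∀ r, r ≤ N → S.w (ξ r) = j)
    (hmono : ∀ r s, r ≤ s → s ≤ N → ξ r ≤ ξ s) {k : ℕ} (hk : k < N) {u : E}
    (hu : ∀ i, i ≤ ξ k ∨ ξ (k + 1) ≤ i → u i = 0) (r : ℕ) (hr : r ≤ N) :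
    S.e (ξ r) u = if k < r then ((m j : ℂ)⁻¹) • S.B (ξ (k + 1)) u else 0 := by
  induction r with
  | zero =>
    rw [S.e_root_apply h0, if_neg (by omega)]
    exact hu _ (Or.inl (hmono 0 k (by omega) (by omega)))
  | succ r ih =>
    have ih' := ih (by omega)
    rw [S.e_step_apply (hage r (by omega)), hpar r (by omega), ih', hw (r + 1) hr]
    have hz : u (ξ (r + 1)) = 0 := by
      rcases Nat.lt_or_ge k (r + 1) with hkr | hkr
      · exact hu _ (Or.inr (hmono (k + 1) (r + 1) (by omega) hr))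
      · exact hu _ (Or.inl (hmono (r + 1) k hkr (by omega)))
    rw [hz, zero_add]
    rcases lt_trichotomy k r with hkr | hkr | hkr
    · rw [if_pos hkr, if_pos (by omega)]
      have : S.B (ξ (r + 1)) u = 0 := by
        apply S.B_zero (hage r (by omega))
        intro i hi hi'
        rw [hpar r (by omega)] at hi
        exact hu _ (Or.inr (le_trans (hmono (k + 1) r (by omega) (by omega)) hi.le))
      rw [this, smul_zero, add_zero]
    · subst hkr
      rw [if_neg (by omega), if_pos (by omega), zero_add]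
    · rw [if_neg (by omega), if_neg (by omega)]
      have : S.B (ξ (r + 1)) u = 0 := by
        apply S.B_zero (hage r (by omega))
        intro i hi hi'
        exact hu _ (Or.inl (le_trans hi'.le (hmono (r + 1) k (by omega) (by omega))))
      rw [this, smul_zero, add_zero]

theorem exists_epair (S : Sys) (T : S.X →L[ℂ] S.X) {C δ : ℝ} (hC : 0 ≤ C) (hδ : 0 < δ)
    {i0 p0 : ℕ} (h : HH S T C δ i0 p0) {j : ℕ} (hj : Even j) (p : ℕ) {ε : ℝ} (hε : 0 < ε) :
    ∃ (z y : X00) (η : ℕ), EPair S T (8 * C) (δ / 2) i0 j p ε z y η := by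
  have hm : (64 : ℝ) ≤ m j := by exact_mod_cast m_ge j
  have hm0 : (0 : ℝ) < m j := by linarith
  have hn : (1 : ℝ) ≤ n j := by exact_mod_cast n_pos j
  have hn0 : (0 : ℝ) < n j := by linarith
  have hmC : (m j : ℂ) ≠ 0 := by
    have := m_ge j
    exact_mod_cast (by omega : m j ≠ 0)
  have hnC : (n j : ℂ) ≠ 0 := by
    have := n_pos j
    exact_mod_cast (by omega : n j ≠ 0)
  -- the small number
  obtain ⟨ε1, hε1, hε1a, hε1b⟩ : ∃ ε1 : ℝ, 0 < ε1 ∧ m j * ε1 ≤ ε ∧ ε1 ≤ δ / 2 := by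
    refine ⟨min (ε / m j) (δ / 2), lt_min (by positivity) (by positivity), ?_, min_le_right _ _⟩
    calc (m j : ℝ) * min (ε / m j) (δ / 2) ≤ m j * (ε / m j) :=
          mul_le_mul_of_nonneg_left (min_le_left _ _) hm0.le
      _ = ε := by field_simp
  -- the root
  obtain ⟨ρ, hρ, hρage, hρw⟩ := S.rich_root j (max (p + 1) p0)
  have hρp : p < ρ := lt_of_lt_of_le (Nat.lt_succ_self p) (le_trans (le_max_left _ _) hρ)
  have hρp0 : p0 ≤ ρ := le_trans (le_max_right _ _) hρ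
  -- the steps
  have hstep := fun ξ hw hage hp => gp_step S T h hj hε1 ξ hw hage hp
  choose! X Y nx hRT hX hY hlt hage hpar hw hT hBx hBy using hstep
  set ξ : ℕ → ℕ := fun k => Nat.rec ρ (fun _ s => nx s) k with hξ
  have ξ0 : ξ 0 = ρ := rfl
  have ξs : ∀ k, ξ (k + 1) = nx (ξ k) := fun k => rfl
  have key : ∀ k, k ≤ n j → S.w (ξ k) = j ∧ S.age (ξ k) = k ∧ p0 ≤ ξ k ∧ S.rt (ξ k) = ρ := by
    intro k
    induction k with
    | zero =>
      intro _
      exact ⟨by rw [ξ0, hρw], by rw [ξ0, hρage], by rw [ξ0]; exact hρp0,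
        by rw [ξ0]; exact S.rt_root ρ hρage⟩
    | succ k ih =>
      intro hk
      obtain ⟨a1, a2, a3, a4⟩ := ih (by omega)
      have b1 := hage (ξ k) a1 (by omega) a3
      have b2 := hpar (ξ k) a1 (by omega) a3
      have b3 := hw (ξ k) a1 (by omega) a3
      have b4 := hlt (ξ k) a1 (by omega) a3
      rw [← ξs k] at b1 b2 b3 b4
      refine ⟨b3, by rw [b1, a2], by omega, ?_⟩
      have := S.rt_par (ξ (k + 1)) (by rw [b1]; omega)
      rw [b2, a4] at this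
      exact this.symm
  have step : ∀ k, k < n j → RT S C (ξ k) (X (ξ k)) ∧
      (∀ i, i ≤ ξ k ∨ ξ (k + 1) ≤ i → (X (ξ k) : E) i = 0) ∧
      (∀ i, i ≤ ξ k ∨ ξ (k + 1) ≤ i → (Y (ξ k) : E) i = 0) ∧ ξ k < ξ (k + 1) ∧
      S.age (ξ (k + 1)) ≠ 0 ∧ S.par (ξ (k + 1)) = ξ k ∧
      ‖T (S.j (X (ξ k))) - S.j (Y (ξ k))‖ ≤ ε1 ∧ ‖S.B (ξ (k + 1)) (X (ξ k))‖ ≤ 2 * ε1 ∧
      δ - ε1 ≤ ((S.B (ξ (k + 1)) (Y (ξ k)) : V) i0).re := by
    intro k hk
    obtain ⟨a1, a2, a3, a4⟩ := key k hk.le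
    have a2' : S.age (ξ k) < n j := by omega
    refine ⟨hRT _ a1 a2' a3, hX _ a1 a2' a3, hY _ a1 a2' a3, hlt _ a1 a2' a3, ?_,
      hpar _ a1 a2' a3, hT _ a1 a2' a3, hBx _ a1 a2' a3, hBy _ a1 a2' a3⟩
    rw [(key (k + 1) hk).2.1]
    omega
  have hmono : ∀ r s, r ≤ s → s ≤ n j → ξ r ≤ ξ s := by
    intro r s hrs hs
    induction s with
    | zero =>
      have : r = 0 := by omega
      rw [this]
    | succ s ih =>
      rcases Nat.lt_or_ge r (s + 1) with h1 | h1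
      · exact (ih (by omega) (by omega)).trans (step s (by omega)).2.2.2.1.le
      · have : r = s + 1 := by omega
        rw [this]
  have branch := fun k (hk : k < n j) (u : E) hu => gp_branch S (j := j) (ξ := ξ) (N := n j)
    (key 0 (Nat.zero_le _)).2.1 (fun r hr => (step r hr).2.2.2.2.1)
    (fun r hr => (step r hr).2.2.2.2.2.1) (fun r hr => (key r hr).1) hmono hk (u := u) hu
    (n j) le_rfl
  -- the vectors
  set z : X00 := ((m j : ℂ) / (n j : ℂ)) • ∑ k ∈ Finset.range (n j), X (ξ k) with hz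
  set y : X00 := ((m j : ℂ) / (n j : ℂ)) • ∑ k ∈ Finset.range (n j), Y (ξ k) with hy
  have hzE : (z : E) = ((m j : ℂ) / (n j : ℂ)) • ∑ k ∈ Finset.range (n j), (X (ξ k) : E) := by
    rw [hz]
    simp
  have hyE : (y : E) = ((m j : ℂ) / (n j : ℂ)) • ∑ k ∈ Finset.range (n j), (Y (ξ k) : E) := by
    rw [hy]
    simp
  have hRIS : RIS S C (n j) (fun k => (X (ξ k) : E)) ξ :=
    ⟨fun k hk => (step k hk).1, fun k hk i hi => (step k hk).2.1 i (Or.inr hi),
      fun k hk => (step k hk).2.2.2.1.le⟩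
  obtain ⟨-, g1, g2, g3, g4⟩ := avg_gen hRIS hC (z : E) hzE
  have hrt : S.rt (ξ (n j)) = ρ := (key (n j) le_rfl).2.2.2
  have hnorm : ‖((m j : ℂ) / (n j : ℂ))‖ = m j / n j := by
    rw [norm_div, Complex.norm_natCast, Complex.norm_natCast]
  have hsup : ∀ (U : ℕ → X00), (∀ k, k < n j → ∀ i, i ≤ ξ k ∨ ξ (k + 1) ≤ i → (U (ξ k) : E) i = 0) →
      ∀ i, i ≤ S.rt (ξ (n j)) ∨ ξ (n j) ≤ i →
        (((m j : ℂ) / (n j : ℂ)) • ∑ k ∈ Finset.range (n j), (U (ξ k) : E)) i = 0 := by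
    intro U hU i hi
    rw [Finsupp.smul_apply, Finsupp.finsetSum_apply, Finset.sum_eq_zero, smul_zero]
    intro k hk
    rw [Finset.mem_range] at hk
    apply hU k hk i
    rcases hi with hi | hi
    · left
      rw [hrt, ← ξ0] at hi
      exact hi.trans (hmono 0 k (Nat.zero_le _) hk.le)
    · right
      exact (hmono (k + 1) (n j) hk le_rfl).trans hi
  have heval : ∀ (U : ℕ → X00), (∀ k, k < n j → ∀ i, i ≤ ξ k ∨ ξ (k + 1) ≤ i →
      (U (ξ k) : E) i = 0) →
      S.e (ξ (n j)) (((m j : ℂ) / (n j : ℂ)) • ∑ k ∈ Finset.range (n j), (U (ξ k) : E)) =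
        ((n j : ℂ)⁻¹) • ∑ k ∈ Finset.range (n j), S.B (ξ (k + 1)) (U (ξ k)) := by
    intro U hU
    rw [map_smul, map_sum]
    have h1 : ∑ k ∈ Finset.range (n j), S.e (ξ (n j)) (U (ξ k) : E) =
        ∑ k ∈ Finset.range (n j), ((m j : ℂ)⁻¹) • S.B (ξ (k + 1)) (U (ξ k)) := by
      refine Finset.sum_congr rfl (fun k hk => ?_)
      rw [Finset.mem_range] at hk
      rw [branch k hk _ (hU k hk), if_pos hk]
    rw [h1, ← Finset.smul_sum, smul_smul]
    congr 1
    field_simp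
  refine ⟨z, y, ξ (n j), ⟨by rw [hrt]; exact hρp, (key (n j) le_rfl).1, ?_, ?_, g1, g2, g3, g4,
    ?_, ?_, ?_⟩⟩
  · rw [hzE]
    exact hsup X (fun k hk => (step k hk).2.1)
  · rw [hyE]
    exact hsup Y (fun k hk => (step k hk).2.2.1)
  · rw [hzE, heval X (fun k hk => (step k hk).2.1), norm_smul, norm_inv, Complex.norm_natCast]
    have h1 : ‖∑ k ∈ Finset.range (n j), S.B (ξ (k + 1)) (X (ξ k))‖ ≤ n j * (2 * ε1) := by
      refine (norm_sum_le_of_le _ (fun k hk => (step k (Finset.mem_range.1 hk)).2.2.2.2.2.2.2.1)).trans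
        (le_of_eq ?_)
      simp
    calc (n j : ℝ)⁻¹ * _ ≤ (n j : ℝ)⁻¹ * (n j * (2 * ε1)) :=
          mul_le_mul_of_nonneg_left h1 (by positivity)
      _ = 2 * ε1 := by field_simp
      _ ≤ ε := by nlinarith
  · have h1 : T (S.j z) - S.j y = ((m j : ℂ) / (n j : ℂ)) •
        ∑ k ∈ Finset.range (n j), (T (S.j (X (ξ k))) - S.j (Y (ξ k))) := by
      rw [hz, hy, map_smul, map_smul, map_smul, map_sum, map_sum, map_sum, ← smul_sub,
        Finset.sum_sub_distrib]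
    rw [h1, norm_smul, hnorm]
    have h2 : ‖∑ k ∈ Finset.range (n j), (T (S.j (X (ξ k))) - S.j (Y (ξ k)))‖ ≤ n j * ε1 := by
      refine (norm_sum_le_of_le _ (fun k hk => (step k (Finset.mem_range.1 hk)).2.2.2.2.2.2.1)).trans
        (le_of_eq ?_)
      simp
    calc (m j / n j : ℝ) * _ ≤ (m j / n j : ℝ) * (n j * ε1) :=
          mul_le_mul_of_nonneg_left h2 (by positivity)
      _ = m j * ε1 := by field_simp
      _ ≤ ε := hε1a
  · rw [hyE, heval Y (fun k hk => (step k hk).2.2.1)]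
    have h1 : ((((n j : ℂ)⁻¹) • ∑ k ∈ Finset.range (n j), S.B (ξ (k + 1)) (Y (ξ k)) : V) i0) =
        (((n j : ℝ)⁻¹ : ℝ) : ℂ) * ∑ k ∈ Finset.range (n j), ((S.B (ξ (k + 1)) (Y (ξ k)) : V) i0) := by
      have h2 : ∀ v : V, v i0 = co i0 v := fun v => (co_apply i0 v).symm
      rw [h2, map_smul, map_sum, smul_eq_mul]
      push_cast
      congr 1
    rw [h1, Complex.re_ofReal_mul, Complex.re_sum]
    have h3 : (n j : ℝ) * (δ / 2) ≤
        ∑ k ∈ Finset.range (n j), ((S.B (ξ (k + 1)) (Y (ξ k)) : V) i0).re := by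
      have h4 : ∑ k ∈ Finset.range (n j), (δ / 2) ≤
          ∑ k ∈ Finset.range (n j), ((S.B (ξ (k + 1)) (Y (ξ k)) : V) i0).re := by
        refine Finset.sum_le_sum (fun k hk => ?_)
        have := (step k (Finset.mem_range.1 hk)).2.2.2.2.2.2.2.2
        linarith
      simpa using h4
    calc δ / 2 = (n j : ℝ)⁻¹ * (n j * (δ / 2)) := by field_simp
      _ ≤ _ := mul_le_mul_of_nonneg_left h3 (by positivity)



lemma gp2_sum_ite {s : Finset ℕ} {P : ℕ → Prop} [DecidablePred P] {c : ℝ} (hc : 0 ≤ c)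
    (h : ∀ i ∈ s, ∀ k ∈ s, P i → P k → i = k) : ∑ i ∈ s, (if P i then c else 0) ≤ c := by
  rw [← Finset.sum_filter, Finset.sum_const, nsmul_eq_mul]
  have h1 : (s.filter P).card ≤ 1 := by
    rw [Finset.card_le_one]
    intro a ha b hb
    rw [Finset.mem_filter] at ha hb
    exact h a ha.1 b hb.1 ha.2 hb.2
  have h2 : (((s.filter P).card : ℕ) : ℝ) ≤ 1 := by exact_mod_cast h1
  nlinarith

/-- data of a dependent sequence -/
structure Dep (S : Sys) (C ε : ℝ) (j : ℕ) (ζ η : ℕ → ℕ) (z : ℕ → E) : Prop where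
  C0 : 0 ≤ C
  ε0 : 0 < ε
  odd : ¬ Even j
  age : ∀ i, i ≤ n j → S.age (ζ i) = i
  w : ∀ i, i ≤ n j → S.w (ζ i) = j
  par : ∀ i, i < n j → S.par (ζ (i + 1)) = ζ i
  B : ∀ i, i < n j → S.B (ζ (i + 1)) = S.e (η i)
  lt : ∀ i, i < n j → η i < ζ (i + 1)
  rt : ∀ i, i < n j → ζ i < S.rt (η i)
  wη : ∀ i, i < n j → S.w (η i) = 2 * ζ i + 2
  mem : ∀ i, i < n j → z i ∈ X00
  zs : ∀ i, i < n j → ∀ k, k ≤ S.rt (η i) ∨ η i ≤ k → z i k = 0
  nb : ∀ i, i < n j → ∀ k, ‖S.e k (z i)‖ ≤ C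
  wlt : ∀ i, i < n j → ∀ k, S.w k < 2 * ζ i + 2 → ‖S.e k (z i)‖ ≤ C / m (S.w k)
  wgt : ∀ i, i < n j → ∀ k, 2 * ζ i + 2 < S.w k → ‖S.e k (z i)‖ ≤ C / m (2 * ζ i + 2)
  co : ∀ i, i < n j → ∀ k, ‖z i k‖ ≤ C / m (2 * ζ i + 2)
  eη : ∀ i, i < n j → ‖S.e (η i) (z i)‖ ≤ ε

namespace Dep

variable {S : Sys} {C ε : ℝ} {j : ℕ} {ζ η : ℕ → ℕ} {z : ℕ → E} (h : Dep S C ε j ζ η z)

include h

lemma zlt (i : ℕ) (hi : i < n j) : ζ i < ζ (i + 1) := by
  have h1 := h.rt i hi
  have h2 := S.rt_le (η i)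
  have h3 := h.lt i hi
  omega

lemma zmono (i k : ℕ) (hik : i ≤ k) (hk : k ≤ n j) : ζ i ≤ ζ k := by
  induction k, hik using Nat.le_induction with
  | base => exact le_refl _
  | succ k hik ih =>
    have := h.zlt k (by omega)
    have := ih (by omega)
    omega

lemma jle (i : ℕ) (hi : i ≤ n j) : j ≤ ζ i := by
  have h1 := S.w_le_self (ζ i)
  rw [h.w i hi] at h1
  exact h1

/-- a node of weight at least `j+1` on `z i` when the weights differ -/
lemma S1 (i : ℕ) (hi : i < n j) (η' : ℕ) (hw : j + 1 ≤ S.w η') (hne : S.w η' ≠ 2 * ζ i + 2) :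
    ‖S.e η' (z i)‖ ≤ C / (n j : ℝ) ^ 2 := by
  have hm : (m (j + 1) : ℝ) = (n j : ℝ) ^ 2 := by
    rw [m_succ]
    push_cast
    rfl
  have hmp : 0 < (m (j + 1) : ℝ) := by
    have := m_ge (j + 1)
    exact_mod_cast (by omega : 0 < m (j + 1))
  rw [← hm]
  have hj := h.jle i hi.le
  rcases lt_or_gt_of_ne hne with h1 | h1
  · refine (h.wlt i hi η' h1).trans ?_
    apply div_le_div_of_nonneg_left h.C0 hmp
    exact_mod_cast m_strictMono.monotone hw
  · refine (h.wgt i hi η' h1).trans ?_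
    apply div_le_div_of_nonneg_left h.C0 hmp
    exact_mod_cast m_strictMono.monotone (by omega : j + 1 ≤ 2 * ζ i + 2)

lemma co' (i : ℕ) (hi : i < n j) (k : ℕ) : ‖z i k‖ ≤ C / (n j : ℝ) ^ 2 := by
  have hm : (m (j + 1) : ℝ) = (n j : ℝ) ^ 2 := by
    rw [m_succ]
    push_cast
    rfl
  have hmp : 0 < (m (j + 1) : ℝ) := by
    have := m_ge (j + 1)
    exact_mod_cast (by omega : 0 < m (j + 1))
  rw [← hm]
  have hj := h.jle i hi.le
  refine (h.co i hi k).trans ?_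
  apply div_le_div_of_nonneg_left h.C0 hmp
  exact_mod_cast m_strictMono.monotone (by omega : j + 1 ≤ 2 * ζ i + 2)

lemma npos : (0 : ℝ) < n j := by
  have := n_pos j
  exact_mod_cast (by omega : 0 < n j)

lemma one_le_n : (1 : ℝ) ≤ n j := by
  exact_mod_cast n_pos j

/-- sum of small terms -/
lemma sum_small (a b : ℕ) (hb : b ≤ n j) :
    ∑ _i ∈ Finset.Ico a b, C / (n j : ℝ) ^ 2 ≤ C / n j := by
  rw [Finset.sum_const, nsmul_eq_mul, Nat.card_Ico]
  have h0 := h.npos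
  have h1 : ((b - a : ℕ) : ℝ) ≤ n j := by exact_mod_cast (by omega : b - a ≤ n j)
  have h2 : 0 ≤ C / (n j : ℝ) ^ 2 := div_nonneg h.C0 (by positivity)
  calc ((b - a : ℕ) : ℝ) * (C / (n j : ℝ) ^ 2) ≤ n j * (C / (n j : ℝ) ^ 2) :=
        mul_le_mul_of_nonneg_right h1 h2
    _ = C / n j := by
        field_simp

/-- each term after cutting -/
lemma term (i : ℕ) (hin : i < n j) (s η' : ℕ) (hw : j + 1 ≤ S.w η') :
    ‖S.e η' (hi s (z i))‖ ≤ C / (n j : ℝ) ^ 2 +
      (if S.rt (η i) + 1 < s ∧ s < η i then 3 * C else 0) +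
      (if S.w η' = 2 * ζ i + 2 then C else 0) := by
  have h0 : 0 ≤ C / (n j : ℝ) ^ 2 := div_nonneg h.C0 (by positivity)
  have hC := h.C0
  by_cases hcut : S.rt (η i) + 1 < s ∧ s < η i
  · rw [if_pos hcut]
    have h1 := S.hi_bound (k := η') s (y := z i) (c := C) (fun k _ => h.nb i hin k)
    have h2 : (0 : ℝ) ≤ (if S.w η' = 2 * ζ i + 2 then C else 0) := by
      split_ifs
      · exact hC
      · exact le_refl _
    linarith
  · rw [if_neg hcut]
    by_cases hs : s ≤ S.rt (η i) + 1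
    · have h1 : hi s (z i) = z i := by
        apply hi_eq_self
        intro k hk
        exact h.zs i hin k (Or.inl (by omega))
      rw [h1]
      by_cases hw' : S.w η' = 2 * ζ i + 2
      · rw [if_pos hw']
        have := h.nb i hin η'
        linarith
      · rw [if_neg hw']
        have := h.S1 i hin η' hw hw'
        linarith
    · have h1 : hi s (z i) = 0 := by
        apply hi_eq_zero
        intro k hk
        exact h.zs i hin k (Or.inr (by omega))
      rw [h1, map_zero, norm_zero]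
      have h2 : (0 : ℝ) ≤ (if S.w η' = 2 * ζ i + 2 then C else 0) := by
        split_ifs
        · exact hC
        · exact le_refl _
      linarith

lemma ordered (i k : ℕ) (hik : i < k) (hk : k < n j) : η i < S.rt (η k) := by
  have h1 := h.lt i (by omega)
  have h2 := h.zmono (i + 1) k (by omega) hk.le
  have h3 := h.rt k hk
  omega

lemma cut_unique (s i k : ℕ) (hi : i < n j) (hk : k < n j)
    (h1 : S.rt (η i) + 1 < s ∧ s < η i) (h2 : S.rt (η k) + 1 < s ∧ s < η k) : i = k := by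
  rcases lt_trichotomy i k with h3 | h3 | h3
  · have := h.ordered i k h3 hk
    omega
  · exact h3
  · have := h.ordered k i h3 hi
    omega

lemma zstrict (i k : ℕ) (hik : i < k) (hk : k ≤ n j) : ζ i < ζ k := by
  have h1 := h.zlt i (by omega)
  have h2 := h.zmono (i + 1) k (by omega) hk
  omega

/-- general bound -/
lemma GB (s a b η' : ℕ) (hb : b ≤ n j) (hw : j + 1 ≤ S.w η') :
    ‖S.e η' (hi s (∑ k ∈ Finset.Ico a b, z k))‖ ≤ C / n j + 3 * C + C := by
  rw [map_sum, map_sum]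
  refine (norm_sum_le _ _).trans ?_
  have h1 : ∀ i ∈ Finset.Ico a b, ‖S.e η' (hi s (z i))‖ ≤ C / (n j : ℝ) ^ 2 +
      (if S.rt (η i) + 1 < s ∧ s < η i then 3 * C else 0) +
      (if S.w η' = 2 * ζ i + 2 then C else 0) := by
    intro i hi'
    rw [Finset.mem_Ico] at hi'
    exact h.term i (by omega) s η' hw
  refine (Finset.sum_le_sum h1).trans ?_
  rw [Finset.sum_add_distrib, Finset.sum_add_distrib]
  have hC := h.C0
  have h2 := h.sum_small a b hb
  have h3 : ∑ i ∈ Finset.Ico a b, (if S.rt (η i) + 1 < s ∧ s < η i then 3 * C else 0) ≤ 3 * C := by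
    apply gp2_sum_ite (by linarith)
    intro i hi' k hk' hp hq
    rw [Finset.mem_Ico] at hi' hk'
    exact h.cut_unique s i k (by omega) (by omega) hp hq
  have h4 : ∑ i ∈ Finset.Ico a b, (if S.w η' = 2 * ζ i + 2 then C else 0) ≤ C := by
    apply gp2_sum_ite hC
    intro i hi' k hk' hp hq
    rw [Finset.mem_Ico] at hi' hk'
    rcases lt_trichotomy i k with h5 | h5 | h5
    · have := h.zstrict i k h5 (by omega)
      omega
    · exact h5
    · have := h.zstrict k i h5 (by omega)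
      omega
  linarith

/-- off-branch functionals -/
lemma GB' (s a b η' : ℕ) (hb : b ≤ n j) (hw : j + 1 ≤ S.w η')
    (hne : ∀ i, i < n j → S.w η' ≠ 2 * ζ i + 2) :
    ‖S.e η' (hi s (∑ k ∈ Finset.Ico a b, z k))‖ ≤ C / n j + 3 * C := by
  rw [map_sum, map_sum]
  refine (norm_sum_le _ _).trans ?_
  have h1 : ∀ i ∈ Finset.Ico a b, ‖S.e η' (hi s (z i))‖ ≤ C / (n j : ℝ) ^ 2 +
      (if S.rt (η i) + 1 < s ∧ s < η i then 3 * C else 0) := by
    intro i hi'
    rw [Finset.mem_Ico] at hi'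
    have := h.term i (by omega) s η' hw
    rw [if_neg (hne i (by omega)), add_zero] at this
    exact this
  refine (Finset.sum_le_sum h1).trans ?_
  rw [Finset.sum_add_distrib]
  have hC := h.C0
  have h2 := h.sum_small a b hb
  have h3 : ∑ i ∈ Finset.Ico a b, (if S.rt (η i) + 1 < s ∧ s < η i then 3 * C else 0) ≤ 3 * C := by
    apply gp2_sum_ite (by linarith)
    intro i hi' k hk' hp hq
    rw [Finset.mem_Ico] at hi' hk'
    exact h.cut_unique s i k (by omega) (by omega) hp hq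
  linarith

/-- off-branch functionals, uncut -/
lemma GB'' (s a b η' : ℕ) (hb : b ≤ n j) (hw : j + 1 ≤ S.w η') (hs : s ≤ S.rt η')
    (hne : ∀ i, i < n j → S.w η' ≠ 2 * ζ i + 2) :
    ‖S.e η' (hi s (∑ k ∈ Finset.Ico a b, z k))‖ ≤ C / n j := by
  have h0 : S.e η' (hi s (∑ k ∈ Finset.Ico a b, z k)) = S.e η' (∑ k ∈ Finset.Ico a b, z k) := by
    apply S.e_local
    intro i h1 _
    rw [hi_apply, if_pos (by omega)]
  rw [h0, map_sum]
  refine (norm_sum_le _ _).trans ?_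
  have h1 : ∀ i ∈ Finset.Ico a b, ‖S.e η' (z i)‖ ≤ C / (n j : ℝ) ^ 2 := by
    intro i hi'
    rw [Finset.mem_Ico] at hi'
    exact h.S1 i (by omega) η' hw (hne i (by omega))
  exact (Finset.sum_le_sum h1).trans (h.sum_small a b hb)

lemma coord_le (s a b k : ℕ) (hb : b ≤ n j) :
    ‖(hi s (∑ i ∈ Finset.Ico a b, z i)) k‖ ≤ C / n j := by
  rw [hi_apply]
  split_ifs
  · rw [Finsupp.finsetSum_apply]
    refine (norm_sum_le _ _).trans ?_
    have h1 : ∀ i ∈ Finset.Ico a b, ‖z i k‖ ≤ C / (n j : ℝ) ^ 2 := by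
      intro i hi'
      rw [Finset.mem_Ico] at hi'
      exact h.co' i (by omega) k
    exact (Finset.sum_le_sum h1).trans (h.sum_small a b hb)
  · rw [norm_zero]
    exact div_nonneg h.C0 h.npos.le

/-- no vector charges the branch nodes -/
lemma coord_branch (x : ℕ → E) (hx : ∀ i, i < n j → ∀ k, k ≤ S.rt (η i) ∨ η i ≤ k → x i k = 0)
    (a b : ℕ) (hb : b ≤ n j) (r : ℕ) (hr : r ≤ n j) :
    (∑ i ∈ Finset.Ico a b, x i) (ζ r) = 0 := by
  rw [Finsupp.finsetSum_apply]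
  apply Finset.sum_eq_zero
  intro i hi'
  rw [Finset.mem_Ico] at hi'
  apply hx i (by omega)
  by_cases h1 : r ≤ i
  · left
    have h2 := h.zmono r i h1 (by omega)
    have h3 := h.rt i (by omega)
    omega
  · right
    have h2 := h.zmono (i + 1) r (by omega) hr
    have h3 := h.lt i (by omega)
    omega

/-- the special functionals see only one vector -/
lemma special (x : ℕ → E) (hx : ∀ i, i < n j → ∀ k, k ≤ S.rt (η i) ∨ η i ≤ k → x i k = 0)
    (a b : ℕ) (hb : b ≤ n j) (r : ℕ) (hr : r < n j) :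
    S.e (η r) (∑ i ∈ Finset.Ico a b, x i) =
      if a ≤ r ∧ r < b then S.e (η r) (x r) else 0 := by
  rw [map_sum]
  have h1 : ∀ i ∈ Finset.Ico a b, i ≠ r → S.e (η r) (x i) = 0 := by
    intro i hi' hir
    rw [Finset.mem_Ico] at hi'
    apply S.e_zero
    intro k h1 h2
    apply hx i (by omega)
    rcases lt_or_gt_of_ne hir with h3 | h3
    · right
      have := h.ordered i r h3 hr
      omega
    · left
      have := h.ordered r i h3 (by omega)
      omega
  split_ifs with hab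
  · rw [Finset.sum_eq_single r]
    · intro i hi' hir
      exact h1 i hi' hir
    · intro h2
      exact absurd (Finset.mem_Ico.2 hab) h2
  · apply Finset.sum_eq_zero
    intro i hi'
    apply h1 i hi'
    rintro rfl
    exact hab (Finset.mem_Ico.1 hi')

lemma age_ne (r : ℕ) (hr : r < n j) : S.age (ζ (r + 1)) ≠ 0 := by
  rw [h.age (r + 1) (by omega)]
  omega

lemma on_branch (r : ℕ) (hr : r ≤ n j) (s a b : ℕ) (hb : b ≤ n j) :
    ‖S.e (ζ r) (hi s (∑ k ∈ Finset.Ico a b, z k))‖ ≤ r * ε + 3 * C := by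
  have hC := h.C0
  have hε := h.ε0
  induction r with
  | zero =>
    rw [S.e_root_apply (by rw [h.age 0 hr])]
    rw [hi_apply]
    split_ifs
    · rw [h.coord_branch z h.zs a b hb 0 hr, norm_zero]
      simp
      linarith
    · rw [norm_zero]
      simp
      linarith
  | succ r ih =>
    have hr' : r < n j := by omega
    have ih := ih hr'.le
    rw [S.e_step_apply (h.age_ne r hr'), h.par r hr', h.B r hr']
    have hc0 : (hi s (∑ k ∈ Finset.Ico a b, z k)) (ζ (r + 1)) = 0 := by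
      rw [hi_apply]
      split_ifs
      · exact h.coord_branch z h.zs a b hb (r + 1) hr
      · rfl
    rw [hc0, zero_add]
    have hmge : (64 : ℝ) ≤ m (S.w (ζ (r + 1))) := by exact_mod_cast m_ge _
    have hminv : ‖((m (S.w (ζ (r + 1))) : ℂ)⁻¹)‖ ≤ 1 := by
      rw [norm_inv, Complex.norm_natCast]
      apply inv_le_one_of_one_le₀
      linarith
    have hsp : S.e (η r) (hi s (∑ k ∈ Finset.Ico a b, z k)) =
        if a ≤ r ∧ r < b then S.e (η r) (hi s (z r)) else 0 := by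
      rw [map_sum]
      apply h.special (fun i => hi s (z i)) _ a b hb r hr'
      intro i hi' k hk
      rw [hi_apply, h.zs i hi' k hk]
      simp
    by_cases hs : s ≤ S.rt (η r)
    · have h1 : ‖S.e (η r) (hi s (∑ k ∈ Finset.Ico a b, z k))‖ ≤ ε := by
        rw [hsp]
        split_ifs
        · rw [hi_eq_self (fun k hk => h.zs r hr' k (Or.inl (by omega)))]
          exact h.eη r hr'
        · rw [norm_zero]
          exact hε.le
      calc ‖S.e (ζ r) (hi s (∑ k ∈ Finset.Ico a b, z k)) +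
            ((m (S.w (ζ (r + 1))) : ℂ)⁻¹) • S.e (η r) (hi s (∑ k ∈ Finset.Ico a b, z k))‖
          ≤ ‖S.e (ζ r) (hi s (∑ k ∈ Finset.Ico a b, z k))‖ +
            ‖((m (S.w (ζ (r + 1))) : ℂ)⁻¹) • S.e (η r) (hi s (∑ k ∈ Finset.Ico a b, z k))‖ :=
            norm_add_le _ _
        _ ≤ (r * ε + 3 * C) + 1 * ε := by
            rw [norm_smul]
            exact add_le_add ih (mul_le_mul hminv h1 (norm_nonneg _) (by norm_num))
        _ = ((r + 1 : ℕ) : ℝ) * ε + 3 * C := by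
            push_cast
            ring
    · have h0 : S.e (ζ r) (hi s (∑ k ∈ Finset.Ico a b, z k)) = 0 := by
        apply S.e_zero
        intro k _ hk
        rw [hi_apply, if_neg]
        have := h.rt r hr'
        omega
      rw [h0, zero_add, norm_smul]
      have h1 : ‖S.e (η r) (hi s (∑ k ∈ Finset.Ico a b, z k))‖ ≤ 3 * C := by
        rw [hsp]
        split_ifs
        · exact S.hi_bound s (fun k _ => h.nb r hr' k)
        · rw [norm_zero]
          linarith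
      have h2 : (0 : ℝ) ≤ ((r + 1 : ℕ) : ℝ) * ε := by positivity
      have h3 := mul_le_mul hminv h1 (norm_nonneg _) (by norm_num)
      linarith

lemma off_branch (hεn : n j * ε ≤ 1) (γ : ℕ) : S.w γ = j → (∀ r, r ≤ n j → γ ≠ ζ r) →
    ∀ s a b : ℕ, b ≤ n j → ‖S.e γ (hi s (∑ k ∈ Finset.Ico a b, z k))‖ ≤
      1 + 8 * C + (S.age γ + 1) * (2 * (C / n j)) := by
  have hC := h.C0
  have hε := h.ε0
  have hCn : 0 ≤ C / n j := div_nonneg hC h.npos.le
  have hCn1 : C / n j ≤ C := div_le_self hC h.one_le_n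
  induction γ using Nat.strong_induction_on with
  | _ γ ih =>
  intro hw hne s a b hb
  have hage : (0 : ℝ) ≤ S.age γ := by positivity
  by_cases h0 : S.age γ = 0
  · rw [S.e_root_apply h0]
    have h1 := h.coord_le s a b γ hb
    have h2 : (0 : ℝ) ≤ S.age γ * (2 * (C / n j)) := by positivity
    nlinarith
  · have hmge : (64 : ℝ) ≤ m (S.w γ) := by exact_mod_cast m_ge _
    have hminv : ‖((m (S.w γ) : ℂ)⁻¹)‖ ≤ 1 := by
      rw [norm_inv, Complex.norm_natCast]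
      apply inv_le_one_of_one_le₀
      linarith
    obtain ⟨η', hη1, hη2, hη3, hη4⟩ := S.spec γ h0 (by rw [hw]; exact h.odd)
    have hξ := S.par_lt γ h0
    have hwξ : S.w (S.par γ) = j := by rw [S.w_par γ h0, hw]
    have hjξ : j ≤ S.par γ := by
      have := S.w_le_self (S.par γ)
      rw [hwξ] at this
      exact this
    have hwη : j + 1 ≤ S.w η' := by omega
    have hstep := S.e_step_apply h0 (hi s (∑ k ∈ Finset.Ico a b, z k))
    rw [hη4] at hstep
    have hco := h.coord_le s a b γ hb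
    have hnorm : ‖S.e γ (hi s (∑ k ∈ Finset.Ico a b, z k))‖ ≤
        ‖(hi s (∑ k ∈ Finset.Ico a b, z k)) γ‖ +
        ‖S.e (S.par γ) (hi s (∑ k ∈ Finset.Ico a b, z k))‖ +
        ‖S.e η' (hi s (∑ k ∈ Finset.Ico a b, z k))‖ := by
      rw [hstep]
      refine (norm_add_le _ _).trans ?_
      apply add_le_add (norm_add_le _ _)
      rw [norm_smul]
      have := mul_le_mul_of_nonneg_right hminv
        (norm_nonneg (S.e η' (hi s (∑ k ∈ Finset.Ico a b, z k))))
      linarith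
    by_cases hbr : ∃ r, r ≤ n j ∧ S.par γ = ζ r
    · obtain ⟨r, hr, hr'⟩ := hbr
      have h1 := h.on_branch r hr s a b hb
      rw [← hr'] at h1
      have h2 := h.GB s a b η' hb hwη
      have h3 : (r : ℝ) * ε ≤ n j * ε := by
        apply mul_le_mul_of_nonneg_right _ hε.le
        exact_mod_cast hr
      have h4 : (0 : ℝ) ≤ S.age γ * (2 * (C / n j)) := by positivity
      nlinarith
    · push_neg at hbr
      have hne' : ∀ i, i < n j → S.w η' ≠ 2 * ζ i + 2 := by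
        intro i hi'
        have := hbr i hi'.le
        omega
      have hage' : (S.age γ : ℝ) = S.age (S.par γ) + 1 := by
        rw [S.age_par γ h0]
        push_cast
        rfl
      by_cases hs : s ≤ S.par γ + 1
      · have h1 := ih (S.par γ) hξ hwξ (fun r hr => hbr r hr) s a b hb
        have h2 := h.GB'' s a b η' hb hwη (by omega) hne'
        rw [hage']
        nlinarith
      · have h1 : S.e (S.par γ) (hi s (∑ k ∈ Finset.Ico a b, z k)) = 0 := by
          apply S.e_zero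
          intro k _ hk
          rw [hi_apply, if_neg (by omega)]
        rw [h1, norm_zero] at hnorm
        have h2 := h.GB' s a b η' hb hwη hne'
        have h4 : (0 : ℝ) ≤ S.age γ * (2 * (C / n j)) := by positivity
        nlinarith

lemma hs (hεn : n j * ε ≤ 1) (γ s a b : ℕ) (hw : S.w γ = j) (hb : b ≤ n j) :
    ‖S.e γ (hi s (∑ k ∈ Finset.Ico a b, z k))‖ ≤ 12 * C + 1 := by
  have hC := h.C0
  have hε := h.ε0
  by_cases hbr : ∃ r, r ≤ n j ∧ γ = ζ r
  · obtain ⟨r, hr, rfl⟩ := hbr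
    have h1 := h.on_branch r hr s a b hb
    have h3 : (r : ℝ) * ε ≤ n j * ε := by
      apply mul_le_mul_of_nonneg_right _ hε.le
      exact_mod_cast hr
    linarith
  · push_neg at hbr
    have h1 := h.off_branch hεn γ hw hbr s a b hb
    have h2 : (S.age γ : ℝ) ≤ n j := by
      have := S.age_le γ
      rw [hw] at this
      exact_mod_cast this
    have h3 : (n j : ℝ) * (C / n j) = C := by
      field_simp [h.npos.ne']
    have h4 : C / n j ≤ C := div_le_self hC h.one_le_n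
    have hCn : 0 ≤ C / n j := div_nonneg hC h.npos.le
    have h5 : (S.age γ : ℝ) * (C / n j) ≤ C :=
      (mul_le_mul_of_nonneg_right h2 hCn).trans h3.le
    nlinarith

lemma ris : RIS S C (n j) z (fun i => 2 * ζ i + 2) where
  rt i hi' := by
    refine ⟨h.mem i hi', ?_, h.nb i hi', ?_⟩
    · intro k hk
      apply h.zs i hi' k
      left
      have h1 := S.w_le (η i)
      rw [h.wη i hi'] at h1
      omega
    · intro k hk
      exact h.wlt i hi' k hk
  sup i hi' k hk := by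
    apply h.zs i hi' k
    right
    have := h.lt i hi'
    omega
  mono i hi' := by
    have := h.zlt i hi'
    omega

/-- values on the branch -/
lemma value (x : ℕ → E) (hx : ∀ i, i < n j → ∀ k, k ≤ S.rt (η i) ∨ η i ≤ k → x i k = 0)
    (r : ℕ) (hr : r ≤ n j) :
    S.e (ζ r) (∑ i ∈ Finset.Ico 0 (n j), x i) =
      ((m j : ℂ)⁻¹) • ∑ i ∈ Finset.range r, S.e (η i) (x i) := by
  induction r with
  | zero =>
    rw [S.e_root_apply (by rw [h.age 0 hr]), h.coord_branch x hx 0 (n j) le_rfl 0 hr]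
    simp
  | succ r ih =>
    have hr' : r < n j := by omega
    rw [S.e_step_apply (h.age_ne r hr'), h.par r hr', h.B r hr', ih hr'.le,
      h.coord_branch x hx 0 (n j) le_rfl (r + 1) hr, h.special x hx 0 (n j) le_rfl r hr',
      if_pos ⟨Nat.zero_le _, hr'⟩, h.w (r + 1) hr, zero_add, Finset.sum_range_succ, smul_add]

end Dep

theorem no_epair (S : Sys) (T : S.X →L[ℂ] S.X) {C δ : ℝ} (hC : 0 ≤ C) (hδ : 0 < δ) {i0 : ℕ}
    (h : ∀ j, Even j → ∀ p, ∀ ε : ℝ, 0 < ε →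
      ∃ (z y : X00) (η : ℕ), EPair S T C δ i0 j p ε z y η) : False := by
  -- choice of `j`
  obtain ⟨M, hM⟩ := exists_nat_gt (2 * (‖T‖ * (15 * C + 1)) / δ)
  set j := 2 * M + 1 with hj
  have hodd : ¬ Even j := by
    rw [hj]
    simp
  have hmj : (0 : ℝ) < m j := by
    have := m_ge j
    exact_mod_cast (by omega : 0 < m j)
  have hmj2 : 2 * (‖T‖ * (15 * C + 1)) < δ * m j := by
    have h1 : (M : ℝ) ≤ m j := by
      have := le_m j
      exact_mod_cast (by omega : M ≤ m j)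
    have h2 := hM.trans_le h1
    rw [div_lt_iff₀ hδ] at h2
    linarith
  have hnj : (0 : ℝ) < n j := by
    have := n_pos j
    exact_mod_cast (by omega : 0 < n j)
  set ε : ℝ := min (1 / n j) (δ / (4 * m j)) with hε
  have hε0 : 0 < ε := lt_min (by positivity) (by positivity)
  have hεn : n j * ε ≤ 1 := by
    have h1 : ε ≤ 1 / n j := min_le_left _ _
    calc (n j : ℝ) * ε ≤ n j * (1 / n j) := mul_le_mul_of_nonneg_left h1 hnj.le
      _ = 1 := by field_simp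
  have hεm : ε ≤ δ / (4 * m j) := min_le_right _ _
  -- exact pairs after each node
  have h1 : ∀ ξ : ℕ, ∃ (z y : X00) (η : ℕ), EPair S T C δ i0 (2 * ξ + 2) ξ ε z y η :=
    fun ξ => h (2 * ξ + 2) (by simp [parity_simps]) ξ ε hε0
  choose Z Y H hP using h1
  have h2 : ∀ ξ : ℕ, ∃ k, S.w ξ = j → S.age ξ < n j → H ξ < k ∧ S.age k = S.age ξ + 1 ∧
      S.par k = ξ ∧ S.w k = S.w ξ ∧ S.B k = S.e (H ξ) := by
    intro ξ
    by_cases hw : S.w ξ = j ∧ S.age ξ < n j
    · obtain ⟨k, _, hk⟩ := S.rich_spec ξ (H ξ) (by rw [hw.1]; exact hodd)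
        (by rw [hw.1]; exact hw.2) (hP ξ).rt (hP ξ).w 0
      exact ⟨k, fun _ _ => hk⟩
    · exact ⟨0, fun h3 h4 => absurd ⟨h3, h4⟩ hw⟩
  choose nx hnx using h2
  obtain ⟨ζ0, _, hζ0a, hζ0w⟩ := S.rich_root j 0
  let ζ : ℕ → ℕ := fun i => nx^[i] ζ0
  have hζs : ∀ i, ζ (i + 1) = nx (ζ i) := fun i => Function.iterate_succ_apply' nx i ζ0
  have hζ : ∀ i, i ≤ n j → S.w (ζ i) = j ∧ S.age (ζ i) = i := by
    intro i
    induction i with
    | zero => exact fun _ => ⟨hζ0w, hζ0a⟩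
    | succ i ih =>
      intro hi'
      obtain ⟨h3, h4⟩ := ih (by omega)
      obtain ⟨_, h5, _, h6, _⟩ := hnx (ζ i) h3 (by omega)
      rw [hζs]
      exact ⟨by rw [h6, h3], by rw [h5, h4]⟩
  have hst : ∀ i, i < n j → H (ζ i) < ζ (i + 1) ∧ S.par (ζ (i + 1)) = ζ i ∧
      S.B (ζ (i + 1)) = S.e (H (ζ i)) := by
    intro i hi'
    obtain ⟨h3, h4⟩ := hζ i hi'.le
    obtain ⟨h5, _, h6, _, h7⟩ := hnx (ζ i) h3 (by omega)
    rw [hζs]
    exact ⟨h5, h6, h7⟩
  have hD : Dep S C ε j ζ (fun i => H (ζ i)) (fun i => (Z (ζ i) : E)) :=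
    { C0 := hC
      ε0 := hε0
      odd := hodd
      age := fun i hi' => (hζ i hi').2
      w := fun i hi' => (hζ i hi').1
      par := fun i hi' => (hst i hi').2.1
      B := fun i hi' => (hst i hi').2.2
      lt := fun i hi' => (hst i hi').1
      rt := fun i _ => (hP (ζ i)).rt
      wη := fun i _ => (hP (ζ i)).w
      mem := fun i _ => (Z (ζ i)).2
      zs := fun i _ => (hP (ζ i)).zs
      nb := fun i _ => (hP (ζ i)).nb
      wlt := fun i _ => (hP (ζ i)).lt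
      wgt := fun i _ => (hP (ζ i)).gt
      co := fun i _ => (hP (ζ i)).co
      eη := fun i _ => (hP (ζ i)).eη }
  -- the norm of the sum of the z's
  have hz : ∀ γ, ‖S.e γ (∑ i ∈ Finset.range (n j), (Z (ζ i) : E))‖ ≤
      (12 * C + 1 + 3 * C) * n j / (m j : ℝ) ^ 2 := by
    intro γ
    exact avg_spec hD.ris hC (by linarith)
      (fun γ s a b hw _ hb => hD.hs hεn γ s a b hw hb) γ
  set zs : X00 := ∑ i ∈ Finset.range (n j), Z (ζ i) with hzs
  set ys : X00 := ∑ i ∈ Finset.range (n j), Y (ζ i) with hys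
  have hzc : (zs : E) = ∑ i ∈ Finset.range (n j), (Z (ζ i) : E) := by
    rw [hzs]
    simp
  have hyc : (ys : E) = ∑ i ∈ Finset.range (n j), (Y (ζ i) : E) := by
    rw [hys]
    simp
  have hzn : ‖S.j zs‖ ≤ (15 * C + 1) * n j / (m j : ℝ) ^ 2 := by
    apply S.norm_j_le (by positivity)
    intro k
    rw [hzc]
    have := hz k
    have h3 : (12 * C + 1 + 3 * C) = 15 * C + 1 := by ring
    rw [h3] at this
    exact this
  have hTn : ‖T (S.j zs) - S.j ys‖ ≤ n j * ε := by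
    have h3 : T (S.j zs) - S.j ys = ∑ i ∈ Finset.range (n j),
        (T (S.j (Z (ζ i))) - S.j (Y (ζ i))) := by
      rw [hzs, hys, map_sum, map_sum, map_sum, Finset.sum_sub_distrib]
    rw [h3]
    refine (norm_sum_le _ _).trans ?_
    have h4 : ∀ i ∈ Finset.range (n j), ‖T (S.j (Z (ζ i))) - S.j (Y (ζ i))‖ ≤ ε :=
      fun i _ => (hP (ζ i)).T
    refine (Finset.sum_le_sum h4).trans ?_
    rw [Finset.sum_const, Finset.card_range, nsmul_eq_mul]
  have hyn : δ * n j / m j ≤ ‖S.j ys‖ := by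
    have h3 := S.e_le_norm_j ys (ζ (n j))
    refine le_trans ?_ h3
    have h4 := hD.value (fun i => (Y (ζ i) : E)) (fun i _ => (hP (ζ i)).ys) (n j) le_rfl
    rw [hyc, ← Nat.Ico_zero_eq_range, h4]
    have h5 : δ * n j / m j ≤
        ((((m j : ℂ)⁻¹) • ∑ i ∈ Finset.range (n j), S.e (H (ζ i)) (Y (ζ i)) : V) i0).re := by
      have h6 : ((((m j : ℂ)⁻¹) • ∑ i ∈ Finset.range (n j), S.e (H (ζ i)) (Y (ζ i)) : V) i0) =
          ((m j : ℂ)⁻¹) * ∑ i ∈ Finset.range (n j), (S.e (H (ζ i)) (Y (ζ i)) : V) i0 := by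
        rw [← co_apply, map_smul, map_sum, smul_eq_mul]
        simp_rw [co_apply]
      have h7 : ((m j : ℂ)⁻¹) = (((m j : ℝ)⁻¹ : ℝ) : ℂ) := by
        push_cast
        rfl
      rw [h6, h7, Complex.re_ofReal_mul, Complex.re_sum]
      have h8 : ∑ _i ∈ Finset.range (n j), δ ≤
          ∑ i ∈ Finset.range (n j), ((S.e (H (ζ i)) (Y (ζ i)) : V) i0).re :=
        Finset.sum_le_sum (fun i _ => (hP (ζ i)).re)
      rw [Finset.sum_const, Finset.card_range, nsmul_eq_mul] at h8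
      calc δ * n j / m j = (m j : ℝ)⁻¹ * (n j * δ) := by
            field_simp
        _ ≤ _ := mul_le_mul_of_nonneg_left h8 (by positivity)
    refine h5.trans ((Complex.re_le_norm _).trans ?_)
    exact lp.norm_apply_le_norm (p := 2) (by norm_num) _ i0
  have hT' : ‖S.j ys‖ ≤ ‖T‖ * ‖S.j zs‖ + n j * ε := by
    have h3 : S.j ys = T (S.j zs) - (T (S.j zs) - S.j ys) := by abel
    calc ‖S.j ys‖ = ‖T (S.j zs) - (T (S.j zs) - S.j ys)‖ := by rw [← h3]
      _ ≤ ‖T (S.j zs)‖ + ‖T (S.j zs) - S.j ys‖ := norm_sub_le _ _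
      _ ≤ _ := add_le_add (T.le_opNorm _) hTn
  have h3 : δ * n j / m j ≤ ‖T‖ * ((15 * C + 1) * n j / (m j : ℝ) ^ 2) + n j * (δ / (4 * m j)) := by
    refine hyn.trans (hT'.trans ?_)
    apply add_le_add
    · exact mul_le_mul_of_nonneg_left hzn (norm_nonneg T)
    · exact mul_le_mul_of_nonneg_left hεm hnj.le
  have h4 : δ ≤ ‖T‖ * (15 * C + 1) / m j + δ / 4 := by
    have h5 := mul_le_mul_of_nonneg_left h3 (by positivity : (0 : ℝ) ≤ m j / n j)
    have e1 : (m j : ℝ) / n j * (δ * n j / m j) = δ := by field_simp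
    have e2 : (m j : ℝ) / n j * (‖T‖ * ((15 * C + 1) * n j / (m j : ℝ) ^ 2) +
        n j * (δ / (4 * m j))) = ‖T‖ * (15 * C + 1) / m j + δ / 4 := by field_simp
    rw [e1, e2] at h5
    exact h5
  have h5 : ‖T‖ * (15 * C + 1) / m j < δ / 2 := by
    rw [div_lt_iff₀ hmj]
    linarith
  linarith


theorem not_HH (S : Sys) (T : S.X →L[ℂ] S.X) {C δ : ℝ} (hC : 0 ≤ C) (hδ : 0 < δ)
    {i0 p0 : ℕ} : ¬ HH S T C δ i0 p0 := fun h =>
  no_epair S T (C := 8 * C) (by positivity) (half_pos hδ)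
    (fun _ hj p _ hε => exists_epair S T hC hδ h hj p hε)

end Pool.Agent.Helper64.Cal
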