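import Pool.Agent.Helper64.Cal.Cas

/-!
# Common scalars, and operators that are small on all RIS vectors
-/

set_option autoImplicit false

open scoped ENNReal
open Filter Topology

namespace Pool.Agent.Helper64.Cal

lemma kp_lop_self (S : Sys) {x : X00} {q : ℕ} (h : ∀ k, q ≤ k → (x : E) k = 0) :
    S.lop q (S.j x) = S.j x := by
  rw [S.lop_j]
  congr 1
  exact Subtype.ext (lo_eq_self h)

lemma kp_lop_zero (S : Sys) {x : X00} {q : ℕ} (h : ∀ k, k < q → (x : E) k = 0) :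
    S.lop q (S.j x) = 0 := by
  rw [S.lop_j]
  have : Sys.lo0 q x = 0 := Subtype.ext (lo_eq_zero h)
  rw [this, map_zero]

lemma kp_arith {Y : Type*} [NormedAddCommGroup Y] [NormedSpace ℂ Y] (L : Y →L[ℂ] Y)
    (hL : ‖L‖ ≤ 2) {a b x t : Y} {μ μx μt : ℂ} {ε C : ℝ} (hε : 0 < ε) (hxn : ‖x‖ ≤ C)
    (ht1 : 1 ≤ ‖t‖) (hLx : L x = x) (hLt : L t = 0)
    (hμ : ‖(a + b) - μ • (x + t)‖ ≤ ε) (hμx : ‖a - μx • x‖ ≤ ε) (hμt : ‖b - μt • t‖ ≤ ε) :
    ‖a - μt • x‖ ≤ (7 + 9 * C) * ε := by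
  have h1 : ‖(μx - μ) • x + (μt - μ) • t‖ ≤ 3 * ε := by
    have heq : (μx - μ) • x + (μt - μ) • t
        = ((a + b) - μ • (x + t)) - (a - μx • x) - (b - μt • t) := by
      rw [sub_smul, sub_smul, smul_add]
      abel
    rw [heq]
    have t1 := norm_sub_le (((a + b) - μ • (x + t)) - (a - μx • x)) (b - μt • t)
    have t2 := norm_sub_le ((a + b) - μ • (x + t)) (a - μx • x)
    linarith
  have h2 : ‖(μx - μ) • x‖ ≤ 6 * ε := by
    have heq : (μx - μ) • x = L ((μx - μ) • x + (μt - μ) • t) := by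
      rw [map_add, map_smul, map_smul, hLx, hLt, smul_zero, add_zero]
    rw [heq]
    have t1 := L.le_opNorm ((μx - μ) • x + (μt - μ) • t)
    have t2 : ‖L‖ * ‖(μx - μ) • x + (μt - μ) • t‖ ≤ 2 * (3 * ε) :=
      mul_le_mul hL h1 (norm_nonneg _) (by norm_num)
    linarith
  have h3 : ‖(μt - μ) • t‖ ≤ 9 * ε := by
    have heq : (μt - μ) • t = ((μx - μ) • x + (μt - μ) • t) - (μx - μ) • x := by abel
    rw [heq]
    have t1 := norm_sub_le ((μx - μ) • x + (μt - μ) • t) ((μx - μ) • x)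
    linarith
  have h4 : ‖μt - μ‖ ≤ 9 * ε := by
    rw [norm_smul] at h3
    have t1 : ‖μt - μ‖ * 1 ≤ ‖μt - μ‖ * ‖t‖ := mul_le_mul_of_nonneg_left ht1 (norm_nonneg _)
    linarith
  have heq : a - μt • x = ((a - μx • x) + (μx - μ) • x) - (μt - μ) • x := by
    rw [sub_smul, sub_smul]
    abel
  rw [heq]
  have t1 := norm_sub_le ((a - μx • x) + (μx - μ) • x) ((μt - μ) • x)
  have t2 := norm_add_le (a - μx • x) ((μx - μ) • x)
  have t3 : ‖(μt - μ) • x‖ ≤ (9 * ε) * C := by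
    rw [norm_smul]
    exact mul_le_mul h4 hxn (norm_nonneg _) (by positivity)
  linarith

theorem kp_key (S : Sys) (U : S.X →L[ℂ] S.X) (P : ℝ → ℕ → X00 → Prop)
    (hge : ∀ C J x, P C J x → ∀ k, k < J → (x : E) k = 0)
    (hnb : ∀ C J x, P C J x → ‖S.j x‖ ≤ C)
    (hmono : ∀ C J J' x, P C J x → J' ≤ J → P C J' x)
    (hadd : ∀ C C' J J' x x', P C J x → P C' J' x' → J ≤ J' → P (C + C') J (x + x'))
    (hdist : ∀ C : ℝ, 0 ≤ C → ∀ ε : ℝ, 0 < ε → ∃ J, ∀ x, P C J x →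
      ∃ μ : ℂ, ‖U (S.j x) - μ • S.j x‖ ≤ ε) (C : ℝ) (hC : 0 ≤ C) (ε : ℝ) (hε : 0 < ε) :
    ∃ J, ∀ x, P C J x → ∃ J', ∀ t, P 6 J' t → 1 ≤ ‖S.j t‖ → ∀ μt : ℂ,
      ‖U (S.j t) - μt • S.j t‖ ≤ ε → ‖U (S.j x) - μt • S.j x‖ ≤ (7 + 9 * C) * ε := by
  obtain ⟨Ja, hJa⟩ := hdist C hC ε hε
  obtain ⟨Jb, hJb⟩ := hdist (C + 6) (by linarith) ε hε
  refine ⟨max Ja Jb, ?_⟩
  intro x hx
  obtain ⟨q, hq⟩ := exists_supp (x : E)
  refine ⟨max q (max Ja Jb), ?_⟩
  intro t ht ht1 μt hμt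
  obtain ⟨μx, hμx⟩ := hJa x (hmono _ _ _ _ hx (le_max_left _ _))
  have hxt := hadd _ _ _ _ _ _ hx ht (le_max_right _ _)
  obtain ⟨μ, hμ⟩ := hJb (x + t) (hmono _ _ _ _ hxt (le_max_right _ _))
  have hxn := hnb _ _ _ hx
  have hLx : S.lop q (S.j x) = S.j x := kp_lop_self S hq
  have hLt : S.lop q (S.j t) = 0 :=
    kp_lop_zero S (fun k hk => hge _ _ _ ht k (lt_of_lt_of_le hk (le_max_left _ _)))
  rw [map_add, map_add] at hμ
  exact kp_arith (S.lop q) (S.norm_lop_le q) hε hxn ht1 hLx hLt hμ hμx hμt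

/-- abstract lemma: if `U x` is close to a multiple of `x` on a class of vectors closed under sums,
the multiple can be chosen the same for all vectors -/
theorem common (S : Sys) (U : S.X →L[ℂ] S.X) (P : ℝ → ℕ → X00 → Prop)
    (hge : ∀ C J x, P C J x → ∀ k, k < J → (x : E) k = 0)
    (hnb : ∀ C J x, P C J x → ‖S.j x‖ ≤ C)
    (hmono : ∀ C J J' x, P C J x → J' ≤ J → P C J' x)
    (hadd : ∀ C C' J J' x x', P C J x → P C' J' x' → J ≤ J' → P (C + C') J (x + x'))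
    (htest : ∀ J, ∃ t, P 6 J t ∧ 1 ≤ ‖S.j t‖)
    (hdist : ∀ C : ℝ, 0 ≤ C → ∀ ε : ℝ, 0 < ε → ∃ J, ∀ x, P C J x →
      ∃ μ : ℂ, ‖U (S.j x) - μ • S.j x‖ ≤ ε) :
    ∃ c : ℂ, ∀ C : ℝ, 0 ≤ C → ∀ ε : ℝ, 0 < ε → ∃ J, ∀ x, P C J x →
      ‖U (S.j x) - c • S.j x‖ ≤ ε := by
  have key := kp_key S U P hge hnb hmono hadd hdist
  -- the test sequence
  have hseq : ∀ k : ℕ, ∃ t : X00, ∃ μ : ℂ, P 6 k t ∧ 1 ≤ ‖S.j t‖ ∧
      ‖U (S.j t) - μ • S.j t‖ ≤ 1 / ((k : ℝ) + 1) := by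
    intro k
    obtain ⟨J, hJ⟩ := hdist 6 (by norm_num) (1 / ((k : ℝ) + 1)) (by positivity)
    obtain ⟨t, ht, ht1⟩ := htest (max J k)
    obtain ⟨μ, hμ⟩ := hJ t (hmono _ _ _ _ ht (le_max_left _ _))
    exact ⟨t, μ, hmono _ _ _ _ ht (le_max_right _ _), ht1, hμ⟩
  choose t μ ht ht1 hμ using hseq
  have hsmall : ∀ ε : ℝ, 0 < ε → ∃ N : ℕ, ∀ k, N ≤ k → 1 / ((k : ℝ) + 1) ≤ ε := by
    intro ε hε
    obtain ⟨N, hN⟩ := exists_nat_one_div_lt hε
    refine ⟨N, fun k hk => le_trans ?_ hN.le⟩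
    have : (N : ℝ) ≤ k := by exact_mod_cast hk
    gcongr
  have hcau : CauchySeq μ := by
    rw [Metric.cauchySeq_iff']
    intro ε hε
    obtain ⟨J, hJ⟩ := key 6 (by norm_num) (ε / 200) (by positivity)
    obtain ⟨N, hN⟩ := hsmall (ε / 200) (by positivity)
    have hstep : ∀ k, max J N ≤ k → ∃ K, ∀ l, K ≤ l → ‖μ k - μ l‖ ≤ 62 * (ε / 200) := by
      intro k hk
      obtain ⟨J', hJ'⟩ := hJ (t k) (hmono _ _ _ _ (ht k) (le_trans (le_max_left _ _) hk))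
      refine ⟨max J' N, ?_⟩
      intro l hl
      have h1 := hJ' (t l) (hmono _ _ _ _ (ht l) (le_trans (le_max_left _ _) hl)) (ht1 l) (μ l)
        (le_trans (hμ l) (hN l (le_trans (le_max_right _ _) hl)))
      have h2 := le_trans (hμ k) (hN k (le_trans (le_max_right _ _) hk))
      have h3 : ‖(μ k - μ l) • S.j (t k)‖ ≤ 62 * (ε / 200) := by
        have heq : (μ k - μ l) • S.j (t k)
            = (U (S.j (t k)) - μ l • S.j (t k)) - (U (S.j (t k)) - μ k • S.j (t k)) := by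
          rw [sub_smul]
          abel
        rw [heq]
        calc _ ≤ ‖U (S.j (t k)) - μ l • S.j (t k)‖ + ‖U (S.j (t k)) - μ k • S.j (t k)‖ :=
              norm_sub_le _ _
          _ ≤ (7 + 9 * 6) * (ε / 200) + ε / 200 := by gcongr
          _ = 62 * (ε / 200) := by ring
      rw [norm_smul] at h3
      calc ‖μ k - μ l‖ = ‖μ k - μ l‖ * 1 := by ring
        _ ≤ ‖μ k - μ l‖ * ‖S.j (t k)‖ := by
            gcongr
            exact ht1 k
        _ ≤ _ := h3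
    refine ⟨max J N, ?_⟩
    intro k hk
    obtain ⟨K1, hK1⟩ := hstep k hk
    obtain ⟨K2, hK2⟩ := hstep (max J N) le_rfl
    have h1 := hK1 (max K1 K2) (le_max_left _ _)
    have h2 := hK2 (max K1 K2) (le_max_right _ _)
    rw [dist_eq_norm]
    have heq : μ k - μ (max J N) = (μ k - μ (max K1 K2)) - (μ (max J N) - μ (max K1 K2)) := by ring
    rw [heq]
    calc _ ≤ ‖μ k - μ (max K1 K2)‖ + ‖μ (max J N) - μ (max K1 K2)‖ := norm_sub_le _ _
      _ ≤ 62 * (ε / 200) + 62 * (ε / 200) := by gcongr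
      _ < ε := by linarith
  obtain ⟨c, hc⟩ := cauchySeq_tendsto_of_complete hcau
  refine ⟨c, ?_⟩
  intro C hC ε hε
  have hpos : 0 < 7 + 9 * C := by linarith
  obtain ⟨J, hJ⟩ := key C hC (ε / (7 + 9 * C)) (by positivity)
  refine ⟨J, ?_⟩
  intro x hx
  obtain ⟨J', hJ'⟩ := hJ x hx
  obtain ⟨N, hN⟩ := hsmall (ε / (7 + 9 * C)) (by positivity)
  have hlim : Tendsto (fun k => ‖U (S.j x) - μ k • S.j x‖) atTop
      (𝓝 ‖U (S.j x) - c • S.j x‖) :=
    (tendsto_const_nhds.sub (hc.smul_const _)).norm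
  refine le_of_tendsto hlim ?_
  filter_upwards [eventually_ge_atTop (max J' N)] with k hk
  have h1 := hJ' (t k) (hmono _ _ _ _ (ht k) (le_trans (le_max_left _ _) hk)) (ht1 k) (μ k)
    (le_trans (hμ k) (hN k (le_trans (le_max_right _ _) hk)))
  refine le_trans h1 (le_of_eq ?_)
  field_simp

variable (S : Sys) (T : S.X →L[ℂ] S.X)

lemma kp_RF_mono {S : Sys} {C : ℝ} {J J' : ℕ} {x : E} (h : RF S C J x) (hJ : J' ≤ J) :
    RF S C J' x := by
  refine ⟨h.1.mono le_rfl hJ, ?_⟩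
  have h1 : Q J' ∘L Q J = Q J' := by rw [Q_comp_Q, min_eq_left hJ]
  rw [← h1, ← act_act, h.2, map_zero]

theorem kp1 : ∃ c : ℂ, ∀ C : ℝ, 0 ≤ C → ∀ ε : ℝ, 0 < ε → ∃ J, ∀ x : X00, RF S C J x →
    ‖T (S.j x) - c • S.j x‖ ≤ ε := by
  refine common S T (fun C J x => RF S C J x) ?_ ?_ ?_ ?_ ?_ ?_
  · intro C J x h
    exact h.1.ge
  · intro C J x h
    exact S.norm_j_le h.1.const_nonneg h.1.nb
  · intro C J J' x h hJ
    exact kp_RF_mono h hJ
  · intro C C' J J' x x' h h' hJ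
    refine ⟨h.1.add h'.1 hJ, ?_⟩
    rw [Submodule.coe_add, map_add, h.2, (kp_RF_mono h' hJ).2, add_zero]
  · intro J
    obtain ⟨γ, -, hage, hw⟩ := S.rich_root J 0
    have hRF : RF S 6 J (Finsupp.single γ (bv 0)) := by
      refine test_RF S hage hw.ge ?_ (norm_bv 0).le ?_
      · intro i hi
        rw [bv_apply, if_neg (by omega)]
      · intro i hi _
        rw [bv_apply, if_neg (by omega)]
    refine ⟨⟨Finsupp.single γ (bv 0), hRF.1.mem⟩, hRF, ?_⟩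
    have h1 := S.e_le_norm_j ⟨Finsupp.single γ (bv 0), hRF.1.mem⟩ γ
    rw [S.e_single_self, norm_bv] at h1
    exact h1
  · intro C hC ε hε
    exact case_beta S T hC hε

theorem kp2 {i l : ℕ} (hi : 1 ≤ i) (hl : 1 ≤ l) :
    ∃ c : ℂ, ∀ C : ℝ, 0 ≤ C → ∀ ε : ℝ, 0 < ε → ∃ J, ∀ x : X00, RI S i C J x →
      ‖S.kop (max i l) (mu i l) (T (S.j x)) - c • S.j x‖ ≤ ε := by
  refine common S (S.kop (max i l) (mu i l) ∘L T) (fun C J x => RI S i C J x) ?_ ?_ ?_ ?_ ?_ ?_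
  · intro C J x h
    exact h.1.ge
  · intro C J x h
    exact S.norm_j_le h.1.const_nonneg h.1.nb
  · intro C J J' x h hJ
    exact ⟨h.1.mono le_rfl hJ, h.2⟩
  · intro C C' J J' x x' h h' hJ
    refine ⟨h.1.add h'.1 hJ, ?_⟩
    rw [Submodule.coe_add, map_add, h.2, h'.2]
  · intro J
    obtain ⟨γ, hγ, hage, hw⟩ := S.rich_root J i
    have hRI : RI S i 6 J (Finsupp.single γ (bv i)) := test_RI S hage hw.ge hγ
    refine ⟨⟨Finsupp.single γ (bv i), hRI.1.mem⟩, hRI, ?_⟩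
    have h1 := S.e_le_norm_j ⟨Finsupp.single γ (bv i), hRI.1.mem⟩ γ
    rw [S.e_single_self, norm_bv] at h1
    exact h1
  · intro C hC ε hε
    exact case_gamma S T hi hl hC hε

lemma kp_kop_zero (M : ℕ) : S.kop M 0 = 0 := by
  have h1 := S.norm_kop_le M 0
  rw [norm_zero, mul_zero] at h1
  exact (norm_le_zero_iff (E := S.X →L[ℂ] S.X)).mp h1

/-- the rigid case of `kp3` -/
theorem kp_rigid
    (h1 : ∀ i l : ℕ, 1 ≤ i → 1 ≤ l → ∀ C : ℝ, 0 ≤ C → ∀ ε : ℝ, 0 < ε → ∃ J, ∀ x : X00,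
      RI S i C J x → ‖S.kop (max i l) (mu i l) (T (S.j x))‖ ≤ ε) (i : ℕ) (hi : 1 ≤ i) :
    ∀ C : ℝ, 0 ≤ C → ∀ ε : ℝ, 0 < ε → ∃ J, ∀ x : X00, RI S i C J x → ‖T (S.j x)‖ ≤ ε := by
  intro C hC ε hε
  obtain ⟨N, J0, hJ0⟩ := case_delta S T hi hC (ε := ε / 4) (by positivity)
  set M := max N i with hM
  have hNM : N ≤ M := le_max_left _ _
  have hiM : i ≤ M := le_max_right _ _
  -- compact difference
  have hc1 : IsCompactOperator ((S.kop N (Q N) - S.kop M (Q N)) ∘L T) :=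
    (S.kop_level (isM_Q N) hNM).comp_clm T
  obtain ⟨J1, hJ1⟩ := wn S _ hc1 hC (ε := ε / 4) (by positivity)
  set δ : ℝ := ε / (24 * ((N : ℝ) + 1)) with hδ
  have hδ0 : 0 < δ := by positivity
  have hl : ∀ l, ∃ J, (1 ≤ l → l ≤ N → ∀ x : X00, RI S i C J x →
      ‖S.kop M (mu i l) (T (S.j x))‖ ≤ 2 * δ) := by
    intro l
    by_cases hl : 1 ≤ l ∧ l ≤ N
    · have hIs : IsM (max i l) (mu i l) :=
        isM_mu hi (le_max_left _ _) hl.1 (le_max_right _ _)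
      have hc2 : IsCompactOperator ((S.kop (max i l) (mu i l) - S.kop M (mu i l)) ∘L T) :=
        (S.kop_level hIs (max_le hiM (le_trans hl.2 hNM))).comp_clm T
      obtain ⟨J2, hJ2⟩ := wn S _ hc2 hC hδ0
      obtain ⟨J3, hJ3⟩ := h1 i l hi hl.1 C hC δ hδ0
      refine ⟨max J2 J3, ?_⟩
      intro _ _ x hx
      have e1 := hJ2 x (hx.1.mono le_rfl (le_max_left _ _))
      have e2 := hJ3 x ⟨hx.1.mono le_rfl (le_max_right _ _), hx.2⟩
      have heq : S.kop M (mu i l) (T (S.j x)) = S.kop (max i l) (mu i l) (T (S.j x))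
          - ((S.kop (max i l) (mu i l) - S.kop M (mu i l)) ∘L T) (S.j x) := by
        simp
      rw [heq]
      calc _ ≤ _ := norm_sub_le _ _
        _ ≤ δ + δ := add_le_add e2 e1
        _ = 2 * δ := by ring
    · refine ⟨0, ?_⟩
      intro a b
      exact absurd ⟨a, b⟩ hl
  choose Jl hJl using hl
  refine ⟨max J0 (max J1 (∑ l ∈ Finset.Icc 1 N, Jl l)), ?_⟩
  intro x hx
  have e0 := hJ0 x ⟨hx.1.mono le_rfl (le_max_left _ _), hx.2⟩
  have e1 := hJ1 x (hx.1.mono le_rfl (le_trans (le_max_left _ _) (le_max_right _ _)))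
  have hQ : S.kop M (Q N) (T (S.j x)) = ∑ l ∈ Finset.Icc 1 N,
      S.kop M (mu l i) (S.kop M (mu i l) (T (S.j x))) := by
    have h2 : ∀ l ∈ Finset.Icc 1 N, S.kop M (mu l i) (S.kop M (mu i l) (T (S.j x)))
        = S.kop M (mu l l) (T (S.j x)) := by
      intro l hl
      rw [Finset.mem_Icc] at hl
      have h3 := S.kop_comp (isM_mu hl.1 (le_trans hl.2 hNM) hi hiM)
        (isM_mu hi hiM hl.1 (le_trans hl.2 hNM))
      rw [mu_comp, if_pos rfl] at h3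
      rw [← h3]
      rfl
    rw [Finset.sum_congr rfl h2]
    have h4 : ∀ s : Finset ℕ, (∀ l ∈ s, 1 ≤ l ∧ l ≤ M) →
        IsM M (∑ l ∈ s, mu l l) ∧ S.kop M (∑ l ∈ s, mu l l) = ∑ l ∈ s, S.kop M (mu l l) := by
      intro s
      induction s using Finset.induction_on with
      | empty =>
        intro _
        rw [Finset.sum_empty, Finset.sum_empty]
        refine ⟨isM_zero M, ?_⟩
        exact kp_kop_zero S M
      | insert a s ha ih =>
        intro hs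
        obtain ⟨i1, i2⟩ := ih (fun l hl => hs l (Finset.mem_insert_of_mem hl))
        have ha' := hs a (Finset.mem_insert_self a s)
        have i3 : IsM M (mu a a) := isM_mu ha'.1 ha'.2 ha'.1 ha'.2
        rw [Finset.sum_insert ha, Finset.sum_insert ha]
        refine ⟨i3.add i1, ?_⟩
        rw [S.kop_add i3 i1, i2]
    have h5 := (h4 (Finset.Icc 1 N) (fun l hl => by
      rw [Finset.mem_Icc] at hl
      exact ⟨hl.1, le_trans hl.2 hNM⟩)).2
    change S.kop M (∑ l ∈ Finset.Icc 1 N, mu l l) (T (S.j x)) = _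
    rw [h5, sum_apply]
  have e2 : ‖S.kop M (Q N) (T (S.j x))‖ ≤ ε / 2 := by
    rw [hQ]
    calc ‖∑ l ∈ Finset.Icc 1 N, S.kop M (mu l i) (S.kop M (mu i l) (T (S.j x)))‖
        ≤ ∑ l ∈ Finset.Icc 1 N, ‖S.kop M (mu l i) (S.kop M (mu i l) (T (S.j x)))‖ :=
          norm_sum_le _ _
      _ ≤ ∑ l ∈ Finset.Icc 1 N, 6 * (2 * δ) := by
          refine Finset.sum_le_sum ?_
          intro l hl
          have hl' := Finset.mem_Icc.mp hl
          calc ‖S.kop M (mu l i) (S.kop M (mu i l) (T (S.j x)))‖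
              ≤ ‖S.kop M (mu l i)‖ * ‖S.kop M (mu i l) (T (S.j x))‖ :=
                ContinuousLinearMap.le_opNorm _ _
            _ ≤ 6 * (2 * δ) := by
                have b1 : ‖S.kop M (mu l i)‖ ≤ 6 := by
                  refine le_trans (S.norm_kop_le M (mu l i)) ?_
                  have := norm_mu_le l i
                  linarith
                have hJle : Jl l ≤ max J0 (max J1 (∑ l ∈ Finset.Icc 1 N, Jl l)) := by
                  refine le_trans ?_ (le_trans (le_max_right _ _) (le_max_right _ _))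
                  exact Finset.single_le_sum (f := Jl) (fun _ _ => Nat.zero_le _) hl
                have b2 := hJl l hl'.1 hl'.2 x ⟨hx.1.mono le_rfl hJle, hx.2⟩
                gcongr
      _ = N * (12 * δ) := by
          rw [Finset.sum_const, Nat.card_Icc, Nat.add_sub_cancel, nsmul_eq_mul]
          ring
      _ ≤ ε / 2 := by
          rw [hδ]
          have : (N : ℝ) * (12 * (ε / (24 * ((N : ℝ) + 1)))) = (ε / 2) * (N / ((N : ℝ) + 1)) := by
            field_simp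
            ring
          rw [this]
          have h6 : (N : ℝ) / ((N : ℝ) + 1) ≤ 1 := by
            rw [div_le_one (by positivity)]
            linarith
          calc (ε / 2) * (N / ((N : ℝ) + 1)) ≤ (ε / 2) * 1 := by gcongr
            _ = ε / 2 := by ring
  have heq : T (S.j x) = (T (S.j x) - S.kop N (Q N) (T (S.j x)))
      + ((S.kop N (Q N) - S.kop M (Q N)) ∘L T) (S.j x) + S.kop M (Q N) (T (S.j x)) := by
    simp
  rw [heq]
  calc _ ≤ ‖(T (S.j x) - S.kop N (Q N) (T (S.j x)))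
      + ((S.kop N (Q N) - S.kop M (Q N)) ∘L T) (S.j x)‖ + ‖S.kop M (Q N) (T (S.j x))‖ :=
        norm_add_le _ _
    _ ≤ ‖T (S.j x) - S.kop N (Q N) (T (S.j x))‖
      + ‖((S.kop N (Q N) - S.kop M (Q N)) ∘L T) (S.j x)‖ + ‖S.kop M (Q N) (T (S.j x))‖ := by
        gcongr
        exact norm_add_le _ _
    _ ≤ ε / 4 + ε / 4 + ε / 2 := by gcongr
    _ = ε := by ring

theorem kp3
    (h0 : ∀ C : ℝ, 0 ≤ C → ∀ ε : ℝ, 0 < ε → ∃ J, ∀ x : X00, RF S C J x → ‖T (S.j x)‖ ≤ ε)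
    (h1 : ∀ i l : ℕ, 1 ≤ i → 1 ≤ l → ∀ C : ℝ, 0 ≤ C → ∀ ε : ℝ, 0 < ε → ∃ J, ∀ x : X00,
      RI S i C J x → ‖S.kop (max i l) (mu i l) (T (S.j x))‖ ≤ ε) :
    ∀ C : ℝ, 0 ≤ C → ∀ ε : ℝ, 0 < ε → ∃ J, ∀ x : X00, RT S C J x → ‖T (S.j x)‖ ≤ ε := by
  intro C hC ε hε
  obtain ⟨J1, hJ1⟩ := h0 (5 * C) (by positivity) (ε / 2) (by positivity)
  set δ : ℝ := ε / (2 * ((J1 : ℝ) + 1)) with hδ
  have hδ0 : 0 < δ := by positivity
  have hr : ∀ i, ∃ J, 1 ≤ i → ∀ x : X00, RI S i (4 * C) J x → ‖T (S.j x)‖ ≤ δ := by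
    intro i
    by_cases hi : 1 ≤ i
    · obtain ⟨J, hJ⟩ := kp_rigid S T h1 i hi (4 * C) (by positivity) δ hδ0
      exact ⟨J, fun _ => hJ⟩
    · exact ⟨0, fun h => absurd h hi⟩
  choose Ji hJi using hr
  refine ⟨max J1 (∑ i ∈ Finset.Icc 1 J1, Ji i), ?_⟩
  intro x hx
  have hflex := hx.flex (le_max_left J1 (∑ i ∈ Finset.Icc 1 J1, Ji i))
  have hrig : ∀ i, 1 ≤ i → i ≤ J1 → RI S i (4 * C) (max J1 (∑ i ∈ Finset.Icc 1 J1, Ji i))
      (act (mu i i) x) := fun i hi hi' => hx.rigid hi (le_trans hi' (le_max_left _ _))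
  -- flexible part
  have e1 := hJ1 ⟨_, hflex.1.mem⟩ hflex
  -- sum of the rigid parts
  have hsum : (⟨∑ i ∈ Finset.Icc 1 J1, act (mu i i) (x : E), Submodule.sum_mem _ (fun i hi =>
      (hrig i (Finset.mem_Icc.mp hi).1 (Finset.mem_Icc.mp hi).2).1.mem)⟩ : X00)
      = ∑ i ∈ (Finset.Icc 1 J1).attach, (⟨act (mu i.1 i.1) (x : E),
        (hrig i.1 (Finset.mem_Icc.mp i.2).1 (Finset.mem_Icc.mp i.2).2).1.mem⟩ : X00) := by
    apply Subtype.ext
    rw [Submodule.coe_sum]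
    exact (Finset.sum_attach (Finset.Icc 1 J1) (fun i => act (mu i i) (x : E))).symm
  have hQx : act (Q J1) (x : E) = ∑ i ∈ Finset.Icc 1 J1, act (mu i i) (x : E) := by
    rw [Q, act_sum]
  have hx' : x = (⟨_, hflex.1.mem⟩ : X00) + ∑ i ∈ (Finset.Icc 1 J1).attach,
      (⟨act (mu i.1 i.1) (x : E),
        (hrig i.1 (Finset.mem_Icc.mp i.2).1 (Finset.mem_Icc.mp i.2).2).1.mem⟩ : X00) := by
    rw [← hsum]
    apply Subtype.ext
    rw [Submodule.coe_add]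
    simp only
    rw [← hQx, sub_add_cancel]
  have e2 : ‖∑ i ∈ (Finset.Icc 1 J1).attach, T (S.j (⟨act (mu i.1 i.1) (x : E),
        (hrig i.1 (Finset.mem_Icc.mp i.2).1 (Finset.mem_Icc.mp i.2).2).1.mem⟩ : X00))‖
      ≤ ε / 2 := by
    calc _ ≤ ∑ i ∈ (Finset.Icc 1 J1).attach, ‖T (S.j (⟨act (mu i.1 i.1) (x : E),
        (hrig i.1 (Finset.mem_Icc.mp i.2).1 (Finset.mem_Icc.mp i.2).2).1.mem⟩ : X00))‖ :=
          norm_sum_le _ _
      _ ≤ ∑ i ∈ (Finset.Icc 1 J1).attach, δ := by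
          refine Finset.sum_le_sum ?_
          intro i _
          have hi' := Finset.mem_Icc.mp i.2
          have hle : Ji i.1 ≤ max J1 (∑ i ∈ Finset.Icc 1 J1, Ji i) :=
            le_trans (Finset.single_le_sum (f := Ji) (fun _ _ => Nat.zero_le _) i.2)
              (le_max_right _ _)
          have h3 := hrig i.1 hi'.1 hi'.2
          exact hJi i.1 hi'.1 _ ⟨h3.1.mono le_rfl hle, h3.2⟩
      _ = J1 * δ := by
          rw [Finset.sum_const, Finset.card_attach, Nat.card_Icc, Nat.add_sub_cancel, nsmul_eq_mul]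
      _ ≤ ε / 2 := by
          rw [hδ]
          have : (J1 : ℝ) * (ε / (2 * ((J1 : ℝ) + 1))) = (ε / 2) * (J1 / ((J1 : ℝ) + 1)) := by
            field_simp
          rw [this]
          have h6 : (J1 : ℝ) / ((J1 : ℝ) + 1) ≤ 1 := by
            rw [div_le_one (by positivity)]
            linarith
          calc (ε / 2) * (J1 / ((J1 : ℝ) + 1)) ≤ (ε / 2) * 1 := by gcongr
            _ = ε / 2 := by ring
  have hT : T (S.j x) = T (S.j (⟨_, hflex.1.mem⟩ : X00)) + ∑ i ∈ (Finset.Icc 1 J1).attach,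
      T (S.j (⟨act (mu i.1 i.1) (x : E),
        (hrig i.1 (Finset.mem_Icc.mp i.2).1 (Finset.mem_Icc.mp i.2).2).1.mem⟩ : X00)) := by
    conv_lhs => rw [hx']
    rw [map_add, map_add, map_sum, map_sum]
  rw [hT]
  calc _ ≤ _ := norm_add_le _ _
    _ ≤ ε / 2 + ε / 2 := add_le_add e1 e2
    _ = ε := by ring

/-- an operator that is small on all RIS vectors is compact -/
theorem red (h : ∀ C : ℝ, 0 ≤ C → ∀ ε : ℝ, 0 < ε → ∃ J, ∀ x : X00, RT S C J x →
    ‖T (S.j x)‖ ≤ ε) : IsCompactOperator T := by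
  -- small on late block vectors
  have hblock : ∀ ε : ℝ, 0 < ε → ∃ q : ℕ, ∀ x : X00, (∀ k, k < q → (x : E) k = 0) →
      ‖S.j x‖ ≤ 1 → ‖T (S.j x)‖ ≤ ε := by
    intro ε hε
    obtain ⟨J2, hJ2⟩ := h 9 (by norm_num) (ε / 2) (by positivity)
    obtain ⟨J1, hJ1⟩ := h (9 * m J2) (by positivity) (ε / 2) (by positivity)
    refine ⟨max J1 (J2 + 1), ?_⟩
    intro x hx hn
    obtain ⟨x', x'', hxx, h1, h2⟩ := exists_split S J2 (max J1 (J2 + 1)) x.2 hx
      (fun k => le_trans (S.e_le_norm_j x k) hn)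
    have e1 := hJ1 ⟨x', h1.mem⟩ (h1.mono le_rfl (le_max_left _ _))
    have e2 := hJ2 ⟨x'', h2.mem⟩ (h2.mono le_rfl (le_min (by
      exact le_trans (Nat.le_succ _) (le_max_right _ _)) (Nat.le_succ _)))
    have hx' : x = (⟨x', h1.mem⟩ : X00) + ⟨x'', h2.mem⟩ := Subtype.ext hxx
    rw [hx', map_add, map_add]
    calc _ ≤ _ := norm_add_le _ _
      _ ≤ ε / 2 + ε / 2 := add_le_add e1 e2
      _ = ε := by ring
  have happ : ∀ ε : ℝ, 0 < ε → ∃ q : ℕ, ‖T - T ∘L S.lop q‖ ≤ ε := by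
    intro ε hε
    obtain ⟨q, hq⟩ := hblock (ε / 3) (by positivity)
    refine ⟨q, ?_⟩
    refine S.opNorm_le_j hε.le ?_
    intro x
    have hdec : S.j x - S.lop q (S.j x) = S.j (Sys.hi0 q x) := by
      rw [S.lop_j, ← map_sub]
      rfl
    have happly : (T - T ∘L S.lop q) (S.j x) = T (S.j (Sys.hi0 q x)) := by
      rw [← hdec, map_sub]
      rfl
    rw [happly]
    by_cases hr : ‖S.j x‖ = 0
    · have hz : S.j x = 0 := norm_eq_zero.mp hr
      rw [← hdec, hz]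
      simp
    · have hr0 : 0 < ‖S.j x‖ := lt_of_le_of_ne (norm_nonneg _) (Ne.symm hr)
      have hn3 : ‖S.j (Sys.hi0 q x)‖ ≤ 3 * ‖S.j x‖ := by
        rw [← hdec]
        calc _ ≤ ‖S.j x‖ + ‖S.lop q (S.j x)‖ := norm_sub_le _ _
          _ ≤ ‖S.j x‖ + 2 * ‖S.j x‖ := by
              gcongr
              refine le_trans (ContinuousLinearMap.le_opNorm _ _) ?_
              gcongr
              exact S.norm_lop_le q
          _ = 3 * ‖S.j x‖ := by ring
      set r : ℝ := 3 * ‖S.j x‖ with hrdef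
      have hrpos : 0 < r := by positivity
      have h1 := hq (((r : ℂ)⁻¹) • Sys.hi0 q x) ?_ ?_
      · rw [map_smul, map_smul, norm_smul, norm_inv, Complex.norm_real, Real.norm_of_nonneg hrpos.le,
          inv_mul_le_iff₀ hrpos] at h1
        calc _ ≤ _ := h1
          _ = ε * ‖S.j x‖ := by rw [hrdef]; ring
      · intro k hk
        rw [Submodule.coe_smul, Finsupp.smul_apply]
        have : ((Sys.hi0 q x : X00) : E) k = 0 := by
          change hi q (x : E) k = 0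
          rw [hi_apply, if_neg (by omega)]
        rw [this, smul_zero]
      · rw [map_smul, norm_smul, norm_inv, Complex.norm_real, Real.norm_of_nonneg hrpos.le,
          inv_mul_le_iff₀ hrpos, mul_one]
        exact hn3
  choose q hq using fun k : ℕ => happ (1 / ((k : ℝ) + 1)) (by positivity)
  have hlim : Tendsto (fun k => T ∘L S.lop (q k)) atTop (𝓝 T) := by
    refine (tendsto_iff_norm_sub_tendsto_zero (E := S.X →L[ℂ] S.X)).mpr ?_
    refine squeeze_zero (fun k => norm_nonneg (T ∘L S.lop (q k) - T)) (fun k => ?_)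
      tendsto_one_div_add_atTop_nhds_zero_nat
    exact (norm_sub_rev (E := S.X →L[ℂ] S.X) (T ∘L S.lop (q k)) T).le.trans (hq k)
  exact isCompactOperator_of_tendsto hlim (Eventually.of_forall fun k =>
    (S.lop_compact (q k)).clm_comp T)

end Pool.Agent.Helper64.Cal
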