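import Pool.Agent.Helper64.Cal.Bd

/-!
# RIS vectors, local supports, test vectors
-/

set_option autoImplicit false

open scoped ENNReal

namespace Pool.Agent.Helper64.Cal

/-- `x` is a RIS vector with constant `C` and index `J` -/
structure RT (S : Sys) (C : ℝ) (J : ℕ) (x : E) : Prop where
  mem : x ∈ X00
  ge : ∀ k, k < J → x k = 0
  nb : ∀ k, ‖S.e k x‖ ≤ C
  wt : ∀ k, S.w k < J → ‖S.e k x‖ ≤ C / m (S.w k)

/-- flexible RIS vector -/
def RF (S : Sys) (C : ℝ) (J : ℕ) (x : E) : Prop := RT S C J x ∧ act (Q J) x = 0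

/-- RIS vector in the `i`-th copy -/
def RI (S : Sys) (i : ℕ) (C : ℝ) (J : ℕ) (x : E) : Prop := RT S C J x ∧ act (mu i i) x = x

variable {S : Sys}

lemma rt_m_pos (j : ℕ) : (0 : ℝ) < (m j : ℝ) := by
  have h := m_ge j
  have h2 : (64 : ℝ) ≤ (m j : ℝ) := by exact_mod_cast h
  linarith

lemma RT.const_nonneg {C : ℝ} {J : ℕ} {x : E} (h : RT S C J x) : 0 ≤ C :=
  le_trans (norm_nonneg _) (h.nb 0)

lemma RT.mono {C C' : ℝ} {J J' : ℕ} {x : E} (h : RT S C J x) (hC : C ≤ C') (hJ : J' ≤ J) :
    RT S C' J' x where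
  mem := h.mem
  ge := fun k hk => h.ge k (lt_of_lt_of_le hk hJ)
  nb := fun k => le_trans (h.nb k) hC
  wt := fun k hk => by
    refine le_trans (h.wt k (lt_of_lt_of_le hk hJ)) ?_
    exact div_le_div_of_nonneg_right hC (rt_m_pos _).le

lemma RT.add {C C' : ℝ} {J J' : ℕ} {x x' : E} (h : RT S C J x) (h' : RT S C' J' x')
    (hJ : J ≤ J') : RT S (C + C') J (x + x') where
  mem := X00.add_mem h.mem h'.mem
  ge := fun k hk => by
    rw [Finsupp.add_apply, h.ge k hk, h'.ge k (lt_of_lt_of_le hk hJ), add_zero]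
  nb := fun k => by
    rw [map_add]
    exact le_trans (norm_add_le _ _) (add_le_add (h.nb k) (h'.nb k))
  wt := fun k hk => by
    rw [map_add, add_div]
    exact le_trans (norm_add_le _ _)
      (add_le_add (h.wt k hk) (h'.wt k (lt_of_lt_of_le hk hJ)))

lemma RT.smul {C : ℝ} {J : ℕ} {x : E} (h : RT S C J x) (c : ℂ) : RT S (‖c‖ * C) J (c • x) where
  mem := X00.smul_mem c h.mem
  ge := fun k hk => by
    rw [Finsupp.smul_apply, h.ge k hk, smul_zero]
  nb := fun k => by
    rw [map_smul, norm_smul]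
    exact mul_le_mul_of_nonneg_left (h.nb k) (norm_nonneg _)
  wt := fun k hk => by
    rw [map_smul, norm_smul, mul_div_assoc]
    exact mul_le_mul_of_nonneg_left (h.wt k hk) (norm_nonneg _)

lemma RT.act {C : ℝ} {J N : ℕ} {x : E} (h : RT S C J x) {K : V →L[ℂ] V} (hK : IsM N K)
    (hn : ‖K‖ ≤ 1) (hN : N ≤ J) : RT S (4 * C) J (Cal.act K x) where
  mem := act_mem hK h.mem (fun k hk => h.ge k (lt_of_lt_of_le hk hN))
  ge := fun k hk => by
    rw [act_apply, h.ge k hk, map_zero]
  nb := fun k => by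
    have h1 := S.act_bound hK hn (fun i hi => h.ge i (lt_of_lt_of_le hi hN))
      (c := C) (k := k) (fun η _ => h.nb η)
    have h2 := h.const_nonneg
    linarith
  wt := fun k hk => by
    have h1 := S.act_diff hK hn (fun i hi => h.ge i (lt_of_lt_of_le hi hN))
      (c := C) (k := k) (fun η _ => h.nb η)
    have h2 : ‖K (S.e k x)‖ ≤ C / m (S.w k) := by
      refine le_trans (K.le_opNorm _) ?_
      calc ‖K‖ * ‖S.e k x‖ ≤ 1 * ‖S.e k x‖ :=
            mul_le_mul_of_nonneg_right hn (norm_nonneg _)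
        _ = ‖S.e k x‖ := one_mul _
        _ ≤ C / m (S.w k) := h.wt k hk
    have h3 : ‖S.e k (Cal.act K x)‖ ≤ ‖S.e k (Cal.act K x) - K (S.e k x)‖ + ‖K (S.e k x)‖ := by
      have := norm_add_le (S.e k (Cal.act K x) - K (S.e k x)) (K (S.e k x))
      rwa [sub_add_cancel] at this
    have h4 : 4 * C / (m (S.w k) : ℝ) = 3 * C / m (S.w k) + C / m (S.w k) := by
      ring
    rw [h4]
    exact le_trans h3 (add_le_add h1 h2)

/-- subtracting the rigid part gives a flexible vector -/
lemma RT.flex {C : ℝ} {J J' : ℕ} {x : E} (h : RT S C J x) (hJ : J' ≤ J) :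
    RF S (5 * C) J' (x - Cal.act (Q J') x) := by
  have hA : RT S (4 * C) J (Cal.act (Q J') x) := h.act (isM_Q J') (norm_Q_le J') hJ
  have hB : RT S (‖(-1 : ℂ)‖ * (4 * C)) J ((-1 : ℂ) • Cal.act (Q J') x) := hA.smul (-1)
  have hC := h.add hB le_rfl
  have he : x + (-1 : ℂ) • Cal.act (Q J') x = x - Cal.act (Q J') x := by
    rw [neg_smul, one_smul, sub_eq_add_neg]
  rw [he] at hC
  refine ⟨hC.mono ?_ hJ, ?_⟩
  · rw [norm_neg, norm_one]
    linarith
  · rw [map_sub, act_act, Q_comp_Q, min_self, sub_self]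

/-- a component is rigid -/
lemma RT.rigid {C : ℝ} {J i : ℕ} {x : E} (h : RT S C J x) (hi : 1 ≤ i) (hJ : i ≤ J) :
    RI S i (4 * C) J (Cal.act (mu i i) x) := by
  refine ⟨h.act (isM_mu hi le_rfl hi le_rfl) (norm_mu_le i i) hJ, ?_⟩
  rw [act_act, mu_comp, if_pos rfl]

/-- prescribed values -/
lemma exists_values (S : Sys) (p q : ℕ) (u : ℕ → V) (hu : ∀ k i, k < i → (u k) i = 0)
    (hp : ∀ k, k < p → u k = 0) :
    ∃ x : E, x ∈ X00 ∧ (∀ k, k < p → x k = 0) ∧ (∀ k, q ≤ k → x k = 0) ∧
      ∀ k, k < q → S.e k x = u k := by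
  induction q with
  | zero =>
    exact ⟨0, X00.zero_mem, fun _ _ => rfl, fun _ _ => rfl, fun k hk => absurd hk (Nat.not_lt_zero k)⟩
  | succ q ih =>
    obtain ⟨x, hx, hxp, hxq, hxe⟩ := ih
    refine ⟨x + Finsupp.single q (u q - S.e q x), ?_, ?_, ?_, ?_⟩
    · refine X00.add_mem hx (single_mem ?_)
      intro i hi
      rw [lp.coeFn_sub, Pi.sub_apply, hu q i hi, S.e_mem hx q i hi, sub_zero]
    · intro k hk
      rw [Finsupp.add_apply, hxp k hk, zero_add]
      by_cases hkq : q = k
      · subst hkq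
        rw [Finsupp.single_eq_same, hp q hk, zero_sub, neg_eq_zero]
        refine S.e_zero ?_
        intro i _ hi
        exact hxp i (lt_of_le_of_lt hi hk)
      · rw [Finsupp.single_eq_of_ne (fun h => hkq h.symm)]
    · intro k hk
      rw [Finsupp.add_apply, hxq k (by omega), zero_add,
        Finsupp.single_eq_of_ne (by omega)]
    · intro k hk
      rw [map_add]
      by_cases hkq : k = q
      · subst hkq
        rw [S.e_single_self]
        abel
      · have hlt : k < q := by omega
        rw [hxe k hlt]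
        have : S.e k (Finsupp.single q (u q - S.e q x)) = 0 := by
          refine S.e_zero ?_
          intro i _ hi
          rw [Finsupp.single_eq_of_ne (by omega)]
        rw [this, add_zero]

/-- splitting of a block vector according to the weights in its local support:
`x'` has only weights `≤ N` (constant depends on `N`, every index), `x''` only weights `> N` -/
lemma exists_split (S : Sys) (N p : ℕ) {x : E} (hx : x ∈ X00) (hp : ∀ k, k < p → x k = 0)
    (h1 : ∀ k, ‖S.e k x‖ ≤ 1) :
    ∃ x' x'' : E, x = x' + x'' ∧ RT S (9 * m N) p x' ∧ RT S 9 (min p (N + 1)) x'' := by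
  obtain ⟨q, hq⟩ := exists_supp x
  obtain ⟨y, hy, hyp, hyq, hye⟩ := exists_values S p q
    (fun k => if S.w k ≤ N then S.e k x else 0)
    (by
      intro k i hki
      by_cases hw : S.w k ≤ N
      · simp only [hw, if_true]
        exact S.e_mem hx k i hki
      · simp only [hw, if_false]
        rfl)
    (by
      intro k hk
      by_cases hw : S.w k ≤ N
      · simp only [hw, if_true]
        exact S.e_zero (fun i _ hi => hp i (lt_of_le_of_lt hi hk))
      · simp only [hw, if_false])
  have hmN : (64 : ℝ) ≤ (m N : ℝ) := by exact_mod_cast m_ge N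
  have hy1 : ∀ η, η < q → ‖S.e η y‖ ≤ 1 := by
    intro η hη
    rw [hye η hη]
    by_cases hw : S.w η ≤ N
    · simp only [hw, if_true]
      exact h1 η
    · simp only [hw, if_false]
      rw [norm_zero]
      exact zero_le_one
  have hy2 : ∀ k, ‖S.e k y‖ ≤ 2 := by
    intro k
    have := S.ext_bound hyq zero_le_one hy1 k
    linarith
  have hze : ∀ η, η < q → S.e η (x - y) = if S.w η ≤ N then 0 else S.e η x := by
    intro η hη
    rw [map_sub, hye η hη]
    by_cases hw : S.w η ≤ N
    · simp only [hw, if_true, sub_self]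
    · simp only [hw, if_false, sub_zero]
  have hzq : ∀ k, q ≤ k → (x - y) k = 0 := by
    intro k hk
    rw [Finsupp.sub_apply, hq k hk, hyq k hk, sub_zero]
  have hz1 : ∀ η, η < q → ‖S.e η (x - y)‖ ≤ 1 := by
    intro η hη
    rw [hze η hη]
    by_cases hw : S.w η ≤ N
    · simp only [hw, if_true]
      rw [norm_zero]
      exact zero_le_one
    · simp only [hw, if_false]
      exact h1 η
  have hz2 : ∀ k, ‖S.e k (x - y)‖ ≤ 2 := by
    intro k
    have := S.ext_bound hzq zero_le_one hz1 k
    linarith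
  refine ⟨y, x - y, ?_, ?_, ?_⟩
  · abel
  · refine ⟨hy, hyp, ?_, ?_⟩
    · intro k
      have := hy2 k
      linarith
    · intro k _
      have hmk := rt_m_pos (S.w k)
      by_cases hw : S.w k ≤ N
      · rw [le_div_iff₀ hmk]
        have hmm : (m (S.w k) : ℝ) ≤ (m N : ℝ) := by
          exact_mod_cast m_strictMono.monotone hw
        have h3 := hy2 k
        nlinarith [norm_nonneg (S.e k y)]
      · have h3 := S.outside (h := S.w k) hyq hy2 (by
          intro γ hγ hγw
          rw [hye γ hγ]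
          have : ¬ S.w γ ≤ N := by omega
          simp only [this, if_false]) (γ := k) rfl
        refine le_trans h3 ?_
        refine div_le_div_of_nonneg_right ?_ hmk.le
        linarith
  · refine ⟨X00.sub_mem hx hy, ?_, ?_, ?_⟩
    · intro k hk
      have hkp : k < p := lt_of_lt_of_le hk (min_le_left _ _)
      rw [Finsupp.sub_apply, hp k hkp, hyp k hkp, sub_zero]
    · intro k
      have := hz2 k
      linarith
    · intro k hk
      have hmk := rt_m_pos (S.w k)
      have hkN : S.w k < N + 1 := lt_of_lt_of_le hk (min_le_right _ _)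
      have h3 := S.outside (h := S.w k) hzq hz2 (by
        intro γ hγ hγw
        rw [hze γ hγ]
        have : S.w γ ≤ N := by omega
        simp only [this, if_true]) (γ := k) rfl
      refine le_trans h3 ?_
      refine div_le_div_of_nonneg_right ?_ hmk.le
      norm_num

/-- test vectors -/
lemma test_RT (S : Sys) {γ J : ℕ} (h0 : S.age γ = 0) (hJ : J ≤ S.w γ) {v : V}
    (hv : ∀ i, γ < i → v i = 0) (hn : ‖v‖ ≤ 1) : RT S 6 J (Finsupp.single γ v) := by
  have hb : ∀ k, ‖S.e k (Finsupp.single γ v)‖ ≤ 2 := by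
    intro k
    have := S.single_bound γ v k
    linarith
  refine ⟨single_mem hv, ?_, ?_, ?_⟩
  · intro k hk
    have h1 := S.w_le_self γ
    rw [Finsupp.single_eq_of_ne (by omega)]
  · intro k
    have := hb k
    linarith
  · intro k hk
    have h3 := S.outside (q := γ + 1) (h := S.w k) (u := Finsupp.single γ v) (by
      intro i hi
      rw [Finsupp.single_eq_of_ne (by omega)]) hb (by
      intro γ' hγ' hw
      have hne : γ' ≠ γ := by
        intro h
        subst h
        omega
      refine S.e_zero ?_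
      intro i _ hi
      rw [Finsupp.single_eq_of_ne (by omega)]) (γ := k) rfl
    refine le_trans h3 ?_
    refine div_le_div_of_nonneg_right ?_ (rt_m_pos _).le
    norm_num

lemma test_RF (S : Sys) {γ J : ℕ} (h0 : S.age γ = 0) (hJ : J ≤ S.w γ) {v : V}
    (hv : ∀ i, γ < i → v i = 0) (hn : ‖v‖ ≤ 1) (hv' : ∀ i, 1 ≤ i → i ≤ J → v i = 0) :
    RF S 6 J (Finsupp.single γ v) := by
  refine ⟨test_RT S h0 hJ hv hn, ?_⟩
  have hQ : Q J v = 0 := by
    refine V_ext ?_
    intro j
    rw [Q_coord]
    by_cases hj : 1 ≤ j ∧ j ≤ J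
    · rw [if_pos hj, hv' j hj.1 hj.2]
      rfl
    · rw [if_neg hj]
      rfl
  refine Finsupp.ext ?_
  intro k
  rw [act_apply]
  by_cases hk : k = γ
  · subst hk
    rw [Finsupp.single_eq_same, hQ]
    rfl
  · rw [Finsupp.single_eq_of_ne hk, map_zero]
    rfl

lemma test_RI (S : Sys) {γ J i : ℕ} (h0 : S.age γ = 0) (hJ : J ≤ S.w γ) (hi : i ≤ γ) :
    RI S i 6 J (Finsupp.single γ (bv i)) := by
  refine ⟨test_RT S h0 hJ ?_ (norm_bv i).le, ?_⟩
  · intro j hj
    rw [bv_apply, if_neg (by omega)]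
  · refine Finsupp.ext ?_
    intro k
    rw [act_apply]
    by_cases hk : k = γ
    · subst hk
      rw [Finsupp.single_eq_same, mu_apply, bv_apply, if_pos rfl, one_smul]
    · rw [Finsupp.single_eq_of_ne hk, map_zero]

end Pool.Agent.Helper64.Cal
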