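import Pool.Agent.Helper64.Cal.Rt

/-!
# The Banach space `X`
-/

set_option autoImplicit false

open scoped ENNReal
open Filter Topology

namespace Pool.Agent.Helper64.Cal

namespace Sys

variable (S : Sys)

/-- the embedding of `E` into the bounded `V`-valued functions -/
noncomputable def iota : E →ₗ[ℂ] lp (fun _ : ℕ => V) ∞ where
  toFun y := ⟨fun k => S.e k y, by
    obtain ⟨c, hc⟩ := S.bounded y
    exact memℓp_infty ⟨c, by rintro _ ⟨k, rfl⟩; exact hc k⟩⟩
  map_add' y y' := by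
    ext1
    funext k
    exact map_add (S.e k) y y'
  map_smul' c y := by
    ext1
    funext k
    exact map_smul (S.e k) c y

/-- the space `X` as a closed subspace -/
noncomputable def X : Submodule ℂ (lp (fun _ : ℕ => V) ∞) := (X00.map S.iota).topologicalClosure

instance : CompleteSpace S.X := by
  exact (Submodule.isClosed_topologicalClosure _).completeSpace_coe

/-- the inclusion of finitely supported vectors -/
noncomputable def j : X00 →ₗ[ℂ] S.X where
  toFun x := ⟨S.iota x, Submodule.le_topologicalClosure _ (Submodule.mem_map_of_mem x.2)⟩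
  map_add' x y := by
    apply Subtype.ext
    simp
  map_smul' c x := by
    apply Subtype.ext
    simp

/-- `lo q` on `X00` -/
noncomputable def lo0 (q : ℕ) (x : X00) : X00 := ⟨lo q x, lo_mem x.2⟩

/-- `hi q` on `X00` -/
noncomputable def hi0 (q : ℕ) (x : X00) : X00 := ⟨hi q x, hi_mem x.2⟩

lemma norm_j_le {x : X00} {c : ℝ} (hc : 0 ≤ c) (h : ∀ k, ‖S.e k x‖ ≤ c) : ‖S.j x‖ ≤ c := by
  have h1 : ‖(S.iota (x : E))‖ ≤ c := lp.norm_le_of_forall_le hc h
  exact h1

lemma e_le_norm_j (x : X00) (k : ℕ) : ‖S.e k x‖ ≤ ‖S.j x‖ := by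
  have h1 : ‖(S.iota (x : E)) k‖ ≤ ‖S.iota (x : E)‖ :=
    lp.norm_apply_le_norm ENNReal.top_ne_zero _ k
  exact h1

lemma iota_norm_le {x : E} {c : ℝ} (hc : 0 ≤ c) (h : ∀ k, ‖S.e k x‖ ≤ c) : ‖S.iota x‖ ≤ c := by
  exact lp.norm_le_of_forall_le hc h

lemma e_le_iota_norm (x : E) (k : ℕ) : ‖S.e k x‖ ≤ ‖S.iota x‖ := by
  exact lp.norm_apply_le_norm ENNReal.top_ne_zero (S.iota x) k

lemma iota_coe_j (x : X00) : ((S.j x : S.X) : lp (fun _ : ℕ => V) ∞) = S.iota x := rfl

lemma dense_j (u : S.X) {ε : ℝ} (hε : 0 < ε) : ∃ x : X00, ‖u - S.j x‖ ≤ ε := by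
  have hu : (u : lp (fun _ : ℕ => V) ∞) ∈ closure ((X00.map S.iota : Submodule ℂ _) : Set _) :=
    u.2
  obtain ⟨z, hz, hd⟩ := Metric.mem_closure_iff.1 hu ε hε
  obtain ⟨x, hx, rfl⟩ := hz
  refine ⟨⟨x, hx⟩, ?_⟩
  rw [dist_eq_norm] at hd
  exact hd.le

lemma sp1_dense : DenseRange S.j := by
  intro u
  rw [Metric.mem_closure_iff]
  intro ε hε
  obtain ⟨x, hx⟩ := S.dense_j u (half_pos hε)
  refine ⟨S.j x, ⟨x, rfl⟩, ?_⟩
  rw [dist_eq_norm]
  linarith

lemma sp1_ext {P Y W : Type*} [AddCommMonoid P] [Module ℂ P] [NormedAddCommGroup Y]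
    [NormedSpace ℂ Y] [NormedAddCommGroup W] [NormedSpace ℂ W] [CompleteSpace W]
    (L : P →ₗ[ℂ] W) (e : P →ₗ[ℂ] Y) (hd : DenseRange e) {c : ℝ} (hc : 0 ≤ c)
    (h : ∀ x, ‖L x‖ ≤ c * ‖e x‖) :
    ∃ A : Y →L[ℂ] W, (∀ x, A (e x) = L x) ∧ ‖A‖ ≤ c := by
  let _ : AddCommGroup P := Module.addCommMonoidToAddCommGroup ℂ
  exact ⟨L.extendOfNorm e, fun x => LinearMap.extendOfNorm_eq hd ⟨c, h⟩ x,
    LinearMap.opNorm_extendOfNorm_le hd hc h⟩

/-- two continuous linear maps agreeing on `X00` are equal -/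
lemma ext_j {W : Type*} [NormedAddCommGroup W] [NormedSpace ℂ W] {A B : S.X →L[ℂ] W}
    (h : ∀ x : X00, A (S.j x) = B (S.j x)) : A = B := by
  apply ContinuousLinearMap.ext
  intro u
  have h1 : (A : S.X → W) = B := by
    apply S.sp1_dense.equalizer A.continuous B.continuous
    funext x
    exact h x
  exact congrFun h1 u

/-- a bound on `X00` gives a norm bound -/
lemma opNorm_le_j {W : Type*} [NormedAddCommGroup W] [NormedSpace ℂ W] {A : S.X →L[ℂ] W}
    {c : ℝ} (hc : 0 ≤ c) (h : ∀ x : X00, ‖A (S.j x)‖ ≤ c * ‖S.j x‖) : ‖A‖ ≤ c := by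
  apply ContinuousLinearMap.opNorm_le_bound _ hc
  intro u
  apply S.sp1_dense.induction_on (p := fun u => ‖A u‖ ≤ c * ‖u‖) u
  · apply isClosed_le
    · exact A.continuous.norm
    · exact continuous_const.mul continuous_norm
  · exact h

/-- extension of linear maps -/
lemma exists_ext {W : Type*} [NormedAddCommGroup W] [NormedSpace ℂ W] [CompleteSpace W]
    (L : X00 →ₗ[ℂ] W) {c : ℝ} (hc : 0 ≤ c) (h : ∀ x, ‖L x‖ ≤ c * ‖S.j x‖) :
    ∃ A : S.X →L[ℂ] W, (∀ x, A (S.j x) = L x) ∧ ‖A‖ ≤ c := by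
  exact sp1_ext (P := X00) (Y := S.X) (W := W) L S.j S.sp1_dense hc h

/-! ### the operators -/

lemma exists_lop (q : ℕ) : ∃ A : S.X →L[ℂ] S.X, (∀ x, A (S.j x) = S.j (lo0 q x)) ∧ ‖A‖ ≤ 2 := by
  have hlin : ∃ L : X00 →ₗ[ℂ] S.X, ∀ x, L x = S.j (lo0 q x) := by
    refine ⟨S.j ∘ₗ LinearMap.mk ⟨lo0 q, ?_⟩ ?_, ?_⟩
    · intro x y
      apply Subtype.ext
      simp [lo0]
    · intro c x
      apply Subtype.ext
      simp [lo0]
    · intro x
      rfl
  obtain ⟨L, hL⟩ := hlin
  obtain ⟨A, hA, hn⟩ := S.exists_ext L (c := 2) (by norm_num) (by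
    intro x
    rw [hL]
    apply S.norm_j_le (by positivity)
    intro k
    exact S.lo_bound q (fun η _ => S.e_le_norm_j x η))
  exact ⟨A, fun x => (hA x).trans (hL x), hn⟩

/-- `lo q` on `X` -/
noncomputable def lop (q : ℕ) : S.X →L[ℂ] S.X := (S.exists_lop q).choose

lemma lop_j (q : ℕ) (x : X00) : S.lop q (S.j x) = S.j (lo0 q x) := (S.exists_lop q).choose_spec.1 x

lemma norm_lop_le (q : ℕ) : ‖S.lop q‖ ≤ 2 := (S.exists_lop q).choose_spec.2

lemma lop_tendsto (u : S.X) : Tendsto (fun q => S.lop q u) atTop (𝓝 u) := by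
  rw [Metric.tendsto_atTop]
  intro ε hε
  obtain ⟨x, hx⟩ := S.dense_j u (ε := ε / 4) (by positivity)
  obtain ⟨N, hN⟩ := exists_supp (x : E)
  refine ⟨N, fun q hq => ?_⟩
  rw [dist_eq_norm]
  have h1 : S.lop q (S.j x) = S.j x := by
    rw [lop_j]
    congr 1
    apply Subtype.ext
    exact lo_eq_self (fun k hk => hN k (hq.trans hk))
  have h2 : S.lop q u - u = S.lop q (u - S.j x) - (u - S.j x) := by
    rw [map_sub, h1]
    abel
  have h3 : ‖S.lop q (u - S.j x)‖ ≤ 2 * ‖u - S.j x‖ := by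
    refine ((S.lop q).le_opNorm _).trans ?_
    exact mul_le_mul_of_nonneg_right (S.norm_lop_le q) (norm_nonneg _)
  rw [h2]
  have h4 := norm_sub_le (S.lop q (u - S.j x)) (u - S.j x)
  linarith

/-- a continuous linear map with values in a finite dimensional space on `X00` is compact -/
lemma sp2_finite_compact {W : Type*} [NormedAddCommGroup W] [NormedSpace ℂ W]
    (A : S.X →L[ℂ] W) (F : Submodule ℂ W) [FiniteDimensional ℂ F]
    (h : ∀ x : X00, A (S.j x) ∈ F) : IsCompactOperator A := by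
  have hcl : IsClosed (F : Set W) := F.closed_of_finiteDimensional
  have hall : ∀ u : S.X, A u ∈ F := by
    intro u
    have hmem : A u ∈ closure (F : Set W) := by
      rw [Metric.mem_closure_iff]
      intro ε hε
      obtain ⟨x, hx⟩ := S.dense_j u (ε := ε / (2 * (‖A‖ + 1))) (by positivity)
      refine ⟨A (S.j x), h x, ?_⟩
      rw [dist_eq_norm, ← map_sub]
      calc ‖A (u - S.j x)‖ ≤ ‖A‖ * ‖u - S.j x‖ := A.le_opNorm _
        _ ≤ (‖A‖ + 1) * (ε / (2 * (‖A‖ + 1))) := by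
            apply mul_le_mul _ hx (norm_nonneg _) (by positivity)
            linarith
        _ = ε / 2 := by
            have : ‖A‖ + 1 ≠ 0 := by positivity
            field_simp
        _ < ε := by linarith
    rw [hcl.closure_eq] at hmem
    exact hmem
  have : LocallyCompactSpace F := by
    have := FiniteDimensional.proper ℂ F
    infer_instance
  have h1 : IsCompactOperator (id : F → F) := isCompactOperator_id
  have h2 : IsCompactOperator (id ∘ (A.codRestrict F hall)) := h1.comp_clm _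
  have h3 := h2.continuous_comp (g := (Subtype.val : F → W)) continuous_subtype_val
  exact h3

/-- spanning vectors of the finite dimensional pieces -/
noncomputable def sp2x (k i : ℕ) : X00 :=
  if h : i ≤ k then ⟨Finsupp.single k (bv i), single_mem (by
    intro i' hi'
    rw [bv_apply, if_neg (by omega)])⟩ else 0

lemma sp2x_coe {k i : ℕ} (h : i ≤ k) : (sp2x k i : E) = Finsupp.single k (bv i) := by
  unfold sp2x
  rw [dif_pos h]

lemma sp2_coord_sum (s : Finset ℕ) (f : ℕ → V) (c : ℕ) : (∑ i ∈ s, f i) c = ∑ i ∈ s, (f i) c := by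
  have h := map_sum (co c) f s
  simp_rw [co_apply] at h
  exact h

lemma sp2_lo_sum (q : ℕ) (x : X00) :
    lo0 q x = ∑ k ∈ Finset.range q, ∑ i ∈ Finset.range (k + 1), ((x : E) k) i • sp2x k i := by
  apply Subtype.ext
  show lo q (x : E) = X00.subtype _
  rw [map_sum]
  simp_rw [map_sum, map_smul]
  show lo q (x : E) = ∑ k ∈ Finset.range q, ∑ i ∈ Finset.range (k + 1),
    ((x : E) k) i • (sp2x k i : E)
  refine Finsupp.ext fun l => ?_
  rw [lo_apply, Finsupp.finsetSum_apply]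
  simp_rw [Finsupp.finsetSum_apply]
  apply V_ext
  intro c
  rw [sp2_coord_sum]
  simp_rw [sp2_coord_sum]
  have hterm : ∀ k ∈ Finset.range q, ∑ i ∈ Finset.range (k + 1),
      ((((x : E) k) i • (sp2x k i : E)) l) c = if k = l then ((x : E) l) c else 0 := by
    intro k _
    have h1 : ∀ i ∈ Finset.range (k + 1), ((((x : E) k) i • (sp2x k i : E)) l) c
        = if k = l then (if c = i then ((x : E) k) i else 0) else 0 := by
      intro i hi
      rw [Finset.mem_range] at hi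
      rw [sp2x_coe (by omega), Finsupp.smul_apply, Finsupp.single_apply]
      by_cases hkl : k = l
      · rw [if_pos hkl, if_pos hkl]
        show ((x : E) k) i • (bv i : V) c = _
        rw [bv_apply]
        by_cases hci : c = i
        · rw [if_pos hci, if_pos hci, smul_eq_mul, mul_one]
        · rw [if_neg hci, if_neg hci, smul_zero]
      · rw [if_neg hkl, if_neg hkl, smul_zero]
        rfl
    rw [Finset.sum_congr rfl h1]
    by_cases hkl : k = l
    · subst hkl
      simp only [if_true]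
      rw [Finset.sum_ite_eq]
      by_cases hc : c ∈ Finset.range (k + 1)
      · rw [if_pos hc]
      · rw [if_neg hc]
        rw [Finset.mem_range] at hc
        exact (x.2 k c (by omega)).symm
    · simp [hkl]
  rw [Finset.sum_congr rfl hterm, Finset.sum_ite_eq']
  by_cases hl : l < q
  · rw [if_pos hl, if_pos (Finset.mem_range.mpr hl)]
  · rw [if_neg hl, if_neg (by simpa using hl)]
    rfl

lemma lop_compact (q : ℕ) : IsCompactOperator (S.lop q) := by
  classical
  have hfin : Set.Finite (Set.image2 (fun k i => S.j (sp2x k i)) (Finset.range q : Set ℕ)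
      (Finset.range q : Set ℕ)) :=
    Set.Finite.image2 _ (Finset.finite_toSet _) (Finset.finite_toSet _)
  have : FiniteDimensional ℂ (Submodule.span ℂ
      (Set.image2 (fun k i => S.j (sp2x k i)) (Finset.range q : Set ℕ)
        (Finset.range q : Set ℕ))) :=
    FiniteDimensional.span_of_finite ℂ hfin
  refine S.sp2_finite_compact (S.lop q) (Submodule.span ℂ
      (Set.image2 (fun k i => S.j (sp2x k i)) (Finset.range q : Set ℕ)
        (Finset.range q : Set ℕ))) (fun x => ?_)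
  rw [S.lop_j, sp2_lo_sum, map_sum]
  refine Submodule.sum_mem _ fun k hk => ?_
  rw [map_sum]
  refine Submodule.sum_mem _ fun i hi => ?_
  rw [map_smul]
  refine Submodule.smul_mem _ _ ?_
  apply Submodule.subset_span
  rw [Finset.mem_range] at hk hi
  exact Set.mem_image2_of_mem (by simpa using hk) (by simpa using (by omega : i < q))

lemma lop_lop (p q : ℕ) : S.lop p ∘L S.lop q = S.lop (min p q) := by
  apply S.ext_j
  intro x
  rw [ContinuousLinearMap.comp_apply, lop_j, lop_j, lop_j]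
  congr 1
  apply Subtype.ext
  apply Finsupp.ext
  intro k
  simp only [lo0, lo_apply]
  by_cases h1 : k < p
  · by_cases h2 : k < q
    · simp [h1, h2]
    · simp [h1, h2]
  · simp [h1]

lemma exists_dv (k : ℕ) : ∃ A : S.X →L[ℂ] V, (∀ x : X00, A (S.j x) = (x : E) k) ∧ ‖A‖ ≤ 4 := by
  obtain ⟨A, hA, hn⟩ := S.exists_ext
    ({ toFun := fun x => (x : E) k
       map_add' := fun _ _ => rfl
       map_smul' := fun _ _ => rfl } : X00 →ₗ[ℂ] V) (c := 4) (by norm_num)
    (fun x => S.coord_bound (fun η _ => S.e_le_norm_j x η))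
  exact ⟨A, hA, hn⟩

/-- coordinate `k` on `X` -/
noncomputable def dv (k : ℕ) : S.X →L[ℂ] V := (S.exists_dv k).choose

lemma dv_j (k : ℕ) (x : X00) : S.dv k (S.j x) = (x : E) k := (S.exists_dv k).choose_spec.1 x

lemma norm_dv_le (k : ℕ) : ‖S.dv k‖ ≤ 4 := (S.exists_dv k).choose_spec.2

/-- `act K ∘ hi N` on `X00` -/
noncomputable def kop0 (N : ℕ) (K : V →L[ℂ] V) (hK : IsM N K) (x : X00) : X00 :=
  ⟨act K (hi N x), act_mem hK (hi_mem x.2) (fun k hk => by
    rw [hi_apply, if_neg (by omega)])⟩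

lemma exists_kop (N : ℕ) (K : V →L[ℂ] V) (hK : IsM N K) :
    ∃ A : S.X →L[ℂ] S.X, (∀ x, A (S.j x) = S.j (kop0 N K hK x)) ∧ ‖A‖ ≤ 6 * ‖K‖ := by
  have hadd : ∀ x y : X00, kop0 N K hK (x + y) = kop0 N K hK x + kop0 N K hK y := by
    intro x y
    apply Subtype.ext
    show act K (hi N ((x + y : X00) : E)) = act K (hi N (x : E)) + act K (hi N (y : E))
    rw [Submodule.coe_add, map_add, map_add]
  have hsmul : ∀ (c : ℂ) (x : X00), kop0 N K hK (c • x) = c • kop0 N K hK x := by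
    intro c x
    apply Subtype.ext
    show act K (hi N ((c • x : X00) : E)) = c • act K (hi N (x : E))
    rw [Submodule.coe_smul, map_smul, map_smul]
  refine S.exists_ext
    ({ toFun := fun x => S.j (kop0 N K hK x)
       map_add' := fun x y => by rw [hadd, map_add]
       map_smul' := fun c x => by rw [hsmul, map_smul]; rfl } : X00 →ₗ[ℂ] S.X)
    (by positivity) (fun x => ?_)
  show ‖S.j (kop0 N K hK x)‖ ≤ 6 * ‖K‖ * ‖S.j x‖
  apply S.norm_j_le (by positivity)
  intro k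
  show ‖S.e k (act K (hi N (x : E)))‖ ≤ _
  by_cases hK0 : K = 0
  · subst hK0
    rw [act_zero]
    simp
  have hnK : ‖K‖ ≠ 0 := norm_ne_zero_iff.mpr hK0
  have hK' : IsM N (((‖K‖⁻¹ : ℝ) : ℂ) • K) := hK.smul _
  have hn' : ‖((‖K‖⁻¹ : ℝ) : ℂ) • K‖ ≤ 1 := by
    rw [norm_smul, Complex.norm_real, norm_inv, norm_norm, inv_mul_cancel₀ hnK]
  have hKK : K = ((‖K‖ : ℝ) : ℂ) • (((‖K‖⁻¹ : ℝ) : ℂ) • K) := by
    rw [smul_smul, ← Complex.ofReal_mul, mul_inv_cancel₀ hnK, Complex.ofReal_one, one_smul]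
  have hb : ‖S.e k (act (((‖K‖⁻¹ : ℝ) : ℂ) • K) (hi N (x : E)))‖ ≤ 2 * (3 * ‖S.j x‖) := by
    apply S.act_bound hK' hn'
    · intro i hi'
      rw [hi_apply, if_neg (by omega)]
    · intro η _
      exact S.hi_bound N (fun η' _ => S.e_le_norm_j x η')
  calc ‖S.e k (act K (hi N (x : E)))‖
      = ‖S.e k (act (((‖K‖ : ℝ) : ℂ) • (((‖K‖⁻¹ : ℝ) : ℂ) • K)) (hi N (x : E)))‖ := by rw [← hKK]
    _ = ‖K‖ * ‖S.e k (act (((‖K‖⁻¹ : ℝ) : ℂ) • K) (hi N (x : E)))‖ := by
        rw [act_smul, map_smul, norm_smul, Complex.norm_real, norm_norm]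
    _ ≤ ‖K‖ * (2 * (3 * ‖S.j x‖)) := by gcongr
    _ = 6 * ‖K‖ * ‖S.j x‖ := by ring

open Classical in
/-- the operator `act K` on the tail of `X` -/
noncomputable def kop (N : ℕ) (K : V →L[ℂ] V) : S.X →L[ℂ] S.X :=
  if hK : IsM N K then (S.exists_kop N K hK).choose else 0

lemma kop_j {N : ℕ} {K : V →L[ℂ] V} (hK : IsM N K) (x : X00) :
    S.kop N K (S.j x) = S.j (kop0 N K hK x) := by
  unfold kop
  rw [dif_pos hK]
  exact (S.exists_kop N K hK).choose_spec.1 x

lemma norm_kop_le (N : ℕ) (K : V →L[ℂ] V) : ‖S.kop N K‖ ≤ 6 * ‖K‖ := by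
  unfold kop
  split_ifs with hK
  · exact (S.exists_kop N K hK).choose_spec.2
  · exact ContinuousLinearMap.opNorm_le_bound _ (by positivity) (fun u => by
      have h0 : ‖(0 : S.X →L[ℂ] S.X) u‖ = 0 := by simp
      rw [h0]
      positivity)

lemma kop_add {N : ℕ} {K L : V →L[ℂ] V} (hK : IsM N K) (hL : IsM N L) :
    S.kop N (K + L) = S.kop N K + S.kop N L := by
  apply S.ext_j
  intro x
  rw [add_apply, S.kop_j (hK.add hL), S.kop_j hK, S.kop_j hL, ← map_add]
  congr 1
  apply Subtype.ext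
  show act (K + L) (hi N (x : E)) = act K (hi N (x : E)) + act L (hi N (x : E))
  rw [act_add]

lemma kop_smul {N : ℕ} {K : V →L[ℂ] V} (c : ℂ) (hK : IsM N K) :
    S.kop N (c • K) = c • S.kop N K := by
  apply S.ext_j
  intro x
  rw [smul_apply, S.kop_j (hK.smul c), S.kop_j hK, ← map_smul]
  congr 1
  apply Subtype.ext
  show act (c • K) (hi N (x : E)) = c • act K (hi N (x : E))
  rw [act_smul]

lemma kop_comp {N : ℕ} {K L : V →L[ℂ] V} (hK : IsM N K) (hL : IsM N L) :
    S.kop N K ∘L S.kop N L = S.kop N (K ∘L L) := by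
  apply S.ext_j
  intro x
  rw [ContinuousLinearMap.comp_apply, S.kop_j (hK.comp hL), S.kop_j hL, S.kop_j hK]
  congr 1
  apply Subtype.ext
  show act K (hi N (act L (hi N (x : E)))) = act (K ∘L L) (hi N (x : E))
  rw [hi_act, act_act, hi_eq_self (x := hi N (x : E))]
  intro k hk
  rw [hi_apply, if_neg (by omega)]

/-- changing the level changes `kop` by a compact operator -/
lemma kop_level {N N' : ℕ} {K : V →L[ℂ] V} (hK : IsM N K) (hN : N ≤ N') :
    IsCompactOperator (S.kop N K - S.kop N' K) := by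
  have h : S.kop N K - S.kop N' K = S.kop N K ∘L S.lop N' := by
    apply S.ext_j
    intro x
    rw [sub_apply, ContinuousLinearMap.comp_apply, S.lop_j, S.kop_j hK,
      S.kop_j hK, S.kop_j (hK.mono hN), ← map_sub]
    congr 1
    apply Subtype.ext
    show act K (hi N (x : E)) - act K (hi N' (x : E)) = act K (hi N (lo N' (x : E)))
    refine Finsupp.ext fun k => ?_
    rw [Finsupp.sub_apply, act_apply, act_apply, act_apply, hi_apply, hi_apply, hi_apply,
      lo_apply]
    by_cases h1 : N ≤ k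
    · by_cases h2 : N' ≤ k
      · rw [if_pos h1, if_pos h2, if_pos h1, if_neg (by omega)]
        simp
      · rw [if_pos h1, if_neg h2, if_pos h1, if_pos (by omega)]
        simp
    · rw [if_neg h1, if_neg (by omega), if_neg h1]
      simp
  rw [h]
  exact (S.lop_compact N').clm_comp (S.kop N K)

lemma dv_kop {N : ℕ} {K : V →L[ℂ] V} (hK : IsM N K) {k : ℕ} (hk : N ≤ k) (u : S.X) :
    S.dv k (S.kop N K u) = K (S.dv k u) := by
  have h : S.dv k ∘L S.kop N K = K ∘L S.dv k := by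
    apply S.ext_j
    intro x
    rw [ContinuousLinearMap.comp_apply, ContinuousLinearMap.comp_apply, S.kop_j hK, S.dv_j,
      S.dv_j]
    show (act K (hi N (x : E))) k = _
    rw [act_apply, hi_apply, if_pos hk]
  exact congrArg (fun A : S.X →L[ℂ] V => A u) h

/-- approximation of `u` by a vector of `X00` supported after `p` -/
lemma approx_hi (u : S.X) (p : ℕ) {ε : ℝ} (hε : 0 < ε) (hu : ‖S.lop (p + 1) u‖ ≤ ε) :
    ∃ y : X00, (∀ k, k ≤ p → (y : E) k = 0) ∧ ‖u - S.j y‖ ≤ 2 * ε := by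
  obtain ⟨y0, h0⟩ := S.dense_j u (ε := ε / 4) (by positivity)
  refine ⟨hi0 (p + 1) y0, ?_, ?_⟩
  · intro k hk
    show hi (p + 1) (y0 : E) k = 0
    rw [hi_apply, if_neg (by omega)]
  · have h1 : S.j (hi0 (p + 1) y0) = S.j y0 - S.lop (p + 1) (S.j y0) := by
      rw [S.lop_j, ← map_sub]
      congr 1
    have h2 : u - S.j (hi0 (p + 1) y0)
        = (u - S.j y0) - S.lop (p + 1) (u - S.j y0) + S.lop (p + 1) u := by
      rw [h1, map_sub]
      abel
    rw [h2]
    have h3 : ‖S.lop (p + 1) (u - S.j y0)‖ ≤ 2 * (ε / 4) :=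
      ((S.lop (p + 1)).le_opNorm _).trans
        (mul_le_mul (S.norm_lop_le _) h0 (norm_nonneg _) (by norm_num))
    calc ‖(u - S.j y0) - S.lop (p + 1) (u - S.j y0) + S.lop (p + 1) u‖
        ≤ ‖(u - S.j y0) - S.lop (p + 1) (u - S.j y0)‖ + ‖S.lop (p + 1) u‖ := norm_add_le _ _
      _ ≤ (‖u - S.j y0‖ + ‖S.lop (p + 1) (u - S.j y0)‖) + ‖S.lop (p + 1) u‖ := by
          gcongr
          exact norm_sub_le _ _
      _ ≤ 2 * ε := by linarith

end Sys

end Pool.Agent.Helper64.Cal
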