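import Pool.Agent.Helper64.Cal.Defs

/-!
# Lemmas on `V`, matrix units, `Q`, `IsM`
-/

set_option autoImplicit false

open scoped ENNReal

namespace Pool.Agent.Helper64.Cal

lemma co_apply (i : ℕ) (v : V) : co i v = v i := rfl

lemma bv_apply (i j : ℕ) : (bv i : V) j = if j = i then 1 else 0 := by
  unfold bv
  rw [lp.single_apply, Pi.single_apply]

lemma norm_bv (i : ℕ) : ‖bv i‖ = 1 := by
  unfold bv
  rw [lp.norm_single (by norm_num)]
  simp

lemma V_ext {u v : V} (h : ∀ i, u i = v i) : u = v := by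
  apply lp.ext
  funext i
  exact h i

lemma V_hasSum (v : V) : HasSum (fun i => ‖v i‖ ^ 2) (‖v‖ ^ 2) := by
  have h := lp.hasSum_norm (p := 2) (by norm_num) v
  simpa using h

lemma V_sum_le (v : V) (s : Finset ℕ) : ∑ i ∈ s, ‖v i‖ ^ 2 ≤ ‖v‖ ^ 2 :=
  sum_le_hasSum s (fun _ _ => by positivity) (V_hasSum v)

lemma V_norm_le {v : V} {C : ℝ} (hC : 0 ≤ C) (h : ∀ s : Finset ℕ, ∑ i ∈ s, ‖v i‖ ^ 2 ≤ C ^ 2) :
    ‖v‖ ≤ C := by
  apply lp.norm_le_of_forall_sum_le (p := 2) (by norm_num) hC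
  intro s
  have := h s
  simpa using this

lemma V_norm_mono {u v : V} (h : ∀ i, ‖u i‖ ≤ ‖v i‖) : ‖u‖ ≤ ‖v‖ := by
  apply V_norm_le (norm_nonneg _)
  intro s
  refine le_trans (Finset.sum_le_sum (fun i _ => ?_)) (V_sum_le v s)
  exact pow_le_pow_left₀ (norm_nonneg _) (h i) 2

lemma V_norm_of_hasSum {v : V} {C : ℝ} (h : HasSum (fun i => ‖v i‖ ^ 2) C) : ‖v‖ ^ 2 = C :=
  (V_hasSum v).unique h

lemma add_coord (u v : V) (i : ℕ) : (u + v) i = u i + v i := rfl

lemma smul_coord (c : ℂ) (v : V) (i : ℕ) : (c • v) i = c * v i := rfl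

lemma sum_coord {ι : Type} (s : Finset ι) (f : ι → V) (i : ℕ) :
    (∑ k ∈ s, f k) i = ∑ k ∈ s, (f k) i := by
  rw [← co_apply, map_sum]
  rfl

lemma mu_apply (i l : ℕ) (v : V) : mu i l v = v l • bv i := rfl

lemma mu_coord (i l : ℕ) (v : V) (j : ℕ) : (mu i l v) j = if j = i then v l else 0 := by
  rw [mu_apply, smul_coord, bv_apply]
  split_ifs <;> simp

lemma mu_comp (i l a b : ℕ) : mu i l ∘L mu a b = if l = a then mu i b else 0 := by
  ext1 v
  apply V_ext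
  intro j
  rw [ContinuousLinearMap.comp_apply, mu_coord, mu_coord]
  split_ifs with h1 h2 h3 h4
  · rw [mu_coord, if_pos h1]
  · rfl
  · rw [mu_coord, if_neg h1]
  · rfl

lemma Q_coord (N : ℕ) (v : V) (j : ℕ) : (Q N v) j = if 1 ≤ j ∧ j ≤ N then v j else 0 := by
  unfold Q
  rw [sum_apply, sum_coord]
  simp_rw [mu_coord]
  rw [Finset.sum_ite_eq]
  simp only [Finset.mem_Icc]

lemma tr_coord (r : ℕ) (v : V) (j : ℕ) : (tr r v) j = if j ≤ r then v j else 0 := by
  unfold tr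
  rw [sum_apply, sum_coord]
  simp_rw [mu_coord]
  rw [Finset.sum_ite_eq]
  simp only [Finset.mem_range, Nat.lt_succ_iff]

lemma norm_mu_le (i l : ℕ) : ‖mu i l‖ ≤ 1 := by
  apply ContinuousLinearMap.opNorm_le_bound _ zero_le_one
  intro v
  rw [mu_apply, norm_smul, norm_bv, mul_one, one_mul]
  exact lp.norm_apply_le_norm (p := 2) (by norm_num) v l

lemma norm_Q_le (N : ℕ) : ‖Q N‖ ≤ 1 := by
  apply ContinuousLinearMap.opNorm_le_bound _ zero_le_one
  intro v
  rw [one_mul]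
  apply V_norm_mono
  intro i
  rw [Q_coord]
  split_ifs
  · exact le_refl _
  · rw [norm_zero]
    exact norm_nonneg _

lemma norm_tr_le (r : ℕ) : ‖tr r‖ ≤ 1 := by
  apply ContinuousLinearMap.opNorm_le_bound _ zero_le_one
  intro v
  rw [one_mul]
  apply V_norm_mono
  intro i
  rw [tr_coord]
  split_ifs
  · exact le_refl _
  · rw [norm_zero]
    exact norm_nonneg _

lemma Q_comp_Q (N N' : ℕ) : Q N ∘L Q N' = Q (min N N') := by
  ext1 v
  apply V_ext
  intro j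
  rw [ContinuousLinearMap.comp_apply, Q_coord, Q_coord, Q_coord]
  by_cases h1 : 1 ≤ j <;> by_cases h2 : j ≤ N <;> by_cases h3 : j ≤ N' <;>
    simp [h1, h2, h3]

lemma IsM.def' {N : ℕ} {K : V →L[ℂ] V} : IsM N K ↔ ∀ v, Q N (K (Q N v)) = K v := by
  unfold IsM
  constructor
  · intro h v
    have := congrArg (fun A : V →L[ℂ] V => A v) h
    exact this.symm
  · intro h
    ext1 v
    exact (h v).symm

lemma QQ (N N' : ℕ) (v : V) : Q N (Q N' v) = Q (min N N') v := by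
  have := congrArg (fun A : V →L[ℂ] V => A v) (Q_comp_Q N N')
  exact this

lemma isM_of {N : ℕ} {K : V →L[ℂ] V} (h1 : ∀ v, Q N (K v) = K v) (h2 : ∀ v, K (Q N v) = K v) :
    IsM N K := by
  rw [IsM.def']
  intro v
  rw [h1, h2]

lemma IsM.Q_apply {N : ℕ} {K : V →L[ℂ] V} (h : IsM N K) (v : V) : Q N (K v) = K v := by
  rw [IsM.def'] at h
  rw [← h v, QQ, min_self]

lemma IsM.apply_Q {N : ℕ} {K : V →L[ℂ] V} (h : IsM N K) (v : V) : K (Q N v) = K v := by
  rw [IsM.def'] at h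
  rw [← h (Q N v), QQ, min_self, h v]

lemma isM_Q (N : ℕ) : IsM N (Q N) := by
  apply isM_of
  · intro v
    rw [QQ, min_self]
  · intro v
    rw [QQ, min_self]

lemma isM_mu {i l N : ℕ} (h1 : 1 ≤ i) (h2 : i ≤ N) (h3 : 1 ≤ l) (h4 : l ≤ N) : IsM N (mu i l) := by
  apply isM_of
  · intro v
    apply V_ext
    intro j
    rw [Q_coord, mu_coord]
    by_cases h : j = i
    · subst h
      simp [h1, h2]
    · simp [h]
  · intro v
    apply V_ext
    intro j
    rw [mu_coord, mu_coord, Q_coord]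
    by_cases h : j = i
    · simp [h, h3, h4]
    · simp [h]

lemma isM_zero (N : ℕ) : IsM N 0 := by
  apply isM_of <;> intro v <;> simp

lemma IsM.mono {N N' : ℕ} {K : V →L[ℂ] V} (h : IsM N K) (hN : N ≤ N') : IsM N' K := by
  apply isM_of
  · intro v
    rw [← h.Q_apply v, QQ, min_eq_right hN]
  · intro v
    rw [← h.apply_Q, QQ, min_eq_left hN, h.apply_Q]

lemma IsM.add {N : ℕ} {K L : V →L[ℂ] V} (h : IsM N K) (h' : IsM N L) : IsM N (K + L) := by
  apply isM_of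
  · intro v
    rw [add_apply, map_add, h.Q_apply, h'.Q_apply]
  · intro v
    rw [add_apply, add_apply, h.apply_Q, h'.apply_Q]

lemma IsM.smul {N : ℕ} {K : V →L[ℂ] V} (c : ℂ) (h : IsM N K) : IsM N (c • K) := by
  apply isM_of
  · intro v
    rw [smul_apply, map_smul, h.Q_apply]
  · intro v
    rw [smul_apply, smul_apply, h.apply_Q]

lemma IsM.comp {N : ℕ} {K L : V →L[ℂ] V} (h : IsM N K) (h' : IsM N L) : IsM N (K ∘L L) := by
  apply isM_of
  · intro v
    rw [ContinuousLinearMap.comp_apply, h.Q_apply]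
  · intro v
    rw [ContinuousLinearMap.comp_apply, ContinuousLinearMap.comp_apply, h'.apply_Q]

lemma IsM.Q_comp {N : ℕ} {K : V →L[ℂ] V} (h : IsM N K) : Q N ∘L K = K := by
  ext1 v
  exact h.Q_apply v

lemma IsM.comp_Q {N : ℕ} {K : V →L[ℂ] V} (h : IsM N K) : K ∘L Q N = K := by
  ext1 v
  exact h.apply_Q v

lemma IsM.coord {N : ℕ} {K : V →L[ℂ] V} (h : IsM N K) (v : V) (j : ℕ) (hj : j = 0 ∨ N < j) :
    (K v) j = 0 := by
  rw [← h.Q_apply v, Q_coord, if_neg]
  omega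

lemma Q_bv_zero {N j : ℕ} (hj : j = 0 ∨ N < j) : Q N (bv j) = 0 := by
  apply V_ext
  intro i
  rw [Q_coord, bv_apply]
  have h0 : (0 : V) i = 0 := rfl
  rw [h0]
  split_ifs with h1 h2
  · omega
  · rfl
  · rfl

lemma IsM.bv_zero {N : ℕ} {K : V →L[ℂ] V} (h : IsM N K) (j : ℕ) (hj : j = 0 ∨ N < j) :
    K (bv j) = 0 := by
  rw [← h.apply_Q, Q_bv_zero hj, map_zero]

lemma Q_eq_sum (p : ℕ) (v : V) : Q p v = ∑ c ∈ Finset.Icc 1 p, v c • bv c := by
  unfold Q
  rw [sum_apply]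
  rfl

/-- expansion of an operator on `span (e_1, ..., e_N)` -/
lemma IsM.mu_comp {N : ℕ} {K : V →L[ℂ] V} (h : IsM N K) {p : ℕ} (hp : N ≤ p) (i l : ℕ) :
    mu i l ∘L K = ∑ c ∈ Finset.Icc 1 p, (K (bv c)) l • mu i c := by
  have h' := h.mono hp
  ext1 v
  rw [ContinuousLinearMap.comp_apply, sum_apply, mu_apply, ← h'.apply_Q,
    Q_eq_sum, map_sum, sum_coord, Finset.sum_smul]
  apply Finset.sum_congr rfl
  intro c _
  rw [map_smul, smul_coord, smul_apply, mu_apply, smul_smul, mul_comm]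

lemma V_sum_norm (p : ℕ) (c : ℕ → ℂ) :
    ‖∑ l ∈ Finset.Icc 1 p, c l • bv l‖ ^ 2 = ∑ l ∈ Finset.Icc 1 p, ‖c l‖ ^ 2 := by
  apply V_norm_of_hasSum
  have h0 : ∀ i, (∑ l ∈ Finset.Icc 1 p, c l • bv l) i = if i ∈ Finset.Icc 1 p then c i else 0 := by
    intro i
    rw [sum_coord]
    simp_rw [smul_coord, bv_apply]
    rw [← Finset.sum_ite_eq (Finset.Icc 1 p) i c]
    apply Finset.sum_congr rfl
    intro l _
    split_ifs <;> simp
  have h1 : (fun i => ‖(∑ l ∈ Finset.Icc 1 p, c l • bv l) i‖ ^ 2) =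
      fun i => if i ∈ Finset.Icc 1 p then ‖c i‖ ^ 2 else 0 := by
    funext i
    rw [h0]
    split_ifs <;> simp
  rw [h1]
  have h2 : HasSum (fun i => if i ∈ Finset.Icc 1 p then ‖c i‖ ^ 2 else 0)
      (∑ i ∈ Finset.Icc 1 p, if i ∈ Finset.Icc 1 p then ‖c i‖ ^ 2 else 0) :=
    hasSum_sum_of_ne_finset_zero (by
      intro i hi
      rw [if_neg hi])
  have h3 : (∑ i ∈ Finset.Icc 1 p, if i ∈ Finset.Icc 1 p then ‖c i‖ ^ 2 else 0) =
      ∑ l ∈ Finset.Icc 1 p, ‖c l‖ ^ 2 := by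
    apply Finset.sum_congr rfl
    intro i hi
    rw [if_pos hi]
  rw [h3] at h2
  exact h2

/-- duality for rows: used for rigid functionals -/
lemma row_dual (p i : ℕ) (h1 : 1 ≤ i) (h2 : i ≤ p) (c : ℕ → ℂ) :
    ∃ a : ℕ → ℂ, ‖∑ l ∈ Finset.Icc 1 p, a l • mu i l‖ ≤ 1 ∧
      IsM p (∑ l ∈ Finset.Icc 1 p, a l • mu i l) ∧
      ((‖∑ l ∈ Finset.Icc 1 p, c l • bv l‖ : ℝ) : ℂ) = ∑ l ∈ Finset.Icc 1 p, a l * c l := by
  set R := ‖∑ l ∈ Finset.Icc 1 p, c l • bv l‖ with hR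
  have hR2 : R ^ 2 = ∑ l ∈ Finset.Icc 1 p, ‖c l‖ ^ 2 := V_sum_norm p c
  have hR0 : 0 ≤ R := norm_nonneg _
  have hM : ∀ a : ℕ → ℂ, IsM p (∑ l ∈ Finset.Icc 1 p, a l • mu i l) := by
    intro a
    have : ∀ s : Finset ℕ, s ⊆ Finset.Icc 1 p → IsM p (∑ l ∈ s, a l • mu i l) := by
      intro s
      induction s using Finset.induction_on with
      | empty =>
        intro _
        rw [Finset.sum_empty]
        exact isM_zero p
      | insert x s hx ih =>
        intro hs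
        rw [Finset.sum_insert hx]
        have hx' := hs (Finset.mem_insert_self x s)
        rw [Finset.mem_Icc] at hx'
        exact ((isM_mu h1 h2 hx'.1 hx'.2).smul (a x)).add
          (ih (fun y hy => hs (Finset.mem_insert_of_mem hy)))
    exact this _ (Finset.Subset.refl _)
  rcases hR0.eq_or_lt with h0 | h0
  · refine ⟨fun _ => 0, ?_, hM _, ?_⟩
    · simp
    · rw [← h0]
      simp
  · refine ⟨fun l => (starRingEnd ℂ) (c l) / R, ?_, hM _, ?_⟩
    · apply ContinuousLinearMap.opNorm_le_bound _ zero_le_one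
      intro v
      rw [one_mul, sum_apply]
      have e1 : ∑ l ∈ Finset.Icc 1 p, (((starRingEnd ℂ) (c l) / (R : ℂ)) • mu i l) v =
          (∑ l ∈ Finset.Icc 1 p, ((starRingEnd ℂ) (c l) / (R : ℂ)) * v l) • bv i := by
        rw [Finset.sum_smul]
        apply Finset.sum_congr rfl
        intro l _
        rw [smul_apply, mu_apply, smul_smul]
      rw [e1, norm_smul, norm_bv, mul_one]
      have e2 : ‖∑ l ∈ Finset.Icc 1 p, ((starRingEnd ℂ) (c l) / (R : ℂ)) * v l‖ ≤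
          ∑ l ∈ Finset.Icc 1 p, (‖c l‖ / R) * ‖v l‖ := by
        refine (norm_sum_le _ _).trans (le_of_eq ?_)
        apply Finset.sum_congr rfl
        intro l _
        rw [norm_mul, norm_div, RCLike.norm_conj, Complex.norm_real, Real.norm_of_nonneg hR0]
      refine e2.trans ?_
      have e3 := Finset.sum_mul_sq_le_sq_mul_sq (Finset.Icc 1 p) (fun l => ‖c l‖ / R)
        (fun l => ‖v l‖)
      have e4 : ∑ l ∈ Finset.Icc 1 p, (‖c l‖ / R) ^ 2 = 1 := by
        simp_rw [div_pow]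
        rw [← Finset.sum_div, ← hR2]
        field_simp
      rw [e4, one_mul] at e3
      have e5 := V_sum_le v (Finset.Icc 1 p)
      exact le_of_sq_le_sq (e3.trans e5) (norm_nonneg _)
    · have e1 : ∑ l ∈ Finset.Icc 1 p, (starRingEnd ℂ) (c l) / (R : ℂ) * c l =
          (∑ l ∈ Finset.Icc 1 p, ((‖c l‖ ^ 2 : ℝ) : ℂ)) / R := by
        rw [Finset.sum_div]
        apply Finset.sum_congr rfl
        intro l _
        have : (starRingEnd ℂ) (c l) * c l = ((‖c l‖ ^ 2 : ℝ) : ℂ) := by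
          rw [mul_comm, Complex.mul_conj, Complex.normSq_eq_norm_sq]
        rw [← this]
        ring
      rw [e1, ← Complex.ofReal_sum, ← hR2]
      have : (R : ℂ) ≠ 0 := by
        exact_mod_cast h0.ne'
      push_cast
      field_simp

end Pool.Agent.Helper64.Cal
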